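import Pool.Agent.P.MP_36f9aa_co.Meet

set_option autoImplicit false

namespace Pool.Agent.P.MP_36f9aa_co

open Real Relation

lemma normSq_JJ (τ z w : ℂ) : Complex.normSq (JJ τ z - JJ τ w) = Complex.normSq (z - w) := by
  simp only [Complex.normSq_apply, Complex.sub_re, Complex.sub_im, JJ_re, JJ_im]; ring

lemma JJ_inj {τ z w : ℂ} (h : JJ τ z = JJ τ w) : z = w := by
  rw [← JJ_JJ' τ z, h, JJ_JJ']

namespace Model

variable {M : Model} {ψ : ℤ → ℝ} {Bh : ℤ → ℂ} {τ : ℂ} {f g k0 kq kp j : ℤ} {p q : ℝ}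
  {PB PA : ℝ → Prop}

/-- Connection in the graph of cut edges. -/
def CC (M : Model) (s : ℤ) (unc attA attB : Finset ℤ) : ℂ × ℝ → ℂ × ℝ → Prop :=
  ReflTransGen fun X Y => M.Cut s unc attA attB X Y ∨ M.Cut s unc attA attB Y X

/-- Identification through uncut edges. -/
def GG (M : Model) (unc attA attB : Finset ℤ) : Lab × (ℂ × ℝ) → Lab × (ℂ × ℝ) → Prop :=
  ReflTransGen fun U V => M.Gl unc attA attB U V ∨ M.Gl unc attA attB V U

section
variable {s : ℤ} {unc attA attB : Finset ℤ}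

lemma CC.symm {X Y : ℂ × ℝ} (h : M.CC s unc attA attB X Y) : M.CC s unc attA attB Y X := by
  induction h with
  | refl => exact ReflTransGen.refl
  | tail _ h ih => exact ReflTransGen.head h.symm ih

lemma GG.symm {X Y : Lab × (ℂ × ℝ)} (h : M.GG unc attA attB X Y) : M.GG unc attA attB Y X := by
  induction h with
  | refl => exact ReflTransGen.refl
  | tail _ h ih => exact ReflTransGen.head h.symm ih

lemma CC.trans {X Y Z : ℂ × ℝ} (h : M.CC s unc attA attB X Y) (h' : M.CC s unc attA attB Y Z) :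
    M.CC s unc attA attB X Z := ReflTransGen.trans h h'

lemma GG.trans {X Y Z : Lab × (ℂ × ℝ)} (h : M.GG unc attA attB X Y)
    (h' : M.GG unc attA attB Y Z) : M.GG unc attA attB X Z := ReflTransGen.trans h h'

lemma cc_a {i i' : ℤ} (h1 : s - 1 ≤ i) (h : i ≤ i') : i' < s + M.n →
    (∀ k, i < k → k ≤ i' → k ∉ attA) → M.CC s unc attA attB (M.a i, 1) (M.a i', 1) := by
  induction i', h using Int.leInduction with
  | base => exact fun _ _ => ReflTransGen.refl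
  | succ m hm ih =>
    intro a b
    refine (ih (by omega) fun k u v => b k u (by omega)).trans ?_
    rcases (M.α_nn (m + 1)).eq_or_lt with e | e
    · rw [M.ha (m + 1), ← e]; simpa [CC] using ReflTransGen.refl
    · exact ReflTransGen.single (Or.inl ⟨m + 1, by omega, a,
        Or.inl ⟨e, b _ (by omega) le_rfl, by simp, rfl⟩⟩)

lemma cc_b {i i' : ℤ} (h1 : s - 1 ≤ i) (h : i ≤ i') : i' < s + M.n →
    (∀ k, i < k → k ≤ i' → k ∉ attB) → M.CC s unc attA attB (M.b i, 0) (M.b i', 0) := by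
  induction i', h using Int.leInduction with
  | base => exact fun _ _ => ReflTransGen.refl
  | succ m hm ih =>
    intro a b
    refine (ih (by omega) fun k u v => b k u (by omega)).trans ?_
    rcases (M.β_nn (m + 1)).eq_or_lt with e | e
    · rw [M.hb (m + 1), ← e]; simpa [CC] using ReflTransGen.refl
    · exact ReflTransGen.single (Or.inl ⟨m + 1, by omega, a,
        Or.inr (Or.inl ⟨e, b _ (by omega) le_rfl, by simp, rfl⟩)⟩)

lemma cc_r {k : ℤ} (h1 : s ≤ k) (h2 : k < s + M.n) (h : k ∉ unc) :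
    M.CC s unc attA attB (M.a k, 1) (M.b k, 0) :=
  ReflTransGen.single (Or.inl ⟨k, h1, h2, Or.inr (Or.inr ⟨h, rfl, rfl⟩)⟩)

lemma gg_link {k k' : ℤ} {X : ℂ × ℝ} (h : M.Link unc k k' X) :
    M.GG unc attA attB (.side k, X) (.side k', X) := by
  wlog hk : k ≤ k' generalizing k k'
  · exact (this (fun i a b => h i (by omega) (by omega)) (by omega)).symm
  induction k', hk using Int.leInduction with
  | base => exact ReflTransGen.refl
  | succ m hm ih =>
    have := h m (by omega) (by omega)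
    exact (ih fun i a b => h i (by omega) (by omega)).trans
      (ReflTransGen.single (Or.inl ⟨rfl, m, Or.inl ⟨this.1, rfl, rfl, this.2⟩⟩))

lemma gg_A {k : ℤ} {X : ℂ × ℝ} (h : k ∈ attA) (hX : X ∈ M.eA k) :
    M.GG unc attA attB (.side k, X) (.top, X) :=
  ReflTransGen.single (Or.inl ⟨rfl, k, Or.inr (Or.inl ⟨h, rfl, rfl, hX⟩)⟩)

lemma gg_B {k : ℤ} {X : ℂ × ℝ} (h : k ∈ attB) (hX : X ∈ M.eB k) :
    M.GG unc attA attB (.side k, X) (.bot, X) :=
  ReflTransGen.single (Or.inl ⟨rfl, k, Or.inr (Or.inr ⟨h, rfl, rfl, hX⟩)⟩)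

lemma GG.val {F : Lab → ℂ × ℝ → ℂ}
    (cunc : ∀ k ∈ unc, ∀ X ∈ M.rul k, F (.side k) X = F (.side (k + 1)) X)
    (cA : ∀ k ∈ attA, ∀ X ∈ M.eA k, F (.side k) X = F .top X)
    (cB : ∀ k ∈ attB, ∀ X ∈ M.eB k, F (.side k) X = F .bot X) {U V : Lab × (ℂ × ℝ)}
    (h : M.GG unc attA attB U V) : F U.1 U.2 = F V.1 V.2 := by
  have st : ∀ U V, M.Gl unc attA attB U V → F U.1 U.2 = F V.1 V.2 := by
    rintro U V ⟨e, k, ⟨a, b, c, d⟩ | ⟨a, b, c, d⟩ | ⟨a, b, c, d⟩⟩ <;> rw [b, c, ← e]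
    · exact cunc k a _ d
    · exact cA k a _ d
    · exact cB k a _ d
  induction h with
  | refl => rfl
  | tail _ h ih => exact ih.trans (h.elim (st _ _) fun h => (st _ _ h).symm)

end

/-- The placement of all faces. -/
noncomputable def place (ψ : ℤ → ℝ) (Bh : ℤ → ℂ) (τ : ℂ) (kp j : ℤ) (FB FA : ℤ → ℂ × ℝ → ℂ) :
    Lab → ℂ × ℝ → ℂ
  | .top, X => JJ τ X.1
  | .bot, X => X.1
  | .side k, X => if k ≤ kp then M.pl ψ Bh k X else if k ≤ j then FB k X else JJ τ (FA k (sw X))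

theorem assemble (K : M.Core ψ Bh τ f g k0 kq kp p q) (hf : 0 < M.β f) (hg : 0 < M.α g)
    (j1 : kp ≤ j) (j2 : j ≤ kq + M.n - 1) (TB : M.Petal (kp + 1) j PB)
    (TA : M.swap.Petal (j + 1) (kq + M.n - 1) PA)
    (sB : ∀ z, ((∃ θ l c, M.SP ψ Bh kq kp p q θ l c z) ∨ ∃ x ∈ M.A0, z = JJ τ x) →
      ∀ γ, PB γ → ¬Phi M.A0 M.B0 M.h γ z)
    (sA : ∀ z, ((∃ θ l c, M.SP ψ Bh kq kp p q θ l c z) ∨ z ∈ M.B0) →
      ∀ γ, PA γ → ¬Phi M.B0 M.A0 M.h γ (JJ ((starRingEnd ℂ) τ) z))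
    (sP : ∀ z γ γ', PB γ → PA γ' → Phi M.A0 M.B0 M.h γ z →
      ¬Phi M.B0 M.A0 M.h γ' (JJ ((starRingEnd ℂ) τ) z)) : Nonempty M.NetData := by
  classical
  have f2 := K.f2
  have f3 := K.f3
  have g2 := K.g2
  have g3 := K.g3
  obtain ⟨unc, hunc⟩ : ∃ U : Finset ℤ, U = Finset.Ico kq kp ∪ TB.unc ∪ TA.unc := ⟨_, rfl⟩
  obtain ⟨attA, hA⟩ : ∃ U : Finset ℤ, U = insert g TA.att := ⟨_, rfl⟩
  obtain ⟨attB, hB⟩ : ∃ U : Finset ℤ, U = insert f TB.att := ⟨_, rfl⟩
  obtain ⟨F, hF⟩ : ∃ F, F = M.place ψ Bh τ kp j TB.F TA.F := ⟨_, rfl⟩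
  have mu : ∀ k, k ∈ unc ↔ ((kq ≤ k ∧ k < kp) ∨ k ∈ TB.unc) ∨ k ∈ TA.unc := fun k => by
    simp only [hunc, Finset.mem_union, Finset.mem_Ico]
  have mA : ∀ k, k ∈ attA ↔ k = g ∨ k ∈ TA.att := fun k => by simp only [hA, Finset.mem_insert]
  have mB : ∀ k, k ∈ attB ↔ k = f ∨ k ∈ TB.att := fun k => by simp only [hB, Finset.mem_insert]
  have Ft : ∀ X, F .top X = JJ τ X.1 := fun X => by rw [hF]; rfl
  have Fb : ∀ X, F .bot X = X.1 := fun X => by rw [hF]; rfl
  have Fw : ∀ k X, k ≤ kp → F (.side k) X = M.pl ψ Bh k X := fun k X a => by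
    rw [hF, place, if_pos a]
  have Fp : ∀ k X, kp < k → k ≤ j → F (.side k) X = TB.F k X := fun k X a b => by
    rw [hF, place, if_neg (not_le.2 a), if_pos b]
  have Fq : ∀ k X, j < k → F (.side k) X = JJ τ (TA.F k (sw X)) := fun k X a => by
    rw [hF, place, if_neg (by omega), if_neg (not_le.2 a)]
  have cunc : ∀ k ∈ unc, ∀ X ∈ M.rul k, F (.side k) X = F (.side (k + 1)) X := by
    intro k hk X hX
    rcases (mu k).1 hk with (h | h) | h
    · rw [Fw _ _ (by omega), Fw _ _ (by omega), K.D.pl_rul hX, IsDev.pl_rul' _ _ hX]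
    · have := TB.unc_mem k h
      rw [Fp _ _ (by omega) (by omega), Fp _ _ (by omega) (by omega), TB.cunc k h X hX]
    · have := TA.unc_mem k h
      rw [Fq _ _ (by omega), Fq _ _ (by omega), TA.cunc k h _ (sw_rul.2 hX)]
  have cA : ∀ k ∈ attA, ∀ X ∈ M.eA k, F (.side k) X = F .top X := by
    intro k hk X hX
    rcases (mA k).1 hk with rfl | h
    · rw [Fw _ _ g3, Ft, K.pl_eA hX]
    · have := TA.att_mem k h
      rw [Fq _ _ (by omega), Ft, TA.cB k h _ (sw_eB.2 hX)]; rfl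
  have cB : ∀ k ∈ attB, ∀ X ∈ M.eB k, F (.side k) X = F .bot X := by
    intro k hk X hX
    rcases (mB k).1 hk with rfl | h
    · rw [Fw _ _ f3, Fb, K.pl_eB hX]
    · have := TB.att_mem k h
      rw [Fp _ _ (by omega) (by omega), Fb, TB.cB k h _ hX]
  have lW : ∀ k k' X, kq ≤ k → k ≤ kp → kq ≤ k' → k' ≤ kp → M.Chain k k' X →
      M.GG unc attA attB (.side k, X) (.side k', X) := fun k k' X a b c d h =>
    gg_link fun i u v => ⟨(mu i).2 (Or.inl (Or.inl (by omega))), h i u v⟩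
  have lP : ∀ k k' X, M.Link TB.unc k k' X → M.GG unc attA attB (.side k, X) (.side k', X) :=
    fun k k' X h => gg_link fun i u v => ⟨(mu i).2 (Or.inl (Or.inr (h i u v).1)), (h i u v).2⟩
  have lQ : ∀ k k' X, M.swap.Link TA.unc k k' (sw X) →
      M.GG unc attA attB (.side k, X) (.side k', X) :=
    fun k k' X h => gg_link fun i u v => ⟨(mu i).2 (Or.inr (h i u v).1), sw_rul.1 (h i u v).2⟩
  refine ⟨⟨kq, unc, attA, attB, F, ?_, ?_, ?_, ?_, ?_, ?_, cunc, cA, cB, ?_⟩⟩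
  · intro k hk
    rcases (mu k).1 hk with (h | h) | h
    · omega
    · have := TB.unc_mem k h; omega
    · have := TA.unc_mem k h; omega
  · intro k hk
    rcases (mA k).1 hk with rfl | h
    · exact ⟨g2, by omega, hg⟩
    · have := TA.att_mem k h; exact ⟨by omega, by omega, this.2.2⟩
  · intro k hk
    rcases (mB k).1 hk with rfl | h
    · exact ⟨f2, by omega, hf⟩
    · have := TB.att_mem k h; exact ⟨by omega, by omega, this.2.2⟩
  · have c1 := TB.count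
    have c2 := TA.count
    have d1 : Disjoint (Finset.Ico kq kp) TB.unc := Finset.disjoint_left.2 fun k a b => by
      have := TB.unc_mem k b
      simp only [Finset.mem_Ico] at a; omega
    have d2 : Disjoint (Finset.Ico kq kp ∪ TB.unc) TA.unc := Finset.disjoint_left.2 fun k a b => by
      have := TA.unc_mem k b
      simp only [Finset.mem_union, Finset.mem_Ico] at a
      rcases a with a | a
      · omega
      · have := TB.unc_mem k a; omega
    have d3 : g ∉ TA.att := fun h => by have := TA.att_mem g h; omega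
    have d4 : f ∉ TB.att := fun h => by have := TB.att_mem f h; omega
    rw [hunc, hA, hB, Finset.card_union_of_disjoint d2, Finset.card_union_of_disjoint d1,
      Finset.card_insert_of_notMem d3, Finset.card_insert_of_notMem d4, Int.card_Ico]
    omega
  · have nA : ∀ k, k ≠ g → k ≤ j → k ∉ attA := fun k a b h => by
      rcases (mA k).1 h with h | h
      · exact a h
      · have := TA.att_mem k h; omega
    have nB : ∀ k, k ≠ f → k ≤ kp ∨ j < k → k ∉ attB := fun k a b h => by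
      rcases (mB k).1 h with h | h
      · exact a h
      · have := TB.att_mem k h; omega
    have nU : ∀ k, kp ≤ k → k ∉ TB.unc → k ∉ TA.unc → k ∉ unc := fun k a b c h => by
      rcases (mu k).1 h with (h | h) | h
      · omega
      · exact b h
      · exact c h
    have nTB : ∀ k, k ≤ kp ∨ j ≤ k → k ∉ TB.unc := fun k a h => by
      have := TB.unc_mem k h; omega
    have nTA : ∀ k, k ≤ j ∨ kq + M.n - 1 ≤ k → k ∉ TA.unc := fun k a h => by
      have := TA.unc_mem k h; omega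
    have pa : M.a (kq + M.n - 1) = M.a (kq - 1) := by rw [← M.pera (kq - 1)]; congr 1; ring
    have pb : M.b (kq + M.n - 1) = M.b (kq - 1) := by rw [← M.perb (kq - 1)]; congr 1; ring
    have b1 : ∀ i, j ≤ i → i < kq + M.n → M.CC kq unc attA attB (M.b j, 0) (M.b i, 0) :=
      fun i a b => cc_b (by omega) a b fun k u v => nB k (by omega) (by omega)
    have b0 : M.CC kq unc attA attB (M.b j, 0) (M.b (kq - 1), 0) := pb ▸ b1 _ j2 (by omega)
    have a0 : M.CC kq unc attA attB (M.b j, 0) (M.a (kq - 1), 1) := pa ▸ (b1 _ j2 (by omega)).trans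
      (cc_r (by omega) (by omega) (nU _ (by omega) (nTB _ (by omega)) (nTA _ (by omega)))).symm
    have a1 : ∀ i, kq - 1 ≤ i → i ≤ j → M.CC kq unc attA attB (M.b j, 0) (M.a i, 1) := by
      intro i a b
      rcases lt_or_ge i g with h | h
      · exact a0.trans (cc_a le_rfl a (by omega) fun k u v => nA k (by omega) (by omega))
      · exact ((cc_a a b (by omega) fun k u v => nA k (by omega) (by omega)).trans
          (cc_r (by omega) (by omega) (nU _ j1 (nTB _ (by omega)) (nTA _ (by omega))))).symm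
    have b2 : ∀ i, kp ≤ i → i ≤ j → M.CC kq unc attA attB (M.b j, 0) (M.b i, 0) := by
      intro i a b
      obtain ⟨i', u, v, w, e⟩ := TB.conn i (by omega) b
      rw [← e]
      exact (a1 i' (by omega) v).trans
        (cc_r (by omega) (by omega) (nU _ (by omega) w (nTA _ (by omega))))
    have a2 : ∀ i, kq - 1 ≤ i → i < kq + M.n → M.CC kq unc attA attB (M.b j, 0) (M.a i, 1) := by
      intro i a b
      rcases le_total i j with h | h
      · exact a1 i a h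
      obtain ⟨i', u, v, w, e⟩ := TA.conn i (by omega) (by omega)
      change M.a i' = M.a i at e
      rw [← e]
      exact (b1 i' (by omega) (by omega)).trans
        (cc_r (by omega) (by omega) (nU _ (by omega) (nTB _ (by omega)) w)).symm
    have b3 : ∀ i, kq - 1 ≤ i → i < kq + M.n → M.CC kq unc attA attB (M.b j, 0) (M.b i, 0) := by
      intro i a b
      rcases le_total j i with h | h
      · exact b1 i h b
      rcases le_total kp i with h' | h'
      · exact b2 i h' h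
      rcases lt_or_ge i f with h'' | h''
      · exact b0.trans (cc_b le_rfl a (by omega) fun k u v => nB k (by omega) (by omega))
      · exact (b2 kp le_rfl j1).trans
          (cc_b a h' (by omega) fun k u v => nB k (by omega) (by omega)).symm
    intro k
    obtain ⟨i, ⟨i1, i2⟩, e⟩ := Function.Periodic.exists_mem_Ico (f := fun k => (M.a k, M.b k))
      (c := (M.n : ℤ)) (fun k => by simp only [M.pera, M.perb]) (by exact_mod_cast M.hn) k kq
    simp only [Prod.mk.injEq] at e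
    rw [e.1, e.2]
    exact ⟨(a1 kq (by omega) (by omega)).symm.trans (a2 i (by omega) i2),
      (a1 kq (by omega) (by omega)).symm.trans (b3 i (by omega) i2)⟩
  · intro L hL X hX Y hY
    cases L with
    | top => rw [Ft, Ft, normSq_JJ, hX.1, hY.1]; simp
    | bot => rw [Fb, Fb, hX.1, hY.1]; simp
    | side k =>
      rcases le_or_gt k kp with h | h
      · rw [Fw _ _ h, Fw _ _ h, K.D.iso hX hY]
      rcases le_or_gt k j with h' | h'
      · rw [Fp _ _ h h', Fp _ _ h h', TB.iso k X hX Y hY]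
      · rw [Fq _ _ h', Fq _ _ h', normSq_JJ, TA.iso k _ (sw_face hX) _ (sw_face hY)]
        simp only [sw, Model.swap]; ring
  let Cl : Lab → ℂ × ℝ → Prop := fun L X => L = .bot ∨ L = .top ∨ ∃ k, L = .side k ∧
    ((kq ≤ k ∧ k ≤ kp) ∨ (kp < k ∧ k ≤ j ∧ 0 < X.2) ∨ (j < k ∧ k < kq + M.n ∧ 0 < (sw X).2))
  have nrm : ∀ L, M.Valid kq L → ∀ X ∈ M.face L,
      ∃ L0, X ∈ M.face L0 ∧ Cl L0 X ∧ M.GG unc attA attB (L, X) (L0, X) := by
    intro L hL X hX
    cases L with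
    | top => exact ⟨_, hX, Or.inr (Or.inl rfl), ReflTransGen.refl⟩
    | bot => exact ⟨_, hX, Or.inl rfl, ReflTransGen.refl⟩
    | side k =>
      rcases le_or_gt k kp with h | h
      · exact ⟨_, hX, Or.inr (Or.inr ⟨k, rfl, Or.inl ⟨hL.1, h⟩⟩), ReflTransGen.refl⟩
      rcases le_or_gt k j with h' | h'
      · rcases hX.1.eq_or_lt with e | e
        · obtain ⟨r, r1, r2, r3⟩ := TB.zero k (by omega) h' X hX e.symm
          exact ⟨.bot, (M.eB_sub r).2 r2, Or.inl rfl,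
            (lP _ _ _ r3).trans (gg_B ((mB r).2 (Or.inr r1)) r2)⟩
        · exact ⟨_, hX, Or.inr (Or.inr ⟨k, rfl, Or.inr (Or.inl ⟨h, h', e⟩)⟩), ReflTransGen.refl⟩
      · rcases (sw_face hX).1.eq_or_lt with e | e
        · obtain ⟨r, r1, r2, r3⟩ := TA.zero k (by omega) (by have := hL.2; omega) _ (sw_face hX)
            e.symm
          exact ⟨.top, (M.eA_sub r).2 (sw_eB.1 r2), Or.inr (Or.inl rfl),
            (lQ _ _ _ r3).trans (gg_A ((mA r).2 (Or.inr r1)) (sw_eB.1 r2))⟩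
        · exact ⟨_, hX, Or.inr (Or.inr ⟨k, rfl, Or.inr (Or.inr ⟨h', hL.2, e⟩)⟩), ReflTransGen.refl⟩
  have phP : ∀ k X, kp < k ∧ k ≤ j ∧ 0 < X.2 → X ∈ M.face (.side k) →
      ∃ γ, PB γ ∧ Phi M.A0 M.B0 M.h γ (F (.side k) X) := fun k X h hX => by
    rw [Fp _ _ h.1 h.2.1]; exact TB.pos k (by omega) h.2.1 X hX h.2.2
  have phQ : ∀ k X, j < k ∧ k < kq + M.n ∧ 0 < (sw X).2 → X ∈ M.face (.side k) →
      ∃ γ, PA γ ∧ Phi M.B0 M.A0 M.h γ (JJ ((starRingEnd ℂ) τ) (F (.side k) X)) := fun k X h hX => by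
    rw [Fq _ _ h.1, JJ_JJ']; exact TA.pos k (by omega) (by omega) _ (sw_face hX) h.2.2
  have spW : ∀ k X, kq ≤ k ∧ k ≤ kp → X ∈ M.face (.side k) →
      ∃ θ l c, M.SP ψ Bh kq kp p q θ l c (F (.side k) X) := fun k X h hX => by
    rw [Fw _ _ h.2]; exact ⟨_, _, _, K.face_SP h.1 h.2 hX⟩
  have bt : ∀ X ∈ M.face .bot, ∀ Y ∈ M.face .top, F .bot X ≠ F .top Y := fun X hX Y hY e => by
    rw [Fb, Ft] at e; exact K.wing.sepAB hY.2 hX.2 e.symm
  have wb : ∀ k X, kq ≤ k ∧ k ≤ kp → X ∈ M.face (.side k) → ∀ Y ∈ M.face .bot,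
      F (.side k) X = F .bot Y → M.GG unc attA attB (.side k, X) (.bot, Y) := by
    intro k X h hX Y hY e
    rw [Fw _ _ h.2, Fb] at e
    obtain ⟨a, b⟩ := K.meetB h.1 h.2 hX (e ▸ hY.2)
    have : X = Y := Prod.ext (by rw [← e, K.D.pl_chain b, K.pl_eB a]) (a.1.trans hY.1.symm)
    exact this ▸ (lW _ _ _ h.1 h.2 f2 f3 b).trans (gg_B ((mB f).2 (Or.inl rfl)) a)
  have wt : ∀ k X, kq ≤ k ∧ k ≤ kp → X ∈ M.face (.side k) → ∀ Y ∈ M.face .top,
      F (.side k) X = F .top Y → M.GG unc attA attB (.side k, X) (.top, Y) := by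
    intro k X h hX Y hY e
    rw [Fw _ _ h.2, Ft] at e
    obtain ⟨a, b⟩ := K.meetA h.1 h.2 hX hY.2 e
    have : X = Y := Prod.ext (JJ_inj (τ := τ) (by rw [← e, K.D.pl_chain b, K.pl_eA a]))
      (a.1.trans hY.1.symm)
    exact this ▸ (lW _ _ _ h.1 h.2 g2 g3 b).trans (gg_A ((mA g).2 (Or.inl rfl)) a)
  have pb : ∀ k X, kp < k ∧ k ≤ j ∧ 0 < X.2 → X ∈ M.face (.side k) → ∀ Y ∈ M.face .bot,
      F (.side k) X ≠ F .bot Y := fun k X h hX Y hY e => by
    obtain ⟨γ, -, a⟩ := phP k X h hX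
    have := phi_pos a _ hY.2
    rw [e, Fb] at this; simp at this
  have pt : ∀ k X, kp < k ∧ k ≤ j ∧ 0 < X.2 → X ∈ M.face (.side k) → ∀ Y ∈ M.face .top,
      F (.side k) X ≠ F .top Y := fun k X h hX Y hY e => by
    obtain ⟨γ, a, b⟩ := phP k X h hX
    exact sB _ (Or.inr ⟨_, hY.2, e.trans (Ft Y)⟩) γ a b
  have pw : ∀ k X, kp < k ∧ k ≤ j ∧ 0 < X.2 → X ∈ M.face (.side k) → ∀ k', kq ≤ k' ∧ k' ≤ kp →
      ∀ Y ∈ M.face (.side k'), F (.side k) X ≠ F (.side k') Y := fun k X h hX k' h' Y hY e => by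
    obtain ⟨γ, a, b⟩ := phP k X h hX
    exact sB _ (Or.inl (e ▸ spW k' Y h' hY)) γ a b
  have qb : ∀ k X, j < k ∧ k < kq + M.n ∧ 0 < (sw X).2 → X ∈ M.face (.side k) →
      ∀ Y ∈ M.face .bot, F (.side k) X ≠ F .bot Y := fun k X h hX Y hY e => by
    obtain ⟨γ, a, b⟩ := phQ k X h hX
    exact sA _ (Or.inr (by rw [e, Fb]; exact hY.2)) γ a b
  have qt : ∀ k X, j < k ∧ k < kq + M.n ∧ 0 < (sw X).2 → X ∈ M.face (.side k) →
      ∀ Y ∈ M.face .top, F (.side k) X ≠ F .top Y := fun k X h hX Y hY e => by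
    obtain ⟨γ, -, a⟩ := phQ k X h hX
    have := phi_pos a _ hY.2
    rw [e, Ft, JJ_JJ'] at this; simp at this
  have qw : ∀ k X, j < k ∧ k < kq + M.n ∧ 0 < (sw X).2 → X ∈ M.face (.side k) →
      ∀ k', kq ≤ k' ∧ k' ≤ kp → ∀ Y ∈ M.face (.side k'), F (.side k) X ≠ F (.side k') Y :=
    fun k X h hX k' h' Y hY e => by
      obtain ⟨γ, a, b⟩ := phQ k X h hX
      exact sA _ (Or.inl (e ▸ spW k' Y h' hY)) γ a b
  have pq : ∀ k X, kp < k ∧ k ≤ j ∧ 0 < X.2 → X ∈ M.face (.side k) →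
      ∀ k' Y, j < k' ∧ k' < kq + M.n ∧ 0 < (sw Y).2 → Y ∈ M.face (.side k') →
      F (.side k) X ≠ F (.side k') Y := fun k X h hX k' Y h' hY e => by
    obtain ⟨γ, a, b⟩ := phP k X h hX
    obtain ⟨γ', a', b'⟩ := phQ k' Y h' hY
    exact sP _ γ γ' a a' b (e ▸ b')
  intro L L' hL hL' X hX Y hY e
  obtain ⟨L0, hX0, c, u⟩ := nrm L hL X hX
  obtain ⟨L1, hY0, c', v⟩ := nrm L' hL' Y hY
  have e0 : F L0 X = F L1 Y := (u.val cunc cA cB).symm.trans (e.trans (v.val cunc cA cB))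
  refine u.trans (GG.trans ?_ v.symm)
  rcases c with rfl | rfl | ⟨k, rfl, h | h | h⟩ <;>
    rcases c' with rfl | rfl | ⟨k', rfl, h' | h' | h'⟩
  · rw [Fb, Fb] at e0
    rw [show X = Y from Prod.ext e0 (hX0.1.trans hY0.1.symm)]; exact ReflTransGen.refl
  · exact (bt _ hX0 _ hY0 e0).elim
  · exact (wb _ _ h' hY0 _ hX0 e0.symm).symm
  · exact (pb _ _ h' hY0 _ hX0 e0.symm).elim
  · exact (qb _ _ h' hY0 _ hX0 e0.symm).elim
  · exact (bt _ hY0 _ hX0 e0.symm).elim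
  · rw [Ft, Ft] at e0
    rw [show X = Y from Prod.ext (JJ_inj e0) (hX0.1.trans hY0.1.symm)]; exact ReflTransGen.refl
  · exact (wt _ _ h' hY0 _ hX0 e0.symm).symm
  · exact (pt _ _ h' hY0 _ hX0 e0.symm).elim
  · exact (qt _ _ h' hY0 _ hX0 e0.symm).elim
  · exact wb _ _ h hX0 _ hY0 e0
  · exact wt _ _ h hX0 _ hY0 e0
  · rw [Fw _ _ h.2, Fw _ _ h'.2] at e0
    obtain ⟨rfl, b⟩ := K.inj h.1 h.2 h'.1 h'.2 hX0 hY0 e0
    exact lW _ _ _ h.1 h.2 h'.1 h'.2 b
  · exact (pw _ _ h' hY0 _ h _ hX0 e0.symm).elim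
  · exact (qw _ _ h' hY0 _ h _ hX0 e0.symm).elim
  · exact (pb _ _ h hX0 _ hY0 e0).elim
  · exact (pt _ _ h hX0 _ hY0 e0).elim
  · exact (pw _ _ h hX0 _ h' _ hY0 e0).elim
  · rw [Fp _ _ h.1 h.2.1, Fp _ _ h'.1 h'.2.1] at e0
    obtain ⟨rfl, b⟩ := TB.inj k k' (by omega) h.2.1 (by omega) h'.2.1 X hX0 Y hY0 h.2.2 h'.2.2 e0
    exact lP _ _ _ b
  · exact (pq _ _ h hX0 _ _ h' hY0 e0).elim
  · exact (qb _ _ h hX0 _ hY0 e0).elim
  · exact (qt _ _ h hX0 _ hY0 e0).elim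
  · exact (qw _ _ h hX0 _ h' _ hY0 e0).elim
  · exact (pq _ _ h' hY0 _ _ h hX0 e0.symm).elim
  · rw [Fq _ _ h.1, Fq _ _ h'.1] at e0
    obtain ⟨a, b⟩ := TA.inj k k' (by omega) (by omega) (by omega) (by omega) _ (sw_face hX0) _
      (sw_face hY0) h.2.2 h'.2.2 (JJ_inj e0)
    have : X = Y := by rw [← sw_sw X, a, sw_sw]
    exact this ▸ lQ _ _ _ b

theorem net_of_good (h : M.Good 0) : Nonempty M.NetData := by
  obtain ⟨f, g, k0, kp, kq, p, q, c0, p1, p2, q1, q2, kp1, kp2, kq1, kq2, f2, f3, g2, g3, hp, hq⟩ := h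
  simp only [zero_add, zero_sub, sub_zero] at kp1 kp2 kq1 kq2 hp hq
  obtain ⟨ψ, Bh, τ, K⟩ := exists_core (c0 := c0) p1 p2 q1 q2 kp1 kp2 kq1 kq2 f2 f3 g2 g3
  have e1 : M.φ (kq + M.n - 1) = M.φ (kq - 1) + 2 * π := by rw [← M.per]; congr 1; ring
  have e2 : M.φ (kq + M.n - 1 + 1) = M.φ kq + 2 * π := by rw [← M.per]; congr 1; ring
  have e3 : M.d (kq + M.n - 1) = M.d (kq - 1) := by rw [← M.d_per (kq - 1)]; congr 1; ring
  have e4 : ∀ z, cp (2 * π - q + π / 2) z = cp (-q + π / 2) z := fun z => by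
    rw [← cp_add_two_pi (-q + π / 2)]; congr 1; ring
  have lo : ∀ j, M.LoEnd (kp + 1) j p := fun j =>
    ⟨by simpa using kp1, kp2.le, Or.inr ⟨by simpa using hp, kp2⟩⟩
  rcases hq with hq | ⟨hq, hA, hB, jB, j, jA, a1, a2, a3, a4, a5, a6, a7, a8, a9, a10⟩
  · obtain ⟨i, i1, i2, i3⟩ := M.gapb p
    have i4 : kp < i := M.mono.lt_iff_lt.1 (by linarith)
    have i5 : i < kq + M.n - 1 + 1 := M.mono.lt_iff_lt.1 (by linarith)
    obtain ⟨TB⟩ := exists_petal (M := M) (lo := kp + 1) (hi := kq + M.n - 1) (G' := 2 * π - q)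
      (by omega) ⟨i, by omega, by omega, i1⟩ (lo _)
      ⟨by linarith, by linarith, Or.inr ⟨by rw [e3, e4]; exact hq, by linarith⟩⟩
    refine assemble K c0.hf c0.hg (by omega) le_rfl TB (Petal.empty M.swap _ fun _ => False)
      (fun z hz γ hγ => ?_) (fun _ _ _ h => h.elim) (fun _ _ _ _ h => h.elim)
    exact K.wing.sepBB hp hq hz (hγ.1.elim id fun h => kp2.trans_le h)
      (hγ.2.elim id fun h => h.trans_lt (by change _ < 2 * π - q; linarith))
  · obtain ⟨TB⟩ := exists_petal (M := M) (lo := kp + 1) (hi := j) (G' := M.φ j)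
      (by omega) ⟨jB, by omega, a2, a5⟩ (lo _)
      ⟨le_rfl, (M.mono (by omega)).le, Or.inl ⟨jB, by omega, a2, a5, a7⟩⟩
    obtain ⟨TA⟩ := exists_petal (M := M.swap) (lo := j + 1) (hi := kq + M.n - 1)
      (G := M.φ (j + 1)) (G' := 2 * π - q) (by change _ ≤ j + 1 + (M.n : ℤ); omega)
      ⟨jA, by omega, by omega, a6⟩
      ⟨(M.mono (by omega)).le, le_rfl, Or.inl ⟨jA, by omega, by omega, a6, a8⟩⟩
      ⟨by change M.φ _ ≤ _; linarith, by change _ ≤ M.φ _; linarith, Or.inr ⟨by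
        have : M.swap.d (kq + M.n - 1) = -M.d (kq - 1) := by rw [← e3]; simp [d, Model.swap]
        rw [this, e4, cp_neg]; linarith, by change M.φ _ < _; linarith⟩⟩
    have B1 : ∀ γ, (p < γ ∨ M.φ (kp + 1) ≤ γ) ∧ (γ < M.φ j ∨ γ ≤ M.φ j) →
        p < γ ∧ γ ≤ 3 * π / 2 - q := fun γ h =>
      ⟨h.1.elim id fun h => kp2.trans_le h, by rcases h.2 with h | h <;> linarith⟩
    have A1 : ∀ γ, (M.φ (j + 1) < γ ∨ M.φ (j + 1) ≤ γ) ∧
        (γ < 2 * π - q ∨ γ ≤ M.φ (kq + M.n - 1)) → p + π / 2 ≤ γ ∧ γ < 2 * π - q := fun γ h =>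
      ⟨by rcases h.1 with h | h <;> linarith, by rcases h.2 with h | h <;> linarith⟩
    exact assemble K c0.hf c0.hg (by omega) (by omega) TB TA
      (fun z hz γ hγ => K.wing.sepPP1 hp hq hz (B1 γ hγ).1 (B1 γ hγ).2)
      (fun z hz γ hγ => K.wing.sepPP2 hp hq hz (A1 γ hγ).1 (A1 γ hγ).2)
      (fun z γ γ' h h' a b => K.wing.sepPP3 hp hq hA hB (B1 γ h).1 (B1 γ h).2 (A1 γ' h').1
        (A1 γ' h').2 a b)

end Model

end Pool.Agent.P.MP_36f9aa_co
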