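import Mathlib

set_option autoImplicit false

namespace Pool.Agent.P.MP_36f9aa_co

open Real

/-- Unit vector at angle `θ`. -/
noncomputable def nn (θ : ℝ) : ℂ := ⟨cos θ, sin θ⟩

/-- Component of `z` in direction `θ`. -/
noncomputable def cp (θ : ℝ) (z : ℂ) : ℝ := z.re * cos θ + z.im * sin θ

/-- `x` is a point of `A` extreme in direction `θ`. -/
def Sup (A : Set ℂ) (θ : ℝ) (x : ℂ) : Prop := x ∈ A ∧ ∀ x' ∈ A, cp θ x' ≤ cp θ x

/-- Dual description of the cone spanned by the directions in `[η₁, η₂]`. -/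
def Cone (η₁ η₂ : ℝ) (z : ℂ) : Prop := ∀ η, η₂ - π / 2 ≤ η → η ≤ η₁ + π / 2 → 0 ≤ cp η z

/-- Width of the unfolded strip in direction `θ` for the ruling with projection `d`. -/
noncomputable def wd (h θ : ℝ) (d : ℂ) : ℝ := √(h ^ 2 + (cp θ d) ^ 2)

/-- The unfolded ruling in the frame (normal, tangent). -/
noncomputable def fv (h θ : ℝ) (d : ℂ) : ℂ := ⟨wd h θ d, cp (θ + π / 2) d⟩

/-- The angle of `fv`. -/
noncomputable def chi (h θ : ℝ) (d : ℂ) : ℝ := arctan (cp (θ + π / 2) d / wd h θ d)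

/-- Length of the ruling. -/
noncomputable def ln (h : ℝ) (d : ℂ) : ℝ := √(h ^ 2 + d.re ^ 2 + d.im ^ 2)

/-- Signed position of `z` relative to the fence through `y` (bottom) and `x` (top). -/
noncomputable def gf (h θ : ℝ) (x y z : ℂ) : ℝ :=
  cp (θ + π / 2) (z - y) - cp (θ + π / 2) (x - y) * max 0 (min (cp θ (z - y) / wd h θ (x - y)) 1)

/-- `z` lies on a fence with normal `θ`. -/
def Phi (A B : Set ℂ) (h θ : ℝ) (z : ℂ) : Prop :=
  ∃ x y, Sup A θ x ∧ Sup B θ y ∧ 0 < cp θ (z - y) ∧ gf h θ x y z = 0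

/-- The mirror placing the top polygon. -/
noncomputable def JJ (τ z : ℂ) : ℂ := -(starRingEnd ℂ) z + τ

@[simp] lemma nn_re (θ : ℝ) : (nn θ).re = cos θ := rfl
@[simp] lemma nn_im (θ : ℝ) : (nn θ).im = sin θ := rfl
@[simp] lemma fv_re (h θ : ℝ) (d : ℂ) : (fv h θ d).re = wd h θ d := rfl
@[simp] lemma fv_im (h θ : ℝ) (d : ℂ) : (fv h θ d).im = cp (θ + π / 2) d := rfl
@[simp] lemma JJ_re (τ z : ℂ) : (JJ τ z).re = τ.re - z.re := by simp [JJ]; ring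
@[simp] lemma JJ_im (τ z : ℂ) : (JJ τ z).im = z.im + τ.im := by simp [JJ]

lemma JJ_JJ (τ z : ℂ) : JJ τ (JJ ((starRingEnd ℂ) τ) z) = z := by
  apply Complex.ext <;> simp
lemma JJ_JJ' (τ z : ℂ) : JJ ((starRingEnd ℂ) τ) (JJ τ z) = z := by
  apply Complex.ext <;> simp

lemma cp_add (θ : ℝ) (z w : ℂ) : cp θ (z + w) = cp θ z + cp θ w := by simp [cp]; ring
lemma cp_sub (θ : ℝ) (z w : ℂ) : cp θ (z - w) = cp θ z - cp θ w := by simp [cp]; ring
lemma cp_neg (θ : ℝ) (z : ℂ) : cp θ (-z) = -cp θ z := by simp [cp]; ring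
lemma cp_mul (θ s : ℝ) (z : ℂ) : cp θ ((s : ℂ) * z) = s * cp θ z := by simp [cp]; ring
lemma cp_smul (θ s : ℝ) (z : ℂ) : cp θ (s • z) = s * cp θ z := by simp [cp]; ring
@[simp] lemma cp_zero (θ : ℝ) : cp θ 0 = 0 := by simp [cp]
lemma cp_nn (θ φ : ℝ) : cp θ (nn φ) = cos (φ - θ) := by simp [cp, cos_sub]
lemma cp_ofReal (θ s : ℝ) : cp θ (s : ℂ) = s * cos θ := by simp [cp]
lemma cp_nn_mul (θ κ : ℝ) (z : ℂ) : cp θ (nn κ * z) = cp (θ - κ) z := by
  simp [cp, cos_sub, sin_sub]; ring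
lemma cp_zero_left (z : ℂ) : cp 0 z = z.re := by simp [cp]
lemma cp_pi_div_two (z : ℂ) : cp (π / 2) z = z.im := by simp [cp]
lemma cp_add_pi (θ : ℝ) (z : ℂ) : cp (θ + π) z = -cp θ z := by simp [cp]; ring
lemma cp_sub_pi (θ : ℝ) (z : ℂ) : cp (θ - π) z = -cp θ z := by simp [cp]; ring
lemma cp_add_two_pi (θ : ℝ) (z : ℂ) : cp (θ + 2 * π) z = cp θ z := by simp [cp]
lemma cp_sub_two_pi (θ : ℝ) (z : ℂ) : cp (θ - 2 * π) z = cp θ z := by simp [cp]
lemma cp_tan (θ : ℝ) (z : ℂ) : cp (θ + π / 2) z = -z.re * sin θ + z.im * cos θ := by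
  simp [cp, cos_add, sin_add]
lemma cp_conj (θ : ℝ) (z : ℂ) : cp θ ((starRingEnd ℂ) z) = cp (-θ) z := by simp [cp]
lemma cp_conj_tan (θ : ℝ) (z : ℂ) :
    cp (-θ + π / 2) ((starRingEnd ℂ) z) = -cp (θ + π / 2) z := by
  rw [cp_tan, cp_tan]; simp; ring
lemma cp_JJ (θ : ℝ) (τ z : ℂ) : cp θ (JJ τ z) = cp (π - θ) z + cp θ τ := by simp [cp]; ring

/-- Change of direction. -/
lemma cp_rot (θ δ : ℝ) (z : ℂ) :
    cp (θ + δ) z = cos δ * cp θ z + sin δ * cp (θ + π / 2) z := by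
  rw [cp_tan]; simp [cp, cos_add, sin_add]; ring

lemma nn_add (θ φ : ℝ) : nn (θ + φ) = nn θ * nn φ := by
  apply Complex.ext <;> simp [cos_add, sin_add]; ring
@[simp] lemma nn_zero : nn 0 = 1 := by apply Complex.ext <;> simp
lemma conj_nn (θ : ℝ) : (starRingEnd ℂ) (nn θ) = nn (-θ) := by apply Complex.ext <;> simp
lemma nn_add_two_pi (θ : ℝ) : nn (θ + 2 * π) = nn θ := by apply Complex.ext <;> simp
lemma nn_add_pi (θ : ℝ) : nn (θ + π) = -nn θ := by apply Complex.ext <;> simp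
lemma normSq_nn (θ : ℝ) : Complex.normSq (nn θ) = 1 := by
  simp [Complex.normSq_apply]; nlinarith [sin_sq_add_cos_sq θ]

/-- Decomposition in the frame at angle `θ`. -/
lemma frame (θ : ℝ) (z : ℂ) :
    z = (cp θ z : ℂ) * nn θ + (cp (θ + π / 2) z : ℂ) * nn (θ + π / 2) := by
  rw [cp_tan]
  apply Complex.ext
  · simp only [cp, Complex.add_re, Complex.re_ofReal_mul, nn_re, cos_add_pi_div_two]
    linear_combination (-z.re) * sin_sq_add_cos_sq θ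
  · simp only [cp, Complex.add_im, Complex.im_ofReal_mul, nn_im, sin_add_pi_div_two]
    linear_combination (-z.im) * sin_sq_add_cos_sq θ

lemma eq_of_cp (θ : ℝ) {z w : ℂ} (h1 : cp θ z = cp θ w) (h2 : cp (θ + π / 2) z = cp (θ + π / 2) w) :
    z = w := by rw [frame θ z, frame θ w, h1, h2]

lemma cp_sq (θ : ℝ) (z : ℂ) : cp θ z ^ 2 + cp (θ + π / 2) z ^ 2 = z.re ^ 2 + z.im ^ 2 := by
  rw [cp_tan]; unfold cp; linear_combination (z.re ^ 2 + z.im ^ 2) * sin_sq_add_cos_sq θ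

/-- A direction between two others is a combination of them. -/
lemma cp_between (θ₁ θ θ₂ : ℝ) (z : ℂ) :
    sin (θ₂ - θ₁) * cp θ z = sin (θ₂ - θ) * cp θ₁ z + sin (θ - θ₁) * cp θ₂ z := by
  simp only [cp, sin_sub]; ring

lemma Cone.zero (a b : ℝ) : Cone a b 0 := fun _ _ _ => by simp
lemma Cone.add {a b : ℝ} {z w : ℂ} (hz : Cone a b z) (hw : Cone a b w) : Cone a b (z + w) :=
  fun η h1 h2 => by rw [cp_add]; exact add_nonneg (hz η h1 h2) (hw η h1 h2)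
lemma Cone.mul {a b s : ℝ} {z : ℂ} (hs : 0 ≤ s) (hz : Cone a b z) : Cone a b ((s : ℂ) * z) :=
  fun η h1 h2 => by rw [cp_mul]; exact mul_nonneg hs (hz η h1 h2)
lemma Cone.mono {a b a' b' : ℝ} {z : ℂ} (hz : Cone a b z) (ha : a' ≤ a) (hb : b ≤ b') :
    Cone a' b' z := fun η h1 h2 => hz η (by linarith) (by linarith)
lemma Cone.nn {a b θ : ℝ} (ha : a ≤ θ) (hb : θ ≤ b) : Cone a b (nn θ) := fun η h1 h2 => by
  rw [cp_nn]; exact cos_nonneg_of_neg_pi_div_two_le_of_le (by linarith) (by linarith)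
lemma Cone.conj {a b : ℝ} {z : ℂ} (hz : Cone a b z) : Cone (-b) (-a) ((starRingEnd ℂ) z) :=
  fun η h1 h2 => by rw [cp_conj]; exact hz _ (by linarith) (by linarith)

/-- Chord between two support points. -/
lemma chord {A : Set ℂ} {θ₁ θ₂ η : ℝ} {x₁ x₂ : ℂ} (h₁ : Sup A θ₁ x₁) (h₂ : Sup A θ₂ x₂)
    (h12 : θ₁ < θ₂) (h21 : θ₂ < θ₁ + π) (ha : θ₂ ≤ η) (hb : η ≤ θ₁ + π) :
    cp η x₁ ≤ cp η x₂ := by
  have e := cp_between θ₂ η (θ₁ + π) (x₂ - x₁)
  have s0 : 0 < sin (θ₁ + π - θ₂) := sin_pos_of_pos_of_lt_pi (by linarith) (by linarith)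
  have s1 : 0 ≤ sin (θ₁ + π - η) := sin_nonneg_of_nonneg_of_le_pi (by linarith) (by linarith)
  have s2 : 0 ≤ sin (η - θ₂) := sin_nonneg_of_nonneg_of_le_pi (by linarith) (by linarith)
  have a1 := h₁.2 x₂ h₂.1
  have a2 := h₂.2 x₁ h₁.1
  rw [cp_add_pi, cp_sub, cp_sub, cp_sub] at e
  have : 0 ≤ sin (θ₁ + π - θ₂) * (cp η x₂ - cp η x₁) := by
    rw [e]; exact add_nonneg (mul_nonneg s1 (by linarith)) (mul_nonneg s2 (by linarith))
  have := nonneg_of_mul_nonneg_right this s0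
  linarith

lemma wd_pos {h : ℝ} (hh : 0 < h) (θ : ℝ) (d : ℂ) : 0 < wd h θ d :=
  Real.sqrt_pos.2 (by positivity)
lemma wd_sq (h θ : ℝ) (d : ℂ) : wd h θ d ^ 2 = h ^ 2 + cp θ d ^ 2 := Real.sq_sqrt (by positivity)
lemma abs_lt_wd {h : ℝ} (hh : 0 < h) (θ : ℝ) (d : ℂ) : |cp θ d| < wd h θ d :=
  abs_lt_of_sq_lt_sq (by rw [wd_sq]; nlinarith) (wd_pos hh θ d).le
lemma lt_wd {h : ℝ} (hh : 0 < h) (θ : ℝ) (d : ℂ) : cp θ d < wd h θ d :=
  (abs_lt.1 (abs_lt_wd hh θ d)).2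
lemma wd_neg (h θ : ℝ) (d : ℂ) : wd h θ (-d) = wd h θ d := by simp [wd, cp_neg]
lemma wd_congr {h θ : ℝ} {d d' : ℂ} (e : cp θ d = cp θ d') : wd h θ d = wd h θ d' := by
  simp [wd, e]
lemma ln_pos {h : ℝ} (hh : 0 < h) (d : ℂ) : 0 < ln h d := Real.sqrt_pos.2 (by positivity)
lemma ln_sq (h : ℝ) (d : ℂ) : ln h d ^ 2 = h ^ 2 + d.re ^ 2 + d.im ^ 2 :=
  Real.sq_sqrt (by positivity)
lemma chi_neg (h θ : ℝ) (d : ℂ) : chi h θ (-d) = -chi h θ d := by
  simp [chi, wd_neg, cp_neg, neg_div]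
lemma chi_lt (h θ : ℝ) (d : ℂ) : chi h θ d < π / 2 := arctan_lt_pi_div_two _
lemma lt_chi (h θ : ℝ) (d : ℂ) : -(π / 2) < chi h θ d := neg_pi_div_two_lt_arctan _

/-- Polar form of a vector with positive real part. -/
lemma polar {z : ℂ} (hz : 0 < z.re) :
    z = (√(z.re ^ 2 + z.im ^ 2) : ℝ) * nn (arctan (z.im / z.re)) := by
  have h1 : √(z.re ^ 2 + z.im ^ 2) = z.re * √(1 + (z.im / z.re) ^ 2) := by
    rw [← Real.sqrt_sq hz.le, ← Real.sqrt_mul (by positivity), Real.sqrt_sq hz.le]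
    congr 1; field_simp
  have h2 : 0 < √(1 + (z.im / z.re) ^ 2) := Real.sqrt_pos.2 (by positivity)
  apply Complex.ext
  · simp [cos_arctan, h1]; field_simp
  · simp [sin_arctan, h1]; field_simp

lemma fv_polar {h : ℝ} (hh : 0 < h) (θ : ℝ) (d : ℂ) :
    fv h θ d = (ln h d : ℂ) * nn (chi h θ d) := by
  have := polar (z := fv h θ d) (wd_pos hh θ d)
  rw [this]; simp only [fv_re, fv_im, chi, ln, wd_sq]
  congr 3; have := cp_sq θ d; linarith

/-- The unfolded ruling is the projected one pushed outwards. -/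
lemma nn_mul_fv (h θ : ℝ) (d : ℂ) :
    nn θ * fv h θ d = d + ((wd h θ d - cp θ d : ℝ) : ℂ) * nn θ := by
  apply eq_of_cp θ
  · rw [cp_nn_mul, cp_add, cp_mul, cp_nn]; simp [cp_zero_left]
  · rw [cp_nn_mul, cp_add, cp_mul, cp_nn]
    have : θ + π / 2 - θ = π / 2 := by ring
    have h2 : θ - (θ + π / 2) = -(π / 2) := by ring
    rw [this, h2, cp_pi_div_two]; simp

lemma hasDerivAt_cp (d : ℂ) (θ : ℝ) : HasDerivAt (fun θ => cp θ d) (cp (θ + π / 2) d) θ := by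
  rw [cp_tan]; unfold cp
  exact (((hasDerivAt_cos θ).const_mul d.re).add ((hasDerivAt_sin θ).const_mul d.im)).congr_deriv
    (by ring)

lemma hasDerivAt_chi {h : ℝ} (hh : 0 < h) (d : ℂ) (θ : ℝ) :
    HasDerivAt (fun θ => chi h θ d) (-cp θ d / wd h θ d) θ := by
  have w0 := wd_pos hh θ d
  have h1 : HasDerivAt (fun θ => cp (θ + π / 2) d) (-cp θ d) θ :=
    ((hasDerivAt_cp d (θ + π / 2)).comp_add_const θ (π / 2)).congr_deriv
      (by rw [add_assoc, add_halves, cp_add_pi])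
  have h2 : HasDerivAt (fun θ => wd h θ d)
      ((2 * cp θ d * cp (θ + π / 2) d) / (2 * wd h θ d)) θ := by
    unfold wd
    refine HasDerivAt.sqrt ?_ (by positivity)
    exact (((hasDerivAt_cp d θ).fun_pow 2).const_add (h ^ 2)).congr_deriv (by simp)
  have h3 := (h1.fun_div h2 w0.ne').arctan
  refine h3.congr_deriv ?_
  field_simp
  ring

/-- `θ + chi` is strictly increasing. -/
lemma add_chi_strictMono {h : ℝ} (hh : 0 < h) (d : ℂ) : StrictMono fun θ => θ + chi h θ d := by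
  refine strictMono_of_deriv_pos fun θ => ?_
  rw [((hasDerivAt_id' θ).fun_add (hasDerivAt_chi hh d θ)).deriv]
  have := lt_wd hh θ d
  have w0 := wd_pos hh θ d
  rw [neg_div, ← sub_eq_add_neg, sub_pos, div_lt_one w0]; exact this

/-- `θ - chi` is strictly increasing. -/
lemma sub_chi_strictMono {h : ℝ} (hh : 0 < h) (d : ℂ) : StrictMono fun θ => θ - chi h θ d := by
  have := add_chi_strictMono hh (-d)
  simpa only [chi_neg, ← sub_eq_add_neg] using this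

/-- Where the top overhangs, `chi` decreases. -/
lemma chi_anti {h : ℝ} (hh : 0 < h) (d : ℂ) {θ₁ θ₂ : ℝ} (h12 : θ₁ ≤ θ₂)
    (hD : ∀ θ, θ₁ ≤ θ → θ ≤ θ₂ → 0 ≤ cp θ d) : chi h θ₂ d ≤ chi h θ₁ d := by
  have : AntitoneOn (fun θ => chi h θ d) (Set.Icc θ₁ θ₂) := by
    refine antitoneOn_of_deriv_nonpos (convex_Icc _ _)
      (fun θ _ => (hasDerivAt_chi hh d θ).continuousAt.continuousWithinAt)
      (fun θ _ => (hasDerivAt_chi hh d θ).differentiableAt.differentiableWithinAt) fun θ hθ => ?_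
    rw [(hasDerivAt_chi hh d θ).deriv]
    have := interior_subset hθ
    exact div_nonpos_of_nonpos_of_nonneg (by linarith [hD θ this.1 this.2]) (wd_pos hh θ d).le
  exact this ⟨le_rfl, h12⟩ ⟨h12, le_rfl⟩ h12

end Pool.Agent.P.MP_36f9aa_co
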