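import Pool.Agent.P.MP_36f9aa_co.Model

set_option autoImplicit false

namespace Pool.Agent.P.MP_36f9aa_co

open Real

namespace IncidAux

lemma seg_eq (p w : ℂ) (t γ : ℝ) (hγ : 0 ≤ γ) :
    {X : ℂ × ℝ | X.2 = t ∧ ∃ σ : ℝ, 0 ≤ σ ∧ σ ≤ γ ∧ X.1 = p + (σ : ℂ) * w} =
      segment ℝ (p, t) (p + (γ : ℂ) * w, t) := by
  rw [segment_eq_image']
  ext ⟨z, l⟩
  constructor
  · rintro ⟨h1, σ, h2, h3, h4⟩
    simp only at h1 h4
    rcases hγ.eq_or_lt with e | e
    · have : σ = 0 := by linarith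
      refine ⟨0, ⟨le_rfl, zero_le_one⟩, ?_⟩
      simp [h1, h4, this]
    · refine ⟨σ / γ, ⟨div_nonneg h2 e.le, (div_le_one e).2 h3⟩, ?_⟩
      have : (γ : ℂ) ≠ 0 := by exact_mod_cast e.ne'
      refine Prod.ext ?_ ?_
      · simp only [h4, Prod.mk_sub_mk, Prod.smul_mk, Prod.mk_add_mk, Complex.real_smul]
        push_cast; field_simp; ring
      · simp [h1]
  · rintro ⟨u, ⟨h1, h2⟩, h3⟩
    simp only [Prod.mk_sub_mk, Prod.smul_mk, Prod.mk_add_mk, Prod.mk.injEq] at h3
    refine ⟨by simpa using h3.2.symm, u * γ, mul_nonneg h1 hγ, by nlinarith, ?_⟩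
    simp only [← h3.1, Complex.real_smul]
    push_cast; ring

lemma cp_step (θ ψ γ : ℝ) (p : ℂ) :
    cp θ (p + (γ : ℂ) * nn (ψ + π / 2)) = cp θ p - γ * sin (ψ - θ) := by
  rw [cp_add, cp_mul, cp_nn, show ψ + π / 2 - θ = ψ - θ + π / 2 by ring, cos_add_pi_div_two]
  ring

variable (M : Model)

lemma cp_a (θ : ℝ) (k : ℤ) : cp θ (M.a k) = cp θ (M.a (k - 1)) - M.α k * sin (M.φ k - θ) := by
  rw [M.ha k, cp_step]

lemma gap (k : ℤ) : M.φ (k + 1) < M.φ k + π := by
  obtain ⟨j, -, h1, h2⟩ := M.gapa (M.φ k)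
  have : k < j := M.mono.lt_iff_lt.1 h1
  exact (M.mono.monotone (by omega : k + 1 ≤ j)).trans_lt h2

lemma chain {θ : ℝ} {i j : ℤ} (hij : i ≤ j) (h1 : θ ≤ M.φ (i + 1)) (h2 : M.φ j ≤ θ + π) :
    cp θ (M.a j) ≤ cp θ (M.a i) := by
  induction j, hij using Int.le_induction with
  | base => exact le_rfl
  | succ j hj ih =>
    have e1 : M.φ j ≤ M.φ (j + 1) := M.mono.monotone (by omega)
    have e2 : M.φ (i + 1) ≤ M.φ (j + 1) := M.mono.monotone (by omega)
    rw [cp_a M θ (j + 1), add_sub_cancel_right]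
    have := mul_nonneg (M.α_nn (j + 1))
      (sin_nonneg_of_nonneg_of_le_pi (x := M.φ (j + 1) - θ) (by linarith) (by linarith))
    linarith [ih (by linarith)]

/-- A closed chain of edges whose normals lie in an open half plane is trivial. -/
lemma zero_of_eq {k k' j : ℤ} (e : M.a k = M.a k') (hφ : M.φ k' < M.φ (k + 1) + π)
    (h1 : k < j) (h2 : j ≤ k') : M.α j = 0 := by
  have e1 : M.φ (k + 1) ≤ M.φ j := M.mono.monotone (by omega)
  have e2 : M.φ j ≤ M.φ k' := M.mono.monotone h2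
  have e3 : M.φ (j - 1) ≤ M.φ j := M.mono.monotone (by omega)
  have e4 : M.φ j ≤ M.φ (j + 1) := M.mono.monotone (by omega)
  set θ := (M.φ (k + 1) + M.φ k') / 2 - π / 2 with hθ
  have c1 := chain M (θ := θ) (i := k) (j := j - 1) (by omega) (by linarith) (by linarith)
  have c2 := chain M (θ := θ) (i := j) (j := k') h2 (by linarith) (by linarith)
  have c3 := cp_a M θ j
  have s := sin_pos_of_pos_of_lt_pi (x := M.φ j - θ) (by linarith) (by linarith)
  rw [e] at c1
  refine le_antisymm ?_ (M.α_nn j)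
  by_contra h
  have := mul_pos (not_le.1 h) s
  linarith

lemma dich (k k' : ℤ) : M.φ k' < M.φ (k + 1) + π ∨ M.φ (k + M.n) < M.φ (k' + 1) + π := by
  by_contra h
  push Not at h
  have e1 : M.φ k < M.φ (k + 1) := M.mono (by omega)
  have e2 : M.φ k' < M.φ (k' + 1) := M.mono (by omega)
  have := M.per k
  linarith [h.1, h.2]

lemma a_ne {k : ℤ} (hk : 0 < M.α k) : M.a k ≠ M.a (k - 1) := by
  intro e
  have := cp_a M (M.φ k - π / 2) k
  rw [e, show M.φ k - (M.φ k - π / 2) = π / 2 by ring, sin_pi_div_two] at this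
  linarith

lemma pos_of_ne {k : ℤ} (h : M.a k ≠ M.a (k - 1)) : 0 < M.α k := by
  refine lt_of_le_of_ne (M.α_nn k) fun e => h ?_
  rw [M.ha k, ← e]; simp

lemma a_inj' {k k' : ℤ} (h1 : k < k') (h2 : k' < k + M.n)
    (hk : 0 < M.α k) (hk' : 0 < M.α k') (e : M.a k = M.a k') : False := by
  rcases dich M k k' with h | h
  · exact hk'.ne' (zero_of_eq M e h h1 le_rfl)
  · have := zero_of_eq M (k := k') (k' := k + M.n) (by rw [M.pera, e]) h h2 le_rfl
    rw [M.α_per] at this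
    exact hk.ne' this

lemma rul_inj' {k k' : ℤ} (h1 : k < k') (h2 : k' < k + M.n)
    (ea : M.a k = M.a k') (eb : M.b k = M.b k') : False := by
  rcases dich M k k' with h | h
  · have a1 := zero_of_eq M ea h h1 le_rfl
    have b1 : M.β k' = 0 := zero_of_eq M.swap eb h h1 le_rfl
    rcases M.nd k' with h | h <;> linarith
  · have a1 := zero_of_eq M (k := k') (k' := k + M.n) (by rw [M.pera, ea]) h h2 le_rfl
    have b1 : M.β (k + M.n) = 0 := zero_of_eq M.swap (k := k') (k' := k + M.n)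
      (show M.b k' = M.b (k + M.n) by rw [M.perb, eb]) h h2 le_rfl
    rcases M.nd (k + M.n) with h | h <;> linarith

/-- Positive width. -/
lemma width {k k' : ℤ} (h : ∀ z, cp (M.φ k') z = -cp (M.φ k) z) :
    cp (M.φ k) (M.a k') < cp (M.φ k) (M.a k) := by
  obtain ⟨j, h0, h1, h2⟩ := M.gapa (M.φ k)
  have s := sin_pos_of_pos_of_lt_pi (x := M.φ j - M.φ k) (by linarith) (by linarith)
  have c := cp_a M (M.φ k) j
  have c1 := M.supa k (j - 1) (M.φ k) le_rfl (M.mono.monotone (by omega))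
  have c2 := M.supa k' j (M.φ k') le_rfl (M.mono.monotone (by omega))
  rw [h, h] at c2
  have := mul_pos h0 s
  linarith

lemma cp_opp {θ θ' : ℝ} (h1 : sin (θ' - θ) = 0) (h2 : cos (θ' - θ) < 1) (z : ℂ) :
    cp θ' z = -cp θ z := by
  have e := sin_sq_add_cos_sq (θ' - θ)
  have c : cos (θ' - θ) = -1 := by
    rw [h1] at e
    have : (cos (θ' - θ) - 1) * (cos (θ' - θ) + 1) = 0 := by linarith
    rcases mul_eq_zero.1 this with h | h <;> linarith
  have := cp_rot θ (θ' - θ) z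
  rw [h1, c, show θ + (θ' - θ) = θ' by ring] at this
  linarith

lemma a_rev' {k k' : ℤ} (hk : 0 < M.α k) (hk' : 0 < M.α k') (e : M.a (k - 1) = M.a k')
    (e' : M.a k = M.a (k' - 1)) : False := by
  have c1 := cp_a M (M.φ k) k
  have c2 := cp_a M (M.φ k) k'
  have c3 := cp_a M (M.φ k - π / 2) k
  have c4 := cp_a M (M.φ k - π / 2) k'
  rw [sub_self, sin_zero] at c1
  rw [show M.φ k - (M.φ k - π / 2) = π / 2 by ring, sin_pi_div_two] at c3
  rw [show M.φ k' - (M.φ k - π / 2) = M.φ k' - M.φ k + π / 2 by ring, sin_add_pi_div_two] at c4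
  rw [← e, ← e'] at c2 c4
  have s : sin (M.φ k' - M.φ k) = 0 := by
    have : M.α k' * sin (M.φ k' - M.φ k) = 0 := by linarith
    exact (mul_eq_zero.1 this).resolve_left hk'.ne'
  have c : cos (M.φ k' - M.φ k) < 1 := by
    by_contra h
    have := mul_le_mul_of_nonneg_left (not_lt.1 h) hk'.le
    linarith
  have := width M (cp_opp s c)
  rw [← e] at this
  linarith

/-- A vertex lying on an edge is one of its ends. -/
lemma vertex_on_edge {k k' : ℤ} {σ : ℝ} (h0 : 0 ≤ σ) (h1 : σ ≤ M.α k')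
    (e : M.a k = M.a (k' - 1) + (σ : ℂ) * nn (M.φ k' + π / 2)) :
    M.a k = M.a (k' - 1) ∨ M.a k = M.a k' := by
  rcases h0.eq_or_lt with h0 | h0
  · left; rw [e, ← h0]; simp
  rcases h1.eq_or_lt with h1 | h1
  · right; rw [e, h1, ← M.ha]
  exfalso
  have key : ∀ θ, M.φ k ≤ θ → θ ≤ M.φ (k + 1) → sin (M.φ k' - θ) = 0 := by
    intro θ t1 t2
    have c1 := M.supa k (k' - 1) θ t1 t2
    have c2 := M.supa k k' θ t1 t2
    rw [e, cp_step] at c1 c2
    rw [cp_a M θ k'] at c2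
    refine le_antisymm ?_ ?_
    · by_contra h
      have := mul_pos h0 (not_le.1 h)
      linarith
    · by_contra h
      have := mul_pos_of_neg_of_neg (sub_neg.2 h1) (not_le.1 h)
      linarith
  have e1 : M.φ k < M.φ (k + 1) := M.mono (by omega)
  have s1 := key (M.φ k) le_rfl e1.le
  have s2 := key (M.φ (k + 1)) e1.le le_rfl
  have s := sin_pos_of_pos_of_lt_pi (x := M.φ (k + 1) - M.φ k) (by linarith)
    (by linarith [gap M k])
  rw [show M.φ (k + 1) - M.φ k = (M.φ k' - M.φ k) - (M.φ k' - M.φ (k + 1)) by ring, sin_sub,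
    s1, s2] at s
  simp at s

lemma a_inj {s k k' : ℤ} (h1 : s ≤ k) (h2 : k < s + M.n) (h3 : s ≤ k') (h4 : k' < s + M.n)
    (hk : 0 < M.α k) (hk' : 0 < M.α k') (e : M.a k = M.a k') : k = k' := by
  rcases lt_trichotomy k k' with h | h | h
  · exact (a_inj' M h (by omega) hk hk' e).elim
  · exact h
  · exact (a_inj' M h (by omega) hk' hk e.symm).elim

/-- A proper edge contained in an edge is that edge. -/
lemma edge_core {s k k' : ℤ} (h1 : s ≤ k) (h2 : k < s + M.n) (h3 : s ≤ k') (h4 : k' < s + M.n)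
    (hk : 0 < M.α k)
    (e : ∃ σ : ℝ, 0 ≤ σ ∧ σ ≤ M.α k' ∧ M.a k = M.a (k' - 1) + (σ : ℂ) * nn (M.φ k' + π / 2))
    (e' : ∃ σ : ℝ, 0 ≤ σ ∧ σ ≤ M.α k' ∧
      M.a (k - 1) = M.a (k' - 1) + (σ : ℂ) * nn (M.φ k' + π / 2)) : k = k' := by
  obtain ⟨σ, s0, s1, e⟩ := e
  obtain ⟨σ', s0', s1', e'⟩ := e'
  have hne := a_ne M hk
  rcases vertex_on_edge M s0 s1 e with u | u <;> rcases vertex_on_edge M s0' s1' e' with v | v
  · exact (hne (u.trans v.symm)).elim
  · exact (a_rev' M hk (pos_of_ne M (by rw [← u, ← v]; exact hne.symm)) v u).elim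
  · exact a_inj M h1 h2 h3 h4 hk (pos_of_ne M (by rw [← u, ← v]; exact hne)) u
  · exact (hne (u.trans v.symm)).elim

lemma cp_C (θ l : ℝ) (k : ℤ) : cp θ (M.C l k) = (1 - l) * cp θ (M.b k) + l * cp θ (M.a k) := by
  rw [Model.C, cp_add, cp_mul, cp_mul]

lemma C_per (l : ℝ) (k : ℤ) : M.C l (k + M.n) = M.C l k := by
  simp only [Model.C, M.pera, M.perb]

lemma len_pos (k : ℤ) : 0 < M.len (1 / 2) k := by
  have := M.α_nn k
  have := M.β_nn k
  unfold Model.len
  rcases M.nd k with h | h <;> linarith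

/-- The model whose top polygon is the middle slice. -/
noncomputable def half : Model where
  n := M.n
  φ := M.φ
  a := M.C (1 / 2)
  b := M.b
  α := M.len (1 / 2)
  β := M.β
  h := M.h
  hn := M.hn
  hh := M.hh
  mono := M.mono
  per := M.per
  pera := C_per M _
  perb := M.perb
  ha := M.C_succ _
  hb := M.hb
  α_nn := fun k => (len_pos M k).le
  β_nn := M.β_nn
  nd := fun k => Or.inl (len_pos M k)
  supa := fun k j θ h1 h2 => by
    rw [cp_C, cp_C]
    linarith [M.supa k j θ h1 h2, M.supb k j θ h1 h2]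
  supb := M.supb
  gapa := fun θ => by
    obtain ⟨k, -, h⟩ := M.gapa θ
    exact ⟨k, len_pos M k, h⟩
  gapb := M.gapb

lemma C_one (k : ℤ) : M.C 1 k = M.a k := by simp [Model.C]
lemma C_zero (k : ℤ) : M.C 0 k = M.b k := by simp [Model.C]
lemma len_one (k : ℤ) : M.len 1 k = M.α k := by simp [Model.len]
lemma len_zero (k : ℤ) : M.len 0 k = M.β k := by simp [Model.len]

lemma a_rul (k : ℤ) : (M.a k, (1 : ℝ)) ∈ M.rul k := ⟨zero_le_one, le_rfl, (C_one M k).symm⟩
lemma b_rul (k : ℤ) : (M.b k, (0 : ℝ)) ∈ M.rul k := ⟨le_rfl, zero_le_one, (C_zero M k).symm⟩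
lemma half_rul (k : ℤ) : (M.C (1 / 2) k, (1 / 2 : ℝ)) ∈ M.rul k :=
  ⟨by norm_num, by norm_num, rfl⟩

/-- The plane of a lateral face. -/
lemma side_eq {k : ℤ} {X : ℂ × ℝ} (h : X ∈ M.face (.side k)) :
    cp (M.φ k) X.1 = (1 - X.2) * cp (M.φ k) (M.b k) + X.2 * cp (M.φ k) (M.a k) := by
  obtain ⟨-, -, σ, -, -, e⟩ := h
  rw [← cp_C, e, M.C_succ X.2 k, cp_step, cp_step]
  simp

lemma level_collinear (k : ℤ) (t : ℝ) {S : Set (ℂ × ℝ)} (h : ∀ X ∈ S, X.2 = t)
    (h' : S ⊆ M.face (.side k)) : Collinear ℝ S := by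
  rw [collinear_iff_exists_forall_eq_smul_vadd]
  refine ⟨(M.C t (k - 1), t), (nn (M.φ k + π / 2), 0), fun X hX => ?_⟩
  obtain ⟨-, -, σ, -, -, e⟩ := h' hX
  refine ⟨σ, Prod.ext ?_ ?_⟩
  · rw [e, h X hX]; simp [add_comm]
  · simp [h X hX]

lemma side_collinear {k k' : ℤ} (h1 : k < k') (h2 : k' < k + M.n) :
    Collinear ℝ (M.face (.side k) ∩ M.face (.side k')) := by
  by_cases hs : sin (M.φ k' - M.φ k) = 0
  · have e1 : M.φ k < M.φ k' := M.mono h1
    have e2 : M.φ k' < M.φ (k + M.n) := M.mono h2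
    rw [M.per] at e2
    have hc : cos (M.φ k' - M.φ k) < 1 := by
      refine lt_of_le_of_ne (cos_le_one _) fun e => ?_
      have := (cos_eq_one_iff_of_lt_of_lt (by linarith [pi_pos]) (by linarith)).1 e
      linarith
    have opp := cp_opp hs hc
    have wa := width M opp
    have wb : cp (M.φ k) (M.b k') < cp (M.φ k) (M.b k) := width M.swap opp
    have : M.face (.side k) ∩ M.face (.side k') = ∅ := by
      refine Set.eq_empty_of_forall_notMem fun X hX => ?_
      have q1 := side_eq M hX.1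
      have q2 := side_eq M hX.2
      rw [opp, opp, opp] at q2
      obtain ⟨l0, l1, -⟩ := hX.1
      rcases l0.eq_or_lt with l0 | l0
      · rw [← l0] at q1 q2; linarith
      · have t1 := mul_pos l0 (sub_pos.2 wa)
        have t2 := mul_nonneg (sub_nonneg.2 l1) (sub_pos.2 wb).le
        linarith
    rw [this]
    exact collinear_empty ℝ _
  · rw [collinear_iff_exists_forall_eq_smul_vadd]
    set θ := M.φ k with hθ
    set δ := M.φ k' - M.φ k with hδ
    set F : ℝ → ℝ → ℂ := fun u v =>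
      (u : ℂ) * nn θ + (((v - cos δ * u) / sin δ : ℝ) : ℂ) * nn (θ + π / 2) with hF
    have hz : ∀ z, z = F (cp θ z) (cp (M.φ k') z) := by
      intro z
      have := cp_rot θ δ z
      rw [show θ + δ = M.φ k' by rw [hθ, hδ]; ring] at this
      have e : (cp (M.φ k') z - cos δ * cp θ z) / sin δ = cp (θ + π / 2) z := by
        rw [this]; field_simp; ring
      simp only [hF, e]
      exact frame θ z
    refine ⟨(F (cp θ (M.b k)) (cp (M.φ k') (M.b k')), 0),
      (F (cp θ (M.a k) - cp θ (M.b k)) (cp (M.φ k') (M.a k') - cp (M.φ k') (M.b k')), 1),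
      fun X hX => ⟨X.2, Prod.ext ?_ ?_⟩⟩
    · have q1 := side_eq M hX.1
      have q2 := side_eq M hX.2
      rw [hz X.1, q1, q2]
      simp only [hF, vadd_eq_add, Prod.smul_mk, Prod.mk_add_mk, Complex.real_smul]
      push_cast
      ring
    · simp

end IncidAux

open IncidAux

namespace Model
variable (M : Model)

theorem eA_eq (k : ℤ) : M.eA k = segment ℝ (M.a (k - 1), (1 : ℝ)) (M.a k, 1) := by
  rw [M.ha k]; exact seg_eq _ _ _ _ (M.α_nn k)

theorem eB_eq (k : ℤ) : M.eB k = segment ℝ (M.b (k - 1), (0 : ℝ)) (M.b k, 0) := by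
  rw [M.hb k]; exact seg_eq _ _ _ _ (M.β_nn k)

theorem rul_eq (k : ℤ) : M.rul k = segment ℝ (M.a k, (1 : ℝ)) (M.b k, 0) := by
  rw [segment_symm, segment_eq_image']
  ext ⟨z, l⟩
  constructor
  · rintro ⟨h0, h1, e⟩
    refine ⟨l, ⟨h0, h1⟩, Prod.ext ?_ ?_⟩
    · simp only at e
      simp [e, M.C_eq, Model.d]
    · simp
  · rintro ⟨u, ⟨h0, h1⟩, e⟩
    simp only [Prod.mk_sub_mk, Prod.smul_mk, Prod.mk_add_mk, Prod.mk.injEq] at e
    have e2 : l = u := by simpa using e.2.symm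
    subst e2
    refine ⟨h0, h1, ?_⟩
    simp [← e.1, M.C_eq, Model.d]

theorem rul_sub (k : ℤ) : M.rul k ⊆ M.face (.side k) ∧ M.rul k ⊆ M.face (.side (k + 1)) := by
  constructor
  · rintro X ⟨h0, h1, e⟩
    exact ⟨h0, h1, M.len X.2 k, M.len_nn h0 h1 k, le_rfl, by rw [e, M.C_succ]⟩
  · rintro X ⟨h0, h1, e⟩
    exact ⟨h0, h1, 0, le_rfl, M.len_nn h0 h1 _, by rw [e]; simp⟩

theorem eA_sub (k : ℤ) : M.eA k ⊆ M.face (.side k) ∧ M.eA k ⊆ M.face .top := by
  constructor
  · rintro X ⟨h, σ, s0, s1, e⟩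
    exact ⟨by rw [h]; exact zero_le_one, h.le, σ, s0, by rw [h, len_one]; exact s1,
      by rw [h, C_one]; exact e⟩
  · intro X hX
    refine ⟨hX.1, ?_⟩
    rw [M.eA_eq] at hX
    obtain ⟨u, v, hu, hv, huv, rfl⟩ := hX
    exact convex_convexHull ℝ _ (M.a_mem (k - 1)) (M.a_mem k) hu hv huv

theorem eB_sub (k : ℤ) : M.eB k ⊆ M.face (.side k) ∧ M.eB k ⊆ M.face .bot := by
  constructor
  · rintro X ⟨h, σ, s0, s1, e⟩
    exact ⟨h.ge, by rw [h]; exact zero_le_one, σ, s0, by rw [h, len_zero]; exact s1,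
      by rw [h, C_zero]; exact e⟩
  · intro X hX
    refine ⟨hX.1, ?_⟩
    rw [M.eB_eq] at hX
    obtain ⟨u, v, hu, hv, huv, rfl⟩ := hX
    exact convex_convexHull ℝ _ (M.b_mem (k - 1)) (M.b_mem k) hu hv huv

theorem a_inj {s k k' : ℤ} (h1 : s ≤ k) (h2 : k < s + M.n) (h3 : s ≤ k') (h4 : k' < s + M.n)
    (hk : 0 < M.α k) (hk' : 0 < M.α k') (e : M.a k = M.a k') : k = k' :=
  IncidAux.a_inj M h1 h2 h3 h4 hk hk' e

theorem a_rev {k k' : ℤ} (hk : 0 < M.α k) (hk' : 0 < M.α k') (e : M.a (k - 1) = M.a k')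
    (e' : M.a k = M.a (k' - 1)) : False := a_rev' M hk hk' e e'

theorem rul_inj {s k k' : ℤ} (h1 : s ≤ k) (h2 : k < s + M.n) (h3 : s ≤ k') (h4 : k' < s + M.n)
    (ea : M.a k = M.a k') (eb : M.b k = M.b k') : k = k' := by
  rcases lt_trichotomy k k' with h | h | h
  · exact (rul_inj' M h (by omega) ea eb).elim
  · exact h
  · exact (rul_inj' M h (by omega) ea.symm eb.symm).elim

theorem face_inj {s : ℤ} {L L' : Lab} (h : M.Valid s L) (h' : M.Valid s L')
    (e : M.face L = M.face L') : L = L' := by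
  have tb : M.face .top ≠ M.face .bot := fun e => by
    have : (M.a 0, (1 : ℝ)) ∈ M.face .top := ⟨rfl, M.a_mem 0⟩
    rw [e] at this
    exact one_ne_zero this.1
  have ts : ∀ k, M.face .top ≠ M.face (.side k) := fun k e => by
    have := (M.rul_sub k).1 (b_rul M k)
    rw [← e] at this
    exact zero_ne_one this.1
  have bs : ∀ k, M.face .bot ≠ M.face (.side k) := fun k e => by
    have := (M.rul_sub k).1 (a_rul M k)
    rw [← e] at this
    exact one_ne_zero this.1
  rcases L with _ | _ | k <;> rcases L' with _ | _ | k'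
  · rfl
  · exact (tb e).elim
  · exact (ts _ e).elim
  · exact (tb e.symm).elim
  · rfl
  · exact (bs _ e).elim
  · exact (ts _ e.symm).elim
  · exact (bs _ e.symm).elim
  · have p1 := (M.rul_sub k).1 (half_rul M k)
    have p2 := (M.rul_sub (k - 1)).2 (half_rul M (k - 1))
    rw [sub_add_cancel] at p2
    rw [e] at p1 p2
    rw [edge_core (half M) h.1 h.2 h'.1 h'.2 (len_pos M k) p1.2.2 p2.2.2]

theorem of_rul_sub {s k : ℤ} {L : Lab} (h1 : s ≤ k) (h2 : k + 1 < s + M.n) (h : M.Valid s L)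
    (e : M.rul k ⊆ M.face L) : L = .side k ∨ L = .side (k + 1) := by
  rcases L with _ | _ | k'
  · exact (zero_ne_one (e (b_rul M k)).1).elim
  · exact (one_ne_zero (e (a_rul M k)).1).elim
  · obtain ⟨-, -, σ, s0, s1, q⟩ := e (half_rul M k)
    obtain ⟨h3, h4⟩ := h
    have hn : (half M).n = M.n := rfl
    rcases vertex_on_edge (half M) s0 s1 q with u | u
    · right
      have := IncidAux.a_inj (half M) (s := s - 1) (by omega) (by rw [hn]; omega) (by omega)
        (by rw [hn]; omega) (len_pos M _) (len_pos M _) u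
      rw [this, sub_add_cancel]
    · left
      rw [IncidAux.a_inj (half M) h1 (by rw [hn]; omega) h3 h4 (len_pos M _) (len_pos M _) u]

theorem of_eA_sub {s k : ℤ} {L : Lab} (h1 : s ≤ k) (h2 : k < s + M.n) (hk : 0 < M.α k)
    (h : M.Valid s L) (e : M.eA k ⊆ M.face L) : L = .side k ∨ L = .top := by
  rw [M.eA_eq] at e
  have p1 := e (left_mem_segment ℝ _ _)
  have p2 := e (right_mem_segment ℝ _ _)
  rcases L with _ | _ | k'
  · exact Or.inr rfl
  · exact (one_ne_zero p1.1).elim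
  · left
    have q1 := p1.2.2
    have q2 := p2.2.2
    simp only [C_one, len_one] at q1 q2
    rw [edge_core M h1 h2 h.1 h.2 hk q2 q1]

theorem of_eB_sub {s k : ℤ} {L : Lab} (h1 : s ≤ k) (h2 : k < s + M.n) (hk : 0 < M.β k)
    (h : M.Valid s L) (e : M.eB k ⊆ M.face L) : L = .side k ∨ L = .bot := by
  rw [M.eB_eq] at e
  have p1 := e (left_mem_segment ℝ _ _)
  have p2 := e (right_mem_segment ℝ _ _)
  rcases L with _ | _ | k'
  · exact (zero_ne_one p1.1).elim
  · exact Or.inr rfl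
  · left
    have q1 := p1.2.2
    have q2 := p2.2.2
    simp only [C_zero, len_zero] at q1 q2
    rw [edge_core M.swap h1 h2 h.1 h.2 hk q2 q1]

/-- Two different faces meet in a collinear set. -/
theorem inter_collinear {s : ℤ} {L L' : Lab} (h : M.Valid s L) (h' : M.Valid s L') (hne : L ≠ L') :
    Collinear ℝ (M.face L ∩ M.face L') := by
  have tb : Collinear ℝ (M.face .top ∩ M.face .bot) := by
    have : M.face .top ∩ M.face .bot = ∅ :=
      Set.eq_empty_of_forall_notMem fun X hX => one_ne_zero (hX.1.1.symm.trans hX.2.1)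
    rw [this]
    exact collinear_empty ℝ _
  have ts : ∀ k, Collinear ℝ (M.face .top ∩ M.face (.side k)) := fun k =>
    level_collinear M k 1 (fun X hX => hX.1.1) Set.inter_subset_right
  have bs : ∀ k, Collinear ℝ (M.face .bot ∩ M.face (.side k)) := fun k =>
    level_collinear M k 0 (fun X hX => hX.1.1) Set.inter_subset_right
  rcases L with _ | _ | k <;> rcases L' with _ | _ | k'
  · exact (hne rfl).elim
  · exact tb
  · exact ts _
  · rw [Set.inter_comm]; exact tb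
  · exact (hne rfl).elim
  · exact bs _
  · rw [Set.inter_comm]; exact ts _
  · rw [Set.inter_comm]; exact bs _
  · obtain ⟨h1, h2⟩ := h
    obtain ⟨h3, h4⟩ := h'
    rcases lt_trichotomy k k' with c | c | c
    · exact side_collinear M c (by omega)
    · exact (hne (by rw [c])).elim
    · rw [Set.inter_comm]; exact side_collinear M c (by omega)

end Model

end Pool.Agent.P.MP_36f9aa_co
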