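import Pool.Agent.P.MP_36f9aa_co.Faces
import Pool.Agent.P.MP_36f9aa_co.Incid

set_option autoImplicit false

namespace Pool.Agent.P.MP_36f9aa_co

open Real

namespace Br

variable {M : Model} (N : M.NetData) (ι : (ℂ × ℝ) ≃ᵃ[ℝ] E3)

/-- The top vertices. -/
noncomputable def vA (M : Model) (ι : (ℂ × ℝ) ≃ᵃ[ℝ] E3) (k : ℤ) : Vertex (ι '' M.body) :=
  ⟨ι (M.a k, 1), (M.vertex_iff ι _).2 ⟨k, Or.inl rfl⟩⟩

/-- The bottom vertices. -/
noncomputable def vB (M : Model) (ι : (ℂ × ℝ) ≃ᵃ[ℝ] E3) (k : ℤ) : Vertex (ι '' M.body) :=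
  ⟨ι (M.b k, 0), (M.vertex_iff ι _).2 ⟨k, Or.inr rfl⟩⟩

/-- The graph of cut edges. -/
def tree : SimpleGraph (Vertex (ι '' M.body)) where
  Adj v w := v ≠ w ∧ (M.Cut N.s N.unc N.attA N.attB (ι.symm v.1) (ι.symm w.1) ∨
    M.Cut N.s N.unc N.attA N.attB (ι.symm w.1) (ι.symm v.1))
  symm := ⟨fun _ _ h => ⟨h.1.symm, h.2.symm⟩⟩
  loopless := ⟨fun _ h => h.1 rfl⟩

lemma cut_mono {s : ℤ} {u p q : Finset ℤ} {X Y : ℂ × ℝ} (h : M.Cut s u p q X Y) :
    M.Cut s ∅ ∅ ∅ X Y := by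
  obtain ⟨k, h1, h2, h | h | h⟩ := h
  · exact ⟨k, h1, h2, Or.inl ⟨h.1, by simp, h.2.2⟩⟩
  · exact ⟨k, h1, h2, Or.inr (Or.inl ⟨h.1, by simp, h.2.2⟩)⟩
  · exact ⟨k, h1, h2, Or.inr (Or.inr ⟨by simp, h.2⟩)⟩

lemma skel_iff (s : ℤ) (v w : Vertex (ι '' M.body)) : (skeleton (ι '' M.body)).Adj v w ↔
    v ≠ w ∧ (M.Cut s ∅ ∅ ∅ (ι.symm v.1) (ι.symm w.1) ∨
      M.Cut s ∅ ∅ ∅ (ι.symm w.1) (ι.symm v.1)) := by
  refine and_congr_right fun h => ?_
  have h1 : ι.symm v.1 ≠ ι.symm w.1 := fun e => h (Subtype.ext (ι.symm.injective e))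
  rw [← M.edge_iff ι s h1, ι.apply_symm_apply, ι.apply_symm_apply]

lemma tree_le : tree N ι ≤ skeleton (ι '' M.body) := fun v w h =>
  (skel_iff ι N.s v w).2 ⟨h.1, h.2.imp cut_mono cut_mono⟩

lemma cut_vertex {s : ℤ} {u p q : Finset ℤ} {X Y : ℂ × ℝ} (h : M.Cut s u p q X Y) :
    IsFace (ι '' M.body) 0 {ι X} ∧ IsFace (ι '' M.body) 0 {ι Y} := by
  obtain ⟨k, -, -, ⟨-, -, rfl, rfl⟩ | ⟨-, -, rfl, rfl⟩ | ⟨-, rfl, rfl⟩⟩ := h
  · exact ⟨(vA M ι _).2, (vA M ι _).2⟩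
  · exact ⟨(vB M ι _).2, (vB M ι _).2⟩
  · exact ⟨(vA M ι _).2, (vB M ι _).2⟩

lemma reach {X Y : ℂ × ℝ} (h : Relation.ReflTransGen
    (fun X Y => M.Cut N.s N.unc N.attA N.attB X Y ∨ M.Cut N.s N.unc N.attA N.attB Y X) X Y)
    (hX : IsFace (ι '' M.body) 0 {ι X}) : ∀ hY : IsFace (ι '' M.body) 0 {ι Y},
      (tree N ι).Reachable ⟨ι X, hX⟩ ⟨ι Y, hY⟩ := by
  induction h with
  | refl => exact fun _ => SimpleGraph.Reachable.refl _
  | @tail Y Z _ h ih =>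
    intro hZ
    have hY : IsFace (ι '' M.body) 0 {ι Y} :=
      h.elim (fun h => (cut_vertex ι h).1) fun h => (cut_vertex ι h).2
    refine (ih hY).trans ?_
    by_cases e : (⟨ι Y, hY⟩ : Vertex (ι '' M.body)) = ⟨ι Z, hZ⟩
    · rw [e]
    · exact SimpleGraph.Adj.reachable ⟨e, by simpa using h⟩

lemma vertex_cases (v : Vertex (ι '' M.body)) : ∃ k, v = vA M ι k ∨ v = vB M ι k := by
  obtain ⟨k, h⟩ := (M.vertex_iff ι v.1).1 v.2
  exact ⟨k, h.imp (fun h => Subtype.ext h) fun h => Subtype.ext h⟩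

lemma tree_conn : (tree N ι).Connected := by
  rw [SimpleGraph.connected_iff_exists_forall_reachable]
  refine ⟨vA M ι N.s, fun w => ?_⟩
  obtain ⟨k, rfl | rfl⟩ := vertex_cases ι w
  · exact reach N ι (N.conn k).1 _ _
  · exact reach N ι (N.conn k).2 _ _

lemma finite_vertex : Finite (Vertex (ι '' M.body)) := by
  have hn : (0 : ℤ) < M.n := by exact_mod_cast M.hn
  have ha : Function.Periodic M.a (M.n : ℤ) := M.pera
  have hb : Function.Periodic M.b (M.n : ℤ) := M.perb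
  rw [← Set.finite_univ_iff]
  refine (((Set.finite_Ico 0 (M.n : ℤ)).image (vA M ι)).union
    ((Set.finite_Ico 0 (M.n : ℤ)).image (vB M ι))).subset fun v _ => ?_
  obtain ⟨k, rfl | rfl⟩ := vertex_cases ι v
  · obtain ⟨j, hj, e⟩ := ha.exists_mem_Ico₀ hn k
    exact Or.inl ⟨j, hj, Subtype.ext (by simp [vA, e])⟩
  · obtain ⟨j, hj, e⟩ := hb.exists_mem_Ico₀ hn k
    exact Or.inr ⟨j, hj, Subtype.ext (by simp [vB, e])⟩

lemma eq_vA {v : Vertex (ι '' M.body)} {k : ℤ} (h : ι.symm v.1 = (M.a k, 1)) : v = vA M ι k :=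
  Subtype.ext ((ι.apply_symm_apply v.1).symm.trans (congrArg ι h))

lemma eq_vB {v : Vertex (ι '' M.body)} {k : ℤ} (h : ι.symm v.1 = (M.b k, 0)) : v = vB M ι k :=
  Subtype.ext ((ι.apply_symm_apply v.1).symm.trans (congrArg ι h))

lemma tree_isTree : (tree N ι).IsTree := by
  classical
  have := finite_vertex (M := M) ι
  rw [SimpleGraph.isTree_iff_connected_and_card]
  refine ⟨tree_conn N ι, le_antisymm ?_ (tree_conn N ι).card_vert_le_card_edgeSet_add_one⟩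
  let W : Finset ℤ := Finset.Ico N.s (N.s + M.n)
  let SA := W.filter fun k => 0 < M.α k
  let SB := W.filter fun k => 0 < M.β k
  have hW : W.card = M.n := by simp [W]
  have hA : N.attA ⊆ SA := fun k hk => by
    have := N.attA_mem k hk
    simp [SA, W, this]
  have hB : N.attB ⊆ SB := fun k hk => by
    have := N.attB_mem k hk
    simp [SB, W, this]
  have hU : N.unc ⊆ W := fun k hk => by
    have := N.unc_mem k hk
    simp only [W, Finset.mem_Ico]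
    omega
  let E : Finset (Sym2 (Vertex (ι '' M.body))) :=
    ((SA \ N.attA).image fun k => s(vA M ι (k - 1), vA M ι k)) ∪
    ((SB \ N.attB).image fun k => s(vB M ι (k - 1), vB M ι k)) ∪
    ((W \ N.unc).image fun k => s(vA M ι k, vB M ι k))
  have key : ∀ v w : Vertex (ι '' M.body),
      M.Cut N.s N.unc N.attA N.attB (ι.symm v.1) (ι.symm w.1) → s(v, w) ∈ E := by
    rintro v w ⟨k, h1, h2, ⟨h3, h4, h5, h6⟩ | ⟨h3, h4, h5, h6⟩ | ⟨h4, h5, h6⟩⟩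
    · rw [eq_vA ι h5, eq_vA ι h6]
      exact Finset.mem_union_left _ (Finset.mem_union_left _
        (Finset.mem_image_of_mem _ (by simp [SA, W, *])))
    · rw [eq_vB ι h5, eq_vB ι h6]
      exact Finset.mem_union_left _ (Finset.mem_union_right _
        (Finset.mem_image_of_mem _ (by simp [SB, W, *])))
    · rw [eq_vA ι h5, eq_vB ι h6]
      exact Finset.mem_union_right _ (Finset.mem_image_of_mem _ (by simp [W, *]))
  have hE : (tree N ι).edgeSet ⊆ (E : Set _) := by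
    intro e he
    induction e using Sym2.ind with
    | _ v w =>
      rcases he.2 with h | h
      · exact key v w h
      · rw [Sym2.eq_swap]
        exact key w v h
  have h1 : Nat.card (tree N ι).edgeSet ≤ E.card := by
    rw [Nat.card_coe_set_eq, ← Set.ncard_coe_finset]
    exact Set.ncard_le_ncard hE E.finite_toSet
  have h2 : E.card ≤ (SA \ N.attA).card + (SB \ N.attB).card + (W \ N.unc).card :=
    (Finset.card_union_le _ _).trans (Nat.add_le_add ((Finset.card_union_le _ _).trans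
      (Nat.add_le_add Finset.card_image_le Finset.card_image_le)) Finset.card_image_le)
  have h3 := Finset.card_sdiff_add_card_eq_card hA
  have h4 := Finset.card_sdiff_add_card_eq_card hB
  have h5 := Finset.card_sdiff_add_card_eq_card hU
  have h6 := N.count
  have h7 : (SA.image (vA M ι)).card = SA.card := Finset.card_image_of_injOn fun k hk j hj e => by
    simp only [SA, W, Finset.coe_filter, Finset.mem_Ico, Set.mem_ofPred_eq] at hk hj
    exact M.a_inj hk.1.1 hk.1.2 hj.1.1 hj.1.2 hk.2 hj.2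
      (congrArg Prod.fst (ι.injective (congrArg Subtype.val e)))
  have h8 : (SB.image (vB M ι)).card = SB.card := Finset.card_image_of_injOn fun k hk j hj e => by
    simp only [SB, W, Finset.coe_filter, Finset.mem_Ico, Set.mem_ofPred_eq] at hk hj
    exact M.swap.a_inj hk.1.1 hk.1.2 hj.1.1 hj.1.2 hk.2 hj.2
      (congrArg Prod.fst (ι.injective (congrArg Subtype.val e)))
  have h9 : Disjoint (SA.image (vA M ι)) (SB.image (vB M ι)) := by
    rw [Finset.disjoint_left]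
    intro v hv hv'
    obtain ⟨k, -, rfl⟩ := Finset.mem_image.1 hv
    obtain ⟨j, -, e⟩ := Finset.mem_image.1 hv'
    have := congrArg Prod.snd (ι.injective (congrArg Subtype.val e))
    simp at this
  have h10 : (SA.image (vA M ι) ∪ SB.image (vB M ι)).card ≤ Nat.card (Vertex (ι '' M.body)) := by
    rw [← Set.ncard_coe_finset, ← Set.ncard_univ]
    exact Set.ncard_le_ncard (Set.subset_univ _) Set.finite_univ
  rw [Finset.card_union_of_disjoint h9] at h10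
  omega

lemma image_seg (X Y : ℂ × ℝ) : ι '' segment ℝ X Y = segment ℝ (ι X) (ι Y) :=
  image_segment ℝ ι.toAffineMap X Y

lemma uncut_cases {e : Set E3} (h : Uncut (ι '' M.body) (tree N ι) e) :
    ∃ k, (k ∈ N.unc ∧ e = ι '' M.rul k) ∨ (k ∈ N.attA ∧ e = ι '' M.eA k) ∨
      (k ∈ N.attB ∧ e = ι '' M.eB k) := by
  have key : ∀ X Y : ℂ × ℝ, M.Cut N.s ∅ ∅ ∅ X Y → ¬ M.Cut N.s N.unc N.attA N.attB X Y →
      ∃ k, (k ∈ N.unc ∧ segment ℝ X Y = M.rul k) ∨ (k ∈ N.attA ∧ segment ℝ X Y = M.eA k) ∨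
        (k ∈ N.attB ∧ segment ℝ X Y = M.eB k) := by
    rintro X Y ⟨k, h1, h2, ⟨h3, -, rfl, rfl⟩ | ⟨h3, -, rfl, rfl⟩ | ⟨-, rfl, rfl⟩⟩ hn
    · refine ⟨k, Or.inr (Or.inl ⟨?_, (M.eA_eq k).symm⟩)⟩
      by_contra hk
      exact hn ⟨k, h1, h2, Or.inl ⟨h3, hk, rfl, rfl⟩⟩
    · refine ⟨k, Or.inr (Or.inr ⟨?_, (M.eB_eq k).symm⟩)⟩
      by_contra hk
      exact hn ⟨k, h1, h2, Or.inr (Or.inl ⟨h3, hk, rfl, rfl⟩)⟩
    · refine ⟨k, Or.inl ⟨?_, (M.rul_eq k).symm⟩⟩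
      by_contra hk
      exact hn ⟨k, h1, h2, Or.inr (Or.inr ⟨hk, rfl, rfl⟩)⟩
  obtain ⟨v, w, h1, h2, rfl⟩ := h
  obtain ⟨hne, h1⟩ := (skel_iff ι N.s v w).1 h1
  have h3 : segment ℝ v.1 w.1 = ι '' segment ℝ (ι.symm v.1) (ι.symm w.1) := by
    rw [image_seg, ι.apply_symm_apply, ι.apply_symm_apply]
  rcases h1 with h1 | h1
  · obtain ⟨k, hk⟩ := key _ _ h1 fun h => h2 ⟨hne, Or.inl h⟩
    refine ⟨k, ?_⟩
    rw [h3]
    rcases hk with ⟨h, e⟩ | ⟨h, e⟩ | ⟨h, e⟩ <;> simp [h, e]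
  · obtain ⟨k, hk⟩ := key _ _ h1 fun h => h2 ⟨hne, Or.inr h⟩
    refine ⟨k, ?_⟩
    rw [h3, segment_symm]
    rcases hk with ⟨h, e⟩ | ⟨h, e⟩ | ⟨h, e⟩ <;> simp [h, e]

lemma uncut_of {X Y : ℂ × ℝ} (hne : X ≠ Y) (h : M.Cut N.s ∅ ∅ ∅ X Y)
    (h1 : ¬ M.Cut N.s N.unc N.attA N.attB X Y) (h2 : ¬ M.Cut N.s N.unc N.attA N.attB Y X) :
    Uncut (ι '' M.body) (tree N ι) (ι '' segment ℝ X Y) := by
  refine ⟨⟨ι X, (cut_vertex ι h).1⟩, ⟨ι Y, (cut_vertex ι h).2⟩,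
    (skel_iff ι N.s _ _).2 ⟨fun e => hne (ι.injective (congrArg Subtype.val e)),
      Or.inl (by simpa using h)⟩, fun h => ?_, image_seg ι X Y⟩
  rcases h.2 with h | h
  · exact h1 (by simpa using h)
  · exact h2 (by simpa using h)

lemma a_ne {k : ℤ} (hk : 0 < M.α k) : M.a (k - 1) ≠ M.a k := fun e => by
  have h := congrArg (cp (M.φ k + π / 2)) (M.ha k)
  rw [cp_add, cp_mul, cp_nn, e] at h
  simp at h
  exact hk.ne' h

lemma uncut_rul {k : ℤ} (hk : k ∈ N.unc) : Uncut (ι '' M.body) (tree N ι) (ι '' M.rul k) := by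
  obtain ⟨h1, h2⟩ := N.unc_mem k hk
  rw [M.rul_eq]
  refine uncut_of N ι (by simp) ⟨k, h1, by omega, Or.inr (Or.inr ⟨by simp, rfl, rfl⟩)⟩ ?_ ?_
  · rintro ⟨j, h3, h4, ⟨-, -, -, e⟩ | ⟨-, -, e, -⟩ | ⟨h5, e, e'⟩⟩
    · simp at e
    · simp at e
    · exact h5 (M.rul_inj h1 (by omega) h3 h4 (congrArg Prod.fst e) (congrArg Prod.fst e') ▸ hk)
  · rintro ⟨j, h3, h4, ⟨-, -, e, -⟩ | ⟨-, -, -, e⟩ | ⟨h5, e, e'⟩⟩ <;> simp at e

lemma uncut_eA {k : ℤ} (hk : k ∈ N.attA) : Uncut (ι '' M.body) (tree N ι) (ι '' M.eA k) := by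
  obtain ⟨h1, h2, h0⟩ := N.attA_mem k hk
  rw [M.eA_eq]
  refine uncut_of N ι (fun e => a_ne h0 (congrArg Prod.fst e))
    ⟨k, h1, h2, Or.inl ⟨h0, by simp, rfl, rfl⟩⟩ ?_ ?_
  · rintro ⟨j, h3, h4, ⟨h5, h6, -, e⟩ | ⟨-, -, e, -⟩ | ⟨-, -, e⟩⟩
    · exact h6 (M.a_inj h1 h2 h3 h4 h0 h5 (congrArg Prod.fst e) ▸ hk)
    · simp at e
    · simp at e
  · rintro ⟨j, h3, h4, ⟨h5, -, e, e'⟩ | ⟨-, -, e, -⟩ | ⟨-, -, e⟩⟩
    · exact M.a_rev h0 h5 (congrArg Prod.fst e') (congrArg Prod.fst e)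
    · simp at e
    · simp at e

lemma uncut_eB {k : ℤ} (hk : k ∈ N.attB) : Uncut (ι '' M.body) (tree N ι) (ι '' M.eB k) := by
  obtain ⟨h1, h2, h0⟩ := N.attB_mem k hk
  rw [M.eB_eq]
  refine uncut_of N ι (fun e => a_ne (M := M.swap) h0 (congrArg Prod.fst e))
    ⟨k, h1, h2, Or.inr (Or.inl ⟨h0, by simp, rfl, rfl⟩)⟩ ?_ ?_
  · rintro ⟨j, h3, h4, ⟨-, -, e, -⟩ | ⟨h5, h6, -, e⟩ | ⟨-, e, -⟩⟩
    · simp at e
    · exact h6 (M.swap.a_inj h1 h2 h3 h4 h0 h5 (congrArg Prod.fst e) ▸ hk)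
    · simp at e
  · rintro ⟨j, h3, h4, ⟨-, -, e, -⟩ | ⟨h5, -, e, e'⟩ | ⟨-, e, -⟩⟩
    · simp at e
    · exact M.swap.a_rev h0 h5 (congrArg Prod.fst e') (congrArg Prod.fst e)
    · simp at e

open Classical in
/-- The label of a face. -/
noncomputable def lab (F : Set E3) : Lab :=
  if h : ∃ L, M.Valid N.s L ∧ F = ι '' M.face L then h.choose else .top

lemma lab_eq {L : Lab} (h : M.Valid N.s L) : lab N ι (ι '' M.face L) = L := by
  have h1 : ∃ L', M.Valid N.s L' ∧ ι '' M.face L = ι '' M.face L' := ⟨L, h, rfl⟩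
  rw [lab, dif_pos h1]
  exact M.face_inj h1.choose_spec.1 h
    (Set.image_injective.2 ι.injective h1.choose_spec.2).symm

/-- The identification of the complex numbers with the plane. -/
noncomputable def toE2 : ℂ ≃ₗᵢ[ℝ] E2 := Complex.orthonormalBasisOneI.repr

/-- The placements. -/
noncomputable def place (F : Set E3) (x : E3) : E2 := toE2 (N.f (lab N ι F) (ι.symm x))

lemma place_eq {L : Lab} (h : M.Valid N.s L) (X : ℂ × ℝ) :
    place N ι (ι '' M.face L) (ι X) = toE2 (N.f L X) := by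
  rw [place, lab_eq N ι h, ι.symm_apply_apply]

lemma glued_symm {P : Set E3} {T : SimpleGraph (Vertex P)} {X Y : Set E3 × E3}
    (h : Glued P T X Y) : Glued P T Y X := by
  obtain ⟨h1, h2, h3, e, h4, h5, h6, h7⟩ := h
  exact ⟨h2, h1, h3.symm, e, h4, h3 ▸ h5, h7, h6⟩

lemma glued_of_gl {U V : Lab × (ℂ × ℝ)} (h : M.Gl N.unc N.attA N.attB U V) :
    Glued (ι '' M.body) (tree N ι) (ι '' M.face U.1, ι U.2) (ι '' M.face V.1, ι V.2) := by
  have hf : ∀ L, M.Valid N.s L → IsFace (ι '' M.body) 2 (ι '' M.face L) := fun L hL =>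
    (M.face_iff ι N.s _).2 ⟨L, hL, rfl⟩
  obtain ⟨e, k, ⟨h1, h2, h3, h4⟩ | ⟨h1, h2, h3, h4⟩ | ⟨h1, h2, h3, h4⟩⟩ := h <;> rw [h2, h3]
  · have := N.unc_mem k h1
    exact ⟨hf _ ⟨this.1, by omega⟩, hf _ ⟨by omega, this.2⟩, congrArg ι e, _, uncut_rul N ι h1,
      ⟨_, h4, rfl⟩, Set.image_mono (M.rul_sub k).1, Set.image_mono (M.rul_sub k).2⟩
  · have := N.attA_mem k h1
    exact ⟨hf _ ⟨this.1, this.2.1⟩, hf .top trivial, congrArg ι e, _, uncut_eA N ι h1,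
      ⟨_, h4, rfl⟩, Set.image_mono (M.eA_sub k).1, Set.image_mono (M.eA_sub k).2⟩
  · have := N.attB_mem k h1
    exact ⟨hf _ ⟨this.1, this.2.1⟩, hf .bot trivial, congrArg ι e, _, uncut_eB N ι h1,
      ⟨_, h4, rfl⟩, Set.image_mono (M.eB_sub k).1, Set.image_mono (M.eB_sub k).2⟩

lemma gl_point {U V : Lab × (ℂ × ℝ)} (h : Relation.ReflTransGen
    (fun U V => M.Gl N.unc N.attA N.attB U V ∨ M.Gl N.unc N.attA N.attB V U) U V) :
    U.2 = V.2 := by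
  induction h with
  | refl => rfl
  | tail _ h ih => exact ih.trans (h.elim (fun h => h.1) fun h => h.1.symm)

/-- An isometric image of a collinear set has no interior point. -/
lemma no_interior {S : Set (ℂ × ℝ)} (hS : Collinear ℝ S) (g : ℂ × ℝ → E2)
    (hg : ∀ X ∈ S, ∀ Y ∈ S, dist (g X) (g Y) = dist (ι X) (ι Y)) {z : E2} :
    z ∉ interior (g '' S) := by
  intro hz
  obtain ⟨r, hr, h⟩ := Metric.mem_nhds_iff.1 (mem_interior_iff_mem_nhds.1 hz)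
  have n3 : ‖((3 * (r / 5) : ℝ) : ℂ)‖ = 3 * (r / 5) := by
    rw [Complex.norm_real, Real.norm_of_nonneg (by positivity)]
  have n4 : ‖((4 * (r / 5) : ℝ) : ℂ) * Complex.I‖ = 4 * (r / 5) := by
    rw [norm_mul, Complex.norm_I, mul_one, Complex.norm_real, Real.norm_of_nonneg (by positivity)]
  have n5 : ‖((3 * (r / 5) : ℝ) : ℂ) - ((4 * (r / 5) : ℝ) : ℂ) * Complex.I‖ = 5 * (r / 5) := by
    rw [← sq_eq_sq₀ (norm_nonneg _) (by positivity), Complex.sq_norm, Complex.normSq_apply]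
    simp only [Complex.sub_re, Complex.sub_im, Complex.mul_re, Complex.mul_im, Complex.ofReal_re,
      Complex.ofReal_im, Complex.I_re, Complex.I_im]
    ring
  have d : ∀ u v : ℂ, dist (z + toE2 u) (z + toE2 v) = ‖u - v‖ := fun u v => by
    rw [dist_add_left, toE2.dist_map, dist_eq_norm]
  have m : ∀ u : ℂ, ‖u‖ < r → ∃ X ∈ S, g X = z + toE2 u := fun u hu =>
    h (by simpa [Metric.mem_ball, dist_eq_norm] using hu)
  obtain ⟨X0, s0, e0⟩ := m 0 (by simpa using hr)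
  obtain ⟨X1, s1, e1⟩ := m _ (by rw [n3]; linarith)
  obtain ⟨X2, s2, e2⟩ := m _ (by rw [n4]; linarith)
  have d01 : dist (ι X1) (ι X0) = 3 * (r / 5) := by rw [← hg _ s1 _ s0, e0, e1, d, sub_zero, n3]
  have d02 : dist (ι X2) (ι X0) = 4 * (r / 5) := by rw [← hg _ s2 _ s0, e0, e2, d, sub_zero, n4]
  have d12 : dist (ι X1) (ι X2) = 5 * (r / 5) := by rw [← hg _ s1 _ s2, e1, e2, d, n5]
  have hc : Collinear ℝ {X0, X1, X2} := hS.subset (by
    rintro x (rfl | rfl | rfl) <;> assumption)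
  rcases hc.wbtw_or_wbtw_or_wbtw with k | k | k <;>
    have := (k.map ι.toAffineMap).dist_add_dist <;>
    simp only [AffineEquiv.coe_toAffineMap, dist_comm (ι X0), dist_comm (ι X2) (ι X1), d01, d02,
      d12] at this <;> linarith

end Br

open Br in
theorem bridge (M : Model) (N : M.NetData) (ι : (ℂ × ℝ) ≃ᵃ[ℝ] E3)
    (hι : ∀ X Y, dist (ι X) (ι Y) ^ 2 =
      Complex.normSq (X.1 - Y.1) + M.h ^ 2 * (X.2 - Y.2) ^ 2) : HasNet (ι '' M.body) := by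
  have hiso : ∀ L, M.Valid N.s L → ∀ X ∈ M.face L, ∀ Y ∈ M.face L,
      dist (toE2 (N.f L X)) (toE2 (N.f L Y)) = dist (ι X) (ι Y) := by
    intro L hL X hX Y hY
    rw [← sq_eq_sq₀ dist_nonneg dist_nonneg, hι, ← N.iso L hL X hX Y hY, toE2.dist_map,
      dist_eq_norm, Complex.sq_norm]
  refine ⟨tree N ι, tree_le N ι, tree_isTree N ι, place N ι, ?_, ?_, ?_, ?_⟩
  · intro F hF
    obtain ⟨L, hL, rfl⟩ := (M.face_iff ι N.s F).1 hF
    rintro _ ⟨X, hX, rfl⟩ _ ⟨Y, hY, rfl⟩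
    rw [place_eq N ι hL, place_eq N ι hL]
    exact hiso L hL X hX Y hY
  · intro F G e hF hG he h1 h2 x hx
    obtain ⟨L, hL, rfl⟩ := (M.face_iff ι N.s F).1 hF
    obtain ⟨L', hL', rfl⟩ := (M.face_iff ι N.s G).1 hG
    obtain ⟨k, ⟨hk, rfl⟩ | ⟨hk, rfl⟩ | ⟨hk, rfl⟩⟩ := uncut_cases N ι he <;>
      obtain ⟨X, hX, rfl⟩ := hx <;>
      rw [Set.image_subset_image_iff ι.injective] at h1 h2 <;>
      rw [place_eq N ι hL, place_eq N ι hL']
    · obtain ⟨k1, k2⟩ := N.unc_mem k hk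
      have := N.cunc k hk X hX
      rcases M.of_rul_sub k1 k2 hL h1 with rfl | rfl <;>
        rcases M.of_rul_sub k1 k2 hL' h2 with rfl | rfl <;> simp [this]
    · obtain ⟨k1, k2, k3⟩ := N.attA_mem k hk
      have := N.cA k hk X hX
      rcases M.of_eA_sub k1 k2 k3 hL h1 with rfl | rfl <;>
        rcases M.of_eA_sub k1 k2 k3 hL' h2 with rfl | rfl <;> simp [this]
    · obtain ⟨k1, k2, k3⟩ := N.attB_mem k hk
      have := N.cB k hk X hX
      rcases M.of_eB_sub k1 k2 k3 hL h1 with rfl | rfl <;>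
        rcases M.of_eB_sub k1 k2 k3 hL' h2 with rfl | rfl <;> simp [this]
  · intro F G hF hG hne
    obtain ⟨L, hL, rfl⟩ := (M.face_iff ι N.s F).1 hF
    obtain ⟨L', hL', rfl⟩ := (M.face_iff ι N.s G).1 hG
    rw [Set.disjoint_iff_inter_eq_empty, ← interior_inter, Set.eq_empty_iff_forall_notMem]
    intro z hz
    refine no_interior ι (M.inter_collinear hL hL' fun e => hne (by rw [e]))
      (fun X => toE2 (N.f L X)) (fun X hX Y hY => hiso L hL X hX.1 Y hY.1) (interior_mono ?_ hz)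
    rintro w ⟨⟨_, ⟨X, hX, rfl⟩, e⟩, ⟨_, ⟨Y, hY, rfl⟩, e'⟩⟩
    rw [place_eq N ι hL] at e
    rw [place_eq N ι hL'] at e'
    have : X = Y := gl_point N (N.inj L L' hL hL' X hX Y hY (toE2.injective (e.trans e'.symm)))
    exact ⟨X, ⟨hX, this ▸ hY⟩, e⟩
  · intro F G hF hG
    obtain ⟨L, hL, rfl⟩ := (M.face_iff ι N.s F).1 hF
    obtain ⟨L', hL', rfl⟩ := (M.face_iff ι N.s G).1 hG
    rintro _ ⟨X, hX, rfl⟩ _ ⟨Y, hY, rfl⟩ e
    rw [place_eq N ι hL, place_eq N ι hL'] at e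
    exact Relation.ReflTransGen.lift (fun U : Lab × (ℂ × ℝ) => (ι '' M.face U.1, ι U.2))
      (fun U V h => h.elim (glued_of_gl N ι) fun h => glued_symm (glued_of_gl N ι h)) _ _
      (N.inj L L' hL hL' X hX Y hY (toE2.injective e))

end Pool.Agent.P.MP_36f9aa_co
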