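import Pool.Agent.P.MP_36f9aa_co.Model

set_option autoImplicit false

namespace Pool.Agent.P.MP_36f9aa_co

open Real

namespace Choice

variable {M : Model} {f g k0 : ℤ} {c p0 q0 : ℝ}

lemma lt_of (M : Model) {i j : ℤ} (h : M.φ i < M.φ j) : i < j := M.mono.lt_iff_lt.1 h

lemma swap_d (M : Model) (k : ℤ) : M.swap.d k = -M.d k := by
  show M.b k - M.a k = -(M.a k - M.b k)
  ring

lemma conn_swap (h : M.Conn f g k0 c) : M.swap.Conn g f k0 c := by
  refine ⟨h.hg, h.hf, ?_, h.c1, h.c2, h.g1, h.f1, ?_⟩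
  · rcases h.kind with e | e | e
    · exact Or.inl ⟨e.2, e.1⟩
    · exact Or.inr (Or.inr ⟨e.1, e.2.1, e.2.2.2, e.2.2.1⟩)
    · exact Or.inr (Or.inl ⟨e.1, e.2.1, e.2.2.2, e.2.2.1⟩)
  · have := h.ctr
    rw [swap_d, chi_neg, chi_neg]
    show M.φ g - c + (M.φ f - c) + -chi M.h (M.φ g) (M.d k0) - -chi M.h (M.φ f) (M.d k0) = 0
    linarith

lemma conn_of_adj (hf : 0 < M.β f) (hg : 0 < M.α g)
    (kind : (f = k0 ∧ g = k0) ∨ (f = k0 ∧ g = k0 + 1 ∧ M.α f = 0 ∧ M.β g = 0) ∨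
      (g = k0 ∧ f = k0 + 1 ∧ M.α f = 0 ∧ M.β g = 0))
    (hδ : |M.φ f - M.φ g| < π / 2) :
    ∃ c, M.Conn f g k0 c ∧ |M.φ f - c| ≤ |M.φ f - M.φ g| ∧ |M.φ g - c| ≤ |M.φ f - M.φ g| := by
  have hs : M.φ k0 < M.φ (k0 + 1) := M.mono (by omega)
  have s1 := add_chi_strictMono M.hh (M.d k0) hs
  have s2 := sub_chi_strictMono M.hh (M.d k0) hs
  simp only at s1 s2
  have key : ∀ c, M.φ k0 ≤ c → c ≤ M.φ (k0 + 1) →
      (M.φ f - c) + (M.φ g - c) + chi M.h (M.φ f) (M.d k0) - chi M.h (M.φ g) (M.d k0) = 0 →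
      |M.φ f - c| ≤ |M.φ f - M.φ g| → |M.φ g - c| ≤ |M.φ f - M.φ g| →
      ∃ c, M.Conn f g k0 c ∧ |M.φ f - c| ≤ |M.φ f - M.φ g| ∧ |M.φ g - c| ≤ |M.φ f - M.φ g| :=
    fun c h1 h2 h3 h4 h5 => ⟨c, ⟨hf, hg, kind, h1, h2, h4.trans_lt hδ, h5.trans_lt hδ, h3⟩, h4, h5⟩
  rcases kind with ⟨rfl, rfl⟩ | ⟨rfl, rfl, -⟩ | ⟨rfl, rfl, -⟩
  · exact key (M.φ g) le_rfl hs.le (by ring) (by simp) (by simp)
  · refine key ((M.φ f + M.φ (f + 1) + chi M.h (M.φ f) (M.d f) -
      chi M.h (M.φ (f + 1)) (M.d f)) / 2) (by linarith) (by linarith) (by ring) ?_ ?_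
    · rw [abs_of_neg (a := M.φ f - M.φ (f + 1)) (by linarith), abs_le]
      constructor <;> linarith
    · rw [abs_of_neg (a := M.φ f - M.φ (f + 1)) (by linarith), abs_le]
      constructor <;> linarith
  · refine key ((M.φ (g + 1) + M.φ g + chi M.h (M.φ (g + 1)) (M.d g) -
      chi M.h (M.φ g) (M.d g)) / 2) (by linarith) (by linarith) (by ring) ?_ ?_
    · rw [abs_of_pos (a := M.φ (g + 1) - M.φ g) (by linarith), abs_le]
      constructor <;> linarith
    · rw [abs_of_pos (a := M.φ (g + 1) - M.φ g) (by linarith), abs_le]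
      constructor <;> linarith

lemma α_per_mul (M : Model) (k m : ℤ) : M.α (k + m * M.n) = M.α k := by
  induction m using Int.induction_on with
  | zero => simp
  | succ m ih => rw [show k + ((m : ℤ) + 1) * M.n = k + m * M.n + M.n by ring, M.α_per, ih]
  | pred m ih =>
    have := M.α_per (k + (-(m : ℤ) - 1) * M.n)
    rw [show k + (-(m : ℤ) - 1) * M.n + M.n = k + -(m : ℤ) * M.n by ring, ih] at this
    exact this.symm

/-- A closest pair of a top normal and a bottom normal. -/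
lemma exists_min (M : Model) : ∃ f g, 0 < M.β f ∧ 0 < M.α g ∧ |M.φ f - M.φ g| < π / 2 ∧
    ∀ j i, 0 < M.β j → 0 < M.α i → |M.φ f - M.φ g| ≤ |M.φ j - M.φ i| := by
  classical
  have hpi := pi_pos
  have hn : (0 : ℤ) < M.n := by exact_mod_cast M.hn
  let S := ((Finset.Ico (0 : ℤ) M.n) ×ˢ (Finset.Icc (-(M.n : ℤ)) (2 * M.n))).filter
    (fun x => 0 < M.β x.1 ∧ 0 < M.α x.2)
  have shift : ∀ j i, 0 < M.β j → 0 < M.α i → |M.φ j - M.φ i| < π / 2 →
      ∃ x ∈ S, |M.φ x.1 - M.φ x.2| = |M.φ j - M.φ i| := by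
    intro j i hj hi h
    rw [abs_lt] at h
    have e1 : i < j + M.n := lt_of M (by rw [M.per]; linarith)
    have e2 : j < i + M.n := lt_of M (by rw [M.per]; linarith)
    have e3 := Int.emod_nonneg j hn.ne'
    have e4 := Int.emod_lt_of_pos j hn
    have e5 : j + -(j / M.n) * M.n = j % M.n := by
      have := Int.emod_add_mul_ediv j M.n
      linarith
    refine ⟨(j + -(j / M.n) * M.n, i + -(j / M.n) * M.n), ?_, ?_⟩
    · simp only [S, Finset.mem_filter, Finset.mem_product, Finset.mem_Ico, Finset.mem_Icc]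
      refine ⟨⟨⟨by omega, by omega⟩, by omega, by omega⟩, ?_, ?_⟩
      · exact hj.trans_eq (α_per_mul M.swap j _).symm
      · rwa [α_per_mul]
    · simp only [M.per_mul]
      congr 1
      ring
  obtain ⟨j0, hj0, -, -⟩ := M.gapb 0
  obtain ⟨i0, hi0, a1, a2⟩ := M.gapa (M.φ j0 - π / 2)
  have h0 : |M.φ j0 - M.φ i0| < π / 2 := by rw [abs_lt]; constructor <;> linarith
  obtain ⟨x0, hx0, e0⟩ := shift j0 i0 hj0 hi0 h0
  obtain ⟨x, hx, hmin⟩ := Finset.exists_min_image S (fun x => |M.φ x.1 - M.φ x.2|) ⟨x0, hx0⟩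
  have hlt : |M.φ x.1 - M.φ x.2| < π / 2 := (hmin x0 hx0).trans_lt (e0 ▸ h0)
  have hx' := (Finset.mem_filter.1 hx).2
  refine ⟨x.1, x.2, hx'.1, hx'.2, hlt, fun j i hj hi => ?_⟩
  by_cases h : |M.φ j - M.φ i| < π / 2
  · obtain ⟨y, hy, e⟩ := shift j i hj hi h
    exact e ▸ hmin y hy
  · linarith

lemma kind_of_min (hf : 0 < M.β f) (hg : 0 < M.α g)
    (hmin : ∀ j i, 0 < M.β j → 0 < M.α i → |M.φ f - M.φ g| ≤ |M.φ j - M.φ i|) :
    ∃ k0, (f = k0 ∧ g = k0) ∨ (f = k0 ∧ g = k0 + 1 ∧ M.α f = 0 ∧ M.β g = 0) ∨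
      (g = k0 ∧ f = k0 + 1 ∧ M.α f = 0 ∧ M.β g = 0) := by
  by_cases e : f = g
  · exact ⟨g, Or.inl ⟨e, rfl⟩⟩
  have h0 : 0 < |M.φ f - M.φ g| := abs_pos.2 (sub_ne_zero.2 fun h => e (M.mono.injective h))
  have a1 : M.α f = 0 := by
    refine le_antisymm (not_lt.1 fun h => ?_) (M.α_nn f)
    have := hmin f f hf h
    simp only [sub_self, abs_zero] at this
    linarith
  have a2 : M.β g = 0 := by
    refine le_antisymm (not_lt.1 fun h => ?_) (M.β_nn g)
    have := hmin g g h hg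
    simp only [sub_self, abs_zero] at this
    linarith
  rcases lt_or_gt_of_ne e with e | e
  · refine ⟨f, Or.inr (Or.inl ⟨rfl, ?_, a1, a2⟩)⟩
    by_contra hc
    have b1 : M.φ f < M.φ (f + 1) := M.mono (by omega)
    have b2 : M.φ (f + 1) < M.φ g := M.mono (by omega)
    rcases M.nd (f + 1) with h | h
    · have := hmin f (f + 1) hf h
      rw [abs_of_neg (by linarith), abs_of_neg (by linarith)] at this
      linarith
    · have := hmin (f + 1) g h hg
      rw [abs_of_neg (by linarith), abs_of_neg (by linarith)] at this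
      linarith
  · refine ⟨g, Or.inr (Or.inr ⟨rfl, ?_, a1, a2⟩)⟩
    by_contra hc
    have b1 : M.φ g < M.φ (g + 1) := M.mono (by omega)
    have b2 : M.φ (g + 1) < M.φ f := M.mono (by omega)
    rcases M.nd (g + 1) with h | h
    · have := hmin f (g + 1) hf h
      rw [abs_of_pos (by linarith), abs_of_pos (by linarith)] at this
      linarith
    · have := hmin (g + 1) g h hg
      rw [abs_of_pos (by linarith), abs_of_pos (by linarith)] at this
      linarith

/-- The smallest admissible wing. -/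
structure Win (M : Model) (f g : ℤ) (c p0 q0 : ℝ) : Prop where
  p1 : π / 4 ≤ p0
  p2 : p0 < π / 2
  q1 : π / 4 ≤ q0
  q2 : q0 < π / 2
  fp : M.φ f ≤ c + p0
  gp : M.φ g ≤ c + p0
  fq : c - q0 ≤ M.φ f
  gq : c - q0 ≤ M.φ g

lemma Win.swap (h : Win M f g c p0 q0) : Win M.swap g f c p0 q0 :=
  ⟨h.p1, h.p2, h.q1, h.q2, h.gp, h.fp, h.gq, h.fq⟩

/-- All admissible end rulings lean forward. -/
structure PP (M : Model) (c p0 q0 : ℝ) : Prop where
  fw : ∀ θ k, c + p0 ≤ θ → θ ≤ c + π / 2 → M.φ k ≤ θ → θ < M.φ (k + 1) →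
    0 < cp (θ + π / 2) (M.d k)
  bw : ∀ θ k, c - π / 2 ≤ θ → θ ≤ c - q0 → M.φ k < θ → θ ≤ M.φ (k + 1) →
    0 < cp (θ + π / 2) (M.d k)

lemma good1 (h : M.Conn f g k0 c) (w : Win M f g c p0 q0) {θ θ' : ℝ} {k k' : ℤ}
    (a1 : c + p0 ≤ θ) (a2 : θ ≤ c + π / 2) (a3 : M.φ k ≤ θ) (a4 : θ < M.φ (k + 1))
    (a5 : 0 ≤ cp (θ + π / 2) (M.d k))
    (b1 : c - π / 2 ≤ θ') (b2 : θ' ≤ c - q0) (b3 : M.φ k' < θ') (b4 : θ' ≤ M.φ (k' + 1))
    (b5 : cp (θ' + π / 2) (M.d k') ≤ 0) : M.Good c := by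
  have := w.p1
  have := w.q1
  have e1 : f < k + 1 := lt_of M (by linarith [w.fp])
  have e2 : g < k + 1 := lt_of M (by linarith [w.gp])
  have e3 : k' < f := lt_of M (by linarith [w.fq])
  have e4 : k' < g := lt_of M (by linarith [w.gq])
  refine ⟨f, g, k0, k, k' + 1, θ - c, c - θ', h, by linarith, by linarith, by linarith,
    by linarith, by linarith, by linarith, ?_, by linarith, by omega, by omega, by omega, by omega,
    ?_, Or.inl ?_⟩
  · rw [add_sub_cancel_right]; linarith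
  · rwa [add_sub_cancel]
  · rwa [add_sub_cancel_right, sub_sub_cancel]

lemma tri (h : M.Conn f g k0 c) (w : Win M f g c p0 q0) :
    (M.Good c ∨ M.swap.Good c) ∨ PP M c p0 q0 ∨ PP M.swap c p0 q0 := by
  by_contra hn
  simp only [not_or] at hn
  obtain ⟨⟨n1, n2⟩, n3, n4⟩ := hn
  obtain ⟨k, a3, a4⟩ := M.exists_idx (c + π / 2)
  obtain ⟨k', b3, b4⟩ := M.exists_idx' (c - π / 2)
  have p2 := w.p2
  have q2 := w.q2
  rw [show k' = k' - 1 + 1 by ring] at b4
  rcases le_total 0 (cp (c + π / 2 + π / 2) (M.d k)) with a5 | a5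
  · have B : ∀ θ k, c - π / 2 ≤ θ → θ ≤ c - q0 → M.φ k < θ → θ ≤ M.φ (k + 1) →
        0 < cp (θ + π / 2) (M.d k) := fun θ j b1 b2 b3 b4 => not_le.1 fun b5 =>
      n1 (good1 h w (by linarith) le_rfl a3 a4 a5 b1 b2 b3 b4 b5)
    refine n3 ⟨fun θ j a1 a2 a3 a4 => not_le.1 fun a5 => n2 ?_, B⟩
    refine good1 (conn_swap h) w.swap a1 a2 a3 a4 (by rw [swap_d, cp_neg]; linarith)
      le_rfl (by linarith) b3 b4 ?_
    rw [swap_d, cp_neg]
    linarith [B _ _ le_rfl (by linarith) b3 b4]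
  · have B : ∀ θ k, c - π / 2 ≤ θ → θ ≤ c - q0 → M.φ k < θ → θ ≤ M.φ (k + 1) →
        0 < cp (θ + π / 2) (M.swap.d k) := fun θ j b1 b2 b3 b4 => not_le.1 fun b5 =>
      n2 (good1 (conn_swap h) w.swap (by linarith) le_rfl a3 a4
        (by rw [swap_d, cp_neg]; linarith) b1 b2 b3 b4 b5)
    refine n4 ⟨fun θ j a1 a2 a3 a4 => not_le.1 fun a5 => n1 ?_, B⟩
    rw [swap_d, cp_neg] at a5
    refine good1 h w a1 a2 a3 a4 (by linarith) le_rfl (by linarith) b3 b4 ?_
    have := B _ _ le_rfl (by linarith) b3 b4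
    rw [swap_d, cp_neg] at this
    linarith

lemma sign (h : M.Conn f g k0 c) : ∃ μ μ' : ℝ, 0 < μ ∧ 0 < μ' ∧
    2 * cp c (M.d k0) * sin (c - M.φ g) = μ * sin ((M.φ f - c) - (c - M.φ g)) ∧
    2 * cp c (M.d k0) * sin (M.φ f - c) = μ' * sin ((M.φ f - c) - (c - M.φ g)) := by
  set d := M.d k0
  have e1 := nn_mul_fv M.h (M.φ f) d
  have e2 := nn_mul_fv M.h (M.φ g) (-d)
  rw [fv_polar M.hh, mul_left_comm, ← nn_add] at e1 e2
  have e3 : ln M.h (-d) = ln M.h d := by simp [ln]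
  rw [e3, chi_neg] at e2
  have m1 := lt_wd M.hh (M.φ f) d
  have m2 := lt_wd M.hh (M.φ g) (-d)
  set μ := wd M.h (M.φ f) d - cp (M.φ f) d
  set μ' := wd M.h (M.φ g) (-d) - cp (M.φ g) (-d)
  have x1 := congrArg (cp c) e1
  have x2 := congrArg (cp c) e2
  have y1 := congrArg (cp (c + π / 2)) e1
  have y2 := congrArg (cp (c + π / 2)) e2
  simp only [cp_add, cp_mul, cp_nn, cp_neg, ← sub_sub, cos_sub_pi_div_two] at x1 x2 y1 y2
  have e4 : M.φ g + -chi M.h (M.φ g) d - c = -(M.φ f + chi M.h (M.φ f) d - c) := by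
    have := h.ctr
    linarith
  rw [e4, cos_neg] at x2
  rw [e4, sin_neg] at y2
  have e5 : M.φ g - c = -(c - M.φ g) := by ring
  rw [e5, cos_neg] at x2
  rw [e5, sin_neg] at y2
  refine ⟨μ, μ', by simp only [μ]; linarith, by simp only [μ']; linarith, ?_, ?_⟩
  · rw [sin_sub (M.φ f - c)]
    linear_combination (sin (c - M.φ g)) * (x2 - x1) + (cos (c - M.φ g)) * (y1 + y2)
  · rw [sin_sub (M.φ f - c)]
    linear_combination (sin (M.φ f - c)) * (x2 - x1) + (cos (M.φ f - c)) * (y1 + y2)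

/-- What the second kind of layout needs. -/
structure Ex (M : Model) (f g : ℤ) (c p0 q0 : ℝ) : Prop where
  e1 : c - M.φ g ≤ p0
  e2 : M.φ f - c ≤ q0
  eB : ∃ j, 0 < M.β j ∧ c + p0 < M.φ j ∧ M.φ j < c + 3 * π / 2 - q0
  eA : ∃ i, 0 < M.α i ∧ c + p0 + π / 2 < M.φ i ∧ M.φ i < c + 2 * π - q0

lemma ex_quarter (h1 : c - M.φ g ≤ π / 4) (h2 : M.φ f - c ≤ π / 4) :
    Ex M f g c (π / 4) (π / 4) := by
  obtain ⟨j, j0, j1, j2⟩ := M.gapb (c + π / 4)
  obtain ⟨i, i0, i1, i2⟩ := M.gapa (c + 3 * π / 4)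
  exact ⟨h1, h2, ⟨j, j0, j1, by linarith⟩, ⟨i, i0, by linarith, by linarith⟩⟩

lemma ex_of_min (h : M.Conn f g k0 c) (w : Win M f g c p0 q0)
    (hp : p0 = π / 4 ∨ p0 = M.φ f - c ∨ p0 = M.φ g - c)
    (hq : q0 = π / 4 ∨ q0 = c - M.φ f ∨ q0 = c - M.φ g)
    (hδ : |M.φ f - M.φ g| < π / 2)
    (hmin : ∀ j i, 0 < M.β j → 0 < M.α i → |M.φ f - M.φ g| ≤ |M.φ j - M.φ i|)
    (P : PP M c p0 q0) : Ex M f g c p0 q0 := by
  have hpi := pi_pos
  have p1 := w.p1
  have q1 := w.q1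
  have p2 := w.p2
  have q2 := w.q2
  have c1 := h.c1
  have c2 := h.c2
  rcases h.kind with ⟨rfl, rfl⟩ | ⟨rfl, rfl, a0, b0⟩ | ⟨rfl, rfl, a0, b0⟩
  · have e : M.φ g = c := by have := h.ctr; linarith
    obtain rfl : p0 = π / 4 := by rcases hp with e1 | e1 | e1 <;> linarith
    obtain rfl : q0 = π / 4 := by rcases hq with e1 | e1 | e1 <;> linarith
    exact ex_quarter (by linarith) (by linarith)
  · have hs : M.φ f < M.φ (f + 1) := M.mono (by omega)
    rw [abs_of_neg (by linarith)] at hδ hmin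
    have fp := w.gp
    have fq := w.fq
    refine ⟨by linarith, by linarith, ?_, ?_⟩
    · by_cases e : c - M.φ f ≤ π / 4
      · obtain rfl : q0 = π / 4 := by rcases hq with e1 | e1 | e1 <;> linarith
        obtain ⟨j, j0, j1, j2⟩ := M.gapb (c + π / 4)
        have j3 : f < j := lt_of M (by linarith)
        have j4 : j ≠ f + 1 := fun e1 => by rw [e1, b0] at j0; exact lt_irrefl _ j0
        have j5 : M.φ (f + 1) < M.φ j := M.mono (by omega)
        refine ⟨j, j0, ?_, by linarith⟩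
        rcases hp with e1 | e1 | e1 <;> linarith
      · obtain ⟨j, j0, j1, j2⟩ := M.gapb (M.φ f)
        have j3 : f < j := lt_of M j1
        have j4 : j ≠ f + 1 := fun e1 => by rw [e1, b0] at j0; exact lt_irrefl _ j0
        have j5 : M.φ (f + 1) < M.φ j := M.mono (by omega)
        have j6 := hmin j (f + 1) j0 h.hg
        rw [abs_of_pos (by linarith)] at j6
        refine ⟨j, j0, ?_, ?_⟩
        · rcases hp with e1 | e1 | e1 <;> linarith
        · rcases hq with e1 | e1 | e1 <;> linarith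
    · by_cases e : M.φ (f + 1) - c ≤ π / 4
      · obtain rfl : p0 = π / 4 := by rcases hp with e1 | e1 | e1 <;> linarith
        obtain ⟨i, i0, i1, i2⟩ := M.gapa (c + 3 * π / 4)
        have i3 : i < f + 1 + M.n := lt_of M (by rw [M.per]; linarith)
        have i4 : i ≠ f + M.n := fun e1 => by rw [e1, M.α_per, a0] at i0; exact lt_irrefl _ i0
        have i5 : M.φ i < M.φ (f + M.n) := M.mono (by omega)
        rw [M.per] at i5
        refine ⟨i, i0, by linarith, ?_⟩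
        rcases hq with e1 | e1 | e1 <;> linarith
      · obtain ⟨i, i0, i1, i2⟩ := M.gapa (M.φ (f + 1) - π)
        have i3 : i < f + 1 := lt_of M (by linarith)
        have i4 : i ≠ f := fun e1 => by rw [e1, a0] at i0; exact lt_irrefl _ i0
        have i5 : M.φ i < M.φ f := M.mono (by omega)
        have i6 := hmin f i h.hf i0
        rw [abs_of_pos (by linarith)] at i6
        refine ⟨i + M.n, by rwa [M.α_per], ?_, ?_⟩
        · rw [M.per]
          rcases hp with e1 | e1 | e1 <;> linarith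
        · rw [M.per]
          rcases hq with e1 | e1 | e1 <;> linarith
  · have hs : M.φ g < M.φ (g + 1) := M.mono (by omega)
    rw [abs_of_pos (by linarith)] at hδ hmin
    obtain ⟨μ, μ', m1, m2, s1, s2⟩ := sign h
    have d1 : c - M.φ g ≤ π / 4 := by
      by_contra e
      obtain ⟨k, k1, k2⟩ := M.exists_idx' (c - π / 2)
      have k3 : k - 1 < g := lt_of M (by linarith)
      have e1 : M.b g = M.b (k - 1) := M.b_const k3.le fun j j1 j2 => by
        refine le_antisymm (not_lt.1 fun j0 => ?_) (M.β_nn j)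
        have j3 := M.mono.monotone j2
        have j4 := M.mono.monotone (show k ≤ j by omega)
        have := hmin j g j0 h.hg
        rw [abs_of_nonpos (by linarith)] at this
        linarith
      have e2 := P.bw _ (k - 1) le_rfl (by linarith) k1 (by rwa [sub_add_cancel])
      have e3 := M.supa g (k - 1) c c1 c2
      rw [sub_add_cancel, Model.d, cp_sub, ← e1] at e2
      have e4 : 0 < cp c (M.d g) := by rw [Model.d, cp_sub]; linarith
      have e5 : 0 < sin (c - M.φ g) := sin_pos_of_pos_of_lt_pi (by linarith) (by linarith)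
      have e6 : sin (M.φ (g + 1) - c - (c - M.φ g)) < 0 :=
        sin_neg_of_neg_of_neg_pi_lt (by linarith) (by linarith)
      nlinarith [mul_pos e4 e5, mul_neg_of_pos_of_neg m1 e6]
    have d2 : M.φ (g + 1) - c ≤ π / 4 := by
      by_contra e
      obtain ⟨k, k1, k2⟩ := M.exists_idx (c + π / 2)
      have k3 : g < k + 1 := lt_of M (by linarith)
      have e1 : M.a k = M.a g := M.a_const (by omega) fun j j1 j2 => by
        refine le_antisymm (not_lt.1 fun j0 => ?_) (M.α_nn j)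
        have j3 := M.mono.monotone j2
        have j4 := M.mono.monotone (show g + 1 ≤ j by omega)
        have := hmin (g + 1) j h.hf j0
        rw [abs_of_nonpos (by linarith)] at this
        linarith
      have e2 := P.fw _ k (by linarith) le_rfl k1 k2
      have e3 := M.supb g k c c1 c2
      rw [add_assoc, add_halves, cp_add_pi, Model.d, cp_sub, e1] at e2
      have e4 : cp c (M.d g) < 0 := by rw [Model.d, cp_sub]; linarith
      have e5 : 0 < sin (M.φ (g + 1) - c) := sin_pos_of_pos_of_lt_pi (by linarith) (by linarith)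
      have e6 : 0 < sin (M.φ (g + 1) - c - (c - M.φ g)) :=
        sin_pos_of_pos_of_lt_pi (by linarith) (by linarith)
      nlinarith [mul_neg_of_neg_of_pos e4 e5, mul_pos m2 e6]
    obtain rfl : p0 = π / 4 := by rcases hp with e1 | e1 | e1 <;> linarith
    obtain rfl : q0 = π / 4 := by rcases hq with e1 | e1 | e1 <;> linarith
    exact ex_quarter d1 d2

/-- The exceptional configuration. -/
structure F3 (M : Model) (c p0 q0 : ℝ) (jA jB : ℤ) : Prop where
  le : jA ≤ jB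
  hA : 0 < M.α jA
  hB : 0 < M.β jB
  lo : c + 3 * π / 4 < M.φ jA
  hi : M.φ jB < c + 5 * π / 4
  zA : ∀ k, jA < k → M.φ k < c + 2 * π - q0 → M.α k = 0
  zB : ∀ k, k < jB → c + p0 < M.φ k → M.β k = 0

lemma good2 (h : M.Conn f g k0 c) (w : Win M f g c p0 q0) (P : PP M c p0 q0)
    (e1 : c - M.φ g ≤ p0) (e2 : M.φ f - c ≤ q0) {jA0 jB0 : ℤ} (hlt : jB0 < jA0)
    (b0 : 0 < M.β jB0) (b1 : c + p0 < M.φ jB0) (b2 : M.φ jB0 ≤ c + 3 * π / 2 - q0)
    (a0 : 0 < M.α jA0) (a1 : c + p0 + π / 2 ≤ M.φ jA0) (a2 : M.φ jA0 < c + 2 * π - q0) :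
    M.Good c := by
  have p1 := w.p1
  have q1 := w.q1
  have p2 := w.p2
  have q2 := w.q2
  obtain ⟨kp, kp1, kp2⟩ := M.exists_idx (c + p0)
  obtain ⟨kq, kq1, kq2⟩ := M.exists_idx' (c - q0)
  obtain ⟨jB, ⟨B1, B2, B3⟩, B4⟩ := Int.exists_greatest_of_bdd
    (P := fun j => j < jA0 ∧ 0 < M.β j ∧ M.φ j ≤ c + 3 * π / 2 - q0)
    ⟨jA0, fun z hz => hz.1.le⟩ ⟨jB0, hlt, b0, b2⟩
  obtain ⟨jA, ⟨A1, A2, A3⟩, A4⟩ := Int.exists_least_of_bdd
    (P := fun j => jB < j ∧ 0 < M.α j ∧ c + p0 + π / 2 ≤ M.φ j)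
    ⟨jB, fun z hz => hz.1.le⟩ ⟨jA0, B1, a0, a1⟩
  obtain ⟨j, ⟨J1, J2, J3⟩, J4⟩ := Int.exists_greatest_of_bdd
    (P := fun j => jB ≤ j ∧ j < jA ∧ (j = jB ∨ M.φ j < c + p0 + π / 2))
    ⟨jA, fun z hz => hz.2.1.le⟩ ⟨jB, le_rfl, A1, Or.inl rfl⟩
  have B5 := B4 jB0 ⟨hlt, b0, b2⟩
  have A5 := A4 jA0 ⟨B1, a0, a1⟩
  have B6 := M.mono.monotone B5
  have A6 := M.mono.monotone A5
  have f1 : f < kp + 1 := lt_of M (by linarith [w.fp])
  have f2 : g < kp + 1 := lt_of M (by linarith [w.gp])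
  have f3 : kq - 1 < f := lt_of M (by linarith [w.fq])
  have f4 : kq - 1 < g := lt_of M (by linarith [w.gq])
  have J5 : c + p0 + π / 2 ≤ M.φ (j + 1) := by
    by_cases e : j + 1 = jA
    · rwa [e]
    · by_contra hc
      have := J4 (j + 1) ⟨by omega, by omega, Or.inr (not_le.1 hc)⟩
      omega
  refine ⟨f, g, k0, kp, kq, p0, q0, h, p1, p2.le, q1, q2.le, kp1, kp2, kq1, kq2, by omega,
    by omega, by omega, by omega, (P.fw _ _ le_rfl (by linarith) kp1 kp2).le,
    Or.inr ⟨(P.bw _ _ (by linarith) le_rfl kq1 (by rwa [sub_add_cancel])).le, e1, e2, jB, j, jA,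
      lt_of M (by linarith), J1, J2, lt_of M (by rw [M.per]; linarith), B2, A2, ?_, ?_, ?_, J5⟩⟩
  · rcases J3 with rfl | e
    · linarith [pi_pos]
    · linarith
  · by_cases e : j + 1 = jA
    · rw [e]; linarith [pi_pos]
    · rcases M.nd (j + 1) with e3 | e3
      · have := A4 (j + 1) ⟨by omega, e3, J5⟩
        omega
      · by_contra hc
        have := B4 (j + 1) ⟨by omega, e3, by linarith⟩
        omega
  · rcases J3 with rfl | e
    · exact B3
    · linarith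

lemma step (h : M.Conn f g k0 c) (w : Win M f g c p0 q0) (P : PP M c p0 q0)
    (E : Ex M f g c p0 q0) : M.Good c ∨ ∃ jA jB, F3 M c p0 q0 jA jB := by
  have p1 := w.p1
  have q1 := w.q1
  obtain ⟨j, j0, j1, j2⟩ := E.eB
  obtain ⟨i, i0, i1, i2⟩ := E.eA
  obtain ⟨kp, kp1, -⟩ := M.exists_idx (c + p0)
  obtain ⟨kq, -, kq2⟩ := M.exists_idx (c + 2 * π - q0)
  obtain ⟨jB, ⟨B1, B2⟩, B3⟩ := Int.exists_least_of_bdd
    (P := fun j => 0 < M.β j ∧ c + p0 < M.φ j)
    ⟨kp, fun z hz => (lt_of M (by linarith [hz.2])).le⟩ ⟨j, j0, j1⟩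
  obtain ⟨jA, ⟨A1, A2⟩, A3⟩ := Int.exists_greatest_of_bdd
    (P := fun j => 0 < M.α j ∧ M.φ j < c + 2 * π - q0)
    ⟨kq + 1, fun z hz => (lt_of M (by linarith [hz.2])).le⟩ ⟨i, i0, i2⟩
  have B4 := M.mono.monotone (B3 j ⟨j0, j1⟩)
  have A4 := M.mono.monotone (A3 i ⟨i0, i2⟩)
  rcases lt_or_ge jB jA with e | e
  · exact Or.inl (good2 h w P E.e1 E.e2 e B1 B2 (by linarith) A1 (by linarith) A2)
  · have e1 := M.mono.monotone e
    refine Or.inr ⟨jA, jB, e, A1, B1, by linarith, by linarith, fun k k1 k2 => ?_,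
      fun k k1 k2 => ?_⟩
    · refine le_antisymm (not_lt.1 fun k0 => ?_) (M.α_nn k)
      have := A3 k ⟨k0, k2⟩
      omega
    · refine le_antisymm (not_lt.1 fun k0 => ?_) (M.β_nn k)
      have := B3 k ⟨k0, k2⟩
      omega

lemma aux (h : M.Conn f g k0 c) (w : Win M f g c p0 q0) (P : PP M c p0 q0)
    (E : Ex M f g c p0 q0) : ∃ c, M.Good c ∨ M.swap.Good c := by
  have hpi := pi_pos
  have p1 := w.p1
  have q1 := w.q1
  have p2 := w.p2
  have q2 := w.q2
  rcases step h w P E with G | ⟨jA, jB, F⟩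
  · exact ⟨c, Or.inl G⟩
  have lo := F.lo
  have hi := F.hi
  have hle := M.mono.monotone F.le
  have adj : jB ≤ jA + 1 := by
    by_contra hc
    have b1 : M.φ jA < M.φ (jA + 1) := M.mono (by omega)
    have b2 : M.φ (jA + 1) < M.φ jB := M.mono (by omega)
    have z1 := F.zA (jA + 1) (by omega) (by linarith)
    have z2 := F.zB (jA + 1) (by omega) (by linarith)
    rcases M.nd (jA + 1) with e | e <;> linarith
  obtain ⟨kp, kp1, kp2⟩ := M.exists_idx (c + π / 2)
  obtain ⟨kq, kq1, kq2⟩ := M.exists_idx' (c - π / 2)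
  have R1 : cp c (M.a kp) < cp c (M.b (jB - 1)) := by
    have e1 : kp < jB := lt_of M (by linarith)
    have e2 : M.b (jB - 1) = M.b kp := M.b_const (by omega) fun k k1 k2 =>
      F.zB k (by omega) (by linarith [M.mono.monotone (show kp + 1 ≤ k by omega)])
    have e3 := P.fw _ kp (by linarith) le_rfl kp1 kp2
    rw [add_assoc, add_halves, cp_add_pi, Model.d, cp_sub] at e3
    rw [e2]
    linarith
  have R2 : cp c (M.b (kq - 1)) < cp c (M.a jA) := by
    have e1 : jA < kq + M.n := lt_of M (by rw [M.per]; linarith)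
    have e2 : M.a (kq - 1 + M.n) = M.a jA := M.a_const (by omega) fun k k1 k2 =>
      F.zA k k1 (by have := M.mono.monotone k2; rw [M.per] at this; linarith)
    have e3 := P.bw _ (kq - 1) le_rfl (by linarith) kq1 (by rwa [sub_add_cancel])
    rw [sub_add_cancel, Model.d, cp_sub] at e3
    rw [← e2, M.pera]
    linarith
  have hne : ¬ (M.φ jA ≤ c + π ∧ c + π ≤ M.φ jB) := by
    rintro ⟨e1, e2⟩
    have s1 := M.supa jA kp (c + π) e1 (e2.trans (M.mono.monotone adj))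
    have s2 := M.supb (jB - 1) (kq - 1) (c + π)
      ((M.mono.monotone (show jB - 1 ≤ jA by omega)).trans e1) (by rwa [sub_add_cancel])
    rw [cp_add_pi, cp_add_pi] at s1 s2
    linarith
  have hgap : M.φ jB - M.φ jA ≤ π / 4 := by
    by_contra hc
    exact hne ⟨by linarith, by linarith⟩
  have kind : (jB = jA ∧ jA = jA) ∨ (jB = jA ∧ jA = jA + 1 ∧ M.α jB = 0 ∧ M.β jA = 0) ∨
      (jA = jA ∧ jB = jA + 1 ∧ M.α jB = 0 ∧ M.β jA = 0) := by
    rcases F.le.eq_or_lt with e | e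
    · exact Or.inl ⟨e.symm, rfl⟩
    · exact Or.inr (Or.inr ⟨rfl, by omega, F.zA _ e (by linarith), F.zB _ e (by linarith)⟩)
  obtain ⟨c', h', x1, x2⟩ := conn_of_adj F.hB F.hA kind
    (by rw [abs_of_nonneg (by linarith)]; linarith)
  rw [abs_of_nonneg (a := M.φ jB - M.φ jA) (by linarith), abs_le] at x1 x2
  obtain ⟨x1, x3⟩ := x1
  obtain ⟨x2, x4⟩ := x2
  have w' : Win M jB jA c' (π / 4) (π / 4) := ⟨le_rfl, by linarith, le_rfl, by linarith,
    by linarith, by linarith, by linarith, by linarith⟩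
  rcases tri h' w' with G | P' | P'
  · exact ⟨c', G⟩
  · rcases step h' w' P' (ex_quarter (by linarith) (by linarith)) with G | ⟨iA, iB, F'⟩
    · exact ⟨c', Or.inl G⟩
    exfalso
    have f1 := abs_lt.1 h.f1
    have g1 := abs_lt.1 h.g1
    have y1 : g + M.n ≤ iA := by
      by_contra hc
      have := F'.zA (g + M.n) (by omega) (by rw [M.per]; linarith [g1.2])
      rw [M.α_per] at this
      linarith [h.hg]
    have y2 : iB ≤ f + M.n := by
      by_contra hc
      have := F'.zB (f + M.n) (by omega) (by rw [M.per]; linarith [f1.1])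
      rw [M.β_per] at this
      linarith [h.hf]
    have y3 := F'.le
    have y4 : g = k0 ∧ iA = g + M.n ∧ iB = f + M.n ∧ cp c (M.b (f - 1)) = cp c (M.b k0) := by
      rcases h.kind with ⟨rfl, rfl⟩ | ⟨rfl, rfl, a0, b0⟩ | ⟨rfl, rfl, a0, b0⟩
      · refine ⟨rfl, by omega, by omega, ?_⟩
        have e : M.φ g = c := by have := h.ctr; linarith
        rw [M.hb g, cp_add, cp_mul, cp_nn, e, add_sub_cancel_left, cos_pi_div_two]
        ring
      · omega
      · have z1 : iA ≠ g + 1 + M.n := fun e => by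
          have := F'.hA
          rw [e, M.α_per] at this
          linarith
        have z2 : iB ≠ g + M.n := fun e => by
          have := F'.hB
          rw [e, M.β_per] at this
          linarith
        exact ⟨rfl, by omega, by omega, by rw [add_sub_cancel_right]⟩
    obtain ⟨rfl, rfl, rfl, y5⟩ := y4
    have e1 : g < kp + 1 := lt_of M (by linarith [g1.2])
    have e2 : M.a kp = M.a g := M.a_const (by omega) fun k k1 k2 => by
      rw [← M.α_per]
      exact F'.zA _ (by omega) (by rw [M.per]; linarith [M.mono.monotone k2])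
    have e3 : kq - 1 < f := lt_of M (by linarith [f1.1])
    have e4 : M.b (f - 1) = M.b (kq - 1) := M.b_const (by omega) fun k k1 k2 => by
      rw [← M.β_per]
      exact F'.zB _ (by omega)
        (by rw [M.per]; linarith [M.mono.monotone (show kq ≤ k by omega)])
    have s1 := M.supa g jA c h.c1 h.c2
    have s2 := M.supb g (jB - 1) c h.c1 h.c2
    rw [e2] at R1
    rw [← e4] at R2
    linarith
  · exfalso
    rcases lt_or_ge (c + π) (M.φ jA) with e | e
    · obtain ⟨k, k1, k2⟩ := M.exists_idx (c - π / 2)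
      obtain ⟨θ, t1, t2⟩ := exists_between (a₁ := c - π / 2)
        (a₂ := min (M.φ (k + 1)) (min (c - q0) (c' - 3 * π / 2)))
        (lt_min k2 (lt_min (by linarith) (by linarith)))
      simp only [lt_min_iff] at t2
      obtain ⟨t2, t3, t4⟩ := t2
      have u1 := P.bw θ k t1.le t3.le (by linarith) t2.le
      have u2 := P'.fw (θ + 2 * π) (k + M.n) (by linarith) (by linarith)
        (by show M.φ _ ≤ _; rw [M.per]; linarith)
        (by show _ < M.φ _; rw [show k + M.n + 1 = k + 1 + M.n by ring, M.per]; linarith)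
      rw [swap_d, cp_neg, M.d_per, show θ + 2 * π + π / 2 = θ + π / 2 + 2 * π by ring,
        cp_add_two_pi] at u2
      linarith
    · have e' : M.φ jB < c + π := not_le.1 fun e' => hne ⟨e, e'⟩
      obtain ⟨k, k1, k2⟩ := M.exists_idx' (c + π / 2)
      obtain ⟨θ, t1, t2⟩ := exists_between (a₂ := c + π / 2)
        (a₁ := max (M.φ (k - 1)) (max (c + p0) (c' - π / 2)))
        (max_lt k1 (max_lt (by linarith) (by linarith)))
      simp only [max_lt_iff] at t1
      obtain ⟨t1, t3, t4⟩ := t1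
      have u1 := P.fw θ (k - 1) t3.le t2.le t1.le (by rw [sub_add_cancel]; linarith)
      have u2 := P'.bw θ (k - 1) t4.le (by linarith) t1
        (by show _ ≤ M.φ _; rw [sub_add_cancel]; linarith)
      rw [swap_d, cp_neg] at u2
      linarith

lemma rot_d (M : Model) (c : ℝ) (k : ℤ) : (M.rot c).d k = nn (-c) * M.d k := by
  show nn (-c) * M.a k - nn (-c) * M.b k = nn (-c) * (M.a k - M.b k)
  ring

lemma chi_rot (h θ c : ℝ) (z : ℂ) : chi h (θ - c) (nn (-c) * z) = chi h θ z := by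
  simp only [chi, wd, cp_nn_mul]
  rw [show θ - c + π / 2 - -c = θ + π / 2 by ring, show θ - c - -c = θ by ring]

end Choice

open Choice

theorem Model.choice (M : Model) : ∃ c, M.Good c ∨ M.swap.Good c := by
  obtain ⟨f, g, hf, hg, hδ, hmin⟩ := exists_min M
  obtain ⟨k0, kind⟩ := kind_of_min hf hg hmin
  obtain ⟨c, h, -, -⟩ := conn_of_adj hf hg kind hδ
  have f1 := abs_lt.1 h.f1
  have g1 := abs_lt.1 h.g1
  have hpi := pi_pos
  obtain ⟨p0, hp, p1, p2, p3⟩ : ∃ p0, (p0 = π / 4 ∨ p0 = M.φ f - c ∨ p0 = M.φ g - c) ∧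
      π / 4 ≤ p0 ∧ M.φ f - c ≤ p0 ∧ M.φ g - c ≤ p0 :=
    ⟨max (π / 4) (max (M.φ f - c) (M.φ g - c)),
      (max_choice _ _).imp_right fun e => by rw [e]; exact max_choice _ _,
      le_max_left _ _, le_max_of_le_right (le_max_left _ _), le_max_of_le_right (le_max_right _ _)⟩
  obtain ⟨q0, hq, q1, q2, q3⟩ : ∃ q0, (q0 = π / 4 ∨ q0 = c - M.φ f ∨ q0 = c - M.φ g) ∧
      π / 4 ≤ q0 ∧ c - M.φ f ≤ q0 ∧ c - M.φ g ≤ q0 :=
    ⟨max (π / 4) (max (c - M.φ f) (c - M.φ g)),
      (max_choice _ _).imp_right fun e => by rw [e]; exact max_choice _ _,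
      le_max_left _ _, le_max_of_le_right (le_max_left _ _), le_max_of_le_right (le_max_right _ _)⟩
  have w : Win M f g c p0 q0 := ⟨p1, by rcases hp with e | e | e <;> linarith [f1.2, g1.2], q1,
    by rcases hq with e | e | e <;> linarith [f1.1, g1.1], by linarith, by linarith, by linarith,
    by linarith⟩
  rcases tri h w with G | P | P
  · exact ⟨c, G⟩
  · exact aux h w P (ex_of_min h w hp hq hδ hmin P)
  · obtain ⟨c', G⟩ := aux (conn_swap h) w.swap P (ex_of_min (conn_swap h) w.swap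
      (hp.imp_right Or.symm) (hq.imp_right Or.symm) (by rw [abs_sub_comm]; exact hδ)
      (fun j i hj hi => by rw [abs_sub_comm, abs_sub_comm (M.swap.φ j)]; exact hmin i j hi hj) P)
    exact ⟨c', G.symm⟩

theorem Model.good_rot (M : Model) {c : ℝ} (h : M.Good c) : (M.rot c).Good 0 := by
  obtain ⟨f, g, k0, kp, kq, p, q, h, a1, a2, a3, a4, a5, a6, a7, a8, a9, a10, a11, a12, a13,
    a14⟩ := h
  have φe : ∀ k, (M.rot c).φ k = M.φ k - c := fun _ => rfl
  have e1 : cp (0 + p + π / 2) ((M.rot c).d kp) = cp (c + p + π / 2) (M.d kp) := by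
    rw [rot_d, cp_nn_mul]; congr 1; ring
  have e2 : cp (0 - q + π / 2) ((M.rot c).d (kq - 1)) = cp (c - q + π / 2) (M.d (kq - 1)) := by
    rw [rot_d, cp_nn_mul]; congr 1; ring
  refine ⟨f, g, k0, kp, kq, p, q, ⟨h.hf, h.hg, h.kind, ?_, ?_, ?_, ?_, ?_⟩, a1, a2, a3, a4, ?_, ?_,
    ?_, ?_, a9, a10, a11, a12, e1 ▸ a13, ?_⟩
  · rw [φe]; linarith [h.c1]
  · rw [φe]; linarith [h.c2]
  · rw [φe, sub_zero]; exact h.f1
  · rw [φe, sub_zero]; exact h.g1
  · rw [φe, φe, rot_d, chi_rot, chi_rot, sub_zero, sub_zero]; exact h.ctr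
  · rw [φe]; linarith
  · rw [φe]; linarith
  · rw [φe]; linarith
  · rw [φe]; linarith
  · rw [e2]
    refine a14.imp_right ?_
    rintro ⟨b1, b2, b3, jB, j, jA, b4, b5, b6, b7, b8, b9, b10, b11, b12, b13⟩
    simp only [φe]
    exact ⟨b1, by linarith, by linarith, jB, j, jA, b4, b5, b6, b7, b8, b9, by linarith,
      by linarith, by linarith, by linarith⟩

end Pool.Agent.P.MP_36f9aa_co
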