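import Mathlib

set_option autoImplicit false

namespace Pool.Agent.P.MP_36f9aa_co

/-- Euclidean 3-space. -/
abbrev E3 := EuclideanSpace ℝ (Fin 3)

/-- The Euclidean plane. -/
abbrev E2 := EuclideanSpace ℝ (Fin 2)

/-- A convex polygon in space: the convex hull of finitely many points, of dimension 2. -/
def IsPolygon (A : Set E3) : Prop :=
  ∃ s : Finset E3, A = convexHull ℝ (s : Set E3) ∧ Module.finrank ℝ (vectorSpan ℝ A) = 2

/-- `F` is a `k`-dimensional face of `P`: a nonempty exposed subset of dimension `k`.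
Vertices, edges and faces of a polyhedron are the cases `k = 0, 1, 2`. -/
def IsFace (P : Set E3) (k : ℕ) (F : Set E3) : Prop :=
  IsExposed ℝ P F ∧ F.Nonempty ∧ Module.finrank ℝ (vectorSpan ℝ F) = k

/-- The vertices of `P`. -/
abbrev Vertex (P : Set E3) := {v : E3 // IsFace P 0 {v}}

/-- The edge graph of `P`: two vertices are adjacent when the segment joining them is an edge. -/
def skeleton (P : Set E3) : SimpleGraph (Vertex P) where
  Adj v w := v ≠ w ∧ IsFace P 1 (segment ℝ v.1 w.1)
  symm := ⟨fun _ _ h => ⟨h.1.symm, by rw [segment_symm]; exact h.2⟩⟩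
  loopless := ⟨fun _ h => h.1 rfl⟩

/-- `e` is an edge of `P` that is not cut, i.e. not in `T`. -/
def Uncut (P : Set E3) (T : SimpleGraph (Vertex P)) (e : Set E3) : Prop :=
  ∃ v w : Vertex P, (skeleton P).Adj v w ∧ ¬ T.Adj v w ∧ e = segment ℝ v.1 w.1

/-- The point `X.2` of the face `X.1` and the point `Y.2` of the face `Y.1` are the same point
of an uncut edge common to both faces. -/
def Glued (P : Set E3) (T : SimpleGraph (Vertex P)) (X Y : Set E3 × E3) : Prop :=
  IsFace P 2 X.1 ∧ IsFace P 2 Y.1 ∧ X.2 = Y.2 ∧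
    ∃ e, Uncut P T e ∧ X.2 ∈ e ∧ e ⊆ X.1 ∧ e ⊆ Y.1

/-- `P` has a net: a spanning tree `T` of the edge graph and an isometric placement `f F` of every
face `F` in the plane, such that placements agree along uncut edges, images of distinct faces have
disjoint interiors, and two points of faces have the same image only if they are identified
through uncut edges. -/
def HasNet (P : Set E3) : Prop :=
  ∃ T : SimpleGraph (Vertex P), T ≤ skeleton P ∧ T.IsTree ∧
    ∃ f : Set E3 → E3 → E2,
      (∀ F, IsFace P 2 F → ∀ x ∈ F, ∀ y ∈ F, dist (f F x) (f F y) = dist x y) ∧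
      (∀ F G e, IsFace P 2 F → IsFace P 2 G → Uncut P T e → e ⊆ F → e ⊆ G →
        ∀ x ∈ e, f F x = f G x) ∧
      (∀ F G, IsFace P 2 F → IsFace P 2 G → F ≠ G →
        Disjoint (interior (f F '' F)) (interior (f G '' G))) ∧
      (∀ F G, IsFace P 2 F → IsFace P 2 G → ∀ x ∈ F, ∀ y ∈ G, f F x = f G y →
        Relation.ReflTransGen (Glued P T) (F, x) (G, y))

end Pool.Agent.P.MP_36f9aa_co
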