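import Pool.Agent.P.MP_36f9aa_co.Model

set_option autoImplicit false

namespace Pool.Agent.P.MP_36f9aa_co

open Real

lemma exists_sum {G : Type*} [AddCommGroup G] (δ : ℤ → G) (j : ℤ) (x : G) :
    ∃ F : ℤ → G, F j = x ∧ ∀ k, F k = F (k - 1) + δ k := by
  refine ⟨fun k => x + ∑ i ∈ Finset.Ioc j k, δ i - ∑ i ∈ Finset.Ioc k j, δ i, by simp, fun k => ?_⟩
  rcases le_or_gt k j with h | h
  · have e1 : Finset.Ioc j k = ∅ := Finset.Ioc_eq_empty (by omega)
    have e2 : Finset.Ioc j (k - 1) = ∅ := Finset.Ioc_eq_empty (by omega)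
    have e3 : Finset.Ioc (k - 1) j = insert k (Finset.Ioc k j) := by
      ext i; simp only [Finset.mem_Ioc, Finset.mem_insert]; omega
    simp only [e1, e2, e3]
    rw [Finset.sum_insert (by simp)]; simp; abel
  · have e1 : Finset.Ioc k j = ∅ := Finset.Ioc_eq_empty (by omega)
    have e2 : Finset.Ioc (k - 1) j = ∅ := Finset.Ioc_eq_empty (by omega)
    have e3 : Finset.Ioc j k = insert k (Finset.Ioc j (k - 1)) := by
      ext i; simp only [Finset.mem_Ioc, Finset.mem_insert]; omega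
    simp only [e1, e2, e3]
    rw [Finset.sum_insert (by simp)]; simp; abel

lemma nn_tan (θ : ℝ) : nn (θ + π / 2) = nn θ * Complex.I := by
  apply Complex.ext <;> simp [cos_add, sin_add]

lemma cp_nn_tan (η ψ : ℝ) : cp η (nn (ψ + π / 2)) = sin (η - ψ) := by
  rw [cp_nn, show ψ + π / 2 - η = -(η - ψ) + π / 2 by ring, cos_add_pi_div_two, sin_neg, neg_neg]

lemma nn_turn (φ ψ : ℝ) : nn (ψ + π / 2) - nn (φ + π / 2) =
    ((2 * sin ((φ - ψ) / 2) : ℝ) : ℂ) * nn ((φ + ψ) / 2) := by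
  apply Complex.ext
  · simp only [Complex.sub_re, nn_re, Complex.re_ofReal_mul, cos_add_pi_div_two]
    rw [show -sin ψ - -sin φ = sin φ - sin ψ by ring, sin_sub_sin]
  · simp only [Complex.sub_im, nn_im, Complex.im_ofReal_mul, sin_add_pi_div_two]
    rw [cos_sub_cos, show (ψ - φ) / 2 = -((φ - ψ) / 2) by ring, sin_neg, add_comm ψ φ]; ring

lemma cone_turn {a b φ ψ : ℝ} (h1 : a ≤ (φ + ψ) / 2) (h2 : (φ + ψ) / 2 ≤ b) (h3 : ψ ≤ φ)
    (h4 : φ - ψ ≤ 2 * π) : Cone a b (nn (ψ + π / 2) - nn (φ + π / 2)) := by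
  rw [nn_turn]
  exact Cone.mul (mul_nonneg zero_le_two (sin_nonneg_of_nonneg_of_le_pi (by linarith) (by linarith)))
    (Cone.nn h1 h2)

lemma fv_neg (h θ : ℝ) (d : ℂ) : fv h θ (-d) = (starRingEnd ℂ) (fv h θ d) := by
  apply Complex.ext <;> simp [wd_neg, cp_neg]

lemma wd_conj (h θ : ℝ) (d : ℂ) : wd h (-θ) ((starRingEnd ℂ) d) = wd h θ d := by
  simp [wd, cp_conj]

lemma fv_conj (h θ : ℝ) (d : ℂ) : fv h (-θ) ((starRingEnd ℂ) d) = (starRingEnd ℂ) (fv h θ d) := by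
  apply Complex.ext <;> simp [wd_conj, cp_conj_tan]

lemma chi_conj (h θ : ℝ) (d : ℂ) : chi h (-θ) ((starRingEnd ℂ) d) = -chi h θ d := by
  simp [chi, wd_conj, cp_conj_tan, neg_div]

namespace Model

variable (M : Model)

/-- A development of the lateral band: `ψ k` is the developed normal of face `k` and `Bh k` the
image of `b k`. -/
structure IsDev (ψ : ℤ → ℝ) (Bh : ℤ → ℂ) : Prop where
  ang : ∀ k, ψ (k + 1) + chi M.h (M.φ (k + 1)) (M.d k) = ψ k + chi M.h (M.φ k) (M.d k)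
  pos : ∀ k, Bh k = Bh (k - 1) + (M.β k : ℂ) * nn (ψ k + π / 2)

/-- Developed lateral edge vector. -/
noncomputable def Rh (ψ : ℤ → ℝ) (k : ℤ) : ℂ := nn (ψ k) * fv M.h (M.φ k) (M.d k)
/-- Developed point of lateral edge `k` at level `l`. -/
noncomputable def E (ψ : ℤ → ℝ) (Bh : ℤ → ℂ) (l : ℝ) (k : ℤ) : ℂ := Bh k + (l : ℂ) * M.Rh ψ k
/-- Placement of face `k`. -/
noncomputable def pl (ψ : ℤ → ℝ) (Bh : ℤ → ℂ) (k : ℤ) (X : ℂ × ℝ) : ℂ :=
  M.E ψ Bh X.2 (k - 1) + nn (ψ k - M.φ k) * (X.1 - M.C X.2 (k - 1))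
/-- `X` lies on all lateral edges between faces `k` and `k'`. -/
def Chain (k k' : ℤ) (X : ℂ × ℝ) : Prop := ∀ i, min k k' ≤ i → i < max k k' → X ∈ M.rul i

lemma exists_dev (j : ℤ) : ∃ ψ Bh, M.IsDev ψ Bh ∧ ψ j = M.φ j ∧ Bh j = M.b j := by
  obtain ⟨ψ, h1, h2⟩ := exists_sum
    (fun k => chi M.h (M.φ (k - 1)) (M.d (k - 1)) - chi M.h (M.φ k) (M.d (k - 1))) j (M.φ j)
  obtain ⟨Bh, h3, h4⟩ := exists_sum (fun k => (M.β k : ℂ) * nn (ψ k + π / 2)) j (M.b j)
  refine ⟨ψ, Bh, ⟨fun k => ?_, h4⟩, h1, h3⟩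
  have := h2 (k + 1)
  simp only [add_sub_cancel_right] at this
  linarith

lemma cp_d_succ (k : ℤ) : cp (M.φ k) (M.d k) = cp (M.φ k) (M.d (k - 1)) := by
  rw [M.d_succ k, cp_add, cp_mul, cp_nn_tan]; simp
lemma cp_tan_d_succ (k : ℤ) :
    cp (M.φ k + π / 2) (M.d k) = cp (M.φ k + π / 2) (M.d (k - 1)) + (M.α k - M.β k) := by
  rw [M.d_succ k, cp_add, cp_mul, cp_nn]; simp
lemma wd_succ (k : ℤ) : wd M.h (M.φ k) (M.d k) = wd M.h (M.φ k) (M.d (k - 1)) :=
  wd_congr (M.cp_d_succ k)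
lemma fv_succ (k : ℤ) : fv M.h (M.φ k) (M.d k) =
    fv M.h (M.φ k) (M.d (k - 1)) + ((M.α k - M.β k : ℝ) : ℂ) * Complex.I := by
  apply Complex.ext
  · simp [M.wd_succ k]
  · simp [M.cp_tan_d_succ k]

lemma Chain.symm {M : Model} {k k' : ℤ} {X : ℂ × ℝ} (h : M.Chain k k' X) : M.Chain k' k X :=
  fun i h1 h2 => h i (by rwa [min_comm]) (by rwa [max_comm])

lemma Chain.trans {M : Model} {k j k' : ℤ} {X : ℂ × ℝ} (h : M.Chain k j X) (h' : M.Chain j k' X) :
    M.Chain k k' X := fun i h1 h2 => by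
  by_cases hi : min k j ≤ i ∧ i < max k j
  · exact h i hi.1 hi.2
  · exact h' i (by omega) (by omega)

lemma Chain.refl (M : Model) (k : ℤ) (X : ℂ × ℝ) : M.Chain k k X := fun i h1 h2 => by omega

variable {M}
variable {ψ : ℤ → ℝ} {Bh : ℤ → ℂ}

namespace IsDev

lemma Rh_polar (ψ : ℤ → ℝ) (k : ℤ) :
    M.Rh ψ k = (ln M.h (M.d k) : ℂ) * nn (ψ k + chi M.h (M.φ k) (M.d k)) := by
  rw [Rh, fv_polar M.hh, nn_add]; ring

lemma Rh_pred (D : M.IsDev ψ Bh) (k : ℤ) :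
    M.Rh ψ (k - 1) = nn (ψ k) * fv M.h (M.φ k) (M.d (k - 1)) := by
  have := D.ang (k - 1)
  rw [sub_add_cancel] at this
  rw [Rh_polar, ← this, fv_polar M.hh, nn_add]; ring

lemma E_succ (D : M.IsDev ψ Bh) (l : ℝ) (k : ℤ) :
    M.E ψ Bh l k = M.E ψ Bh l (k - 1) + (M.len l k : ℂ) * nn (ψ k + π / 2) := by
  rw [E, E, D.Rh_pred, Rh, D.pos k, M.fv_succ, nn_tan, len]; push_cast; ring

lemma pl_eq (ψ : ℤ → ℝ) (Bh : ℤ → ℂ) {k : ℤ} {X : ℂ × ℝ} {σ : ℝ}
    (h : X.1 = M.C X.2 (k - 1) + (σ : ℂ) * nn (M.φ k + π / 2)) :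
    M.pl ψ Bh k X = M.E ψ Bh X.2 (k - 1) + (σ : ℂ) * nn (ψ k + π / 2) := by
  rw [pl, h, add_sub_cancel_left, mul_left_comm, ← nn_add]; congr 3; ring

lemma pl_rul (D : M.IsDev ψ Bh) {k : ℤ} {X : ℂ × ℝ} (h : X ∈ M.rul k) :
    M.pl ψ Bh k X = M.E ψ Bh X.2 k := by
  rw [pl_eq ψ Bh (σ := M.len X.2 k) (by rw [h.2.2, M.C_succ]), D.E_succ X.2 k]

lemma pl_rul' (ψ : ℤ → ℝ) (Bh : ℤ → ℂ) {k : ℤ} {X : ℂ × ℝ} (h : X ∈ M.rul k) :
    M.pl ψ Bh (k + 1) X = M.E ψ Bh X.2 k := by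
  rw [pl_eq ψ Bh (σ := 0) (by rw [h.2.2]; simp)]; simp

lemma pl_chain (D : M.IsDev ψ Bh) {k k' : ℤ} {X : ℂ × ℝ} (h : M.Chain k k' X) :
    M.pl ψ Bh k X = M.pl ψ Bh k' X := by
  wlog hk : k ≤ k' generalizing k k'
  · exact (this h.symm (by omega)).symm
  induction k', hk using Int.leInduction with
  | base => rfl
  | succ j hj ih =>
    have hx := h j (by omega) (by omega)
    rw [ih fun i h1 h2 => h i (by omega) (by omega), D.pl_rul hx, pl_rul' ψ Bh hx]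

/-- Placement in the frame of the face. -/
lemma pl_frame (D : M.IsDev ψ Bh) {k : ℤ} {X : ℂ × ℝ} {σ : ℝ}
    (h : X.1 = M.C X.2 (k - 1) + (σ : ℂ) * nn (M.φ k + π / 2)) :
    M.pl ψ Bh k X = Bh (k - 1) + nn (ψ k) *
      ⟨X.2 * wd M.h (M.φ k) (M.d (k - 1)), X.2 * cp (M.φ k + π / 2) (M.d (k - 1)) + σ⟩ := by
  rw [pl_eq ψ Bh h, E, D.Rh_pred, nn_tan, add_assoc]
  congr 1
  rw [mul_left_comm, mul_left_comm (σ : ℂ), ← mul_add]
  congr 1
  apply Complex.ext <;> simp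

lemma iso (D : M.IsDev ψ Bh) {k : ℤ} {X Y : ℂ × ℝ} (hX : X ∈ M.face (.side k))
    (hY : Y ∈ M.face (.side k)) :
    Complex.normSq (M.pl ψ Bh k X - M.pl ψ Bh k Y) =
      Complex.normSq (X.1 - Y.1) + M.h ^ 2 * (X.2 - Y.2) ^ 2 := by
  obtain ⟨-, -, σ, -, -, h1⟩ := hX
  obtain ⟨-, -, σ', -, -, h2⟩ := hY
  rw [D.pl_frame h1, D.pl_frame h2, add_sub_add_left_eq_sub, ← mul_sub, map_mul, normSq_nn, one_mul]
  have e : X.1 - Y.1 = nn (M.φ k) * ⟨(X.2 - Y.2) * cp (M.φ k) (M.d (k - 1)),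
      (X.2 - Y.2) * cp (M.φ k + π / 2) (M.d (k - 1)) + (σ - σ')⟩ := by
    rw [h1, h2, M.C_eq, M.C_eq]
    apply eq_of_cp (M.φ k)
    · simp only [cp_nn_mul, cp_sub, cp_add, cp_mul, cp_nn_tan, sub_self, cp_zero_left, sin_zero]
      ring
    · simp only [cp_nn_mul, cp_sub, cp_add, cp_mul, cp_nn, sub_self, add_sub_cancel_left,
        cp_pi_div_two, cos_zero]
      ring
  rw [e, map_mul, normSq_nn, one_mul]
  simp only [Complex.normSq_apply, Complex.sub_re, Complex.sub_im]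
  linear_combination (X.2 - Y.2) ^ 2 * wd_sq M.h (M.φ k) (M.d (k - 1))

lemma add_mono (D : M.IsDev ψ Bh) : StrictMono fun k => M.φ k + ψ k :=
  strictMono_int_of_lt_succ fun k => by
    have := sub_chi_strictMono M.hh (M.d k) (M.mono (show k < k + 1 by omega))
    have := D.ang k
    dsimp only at *; linarith

lemma sub_mono (D : M.IsDev ψ Bh) : StrictMono fun k => M.φ k - ψ k :=
  strictMono_int_of_lt_succ fun k => by
    have := add_chi_strictMono M.hh (M.d k) (M.mono (show k < k + 1 by omega))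
    have := D.ang k
    dsimp only at *; linarith

lemma abs_sub_lt (D : M.IsDev ψ Bh) {i j : ℤ} (h : i < j) : |ψ j - ψ i| < M.φ j - M.φ i := by
  have h1 := D.add_mono h
  have h2 := D.sub_mono h
  dsimp only at *
  rw [abs_lt]; constructor <;> linarith

lemma abs_sub_le (D : M.IsDev ψ Bh) {i j : ℤ} (h : i ≤ j) : |ψ j - ψ i| ≤ M.φ j - M.φ i := by
  rcases h.eq_or_lt with e | e
  · simp [e]
  · exact (D.abs_sub_lt e).le

lemma cp_E_mono (D : M.IsDev ψ Bh) {η l : ℝ} (l0 : 0 ≤ l) (l1 : l ≤ 1) {i j : ℤ} (hij : i ≤ j)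
    (h : ∀ k, i < k → k ≤ j → 0 ≤ sin (η - ψ k)) :
    cp η (M.E ψ Bh l i) ≤ cp η (M.E ψ Bh l j) := by
  induction j, hij using Int.leInduction with
  | base => exact le_rfl
  | succ j hj ih =>
    rw [D.E_succ l (j + 1), add_sub_cancel_right, cp_add, cp_mul, cp_nn_tan]
    have := mul_nonneg (M.len_nn l0 l1 (j + 1)) (h (j + 1) (by omega) le_rfl)
    have := ih fun k h1 h2 => h k h1 (by omega)
    linarith

lemma cp_E_level (ψ : ℤ → ℝ) (Bh : ℤ → ℂ) {l l' : ℝ} (h : l < l') (j : ℤ) :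
    cp (ψ j) (M.E ψ Bh l j) < cp (ψ j) (M.E ψ Bh l' j) := by
  simp only [E, cp_add, cp_mul, Rh, cp_nn_mul, sub_self, cp_zero_left, fv_re]
  have := wd_pos M.hh (M.φ j) (M.d j)
  nlinarith

lemma cp_E_same (D : M.IsDev ψ Bh) (l : ℝ) (j : ℤ) :
    cp (ψ j) (M.E ψ Bh l j) = cp (ψ j) (M.E ψ Bh l (j - 1)) := by
  rw [D.E_succ l j, cp_add, cp_mul, cp_nn_tan]; simp

/-- A point of a face lies between its two lateral edges. -/
lemma cp_pl_between (D : M.IsDev ψ Bh) {η : ℝ} {k : ℤ} {X : ℂ × ℝ} (hX : X ∈ M.face (.side k))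
    (h : 0 ≤ sin (η - ψ k)) :
    cp η (M.E ψ Bh X.2 (k - 1)) ≤ cp η (M.pl ψ Bh k X) ∧
      cp η (M.pl ψ Bh k X) ≤ cp η (M.E ψ Bh X.2 k) := by
  obtain ⟨-, -, σ, h1, h2, h3⟩ := hX
  rw [pl_eq ψ Bh h3, D.E_succ X.2 k]
  simp only [cp_add, cp_mul, cp_nn_tan]
  constructor <;> nlinarith

/-- Points at different levels are separated by the normal of one of the faces. -/
lemma level_sep (D : M.IsDev ψ Bh) {k k' : ℤ}
    (hψ : ∀ i j, min k k' ≤ i → i ≤ max k k' → min k k' ≤ j → j ≤ max k k' → ψ i - ψ j ≤ π)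
    {X Y : ℂ × ℝ} (hX : X ∈ M.face (.side k)) (hY : Y ∈ M.face (.side k')) (hl : X.2 < Y.2) :
    ∃ j, min k k' ≤ j ∧ j ≤ max k k' ∧ cp (ψ j) (M.pl ψ Bh k X) < cp (ψ j) (M.pl ψ Bh k' Y) := by
  rcases le_total k k' with hk | hk
  · obtain ⟨j, hj, hm⟩ := (Finset.Icc k k').exists_max_image ψ ⟨k, by simp [hk]⟩
    simp only [Finset.mem_Icc] at hj hm
    have s : ∀ i, k ≤ i → i ≤ k' → 0 ≤ sin (ψ j - ψ i) := fun i h1 h2 =>
      sin_nonneg_of_nonneg_of_le_pi (by linarith [hm i ⟨h1, h2⟩])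
        (hψ j i (by omega) (by omega) (by omega) (by omega))
    refine ⟨j, by omega, by omega, ?_⟩
    have a1 := (D.cp_pl_between hX (s k le_rfl hk)).2
    have a2 := D.cp_E_mono hX.1 hX.2.1 hj.1 (η := ψ j) fun i h1 h2 => s i (by omega) (by omega)
    have a3 := cp_E_level (M := M) ψ Bh hl j
    have a4 := D.cp_E_same Y.2 j
    have a5 := D.cp_E_mono hY.1 hY.2.1 (show j - 1 ≤ k' - 1 by omega) (η := ψ j)
      fun i h1 h2 => s i (by omega) (by omega)
    have a6 := (D.cp_pl_between hY (s k' hk le_rfl)).1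
    linarith
  · obtain ⟨j, hj, hm⟩ := (Finset.Icc k' k).exists_min_image ψ ⟨k, by simp [hk]⟩
    simp only [Finset.mem_Icc] at hj hm
    have s : ∀ i, k' ≤ i → i ≤ k → 0 ≤ sin (ψ j + π - ψ i) := fun i h1 h2 =>
      sin_nonneg_of_nonneg_of_le_pi
        (by linarith [hψ i j (by omega) (by omega) (by omega) (by omega)])
        (by linarith [hm i ⟨h1, h2⟩])
    refine ⟨j, by omega, by omega, ?_⟩
    have a1 := (D.cp_pl_between hX (s k hk le_rfl)).1
    have a2 := D.cp_E_mono hX.1 hX.2.1 (show j - 1 ≤ k - 1 by omega) (η := ψ j + π)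
      fun i h1 h2 => s i (by omega) (by omega)
    have a3 := cp_E_level (M := M) ψ Bh hl j
    have a4 := D.cp_E_same X.2 j
    have a5 := D.cp_E_mono hY.1 hY.2.1 hj.1 (η := ψ j + π)
      fun i h1 h2 => s i (by omega) (by omega)
    have a6 := (D.cp_pl_between hY (s k' le_rfl hk)).2
    simp only [cp_add_pi] at *
    linarith

/-- Points at the same level and the same height coincide. -/
lemma same_level (D : M.IsDev ψ Bh) {k k' : ℤ} {η : ℝ}
    (hψ : ∀ i, min k k' ≤ i → i ≤ max k k' → 0 < sin (η - ψ i))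
    {X Y : ℂ × ℝ} (hX : X ∈ M.face (.side k)) (hY : Y ∈ M.face (.side k')) (hl : X.2 = Y.2)
    (he : cp η (M.pl ψ Bh k X) = cp η (M.pl ψ Bh k' Y)) : X = Y ∧ M.Chain k k' X := by
  wlog hk : k ≤ k' generalizing k k' X Y
  · obtain ⟨e, c⟩ := this (fun i h1 h2 => hψ i (by omega) (by omega)) hY hX hl.symm he.symm
      (by omega)
    exact ⟨e.symm, e ▸ c.symm⟩
  obtain ⟨l0, l1, σ, h1, h2, h3⟩ := id hX
  obtain ⟨-, -, σ', h1', h2', h3'⟩ := id hY
  rcases hk.eq_or_lt with rfl | hk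
  · refine ⟨?_, Chain.refl _ _ _⟩
    rw [pl_eq ψ Bh h3, pl_eq ψ Bh h3', hl] at he
    simp only [cp_add, cp_mul, cp_nn_tan] at he
    have s := hψ k (by omega) (by omega)
    have : σ = σ' := by
      have : (σ - σ') * sin (η - ψ k) = 0 := by linarith
      rcases mul_eq_zero.1 this with e | e
      · linarith
      · exact absurd e s.ne'
    exact Prod.ext (by rw [h3, h3', hl, this]) hl
  have sq : ∀ i, k ≤ i → i < k' → cp η (M.E ψ Bh X.2 i) = cp η (M.pl ψ Bh k X) := fun i i1 i2 => by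
    have a1 := (D.cp_pl_between hX (hψ k (by omega) (by omega)).le).2
    have a2 := D.cp_E_mono l0 l1 i1 (η := η) fun i h1 h2 => (hψ i (by omega) (by omega)).le
    have a3 := D.cp_E_mono l0 l1 (show i ≤ k' - 1 by omega) (η := η)
      fun i h1 h2 => (hψ i (by omega) (by omega)).le
    have a4 := (D.cp_pl_between hY (hψ k' (by omega) (by omega)).le).1
    rw [← hl] at a4
    linarith
  have ch : ∀ i, k ≤ i → i < k' → X.1 = M.C X.2 i := fun i i1 => by
    induction i, i1 using Int.leInduction with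
    | base =>
      intro i2
      have := sq k le_rfl i2
      rw [pl_eq ψ Bh h3, D.E_succ X.2 k] at this
      simp only [cp_add, cp_mul, cp_nn_tan] at this
      have s := hψ k (by omega) (by omega)
      have : σ = M.len X.2 k := by
        have : (σ - M.len X.2 k) * sin (η - ψ k) = 0 := by linarith
        rcases mul_eq_zero.1 this with e | e
        · linarith
        · exact absurd e s.ne'
      rw [h3, this, ← M.C_succ]
    | succ i i1 ih =>
      intro i2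
      have e1 := sq i i1 (by omega)
      have e2 := sq (i + 1) (by omega) i2
      rw [D.E_succ X.2 (i + 1), add_sub_cancel_right, cp_add, cp_mul, cp_nn_tan, e1] at e2
      have s := hψ (i + 1) (by omega) (by omega)
      have : M.len X.2 (i + 1) = 0 := by
        have : M.len X.2 (i + 1) * sin (η - ψ (i + 1)) = 0 := by linarith
        rcases mul_eq_zero.1 this with e | e
        · exact e
        · exact absurd e s.ne'
      rw [M.C_succ X.2 (i + 1), this, add_sub_cancel_right, ← ih (by omega)]; simp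
  refine ⟨Prod.ext ?_ hl, fun i i1 i2 => ⟨l0, l1, ch i (by omega) (by omega)⟩⟩
  have := sq (k' - 1) (by omega) (by omega)
  rw [he, pl_eq ψ Bh h3', hl, cp_add, cp_mul, cp_nn_tan] at this
  have s := hψ k' (by omega) (by omega)
  have : σ' = 0 := by
    have : σ' * sin (η - ψ k') = 0 := by linarith
    rcases mul_eq_zero.1 this with e | e
    · exact e
    · exact absurd e s.ne'
  rw [h3', this, ch (k' - 1) (by omega) (by omega), hl]; simp

/-- A strip turning by less than `π` is embedded. -/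
lemma inj_strip (D : M.IsDev ψ Bh) {k k' : ℤ}
    (hψ : ∀ i j, min k k' ≤ i → i ≤ max k k' → min k k' ≤ j → j ≤ max k k' → ψ i - ψ j < π)
    {X Y : ℂ × ℝ} (hX : X ∈ M.face (.side k)) (hY : Y ∈ M.face (.side k'))
    (he : M.pl ψ Bh k X = M.pl ψ Bh k' Y) : X = Y ∧ M.Chain k k' X := by
  rcases lt_trichotomy X.2 Y.2 with h | h | h
  · obtain ⟨j, -, -, hj⟩ := D.level_sep (fun i j a b c d => (hψ i j a b c d).le) hX hY h
    rw [he] at hj; exact absurd hj (lt_irrefl _)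
  · obtain ⟨j, hj, hm⟩ := (Finset.Icc (min k k') (max k k')).exists_max_image ψ ⟨k, by simp⟩
    obtain ⟨j', hj', hm'⟩ := (Finset.Icc (min k k') (max k k')).exists_min_image ψ ⟨k, by simp⟩
    simp only [Finset.mem_Icc] at hj hm hj' hm'
    have := hψ j j' hj.1 hj.2 hj'.1 hj'.2
    refine D.same_level (η := (ψ j + ψ j') / 2 + π / 2) (fun i i1 i2 => ?_) hX hY h (by rw [he])
    have a1 := hm i ⟨i1, i2⟩
    have a2 := hm' i ⟨i1, i2⟩
    exact sin_pos_of_pos_of_lt_pi (by linarith) (by linarith)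
  · obtain ⟨j, -, -, hj⟩ := D.level_sep
      (fun i j a b c d => (hψ i j (by omega) (by omega) (by omega) (by omega)).le) hY hX h
    rw [he] at hj; exact absurd hj (lt_irrefl _)

/-- Displacement, going forward. -/
lemma disp_fwd (D : M.IsDev ψ Bh) {a b l : ℝ} (l0 : 0 ≤ l) (l1 : l ≤ 1) {i j : ℤ} (hij : i ≤ j)
    (h : ∀ k, i < k → k ≤ j → Cone a b (nn (ψ k + π / 2) - nn (M.φ k + π / 2))) :
    Cone a b ((M.E ψ Bh l j - M.C l j) - (M.E ψ Bh l i - M.C l i)) := by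
  induction j, hij using Int.leInduction with
  | base => simpa using Cone.zero a b
  | succ j hj ih =>
    have := (ih fun k h1 h2 => h k h1 (by omega)).add
      (Cone.mul (M.len_nn l0 l1 (j + 1)) (h (j + 1) (by omega) le_rfl))
    rw [D.E_succ l (j + 1), M.C_succ l (j + 1), add_sub_cancel_right]
    convert this using 1; ring

/-- Displacement, going backward. -/
lemma disp_bwd (D : M.IsDev ψ Bh) {a b l : ℝ} (l0 : 0 ≤ l) (l1 : l ≤ 1) {i j : ℤ} (hij : i ≤ j)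
    (h : ∀ k, i < k → k ≤ j → Cone a b (nn (M.φ k + π / 2) - nn (ψ k + π / 2))) :
    Cone a b ((M.E ψ Bh l i - M.C l i) - (M.E ψ Bh l j - M.C l j)) := by
  induction j, hij using Int.leInduction with
  | base => simpa using Cone.zero a b
  | succ j hj ih =>
    have := (ih fun k h1 h2 => h k h1 (by omega)).add
      (Cone.mul (M.len_nn l0 l1 (j + 1)) (h (j + 1) (by omega) le_rfl))
    rw [D.E_succ l (j + 1), M.C_succ l (j + 1), add_sub_cancel_right]
    convert this using 1; ring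

/-- In the frame of an attached face the lateral edge is pushed out along the normal. -/
lemma E_real {j : ℤ} (h1 : ψ j = M.φ j) (h2 : Bh j = M.b j) (l : ℝ) :
    M.E ψ Bh l j = M.C l j +
      ((l * (wd M.h (M.φ j) (M.d j) - cp (M.φ j) (M.d j)) : ℝ) : ℂ) * nn (M.φ j) := by
  rw [E, Rh, h1, h2, nn_mul_fv, M.C_eq]; push_cast; ring

lemma Bh_pred (D : M.IsDev ψ Bh) {j : ℤ} (h1 : ψ j = M.φ j) (h2 : Bh j = M.b j) :
    Bh (j - 1) = M.b (j - 1) := by
  have a := D.pos j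
  have b := M.hb j
  rw [h1, h2] at a
  exact add_right_cancel (a.symm.trans b)

lemma E_real' (D : M.IsDev ψ Bh) {j : ℤ} (h1 : ψ j = M.φ j) (h2 : Bh j = M.b j) (l : ℝ) :
    M.E ψ Bh l (j - 1) = M.C l (j - 1) +
      ((l * (wd M.h (M.φ j) (M.d (j - 1)) - cp (M.φ j) (M.d (j - 1))) : ℝ) : ℂ) * nn (M.φ j) := by
  rw [E, D.Rh_pred, h1, D.Bh_pred h1 h2, nn_mul_fv, M.C_eq]; push_cast; ring

lemma Bh_const (D : M.IsDev ψ Bh) {i j : ℤ} (hij : i ≤ j) (h : ∀ k, i < k → k ≤ j → M.β k = 0) :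
    Bh j = Bh i := by
  induction j, hij using Int.leInduction with
  | base => rfl
  | succ j hj ih =>
    rw [D.pos (j + 1), h (j + 1) (by omega) le_rfl, add_sub_cancel_right,
      ih fun k h1 h2 => h k h1 (by omega)]; simp

/-- The same development seen from the top. -/
lemma swap (D : M.IsDev ψ Bh) (τ : ℂ) :
    M.swap.IsDev (fun k => -ψ k) (fun k => JJ τ (M.E ψ Bh 1 k)) := by
  refine ⟨fun k => ?_, fun k => ?_⟩
  · have := D.ang k
    have e : M.swap.d k = -M.d k := by simp [d, Model.swap]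
    rw [e, chi_neg, chi_neg]
    change -ψ (k + 1) + -chi M.h (M.φ (k + 1)) (M.d k) = -ψ k + -chi M.h (M.φ k) (M.d k)
    linarith
  · rw [D.E_succ 1 k]
    change _ = _ + (M.α k : ℂ) * _
    simp only [JJ, len, map_add, map_mul, conj_nn, Complex.conj_ofReal]
    rw [show -ψ k + π / 2 = -(ψ k + π / 2) + π by ring, nn_add_pi]; push_cast; ring

lemma swap_E (ψ : ℤ → ℝ) (Bh : ℤ → ℂ) (τ : ℂ) (l : ℝ) (k : ℤ) :
    M.swap.E (fun k => -ψ k) (fun k => JJ τ (M.E ψ Bh 1 k)) (1 - l) k = JJ τ (M.E ψ Bh l k) := by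
  have e : M.swap.d k = -M.d k := by simp [d, Model.swap]
  simp only [E, Rh, e, fv_neg, JJ, map_add, map_mul, conj_nn, Complex.conj_ofReal]
  change _ + _ * (_ * (starRingEnd ℂ) (fv M.h (M.φ k) (M.d k))) = _
  push_cast; ring

end IsDev

lemma swap_C (M : Model) (l : ℝ) (k : ℤ) : M.swap.C (1 - l) k = M.C l k := by
  simp only [C, Model.swap]; push_cast; ring
lemma swap_len (M : Model) (l : ℝ) (k : ℤ) : M.swap.len (1 - l) k = M.len l k := by
  simp only [len, Model.swap]; ring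

lemma sw_face {k : ℤ} {X : ℂ × ℝ} (h : X ∈ M.face (.side k)) : sw X ∈ M.swap.face (.side k) := by
  obtain ⟨l0, l1, σ, h1, h2, h3⟩ := h
  refine ⟨by simp [sw, l1], by simp [sw, l0], σ, h1, ?_, ?_⟩
  · simpa only [sw, swap_len] using h2
  · simp only [sw, swap_C]; exact h3
lemma sw_rul {k : ℤ} {X : ℂ × ℝ} : sw X ∈ M.swap.rul k ↔ X ∈ M.rul k := by
  simp only [rul, sw, swap_C, Set.mem_ofPred_eq]
  constructor <;> rintro ⟨a, b, c⟩ <;> exact ⟨by linarith, by linarith, c⟩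
lemma sw_eB {k : ℤ} {X : ℂ × ℝ} : sw X ∈ M.swap.eB k ↔ X ∈ M.eA k := by
  simp only [eA, eB, sw, Set.mem_ofPred_eq]
  constructor <;> rintro ⟨a, b⟩ <;> exact ⟨by linarith, b⟩

lemma IsDev.swap_pl (ψ : ℤ → ℝ) (Bh : ℤ → ℂ) (τ : ℂ) {k : ℤ} {X : ℂ × ℝ}
    (h : X ∈ M.face (.side k)) :
    M.swap.pl (fun k => -ψ k) (fun k => JJ τ (M.E ψ Bh 1 k)) k (sw X) = JJ τ (M.pl ψ Bh k X) := by
  obtain ⟨-, -, σ, -, -, h3⟩ := h
  rw [IsDev.pl_eq ψ Bh h3, IsDev.pl_eq (M := M.swap) _ _ (σ := σ)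
    (by simp only [sw, swap_C]; exact h3)]
  simp only [sw, IsDev.swap_E]
  simp only [JJ, map_add, map_mul, conj_nn, Complex.conj_ofReal]
  rw [show -ψ k + π / 2 = -(ψ k + π / 2) + π by ring, nn_add_pi]; ring

end Model

end Pool.Agent.P.MP_36f9aa_co
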