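import Pool.Agent.P.MP_36f9aa_co.FacesB

set_option autoImplicit false

namespace Pool.Agent.P.MP_36f9aa_co

open Real

namespace Fc

variable (M : Model)

lemma seg_level (l : ℝ) (p : ℂ) (α θ : ℝ) (hα : 0 ≤ α) {X : ℂ × ℝ} :
    X ∈ segment ℝ (p, l) (p + (α : ℂ) * nn θ, l) ↔
      X.2 = l ∧ ∃ σ : ℝ, 0 ≤ σ ∧ σ ≤ α ∧ X.1 = p + (σ : ℂ) * nn θ := by
  rw [segment_eq_image']
  constructor
  · rintro ⟨u, ⟨u0, u1⟩, rfl⟩
    refine ⟨by simp, u * α, by positivity, by nlinarith, ?_⟩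
    simp; ring
  · rintro ⟨e1, σ, h0, h1, e2⟩
    rcases hα.eq_or_lt with h | h
    · refine ⟨0, ⟨le_rfl, zero_le_one⟩, ?_⟩
      have : σ = 0 := by linarith
      apply Prod.ext
      · rw [e2, this]; simp
      · rw [e1]; simp
    · refine ⟨σ / α, ⟨by positivity, (div_le_one h).2 h1⟩, ?_⟩
      have hne : (α : ℂ) ≠ 0 := by exact_mod_cast h.ne'
      apply Prod.ext
      · rw [e2]; simp; field_simp
      · rw [e1]; simp

lemma seg_rul (x y : ℂ) {X : ℂ × ℝ} :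
    X ∈ segment ℝ (x, (1 : ℝ)) (y, 0) ↔
      0 ≤ X.2 ∧ X.2 ≤ 1 ∧ X.1 = ((1 - X.2 : ℝ) : ℂ) * y + (X.2 : ℂ) * x := by
  constructor
  · rintro ⟨s, t, hs, ht, hst, rfl⟩
    have : t = 1 - s := by linarith
    subst this
    refine ⟨by simpa using hs, by simp; linarith, ?_⟩
    simp; ring
  · rintro ⟨h0, h1, e⟩
    refine ⟨X.2, 1 - X.2, h0, by linarith, by ring, ?_⟩
    apply Prod.ext
    · rw [e]; simp; ring
    · simp

lemma vA {k : ℤ} {t : ℝ} (h1 : M.φ k < t) (h2 : t < M.φ (k + 1)) {s : ℝ}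
    (h : cp t (M.b k) < cp t (M.a k) + s) : Mx M.body (fn t s) = {(M.a k, 1)} := by
  ext X
  rw [Mx_top M h1.le h2.le h, argA_open M h1 h2, Set.mem_singleton_iff, Prod.ext_iff, and_comm]

lemma vB {k : ℤ} {t : ℝ} (h1 : M.φ k < t) (h2 : t < M.φ (k + 1)) {s : ℝ}
    (h : cp t (M.a k) + s < cp t (M.b k)) : Mx M.body (fn t s) = {(M.b k, 0)} := by
  ext X
  rw [Mx_bot M h1.le h2.le h, argB_open M h1 h2, Set.mem_singleton_iff, Prod.ext_iff, and_comm]

lemma eR {k : ℤ} {t : ℝ} (h1 : M.φ k < t) (h2 : t < M.φ (k + 1)) {s : ℝ}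
    (h : cp t (M.a k) + s = cp t (M.b k)) :
    Mx M.body (fn t s) = segment ℝ (M.a k, 1) (M.b k, 0) := by
  ext X
  rw [Mx_eq M h1.le h2.le h, seg_rul]
  simp only [argA_open M h1 h2, argB_open M h1 h2]
  simp

lemma lt_succ (k : ℤ) : M.φ k < M.φ (k + 1) := M.mono (by omega)

lemma eA {k : ℤ} {s : ℝ} (h : cp (M.φ k) (M.b k) < cp (M.φ k) (M.a k) + s) :
    Mx M.body (fn (M.φ k) s) = segment ℝ (M.a (k - 1), 1) (M.a k, 1) := by
  ext X
  rw [Mx_top M le_rfl (lt_succ M k).le h, argA_edge M k]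
  conv_rhs => rw [M.ha k]
  rw [seg_level _ _ _ _ (M.α_nn k)]

lemma eB {k : ℤ} {s : ℝ} (h : cp (M.φ k) (M.a k) + s < cp (M.φ k) (M.b k)) :
    Mx M.body (fn (M.φ k) s) = segment ℝ (M.b (k - 1), 0) (M.b k, 0) := by
  ext X
  rw [Mx_bot M le_rfl (lt_succ M k).le h, argB_edge M k]
  conv_rhs => rw [M.hb k]
  rw [seg_level _ _ _ _ (M.β_nn k)]

lemma split {l α β σ : ℝ} (hα : 0 ≤ α) (hβ : 0 ≤ β) (h0 : 0 ≤ σ)
    (h1 : σ ≤ (1 - l) * β + l * α) :
    ∃ σa σb : ℝ, 0 ≤ σa ∧ σa ≤ α ∧ 0 ≤ σb ∧ σb ≤ β ∧ σ = (1 - l) * σb + l * σa := by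
  rcases (h0.trans h1).eq_or_lt with h | h
  · exact ⟨0, 0, le_rfl, hα, le_rfl, hβ, by linarith⟩
  · have hu : σ / ((1 - l) * β + l * α) ≤ 1 := (div_le_one h).2 h1
    have hu0 : 0 ≤ σ / ((1 - l) * β + l * α) := by positivity
    refine ⟨σ / ((1 - l) * β + l * α) * α, σ / ((1 - l) * β + l * α) * β, by positivity,
      by nlinarith, by positivity, by nlinarith, ?_⟩
    field_simp

lemma fS {k : ℤ} {s : ℝ} (h : cp (M.φ k) (M.a k) + s = cp (M.φ k) (M.b k)) :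
    Mx M.body (fn (M.φ k) s) = M.face (.side k) := by
  ext X
  rw [Mx_eq M le_rfl (lt_succ M k).le h]
  simp only [argA_edge M k, argB_edge M k, Model.face, Set.mem_ofPred_eq]
  refine and_congr_right fun l0 => and_congr_right fun l1 => ?_
  constructor
  · rintro ⟨_, _, ⟨σa, a0, a1, rfl⟩, ⟨σb, b0, b1, rfl⟩, e⟩
    refine ⟨(1 - X.2) * σb + X.2 * σa,
      add_nonneg (mul_nonneg (by linarith) b0) (mul_nonneg l0 a0),
      add_le_add (mul_le_mul_of_nonneg_left b1 (by linarith)) (mul_le_mul_of_nonneg_left a1 l0), ?_⟩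
    rw [e, Model.C]; push_cast; ring
  · rintro ⟨σ, h0, h1, e⟩
    obtain ⟨σa, σb, a0, a1, b0, b1, rfl⟩ := split (M.α_nn k) (M.β_nn k) h0 h1
    refine ⟨_, _, ⟨σa, a0, a1, rfl⟩, ⟨σb, b0, b1, rfl⟩, ?_⟩
    rw [e, Model.C]; push_cast; ring

lemma fT : Mx M.body (LinearMap.snd ℝ ℂ ℝ) = M.face .top := by
  ext X
  constructor
  · rintro ⟨hX, hm⟩
    obtain ⟨x, hx, y, hy, l0, l1, e⟩ := (mem_body M).1 hX
    have l2 : X.2 = 1 := le_antisymm l1 (hm _ (top_mem M hx))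
    refine ⟨l2, ?_⟩
    rw [e, l2]; simpa using hx
  · rintro ⟨l2, hx⟩
    have : X = (X.1, 1) := Prod.ext rfl l2
    refine ⟨this ▸ top_mem M hx, fun Y hY => ?_⟩
    obtain ⟨x, hx, y, hy, l0, l1, e⟩ := (mem_body M).1 hY
    simpa [l2] using l1

lemma fB : Mx M.body (-LinearMap.snd ℝ ℂ ℝ) = M.face .bot := by
  ext X
  constructor
  · rintro ⟨hX, hm⟩
    obtain ⟨x, hx, y, hy, l0, l1, e⟩ := (mem_body M).1 hX
    have l2 : X.2 = 0 := le_antisymm (by simpa using hm _ (bot_mem M hy)) l0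
    refine ⟨l2, ?_⟩
    rw [e, l2]; simpa using hy
  · rintro ⟨l2, hx⟩
    have : X = (X.1, 0) := Prod.ext rfl l2
    refine ⟨this ▸ bot_mem M hx, fun Y hY => ?_⟩
    obtain ⟨x, hx, y, hy, l0, l1, e⟩ := (mem_body M).1 hY
    simpa [l2] using l0

/-- Classification of the exposed sets. -/
lemma cases_Mx (m : (ℂ × ℝ) →ₗ[ℝ] ℝ) :
    Mx M.body m = M.body ∨ Mx M.body m = M.face .top ∨ Mx M.body m = M.face .bot ∨
      ∃ k, Mx M.body m = M.face (.side k) ∨ Mx M.body m = {(M.a k, 1)} ∨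
        Mx M.body m = {(M.b k, 0)} ∨ Mx M.body m = segment ℝ (M.a (k - 1), 1) (M.a k, 1) ∨
        Mx M.body m = segment ℝ (M.b (k - 1), 0) (M.b k, 0) ∨
        Mx M.body m = segment ℝ (M.a k, 1) (M.b k, 0) := by
  rcases lin_cases m with ⟨s, h⟩ | ⟨r, t, s, hr, h⟩
  · rcases lt_trichotomy s 0 with hs | hs | hs
    · right; right; left
      rw [← fB]
      exact Mx_congr _ (neg_pos.2 hs) fun X => by rw [h]; simp
    · left
      ext X
      simp [Mx, h, hs]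
    · right; left
      rw [← fT]
      exact Mx_congr _ hs fun X => by rw [h]; simp
  · right; right; right
    rw [Mx_congr _ hr h]
    obtain ⟨k, h1, h2⟩ := M.exists_idx t
    refine ⟨k, ?_⟩
    rcases h1.eq_or_lt with rfl | h1
    · rcases lt_trichotomy (cp (M.φ k) (M.a k) + s) (cp (M.φ k) (M.b k)) with c | c | c
      · simp [eB M c]
      · simp [fS M c]
      · simp [eA M c]
    · rcases lt_trichotomy (cp t (M.a k) + s) (cp t (M.b k)) with c | c | c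
      · simp [vB M h1 h2 c]
      · simp [eR M h1 h2 c]
      · simp [vA M h1 h2 c]

lemma nn_ne (θ : ℝ) : nn θ ≠ 0 := fun h => by simpa [h] using normSq_nn θ

lemma dm_level (l : ℝ) : dm {X | X.2 = l ∧ X.1 ∈ M.A0} = 2 := by
  obtain ⟨k, hk, -, -⟩ := M.gapa 0
  obtain ⟨j, hj, h1, h2⟩ := M.gapa (M.φ k)
  have mem : ∀ i, ((M.α i : ℂ) * nn (M.φ i + π / 2), (0 : ℝ)) ∈
      vectorSpan ℝ {X : ℂ × ℝ | X.2 = l ∧ X.1 ∈ M.A0} := fun i => by
    have := vsub_mem_vectorSpan ℝ (s := {X : ℂ × ℝ | X.2 = l ∧ X.1 ∈ M.A0})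
      (p₁ := (M.a i, l)) (p₂ := (M.a (i - 1), l)) ⟨rfl, M.a_mem _⟩ ⟨rfl, M.a_mem _⟩
    convert this using 1
    rw [M.ha i]; simp
  refine dm_two (LinearMap.snd ℝ ℂ ℝ) l (fun X hX => hX.1) (w := (0, 1)) (by simp) (mem k) (mem j)
    fun s t e => ?_
  have e1 := congrArg (fun X : ℂ × ℝ => X.1) e
  simp only [Prod.fst_add, Prod.smul_fst, Prod.fst_zero] at e1
  have e2 := congrArg (cp (M.φ k)) e1
  rw [cp_add, cp_smul, cp_smul, cp_mul, cp_mul, cp_nn, cp_nn,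
    show M.φ k + π / 2 - M.φ k = π / 2 by ring,
    show M.φ j + π / 2 - M.φ k = (M.φ j - M.φ k) + π / 2 by ring, cos_pi_div_two,
    cos_add_pi_div_two, cp_zero] at e2
  have hs : 0 < sin (M.φ j - M.φ k) := sin_pos_of_pos_of_lt_pi (by linarith) (by linarith)
  have ht : t = 0 := by
    have : t * (M.α j * sin (M.φ j - M.φ k)) = 0 := by linarith
    exact (mul_eq_zero.1 this).resolve_right (mul_pos hj hs).ne'
  refine ⟨?_, ht⟩
  rw [ht, zero_smul, add_zero] at e1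
  refine (smul_eq_zero.1 e1).resolve_right (mul_ne_zero ?_ (nn_ne _))
  exact_mod_cast hk.ne'

lemma dm_top : dm (M.face .top) = 2 := dm_level M 1
lemma dm_bot : dm (M.face .bot) = 2 := dm_level M.swap 0

lemma side_mem (k : ℤ) {l σ : ℝ} (l0 : 0 ≤ l) (l1 : l ≤ 1) (h0 : 0 ≤ σ) (h1 : σ ≤ M.len l k) :
    (M.C l (k - 1) + (σ : ℂ) * nn (M.φ k + π / 2), l) ∈ M.face (.side k) :=
  ⟨l0, l1, σ, h0, h1, rfl⟩

lemma dm_side (k : ℤ) : dm (M.face (.side k)) = 2 := by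
  have hc : cp (M.φ k) (M.a k) + (cp (M.φ k) (M.b k) - cp (M.φ k) (M.a k)) =
    cp (M.φ k) (M.b k) := by ring
  obtain ⟨l, l0, l1, hl⟩ : ∃ l, 0 ≤ l ∧ l ≤ 1 ∧ 0 < M.len l k := by
    rcases M.nd k with h | h
    · exact ⟨1, zero_le_one, le_rfl, by simpa [Model.len] using h⟩
    · exact ⟨0, le_rfl, zero_le_one, by simpa [Model.len] using h⟩
  have m1 := side_mem M k l0 l1 le_rfl hl.le
  have m2 := side_mem M k l0 l1 hl.le le_rfl
  have m3 := side_mem M k zero_le_one le_rfl le_rfl (M.len_nn zero_le_one le_rfl k)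
  have m4 := side_mem M k le_rfl zero_le_one le_rfl (M.len_nn le_rfl zero_le_one k)
  refine dm_two (fn (M.φ k) (cp (M.φ k) (M.b k) - cp (M.φ k) (M.a k)))
    (fn (M.φ k) (cp (M.φ k) (M.b k) - cp (M.φ k) (M.a k))
      (M.C l (k - 1) + ((0 : ℝ) : ℂ) * nn (M.φ k + π / 2), l)) (fun X hX => ?_)
    (w := (nn (M.φ k), 0)) (by simp [fn_apply, cp_nn]) (vsub_mem_vectorSpan ℝ m2 m1)
    (vsub_mem_vectorSpan ℝ m3 m4) fun s t e => ?_
  · rw [← fS M hc] at hX m1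
    exact le_antisymm (m1.2 _ hX.1) (hX.2 _ m1.1)
  · have e2 := congrArg (fun X : ℂ × ℝ => X.2) e
    have ht : t = 0 := by simpa using e2
    refine ⟨?_, ht⟩
    rw [ht, zero_smul, add_zero] at e
    refine (smul_eq_zero.1 e).resolve_right fun e3 => ?_
    have e4 := congrArg (fun X : ℂ × ℝ => X.1) e3
    simp [nn_ne, hl.ne'] at e4

lemma dm_face (L : Lab) : dm (M.face L) = 2 := by
  cases L with
  | top => exact dm_top M
  | bot => exact dm_bot M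
  | side k => exact dm_side M k

lemma dm_body : 2 < dm M.body := by
  rw [← dm_top M]
  refine Submodule.finrank_lt_finrank_of_lt (lt_of_le_of_ne (vectorSpan_mono ℝ ?_) fun e => ?_)
  · rw [← fT]; exact fun X hX => hX.1
  · have h1 := vsub_mem_vectorSpan ℝ (top_mem M (M.a_mem 0)) (bot_mem M (M.b_mem 0))
    rw [← e] at h1
    have h2 := vs_le_ker (S := M.face .top) (LinearMap.snd ℝ ℂ ℝ) 1 (fun X hX => hX.1) h1
    simp at h2

lemma face_ne (L : Lab) : (M.face L).Nonempty := by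
  by_contra h
  have := dm_face M L
  rw [Set.not_nonempty_iff_eq_empty.1 h] at this
  unfold dm at this
  rw [vectorSpan_empty, finrank_bot] at this
  omega

lemma window {γ : Type} (f : ℤ → γ) (hf : ∀ k, f (k + M.n) = f k) (s k : ℤ) :
    ∃ j, s ≤ j ∧ j < s + M.n ∧ f k = f j := by
  obtain ⟨j, ⟨h1, h2⟩, h3⟩ := Function.Periodic.exists_mem_Ico (f := f) (c := (M.n : ℤ)) hf
    (by exact_mod_cast M.hn) k s
  exact ⟨j, h1, h2, h3⟩

lemma pera' (k : ℤ) : M.a (k + M.n - 1) = M.a (k - 1) := by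
  rw [show k + M.n - 1 = k - 1 + M.n by ring, M.pera]
lemma perb' (k : ℤ) : M.b (k + M.n - 1) = M.b (k - 1) := pera' M.swap k

lemma side_per (k : ℤ) : M.face (.side (k + M.n)) = M.face (.side k) := by
  simp only [Model.face, Model.len, Model.C, M.α_per, M.β_per, pera', perb', M.per,
    show M.φ k + 2 * π + π / 2 = M.φ k + π / 2 + 2 * π by ring, nn_add_two_pi]

end Fc

open Fc

namespace Model
variable (M : Model) (ι : (ℂ × ℝ) ≃ᵃ[ℝ] E3)

theorem face_iff (s : ℤ) (F : Set E3) :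
    IsFace (ι '' M.body) 2 F ↔ ∃ L, M.Valid s L ∧ F = ι '' M.face L := by
  rw [isFace_iff]
  constructor
  · rintro ⟨m, rfl, -, h⟩
    rcases cases_Mx M m with e | e | e | ⟨k, e | e | e | e | e | e⟩ <;> rw [e] at h ⊢
    · exact absurd h (dm_body M).ne'
    · exact ⟨.top, trivial, rfl⟩
    · exact ⟨.bot, trivial, rfl⟩
    · obtain ⟨j, h1, h2, h3⟩ := window M (fun k => M.face (.side k)) (side_per M) s k
      exact ⟨.side j, ⟨h1, h2⟩, congrArg _ h3⟩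
    · rw [dm_single] at h; omega
    · rw [dm_single] at h; omega
    · have := dm_seg_le (M.a (k - 1), 1) (M.a k, 1); omega
    · have := dm_seg_le (M.b (k - 1), 0) (M.b k, 0); omega
    · have := dm_seg_le (M.a k, 1) (M.b k, 0); omega
  · rintro ⟨L, -, rfl⟩
    obtain ⟨m, e⟩ : ∃ m, Mx M.body m = M.face L := by
      cases L with
      | top => exact ⟨_, fT M⟩
      | bot => exact ⟨_, fB M⟩
      | side k => exact ⟨_, fS M (s := cp (M.φ k) (M.b k) - cp (M.φ k) (M.a k)) (by ring)⟩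
    exact ⟨m, by rw [e], by rw [e]; exact face_ne M L, by rw [e]; exact dm_face M L⟩

theorem vertex_iff (v : E3) :
    IsFace (ι '' M.body) 0 {v} ↔ ∃ k, v = ι (M.a k, 1) ∨ v = ι (M.b k, 0) := by
  rw [isFace_iff]
  constructor
  · rintro ⟨m, hv, -, h⟩
    have key : ∀ X, X ∈ Mx M.body m → v = ι X := fun X hX =>
      (Set.mem_singleton_iff.1 (hv ▸ Set.mem_image_of_mem ι hX)).symm
    rcases cases_Mx M m with e | e | e | ⟨k, e | e | e | e | e | e⟩ <;> rw [e] at h key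
    · have := dm_body M; omega
    · have := dm_top M; omega
    · have := dm_bot M; omega
    · have := dm_side M k; omega
    · exact ⟨k, .inl (key _ rfl)⟩
    · exact ⟨k, .inr (key _ rfl)⟩
    · exact ⟨k, .inl (key _ (right_mem_segment ℝ _ _))⟩
    · exact ⟨k, .inr (key _ (right_mem_segment ℝ _ _))⟩
    · exact ⟨k, .inl (key _ (left_mem_segment ℝ _ _))⟩
  · have fin : ∀ P : ℂ × ℝ, (∃ m, Mx M.body m = {P}) → ∃ m, ({ι P} : Set E3) = ι '' Mx M.body m ∧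
        (Mx M.body m).Nonempty ∧ dm (Mx M.body m) = 0 := by
      rintro P ⟨m, e⟩
      exact ⟨m, by rw [e, Set.image_singleton], by rw [e]; exact Set.singleton_nonempty _,
        by rw [e, dm_single]⟩
    rintro ⟨k, rfl | rfl⟩
    · obtain ⟨t, h1, h2⟩ := exists_between (lt_succ M k)
      exact fin _ ⟨_, vA M h1 h2 (s := cp t (M.b k) - cp t (M.a k) + 1) (by linarith)⟩
    · obtain ⟨t, h1, h2⟩ := exists_between (lt_succ M k)
      exact fin _ ⟨_, vB M h1 h2 (s := cp t (M.b k) - cp t (M.a k) - 1) (by linarith)⟩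

theorem edge_iff (s : ℤ) {X Y : ℂ × ℝ} (hXY : X ≠ Y) :
    IsFace (ι '' M.body) 1 (segment ℝ (ι X) (ι Y)) ↔
      M.Cut s ∅ ∅ ∅ X Y ∨ M.Cut s ∅ ∅ ∅ Y X := by
  have hseg : ∀ P Q : ℂ × ℝ, segment ℝ (ι P) (ι Q) = ι '' segment ℝ P Q := fun P Q =>
    (image_segment ℝ (ι : (ℂ × ℝ) →ᵃ[ℝ] E3) P Q).symm
  rw [isFace_iff, hseg]
  constructor
  · rintro ⟨m, hv, -, h⟩
    have hv' : segment ℝ X Y = Mx M.body m := ι.injective.image_injective hv
    have fin : ∀ P Q : ℂ × ℝ, segment ℝ X Y = segment ℝ P Q → (P ≠ Q → M.Cut s ∅ ∅ ∅ P Q) →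
        M.Cut s ∅ ∅ ∅ X Y ∨ M.Cut s ∅ ∅ ∅ Y X := fun P Q e hc => by
      rcases seg_ends hXY e with ⟨rfl, rfl⟩ | ⟨rfl, rfl⟩
      · exact .inl (hc hXY)
      · exact .inr (hc hXY.symm)
    rcases cases_Mx M m with e | e | e | ⟨k, e | e | e | e | e | e⟩ <;> rw [e] at h hv'
    · have := dm_body M; omega
    · have := dm_top M; omega
    · have := dm_bot M; omega
    · have := dm_side M k; omega
    · rw [dm_single] at h; omega
    · rw [dm_single] at h; omega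
    · refine fin _ _ hv' fun hne => ?_
      obtain ⟨j, h1, h2, h3⟩ := window M (fun k => (M.a (k - 1), M.a k))
        (fun k => by rw [pera', M.pera]) s k
      simp only [Prod.mk.injEq] at h3
      rw [h3.1, h3.2] at hne ⊢
      refine ⟨j, h1, h2, .inl ⟨?_, by simp, rfl, rfl⟩⟩
      refine (M.α_nn j).lt_of_ne fun h0 => hne ?_
      rw [M.ha j, ← h0]; simp
    · refine fin _ _ hv' fun hne => ?_
      obtain ⟨j, h1, h2, h3⟩ := window M (fun k => (M.b (k - 1), M.b k))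
        (fun k => by rw [perb', M.perb]) s k
      simp only [Prod.mk.injEq] at h3
      rw [h3.1, h3.2] at hne ⊢
      refine ⟨j, h1, h2, .inr (.inl ⟨?_, by simp, rfl, rfl⟩)⟩
      refine (M.β_nn j).lt_of_ne fun h0 => hne ?_
      rw [M.hb j, ← h0]; simp
    · refine fin _ _ hv' fun _ => ?_
      obtain ⟨j, h1, h2, h3⟩ := window M (fun k => (M.a k, M.b k))
        (fun k => by rw [M.pera, M.perb]) s k
      simp only [Prod.mk.injEq] at h3
      rw [h3.1, h3.2]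
      exact ⟨j, h1, h2, .inr (.inr ⟨by simp, rfl, rfl⟩)⟩
  · have key : ∀ P Q : ℂ × ℝ, M.Cut s ∅ ∅ ∅ P Q → ∃ m, Mx M.body m = segment ℝ P Q := by
      rintro P Q ⟨k, -, -, ⟨-, -, rfl, rfl⟩ | ⟨-, -, rfl, rfl⟩ | ⟨-, rfl, rfl⟩⟩
      · exact ⟨_, Fc.eA M (s := cp (M.φ k) (M.b k) - cp (M.φ k) (M.a k) + 1) (by linarith)⟩
      · exact ⟨_, Fc.eB M (s := cp (M.φ k) (M.b k) - cp (M.φ k) (M.a k) - 1) (by linarith)⟩
      · obtain ⟨t, h1, h2⟩ := exists_between (lt_succ M k)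
        exact ⟨_, eR M h1 h2 (s := cp t (M.b k) - cp t (M.a k)) (by ring)⟩
    intro h
    obtain ⟨m, e⟩ : ∃ m, Mx M.body m = segment ℝ X Y := by
      rcases h with h | h
      · exact key _ _ h
      · rw [segment_symm]; exact key _ _ h
    exact ⟨m, by rw [e], by rw [e]; exact ⟨X, left_mem_segment ℝ _ _⟩, by rw [e, dm_seg hXY]⟩

end Model

end Pool.Agent.P.MP_36f9aa_co
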