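import Pool.Agent.P.MP_36f9aa_co.Basic

set_option autoImplicit false

namespace Pool.Agent.P.MP_36f9aa_co

open Real

/-- Combinatorial model of a prismatoid. Lateral face `k` has outer normal direction `φ k`; it lies
between the lateral edges `k - 1` and `k`; lateral edge `k` joins `b k` (bottom) to `a k` (top). -/
structure Model where
  n : ℕ
  φ : ℤ → ℝ
  a : ℤ → ℂ
  b : ℤ → ℂ
  α : ℤ → ℝ
  β : ℤ → ℝ
  h : ℝ
  hn : 0 < n
  hh : 0 < h
  mono : StrictMono φ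
  per : ∀ k, φ (k + n) = φ k + 2 * π
  pera : ∀ k, a (k + n) = a k
  perb : ∀ k, b (k + n) = b k
  ha : ∀ k, a k = a (k - 1) + (α k : ℂ) * nn (φ k + π / 2)
  hb : ∀ k, b k = b (k - 1) + (β k : ℂ) * nn (φ k + π / 2)
  α_nn : ∀ k, 0 ≤ α k
  β_nn : ∀ k, 0 ≤ β k
  nd : ∀ k, 0 < α k ∨ 0 < β k
  supa : ∀ k j θ, φ k ≤ θ → θ ≤ φ (k + 1) → cp θ (a j) ≤ cp θ (a k)
  supb : ∀ k j θ, φ k ≤ θ → θ ≤ φ (k + 1) → cp θ (b j) ≤ cp θ (b k)
  gapa : ∀ θ, ∃ k, 0 < α k ∧ θ < φ k ∧ φ k < θ + π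
  gapb : ∀ θ, ∃ k, 0 < β k ∧ θ < φ k ∧ φ k < θ + π

/-- Labels of the faces. -/
inductive Lab where
  | top : Lab
  | bot : Lab
  | side : ℤ → Lab

/-- Exchange of top and bottom levels. -/
def sw (X : ℂ × ℝ) : ℂ × ℝ := (X.1, 1 - X.2)

@[simp] lemma sw_sw (X : ℂ × ℝ) : sw (sw X) = X := by simp [sw]

namespace Model

variable (M : Model)

/-- The top polygon. -/
def A0 : Set ℂ := convexHull ℝ (Set.range M.a)
/-- The bottom polygon. -/
def B0 : Set ℂ := convexHull ℝ (Set.range M.b)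
/-- Projection of lateral edge `k`. -/
def d (k : ℤ) : ℂ := M.a k - M.b k
/-- The point of lateral edge `k` at level `l`. -/
def C (l : ℝ) (k : ℤ) : ℂ := ((1 - l : ℝ) : ℂ) * M.b k + (l : ℂ) * M.a k
/-- Length of the slice of face `k` at level `l`. -/
def len (l : ℝ) (k : ℤ) : ℝ := (1 - l) * M.β k + l * M.α k

/-- The prismatoid, in coordinates (projection, level). -/
def body : Set (ℂ × ℝ) :=
  convexHull ℝ ((fun c => (c, (1 : ℝ))) '' M.A0 ∪ (fun c => (c, (0 : ℝ))) '' M.B0)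

/-- The faces. -/
def face : Lab → Set (ℂ × ℝ)
  | .top => {X | X.2 = 1 ∧ X.1 ∈ M.A0}
  | .bot => {X | X.2 = 0 ∧ X.1 ∈ M.B0}
  | .side k => {X | 0 ≤ X.2 ∧ X.2 ≤ 1 ∧ ∃ σ : ℝ, 0 ≤ σ ∧ σ ≤ M.len X.2 k ∧
      X.1 = M.C X.2 (k - 1) + (σ : ℂ) * nn (M.φ k + π / 2)}

/-- Lateral edge `k`. -/
def rul (k : ℤ) : Set (ℂ × ℝ) := {X | 0 ≤ X.2 ∧ X.2 ≤ 1 ∧ X.1 = M.C X.2 k}
/-- Top edge of face `k`. -/
def eA (k : ℤ) : Set (ℂ × ℝ) := {X | X.2 = 1 ∧ ∃ σ : ℝ, 0 ≤ σ ∧ σ ≤ M.α k ∧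
  X.1 = M.a (k - 1) + (σ : ℂ) * nn (M.φ k + π / 2)}
/-- Bottom edge of face `k`. -/
def eB (k : ℤ) : Set (ℂ × ℝ) := {X | X.2 = 0 ∧ ∃ σ : ℝ, 0 ≤ σ ∧ σ ≤ M.β k ∧
  X.1 = M.b (k - 1) + (σ : ℂ) * nn (M.φ k + π / 2)}

/-- Labels in the period window starting at `s`. -/
def Valid (s : ℤ) : Lab → Prop
  | .top => True
  | .bot => True
  | .side k => s ≤ k ∧ k < s + M.n

/-- A cut edge, as an ordered pair of end points. -/
def Cut (s : ℤ) (unc attA attB : Finset ℤ) (X Y : ℂ × ℝ) : Prop :=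
  ∃ k, s ≤ k ∧ k < s + M.n ∧
    ((0 < M.α k ∧ k ∉ attA ∧ X = (M.a (k - 1), 1) ∧ Y = (M.a k, 1)) ∨
     (0 < M.β k ∧ k ∉ attB ∧ X = (M.b (k - 1), 0) ∧ Y = (M.b k, 0)) ∨
     (k ∉ unc ∧ X = (M.a k, 1) ∧ Y = (M.b k, 0)))

/-- One gluing step along an uncut edge. -/
def Gl (unc attA attB : Finset ℤ) (U V : Lab × (ℂ × ℝ)) : Prop :=
  U.2 = V.2 ∧ ∃ k,
    ((k ∈ unc ∧ U.1 = .side k ∧ V.1 = .side (k + 1) ∧ U.2 ∈ M.rul k) ∨
     (k ∈ attA ∧ U.1 = .side k ∧ V.1 = .top ∧ U.2 ∈ M.eA k) ∨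
     (k ∈ attB ∧ U.1 = .side k ∧ V.1 = .bot ∧ U.2 ∈ M.eB k))

/-- A net of the model. -/
structure NetData where
  s : ℤ
  unc : Finset ℤ
  attA : Finset ℤ
  attB : Finset ℤ
  f : Lab → ℂ × ℝ → ℂ
  unc_mem : ∀ k ∈ unc, s ≤ k ∧ k + 1 < s + M.n
  attA_mem : ∀ k ∈ attA, s ≤ k ∧ k < s + M.n ∧ 0 < M.α k
  attB_mem : ∀ k ∈ attB, s ≤ k ∧ k < s + M.n ∧ 0 < M.β k
  count : M.n + 1 ≤ unc.card + attA.card + attB.card
  conn : ∀ k,
    Relation.ReflTransGen (fun X Y => M.Cut s unc attA attB X Y ∨ M.Cut s unc attA attB Y X)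
      (M.a s, 1) (M.a k, 1) ∧
    Relation.ReflTransGen (fun X Y => M.Cut s unc attA attB X Y ∨ M.Cut s unc attA attB Y X)
      (M.a s, 1) (M.b k, 0)
  iso : ∀ L, M.Valid s L → ∀ X ∈ M.face L, ∀ Y ∈ M.face L,
    Complex.normSq (f L X - f L Y) = Complex.normSq (X.1 - Y.1) + M.h ^ 2 * (X.2 - Y.2) ^ 2
  cunc : ∀ k ∈ unc, ∀ X ∈ M.rul k, f (.side k) X = f (.side (k + 1)) X
  cA : ∀ k ∈ attA, ∀ X ∈ M.eA k, f (.side k) X = f .top X
  cB : ∀ k ∈ attB, ∀ X ∈ M.eB k, f (.side k) X = f .bot X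
  inj : ∀ L L', M.Valid s L → M.Valid s L' → ∀ X ∈ M.face L, ∀ Y ∈ M.face L', f L X = f L' Y →
    Relation.ReflTransGen (fun U V => M.Gl unc attA attB U V ∨ M.Gl unc attA attB V U)
      (L, X) (L', Y)

/-- A connection: the bottom is attached at face `f`, the top at face `g`, both adjacent to the
lateral edge `k0`, and `c` is the symmetric direction. -/
structure Conn (f g k0 : ℤ) (c : ℝ) : Prop where
  hf : 0 < M.β f
  hg : 0 < M.α g
  kind : (f = k0 ∧ g = k0) ∨ (f = k0 ∧ g = k0 + 1 ∧ M.α f = 0 ∧ M.β g = 0) ∨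
    (g = k0 ∧ f = k0 + 1 ∧ M.α f = 0 ∧ M.β g = 0)
  c1 : M.φ k0 ≤ c
  c2 : c ≤ M.φ (k0 + 1)
  f1 : |M.φ f - c| < π / 2
  g1 : |M.φ g - c| < π / 2
  ctr : (M.φ f - c) + (M.φ g - c) + chi M.h (M.φ f) (M.d k0) - chi M.h (M.φ g) (M.d k0) = 0

/-- The data of a good layout: a connection, a wing of faces `kq, ..., kp`, and either all other
faces go to the bottom, or faces `kp + 1, ..., j` go to the bottom and the rest to the top. -/
def Good (c : ℝ) : Prop :=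
  ∃ (f g k0 kp kq : ℤ) (p q : ℝ), M.Conn f g k0 c ∧
    π / 4 ≤ p ∧ p ≤ π / 2 ∧ π / 4 ≤ q ∧ q ≤ π / 2 ∧
    M.φ kp ≤ c + p ∧ c + p < M.φ (kp + 1) ∧ M.φ (kq - 1) < c - q ∧ c - q ≤ M.φ kq ∧
    kq ≤ f ∧ f ≤ kp ∧ kq ≤ g ∧ g ≤ kp ∧
    0 ≤ cp (c + p + π / 2) (M.d kp) ∧
    (cp (c - q + π / 2) (M.d (kq - 1)) ≤ 0 ∨
      (0 ≤ cp (c - q + π / 2) (M.d (kq - 1)) ∧ c - M.φ g ≤ p ∧ M.φ f - c ≤ q ∧
        ∃ jB j jA, kp < jB ∧ jB ≤ j ∧ j < jA ∧ jA < kq + M.n ∧ 0 < M.β jB ∧ 0 < M.α jA ∧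
          M.φ j ≤ M.φ jB + π / 2 ∧ M.φ jA ≤ M.φ (j + 1) + π / 2 ∧
          M.φ j ≤ c + 3 * π / 2 - q ∧ c + p + π / 2 ≤ M.φ (j + 1)))

/-- Exchange of top and bottom. -/
def swap : Model where
  n := M.n
  φ := M.φ
  a := M.b
  b := M.a
  α := M.β
  β := M.α
  h := M.h
  hn := M.hn
  hh := M.hh
  mono := M.mono
  per := M.per
  pera := M.perb
  perb := M.pera
  ha := M.hb
  hb := M.ha
  α_nn := M.β_nn
  β_nn := M.α_nn
  nd := fun k => (M.nd k).symm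
  supa := M.supb
  supb := M.supa
  gapa := M.gapb
  gapb := M.gapa

/-- Rotation by `-c`. -/
noncomputable def rot (c : ℝ) : Model where
  n := M.n
  φ := fun k => M.φ k - c
  a := fun k => nn (-c) * M.a k
  b := fun k => nn (-c) * M.b k
  α := M.α
  β := M.β
  h := M.h
  hn := M.hn
  hh := M.hh
  mono := fun _ _ h => sub_lt_sub_right (M.mono h) c
  per := fun k => by rw [M.per]; ring
  pera := fun k => by rw [M.pera]
  perb := fun k => by rw [M.perb]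
  ha := fun k => by
    rw [M.ha k, mul_add, mul_left_comm, ← nn_add]; congr 3; ring
  hb := fun k => by
    rw [M.hb k, mul_add, mul_left_comm, ← nn_add]; congr 3; ring
  α_nn := M.α_nn
  β_nn := M.β_nn
  nd := M.nd
  supa := fun k j θ h1 h2 => by
    rw [cp_nn_mul, cp_nn_mul]; exact M.supa k j _ (by linarith) (by linarith)
  supb := fun k j θ h1 h2 => by
    rw [cp_nn_mul, cp_nn_mul]; exact M.supb k j _ (by linarith) (by linarith)
  gapa := fun θ => by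
    obtain ⟨k, h1, h2, h3⟩ := M.gapa (θ + c); exact ⟨k, h1, by linarith, by linarith⟩
  gapb := fun θ => by
    obtain ⟨k, h1, h2, h3⟩ := M.gapb (θ + c); exact ⟨k, h1, by linarith, by linarith⟩

/-- Reflection in the real axis. -/
noncomputable def refl : Model where
  n := M.n
  φ := fun k => -M.φ (-k)
  a := fun k => (starRingEnd ℂ) (M.a (-k - 1))
  b := fun k => (starRingEnd ℂ) (M.b (-k - 1))
  α := fun k => M.α (-k)
  β := fun k => M.β (-k)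
  h := M.h
  hn := M.hn
  hh := M.hh
  mono := fun _ _ h => neg_lt_neg (M.mono (neg_lt_neg h))
  per := fun k => by
    have := M.per (-(k + M.n)); rw [show -(k + M.n) + M.n = -k by ring] at this; linarith
  pera := fun k => by
    have := M.pera (-(k + M.n) - 1); rw [show -(k + M.n) - 1 + M.n = -k - 1 by ring] at this
    rw [this]
  perb := fun k => by
    have := M.perb (-(k + M.n) - 1); rw [show -(k + M.n) - 1 + M.n = -k - 1 by ring] at this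
    rw [this]
  ha := fun k => by
    rw [show -(k - 1) - 1 = -k by ring, M.ha (-k), map_add, map_mul, conj_nn, Complex.conj_ofReal,
      show -M.φ (-k) + π / 2 = -(M.φ (-k) + π / 2) + π by ring, nn_add_pi]; ring
  hb := fun k => by
    rw [show -(k - 1) - 1 = -k by ring, M.hb (-k), map_add, map_mul, conj_nn, Complex.conj_ofReal,
      show -M.φ (-k) + π / 2 = -(M.φ (-k) + π / 2) + π by ring, nn_add_pi]; ring
  α_nn := fun k => M.α_nn _
  β_nn := fun k => M.β_nn _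
  nd := fun k => M.nd _
  supa := fun k j θ h1 h2 => by
    rw [cp_conj, cp_conj]
    refine M.supa _ _ _ ?_ ?_
    · rw [show -k - 1 = -(k + 1) by ring]; linarith
    · rw [show -k - 1 + 1 = -k by ring]; linarith
  supb := fun k j θ h1 h2 => by
    rw [cp_conj, cp_conj]
    refine M.supb _ _ _ ?_ ?_
    · rw [show -k - 1 = -(k + 1) by ring]; linarith
    · rw [show -k - 1 + 1 = -k by ring]; linarith
  gapa := fun θ => by
    obtain ⟨k, h1, h2, h3⟩ := M.gapa (-θ - π)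
    exact ⟨-k, by simpa using h1, by simp; linarith, by simp; linarith⟩
  gapb := fun θ => by
    obtain ⟨k, h1, h2, h3⟩ := M.gapb (-θ - π)
    exact ⟨-k, by simpa using h1, by simp; linarith, by simp; linarith⟩

lemma cp_convex (θ t : ℝ) : Convex ℝ {z : ℂ | cp θ z ≤ t} := by
  intro x hx y hy s u hs hu hsu
  simp only [Set.mem_setOf_eq, cp_add, cp_smul] at *
  have : t = s * t + u * t := by rw [← add_mul, hsu, one_mul]
  nlinarith [mul_le_mul_of_nonneg_left hx hs, mul_le_mul_of_nonneg_left hy hu]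

lemma a_mem (k : ℤ) : M.a k ∈ M.A0 := subset_convexHull ℝ _ ⟨k, rfl⟩
lemma b_mem (k : ℤ) : M.b k ∈ M.B0 := subset_convexHull ℝ _ ⟨k, rfl⟩

lemma sup_a {k : ℤ} {θ : ℝ} (h1 : M.φ k ≤ θ) (h2 : θ ≤ M.φ (k + 1)) : Sup M.A0 θ (M.a k) :=
  ⟨M.a_mem k, fun _ hx => convexHull_min (t := {z : ℂ | cp θ z ≤ cp θ (M.a k)})
    (by rintro _ ⟨j, rfl⟩; exact M.supa k j θ h1 h2) (cp_convex _ _) hx⟩
lemma sup_b {k : ℤ} {θ : ℝ} (h1 : M.φ k ≤ θ) (h2 : θ ≤ M.φ (k + 1)) : Sup M.B0 θ (M.b k) :=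
  M.swap.sup_a h1 h2

lemma per_mul (k m : ℤ) : M.φ (k + m * M.n) = M.φ k + m * (2 * π) := by
  induction m using Int.induction_on with
  | zero => simp
  | succ m ih => rw [show k + ((m : ℤ) + 1) * M.n = k + m * M.n + M.n by ring, M.per, ih]; push_cast; ring
  | pred m ih =>
    have := M.per (k + (-(m : ℤ) - 1) * M.n)
    rw [show k + (-(m : ℤ) - 1) * M.n + M.n = k + -(m : ℤ) * M.n by ring, ih] at this
    push_cast at this ⊢; linarith

/-- Every direction lies between two consecutive normals. -/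
lemma exists_idx (θ : ℝ) : ∃ k, M.φ k ≤ θ ∧ θ < M.φ (k + 1) := by
  obtain ⟨m, hm⟩ := exists_int_gt ((θ - M.φ 0) / (2 * π))
  obtain ⟨m', hm'⟩ := exists_int_lt ((θ - M.φ 0) / (2 * π))
  have hp : 0 < 2 * π := by positivity
  rw [div_lt_iff₀ hp] at hm
  rw [lt_div_iff₀ hp] at hm'
  obtain ⟨k, h1, h2⟩ := Int.exists_greatest_of_bdd (P := fun k => M.φ k ≤ θ)
    ⟨0 + m * M.n, fun z hz => (M.mono.lt_iff_lt.1 (by rw [M.per_mul]; linarith)).le⟩
    ⟨0 + m' * M.n, by rw [M.per_mul]; linarith⟩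
  exact ⟨k, h1, not_le.1 fun h => by have := h2 _ h; omega⟩

lemma exists_idx' (θ : ℝ) : ∃ k, M.φ (k - 1) < θ ∧ θ ≤ M.φ k := by
  obtain ⟨k, h1, h2⟩ := M.exists_idx θ
  rcases h1.eq_or_lt with e | e
  · exact ⟨k, by rw [← e]; exact M.mono (by omega), e.ge⟩
  · exact ⟨k + 1, by simpa using e, h2.le⟩

lemma α_per (k : ℤ) : M.α (k + M.n) = M.α k := by
  have h1 := M.ha (k + M.n)
  rw [show k + M.n - 1 = k - 1 + M.n by ring, M.pera, M.pera, M.per, M.ha k,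
    show M.φ k + 2 * π + π / 2 = M.φ k + π / 2 + 2 * π by ring, nn_add_two_pi] at h1
  have := congrArg (cp (M.φ k + π / 2)) h1
  simpa [cp_add, cp_mul, cp_nn] using this.symm
lemma β_per (k : ℤ) : M.β (k + M.n) = M.β k := M.swap.α_per k
lemma d_per (k : ℤ) : M.d (k + M.n) = M.d k := by simp [d, M.pera, M.perb]

lemma C_succ (l : ℝ) (k : ℤ) :
    M.C l k = M.C l (k - 1) + (M.len l k : ℂ) * nn (M.φ k + π / 2) := by
  simp only [C, len]; rw [M.ha k, M.hb k]; push_cast; ring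
lemma C_eq (l : ℝ) (k : ℤ) : M.C l k = M.b k + (l : ℂ) * M.d k := by
  simp only [C, d]; push_cast; ring
lemma d_succ (k : ℤ) : M.d k = M.d (k - 1) + ((M.α k - M.β k : ℝ) : ℂ) * nn (M.φ k + π / 2) := by
  simp only [d]; rw [M.ha k, M.hb k]; push_cast; ring
lemma len_nn {l : ℝ} (h0 : 0 ≤ l) (h1 : l ≤ 1) (k : ℤ) : 0 ≤ M.len l k :=
  add_nonneg (mul_nonneg (by linarith) (M.β_nn k)) (mul_nonneg h0 (M.α_nn k))

/-- If there is no top edge in `(i, j]` the top vertex does not move. -/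
lemma a_const {i j : ℤ} (hij : i ≤ j) (h : ∀ k, i < k → k ≤ j → M.α k = 0) : M.a j = M.a i := by
  induction j, hij using Int.le_induction with
  | base => rfl
  | succ j hj ih =>
    rw [M.ha (j + 1), h (j + 1) (by omega) le_rfl, add_sub_cancel_right,
      ih fun k h1 h2 => h k h1 (by omega)]; simp
lemma b_const {i j : ℤ} (hij : i ≤ j) (h : ∀ k, i < k → k ≤ j → M.β k = 0) : M.b j = M.b i :=
  M.swap.a_const hij h

end Model

end Pool.Agent.P.MP_36f9aa_co
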