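import Pool.Agent.P.MP_36f9aa_co.Defs
import Pool.Agent.P.MP_36f9aa_co.Model

set_option autoImplicit false

namespace Pool.Agent.P.MP_36f9aa_co

open Real

namespace Fc

/-- Dimension of a subset of the model space. -/
noncomputable def dm (S : Set (ℂ × ℝ)) : ℕ := Module.finrank ℝ (vectorSpan ℝ S)

lemma dm_image (ι : (ℂ × ℝ) ≃ᵃ[ℝ] E3) (S : Set (ℂ × ℝ)) :
    Module.finrank ℝ (vectorSpan ℝ (ι '' S)) = dm S := by
  have h := AffineMap.map_vectorSpan (k := ℝ) (ι : (ℂ × ℝ) →ᵃ[ℝ] E3) (s := S)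
  have h2 : vectorSpan ℝ (ι '' S) = Submodule.map (ι.linear : (ℂ × ℝ) →ₗ[ℝ] E3) (vectorSpan ℝ S) :=
    h.symm
  rw [h2, LinearEquiv.finrank_map_eq]; rfl

lemma dm_single (P : ℂ × ℝ) : dm {P} = 0 := by simp [dm]

lemma dm_seg {P Q : ℂ × ℝ} (h : P ≠ Q) : dm (segment ℝ P Q) = 1 := by
  unfold dm
  rw [vectorSpan_segment]
  exact finrank_span_singleton (vsub_ne_zero.2 h.symm)

lemma dm_seg_le (P Q : ℂ × ℝ) : dm (segment ℝ P Q) ≤ 1 := by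
  by_cases h : P = Q
  · subst h; simp [dm_single]
  · exact (dm_seg h).le

lemma vs_le_ker {S : Set (ℂ × ℝ)} (m : (ℂ × ℝ) →ₗ[ℝ] ℝ) (c : ℝ) (h : ∀ X ∈ S, m X = c) :
    vectorSpan ℝ S ≤ LinearMap.ker m := by
  rw [vectorSpan_def, Submodule.span_le]
  rintro _ ⟨X, hX, Y, hY, rfl⟩
  simp [h X hX, h Y hY]

lemma finrank_W : Module.finrank ℝ (ℂ × ℝ) = 3 := by simp

lemma dm_two {S : Set (ℂ × ℝ)} (m : (ℂ × ℝ) →ₗ[ℝ] ℝ) (c : ℝ) (h : ∀ X ∈ S, m X = c)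
    {w : ℂ × ℝ} (hw : m w ≠ 0) {u v : ℂ × ℝ} (hu : u ∈ vectorSpan ℝ S) (hv : v ∈ vectorSpan ℝ S)
    (huv : ∀ s t : ℝ, s • u + t • v = 0 → s = 0 ∧ t = 0) : dm S = 2 := by
  have h1 : vectorSpan ℝ S < ⊤ := by
    refine lt_of_le_of_lt (vs_le_ker m c h) (lt_top_iff_ne_top.2 fun e => hw ?_)
    have : w ∈ LinearMap.ker m := by rw [e]; trivial
    exact this
  have h2 := Submodule.finrank_lt_finrank_of_lt h1
  rw [finrank_top, finrank_W] at h2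
  have li : LinearIndependent ℝ ![u, v] := LinearIndependent.pair_iff.2 huv
  have h3 : Submodule.span ℝ (Set.range ![u, v]) ≤ vectorSpan ℝ S := by
    rw [Submodule.span_le]
    rintro _ ⟨i, rfl⟩
    fin_cases i
    · exact hu
    · exact hv
  have h4 := Submodule.finrank_mono h3
  rw [finrank_span_eq_card li] at h4
  simp only [Fintype.card_fin] at h4
  unfold dm; omega

lemma seg_ends {X Y P Q : ℂ × ℝ} (hXY : X ≠ Y) (e : segment ℝ X Y = segment ℝ P Q) :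
    (X = P ∧ Y = Q) ∨ (X = Q ∧ Y = P) := by
  have hX : X ∈ segment ℝ P Q := e ▸ left_mem_segment ℝ X Y
  have hY : Y ∈ segment ℝ P Q := e ▸ right_mem_segment ℝ X Y
  have hP : P ∈ segment ℝ X Y := e ▸ left_mem_segment ℝ P Q
  have hQ : Q ∈ segment ℝ X Y := e ▸ right_mem_segment ℝ P Q
  rw [segment_eq_image'] at hX hY hP hQ
  obtain ⟨s, ⟨s0, s1⟩, hs⟩ := hX
  obtain ⟨t, ⟨t0, t1⟩, ht⟩ := hY
  obtain ⟨u, ⟨u0, u1⟩, hu⟩ := hP
  obtain ⟨v, ⟨v0, v1⟩, hv⟩ := hQ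
  simp only at hs ht hu hv
  have hPQ : Q - P ≠ 0 := by
    intro h0
    apply hXY
    rw [← hs, ← ht, h0]; simp
  have hst : s ≠ t := by
    intro h0
    apply hXY
    rw [← hs, ← ht, h0]
  have e1 : (s + u * (t - s)) • (Q - P) = 0 := by
    rw [← hs, ← ht] at hu
    have : (s + u * (t - s)) • (Q - P) =
        (P + s • (Q - P) + u • (P + t • (Q - P) - (P + s • (Q - P)))) - P := by module
    rw [this, hu, sub_self]
  have e2 : (s + v * (t - s) - 1) • (Q - P) = 0 := by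
    rw [← hs, ← ht] at hv
    have : (s + v * (t - s) - 1) • (Q - P) =
        (P + s • (Q - P) + v • (P + t • (Q - P) - (P + s • (Q - P)))) - Q := by module
    rw [this, hv, sub_self]
  have f1 : s + u * (t - s) = 0 := (smul_eq_zero.1 e1).resolve_right hPQ
  have f2 : s + v * (t - s) - 1 = 0 := (smul_eq_zero.1 e2).resolve_right hPQ
  rcases lt_or_gt_of_ne hst with hlt | hlt
  · have a1 : s = 0 := by nlinarith [mul_nonneg u0 (sub_pos.2 hlt).le]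
    have a2 : t = 1 := by nlinarith [mul_nonneg (sub_nonneg.2 v1) (sub_pos.2 hlt).le]
    left
    rw [← hs, ← ht, a1, a2]; simp
  · have a1 : t = 0 := by nlinarith [mul_nonneg (sub_nonneg.2 u1) (sub_pos.2 hlt).le]
    have a2 : s = 1 := by nlinarith [mul_nonneg v0 (sub_pos.2 hlt).le]
    right
    rw [← hs, ← ht, a1, a2]; simp

/-- Maximisers of a linear functional. -/
def Mx (P : Set (ℂ × ℝ)) (m : (ℂ × ℝ) →ₗ[ℝ] ℝ) : Set (ℂ × ℝ) := {X ∈ P | ∀ Y ∈ P, m Y ≤ m X}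

lemma image_Mx (ι : (ℂ × ℝ) ≃ᵃ[ℝ] E3) (P : Set (ℂ × ℝ)) (l : E3 →ₗ[ℝ] ℝ) :
    {x ∈ ι '' P | ∀ y ∈ ι '' P, l y ≤ l x} = ι '' Mx P (l ∘ₗ (ι.linear : (ℂ × ℝ) →ₗ[ℝ] E3)) := by
  have key : ∀ X, l (ι X) = l (ι.linear X) + l (ι 0) := fun X => by
    have := ι.map_vadd 0 X
    rw [vadd_eq_add, add_zero, vadd_eq_add] at this
    rw [this, map_add]
  ext x
  constructor
  · rintro ⟨⟨X, hX, rfl⟩, h⟩
    refine ⟨X, ⟨hX, fun Y hY => ?_⟩, rfl⟩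
    have := h _ ⟨Y, hY, rfl⟩
    rw [key, key X] at this
    simpa using this
  · rintro ⟨X, ⟨hX, h⟩, rfl⟩
    refine ⟨⟨X, hX, rfl⟩, ?_⟩
    rintro _ ⟨Y, hY, rfl⟩
    have := h Y hY
    rw [key, key X]
    simpa using this

lemma isFace_iff (ι : (ℂ × ℝ) ≃ᵃ[ℝ] E3) (P : Set (ℂ × ℝ)) (k : ℕ) (F : Set E3) :
    IsFace (ι '' P) k F ↔ ∃ m, F = ι '' Mx P m ∧ (Mx P m).Nonempty ∧ dm (Mx P m) = k := by
  constructor
  · rintro ⟨h1, h2, h3⟩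
    obtain ⟨l, hl⟩ := h1 h2
    have e := image_Mx ι P (l : E3 →ₗ[ℝ] ℝ)
    have e2 : F = ι '' Mx P ((l : E3 →ₗ[ℝ] ℝ) ∘ₗ (ι.linear : (ℂ × ℝ) →ₗ[ℝ] E3)) := hl.trans e
    refine ⟨_, e2, ?_, ?_⟩
    · rw [e2] at h2; exact h2.of_image
    · rw [← dm_image ι, ← e2, h3]
  · rintro ⟨m, rfl, h2, h3⟩
    refine ⟨fun _ => ?_, h2.image _, by rw [dm_image, h3]⟩
    refine ⟨LinearMap.toContinuousLinearMap (m ∘ₗ (ι.linear.symm : E3 →ₗ[ℝ] (ℂ × ℝ))), ?_⟩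
    have e := image_Mx ι P (m ∘ₗ (ι.linear.symm : E3 →ₗ[ℝ] (ℂ × ℝ)))
    have e3 : (m ∘ₗ (ι.linear.symm : E3 →ₗ[ℝ] (ℂ × ℝ))) ∘ₗ (ι.linear : (ℂ × ℝ) →ₗ[ℝ] E3) = m := by
      apply LinearMap.ext; intro X; simp
    rw [e3] at e
    exact e.symm

/-- The functional `X ↦ cp t X.1 + s * X.2`. -/
noncomputable def fn (t s : ℝ) : (ℂ × ℝ) →ₗ[ℝ] ℝ where
  toFun X := cp t X.1 + s * X.2
  map_add' X Y := by simp only [Prod.fst_add, Prod.snd_add, cp_add]; ring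
  map_smul' r X := by
    simp only [Prod.smul_fst, Prod.smul_snd, cp_smul, smul_eq_mul, RingHom.id_apply]; ring

lemma fn_apply (t s : ℝ) (X : ℂ × ℝ) : fn t s X = cp t X.1 + s * X.2 := rfl

lemma lin_cases (m : (ℂ × ℝ) →ₗ[ℝ] ℝ) :
    (∃ s, ∀ X, m X = s * X.2) ∨ ∃ r t s, 0 < r ∧ ∀ X, m X = r * fn t s X := by
  have hm : ∀ X : ℂ × ℝ,
      m X = X.1.re * m (1, 0) + X.1.im * m (Complex.I, 0) + X.2 * m (0, 1) := fun X => by
    have : X = X.1.re • ((1 : ℂ), (0 : ℝ)) + X.1.im • (Complex.I, (0 : ℝ)) +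
        X.2 • ((0 : ℂ), (1 : ℝ)) := by
      apply Prod.ext
      · apply Complex.ext <;> simp
      · simp
    conv_lhs => rw [this]
    simp only [map_add, map_smul, smul_eq_mul]
  set w : ℂ := ⟨m (1, 0), m (Complex.I, 0)⟩ with hw
  by_cases h0 : w = 0
  · left
    have h1 : m (1, 0) = 0 := congrArg Complex.re h0
    have h2 : m (Complex.I, 0) = 0 := congrArg Complex.im h0
    exact ⟨m (0, 1), fun X => by rw [hm X, h1, h2]; ring⟩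
  · right
    have hr : 0 < ‖w‖ := norm_pos_iff.2 h0
    refine ⟨‖w‖, w.arg, m (0, 1) / ‖w‖, hr, fun X => ?_⟩
    have h1 : ‖w‖ * cos w.arg = m (1, 0) := Complex.norm_mul_cos_arg w
    have h2 : ‖w‖ * sin w.arg = m (Complex.I, 0) := Complex.norm_mul_sin_arg w
    rw [hm X, fn_apply, cp, ← h1, ← h2]
    field_simp

lemma Mx_congr (P : Set (ℂ × ℝ)) {m m' : (ℂ × ℝ) →ₗ[ℝ] ℝ} {r : ℝ} (hr : 0 < r)
    (h : ∀ X, m X = r * m' X) : Mx P m = Mx P m' := by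
  ext X
  simp only [Mx, Set.mem_ofPred_eq, h, mul_le_mul_iff_right₀ hr]

end Fc

end Pool.Agent.P.MP_36f9aa_co
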