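import Pool.Agent.P.MP_36f9aa_co.FacesA

set_option autoImplicit false

namespace Pool.Agent.P.MP_36f9aa_co

open Real

namespace Fc

variable (M : Model)

lemma cvxA : Convex ℝ M.A0 := convex_convexHull ℝ _
lemma cvxB : Convex ℝ M.B0 := convex_convexHull ℝ _

lemma mem_body {X : ℂ × ℝ} : X ∈ M.body ↔ ∃ x ∈ M.A0, ∃ y ∈ M.B0, 0 ≤ X.2 ∧ X.2 ≤ 1 ∧
    X.1 = ((1 - X.2 : ℝ) : ℂ) * y + (X.2 : ℂ) * x := by
  have c1 : Convex ℝ ((fun c => (c, (1 : ℝ))) '' M.A0) := by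
    rintro _ ⟨x, hx, rfl⟩ _ ⟨y, hy, rfl⟩ s t hs ht hst
    exact ⟨_, cvxA M hx hy hs ht hst, by simp [hst]⟩
  have c2 : Convex ℝ ((fun c => (c, (0 : ℝ))) '' M.B0) := by
    rintro _ ⟨x, hx, rfl⟩ _ ⟨y, hy, rfl⟩ s t hs ht hst
    exact ⟨_, cvxB M hx hy hs ht hst, by simp⟩
  unfold Model.body
  rw [c1.convexHull_union c2 ⟨_, _, M.a_mem 0, rfl⟩ ⟨_, _, M.b_mem 0, rfl⟩, mem_convexJoin]
  constructor
  · rintro ⟨_, ⟨x, hx, rfl⟩, _, ⟨y, hy, rfl⟩, s, t, hs, ht, hst, rfl⟩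
    refine ⟨x, hx, y, hy, by simpa using hs, by simp; linarith, ?_⟩
    have : t = 1 - s := by linarith
    subst this
    simp; ring
  · rintro ⟨x, hx, y, hy, h0, h1, e⟩
    refine ⟨_, ⟨x, hx, rfl⟩, _, ⟨y, hy, rfl⟩, X.2, 1 - X.2, h0, by linarith, by ring, ?_⟩
    apply Prod.ext
    · rw [e]; simp; ring
    · simp

lemma top_mem {x : ℂ} (hx : x ∈ M.A0) : (x, (1 : ℝ)) ∈ M.body :=
  (mem_body M).2 ⟨x, hx, _, M.b_mem 0, by simp, by simp, by simp⟩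
lemma bot_mem {y : ℂ} (hy : y ∈ M.B0) : (y, (0 : ℝ)) ∈ M.body :=
  (mem_body M).2 ⟨_, M.a_mem 0, y, hy, by simp, by simp, by simp⟩

/-- A small positive angle below a positive bound. -/
lemma small {δ : ℝ} (h : 0 < δ) : ∃ ε, 0 < ε ∧ ε ≤ δ ∧ 0 < sin ε :=
  ⟨min δ (π / 2), lt_min h (by positivity), min_le_left _ _,
    sin_pos_of_pos_of_lt_pi (lt_min h (by positivity))
      (lt_of_le_of_lt (min_le_right _ _) (by linarith [pi_pos]))⟩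

lemma tan_le {k : ℤ} {t : ℝ} (h1 : M.φ k ≤ t) (h2 : t < M.φ (k + 1)) {x : ℂ} (hx : x ∈ M.A0)
    (e : cp t x = cp t (M.a k)) : cp (t + π / 2) x ≤ cp (t + π / 2) (M.a k) := by
  obtain ⟨ε, e0, e1, e2⟩ := small (sub_pos.2 h2)
  have := (M.sup_a (k := k) (θ := t + ε) (by linarith) (by linarith)).2 x hx
  rw [cp_rot t ε x, cp_rot t ε (M.a k), e] at this
  exact le_of_mul_le_mul_left (by linarith) e2

lemma tan_ge {k : ℤ} {t : ℝ} (h1 : M.φ k < t) (h2 : t ≤ M.φ (k + 1)) {x : ℂ} (hx : x ∈ M.A0)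
    (e : cp t x = cp t (M.a k)) : cp (t + π / 2) (M.a k) ≤ cp (t + π / 2) x := by
  obtain ⟨ε, e0, e1, e2⟩ := small (sub_pos.2 h1)
  have := (M.sup_a (k := k) (θ := t + -ε) (by linarith) (by linarith)).2 x hx
  rw [cp_rot t (-ε) x, cp_rot t (-ε) (M.a k), e, sin_neg] at this
  exact le_of_mul_le_mul_left (by linarith) e2

lemma argA_open {k : ℤ} {t : ℝ} (h1 : M.φ k < t) (h2 : t < M.φ (k + 1)) {x : ℂ} :
    (x ∈ M.A0 ∧ cp t x = cp t (M.a k)) ↔ x = M.a k := by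
  constructor
  · rintro ⟨hx, e⟩
    exact eq_of_cp t e (le_antisymm (tan_le M h1.le h2 hx e) (tan_ge M h1 h2.le hx e))
  · rintro rfl
    exact ⟨M.a_mem k, rfl⟩

lemma cp_edge (θ σ : ℝ) (z : ℂ) : cp θ (z + (σ : ℂ) * nn (θ + π / 2)) = cp θ z := by
  rw [cp_add, cp_mul, cp_nn]; simp
lemma cp_edge' (θ σ : ℝ) (z : ℂ) :
    cp (θ + π / 2) (z + (σ : ℂ) * nn (θ + π / 2)) = cp (θ + π / 2) z + σ := by
  rw [cp_add, cp_mul, cp_nn]; simp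

lemma argA_edge (k : ℤ) {x : ℂ} :
    (x ∈ M.A0 ∧ cp (M.φ k) x = cp (M.φ k) (M.a k)) ↔
      ∃ σ : ℝ, 0 ≤ σ ∧ σ ≤ M.α k ∧ x = M.a (k - 1) + (σ : ℂ) * nn (M.φ k + π / 2) := by
  have ea : cp (M.φ k) (M.a k) = cp (M.φ k) (M.a (k - 1)) := by rw [M.ha k, cp_edge]
  have eb : cp (M.φ k + π / 2) (M.a k) = cp (M.φ k + π / 2) (M.a (k - 1)) + M.α k := by
    rw [M.ha k, cp_edge']
  constructor
  · rintro ⟨hx, e⟩
    have h1 := tan_le M le_rfl (M.mono (by omega : k < k + 1)) hx e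
    have h2 := tan_ge M (k := k - 1) (M.mono (by omega : k - 1 < k)) (by simp) hx (e.trans ea)
    refine ⟨cp (M.φ k + π / 2) x - cp (M.φ k + π / 2) (M.a (k - 1)), by linarith, by linarith, ?_⟩
    apply eq_of_cp (M.φ k)
    · rw [cp_edge, e, ea]
    · rw [cp_edge']; ring
  · rintro ⟨σ, h0, h1, rfl⟩
    refine ⟨?_, by rw [cp_edge, ea]⟩
    rcases (M.α_nn k).eq_or_lt with h | h
    · have : σ = 0 := by linarith
      rw [this]; simpa using M.a_mem (k - 1)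
    · have := cvxA M (M.a_mem (k - 1)) (M.a_mem k) (a := 1 - σ / M.α k) (b := σ / M.α k)
        (by rw [sub_nonneg, div_le_one h]; exact h1) (by positivity) (by ring)
      convert this using 1
      have hne : (M.α k : ℂ) ≠ 0 := by exact_mod_cast h.ne'
      rw [M.ha k]
      simp only [Complex.real_smul]
      push_cast
      field_simp
      ring

lemma argB_open {k : ℤ} {t : ℝ} (h1 : M.φ k < t) (h2 : t < M.φ (k + 1)) {x : ℂ} :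
    (x ∈ M.B0 ∧ cp t x = cp t (M.b k)) ↔ x = M.b k := argA_open M.swap h1 h2

lemma argB_edge (k : ℤ) {x : ℂ} :
    (x ∈ M.B0 ∧ cp (M.φ k) x = cp (M.φ k) (M.b k)) ↔
      ∃ σ : ℝ, 0 ≤ σ ∧ σ ≤ M.β k ∧ x = M.b (k - 1) + (σ : ℂ) * nn (M.φ k + π / 2) :=
  argA_edge M.swap k

lemma fn_body (t s : ℝ) {X : ℂ × ℝ} {x y : ℂ}
    (e : X.1 = ((1 - X.2 : ℝ) : ℂ) * y + (X.2 : ℂ) * x) :
    fn t s X = (1 - X.2) * cp t y + X.2 * (cp t x + s) := by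
  rw [fn_apply, e, cp_add, cp_mul, cp_mul]; ring

lemma fn_le {k : ℤ} {t : ℝ} (h1 : M.φ k ≤ t) (h2 : t ≤ M.φ (k + 1)) {s v : ℝ}
    (ha : cp t (M.a k) + s ≤ v) (hb : cp t (M.b k) ≤ v) {Y : ℂ × ℝ} (hY : Y ∈ M.body) :
    fn t s Y ≤ v := by
  obtain ⟨x, hx, y, hy, l0, l1, e⟩ := (mem_body M).1 hY
  have a1 := (M.sup_a h1 h2).2 x hx
  have a2 := (M.sup_b h1 h2).2 y hy
  rw [fn_body t s e]
  nlinarith [mul_nonneg l0 (show 0 ≤ v - (cp t x + s) by linarith),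
    mul_nonneg (sub_nonneg.2 l1) (show 0 ≤ v - cp t y by linarith)]

lemma Mx_top {k : ℤ} {t : ℝ} (h1 : M.φ k ≤ t) (h2 : t ≤ M.φ (k + 1)) {s : ℝ}
    (h : cp t (M.b k) < cp t (M.a k) + s) {X : ℂ × ℝ} :
    X ∈ Mx M.body (fn t s) ↔ X.2 = 1 ∧ X.1 ∈ M.A0 ∧ cp t X.1 = cp t (M.a k) := by
  constructor
  · rintro ⟨hX, hm⟩
    obtain ⟨x, hx, y, hy, l0, l1, e⟩ := (mem_body M).1 hX
    have a1 := (M.sup_a h1 h2).2 x hx
    have a2 := (M.sup_b h1 h2).2 y hy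
    have a3 := hm _ (top_mem M (M.a_mem k))
    rw [fn_body t s e, fn_apply] at a3
    have l2 : X.2 = 1 := by
      by_contra hne
      have : 0 < 1 - X.2 := sub_pos.2 (lt_of_le_of_ne l1 hne)
      nlinarith [mul_pos this (show 0 < cp t (M.a k) + s - cp t y by linarith),
        mul_nonneg l0 (sub_nonneg.2 a1)]
    have e2 : X.1 = x := by rw [e, l2]; simp
    rw [l2] at a3
    refine ⟨l2, e2 ▸ hx, ?_⟩
    rw [e2]
    simp only at a3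
    linarith
  · rintro ⟨l2, hx, e⟩
    have : X = (X.1, 1) := Prod.ext rfl l2
    refine ⟨this ▸ top_mem M hx, fun Y hY => ?_⟩
    rw [fn_apply t s X, l2, e, mul_one]
    exact fn_le M h1 h2 le_rfl h.le hY

lemma Mx_bot {k : ℤ} {t : ℝ} (h1 : M.φ k ≤ t) (h2 : t ≤ M.φ (k + 1)) {s : ℝ}
    (h : cp t (M.a k) + s < cp t (M.b k)) {X : ℂ × ℝ} :
    X ∈ Mx M.body (fn t s) ↔ X.2 = 0 ∧ X.1 ∈ M.B0 ∧ cp t X.1 = cp t (M.b k) := by
  constructor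
  · rintro ⟨hX, hm⟩
    obtain ⟨x, hx, y, hy, l0, l1, e⟩ := (mem_body M).1 hX
    have a1 := (M.sup_a h1 h2).2 x hx
    have a2 := (M.sup_b h1 h2).2 y hy
    have a3 := hm _ (bot_mem M (M.b_mem k))
    rw [fn_body t s e, fn_apply] at a3
    have l2 : X.2 = 0 := by
      by_contra hne
      have : 0 < X.2 := lt_of_le_of_ne l0 (Ne.symm hne)
      nlinarith [mul_pos this (show 0 < cp t (M.b k) - (cp t x + s) by linarith),
        mul_nonneg (sub_nonneg.2 l1) (sub_nonneg.2 a2)]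
    have e2 : X.1 = y := by rw [e, l2]; simp
    rw [l2] at a3
    refine ⟨l2, e2 ▸ hy, ?_⟩
    rw [e2]
    simp only at a3
    linarith
  · rintro ⟨l2, hx, e⟩
    have : X = (X.1, 0) := Prod.ext rfl l2
    refine ⟨this ▸ bot_mem M hx, fun Y hY => ?_⟩
    rw [fn_apply t s X, l2, e, mul_zero, add_zero]
    exact fn_le M h1 h2 h.le le_rfl hY

lemma Mx_eq {k : ℤ} {t : ℝ} (h1 : M.φ k ≤ t) (h2 : t ≤ M.φ (k + 1)) {s : ℝ}
    (h : cp t (M.a k) + s = cp t (M.b k)) {X : ℂ × ℝ} :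
    X ∈ Mx M.body (fn t s) ↔ 0 ≤ X.2 ∧ X.2 ≤ 1 ∧ ∃ x y, (x ∈ M.A0 ∧ cp t x = cp t (M.a k)) ∧
      (y ∈ M.B0 ∧ cp t y = cp t (M.b k)) ∧ X.1 = ((1 - X.2 : ℝ) : ℂ) * y + (X.2 : ℂ) * x := by
  constructor
  · rintro ⟨hX, hm⟩
    obtain ⟨x, hx, y, hy, l0, l1, e⟩ := (mem_body M).1 hX
    have a1 := (M.sup_a h1 h2).2 x hx
    have a2 := (M.sup_b h1 h2).2 y hy
    have a3 := hm _ (bot_mem M (M.b_mem k))
    rw [fn_body t s e, fn_apply] at a3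
    simp only [mul_zero, add_zero] at a3
    have p1 := mul_nonneg l0 (sub_nonneg.2 a1)
    have p2 := mul_nonneg (sub_nonneg.2 l1) (sub_nonneg.2 a2)
    have q1 : X.2 * (cp t (M.a k) - cp t x) = 0 := by nlinarith
    have q2 : (1 - X.2) * (cp t (M.b k) - cp t y) = 0 := by nlinarith
    refine ⟨l0, l1, ?_⟩
    rcases mul_eq_zero.1 q1 with r1 | r1
    · refine ⟨M.a k, y, ⟨M.a_mem k, rfl⟩, ⟨hy, ?_⟩, by rw [e, r1]; simp⟩
      rw [r1] at q2; linarith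
    · rcases mul_eq_zero.1 q2 with r2 | r2
      · have r3 : X.2 = 1 := by linarith
        exact ⟨x, M.b k, ⟨hx, by linarith⟩, ⟨M.b_mem k, rfl⟩, by rw [e, r3]; simp⟩
      · exact ⟨x, y, ⟨hx, by linarith⟩, ⟨hy, by linarith⟩, e⟩
  · rintro ⟨l0, l1, x, y, ⟨hx, ex⟩, ⟨hy, ey⟩, e⟩
    refine ⟨(mem_body M).2 ⟨x, hx, y, hy, l0, l1, e⟩, fun Y hY => ?_⟩
    have := fn_le M h1 h2 h.le le_rfl hY
    rw [fn_body t s e, ex, ey, h]
    linarith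

end Fc

end Pool.Agent.P.MP_36f9aa_co
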