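import Pool.Agent.P.MP_36f9aa_co.Dev

set_option autoImplicit false

namespace Pool.Agent.P.MP_36f9aa_co

open Real

lemma wd_eq {h : ℝ} (hh : 0 < h) (θ : ℝ) (d : ℂ) : wd h θ d = ln h d * cos (chi h θ d) := by
  have := congrArg Complex.re (fv_polar hh θ d)
  simpa only [fv_re, Complex.re_ofReal_mul, nn_re] using this
lemma tan_eq {h : ℝ} (hh : 0 < h) (θ : ℝ) (d : ℂ) :
    cp (θ + π / 2) d = ln h d * sin (chi h θ d) := by
  have := congrArg Complex.im (fv_polar hh θ d)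
  simpa only [fv_im, Complex.im_ofReal_mul, nn_im] using this

/-- Side of the line of the unfolded ruling. -/
lemma side_eq {h : ℝ} (hh : 0 < h) (θ δ : ℝ) (d : ℂ) :
    wd h θ d * sin δ - cp (θ + π / 2) d * cos δ = ln h d * sin (δ - chi h θ d) := by
  rw [wd_eq hh, tan_eq hh, sin_sub]; ring

lemma chi_nonneg {h : ℝ} (hh : 0 < h) {θ : ℝ} {d : ℂ} (hd : 0 ≤ cp (θ + π / 2) d) :
    0 ≤ chi h θ d := arctan_nonneg.2 (div_nonneg hd (wd_pos hh θ d).le)

lemma gf_neg {h θ : ℝ} (hh : 0 < h) {x y z : ℂ} (hv : cp θ (z - y) ≤ 0) :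
    gf h θ x y z = cp (θ + π / 2) (z - y) := by
  have : min (cp θ (z - y) / wd h θ (x - y)) 1 ≤ 0 :=
    (min_le_left _ _).trans (div_nonpos_of_nonpos_of_nonneg hv (wd_pos hh _ _).le)
  rw [gf, max_eq_left this]; ring
lemma gf_mid {h θ : ℝ} (hh : 0 < h) {x y z : ℂ} (hv : 0 ≤ cp θ (z - y))
    (hw : cp θ (z - y) ≤ wd h θ (x - y)) :
    gf h θ x y z = cp (θ + π / 2) (z - y) -
      cp (θ + π / 2) (x - y) * (cp θ (z - y) / wd h θ (x - y)) := by
  have w0 := wd_pos hh θ (x - y)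
  rw [gf, min_eq_left ((div_le_one w0).2 hw), max_eq_right (div_nonneg hv w0.le)]
lemma gf_far {h θ : ℝ} (hh : 0 < h) {x y z : ℂ} (hw : wd h θ (x - y) ≤ cp θ (z - y)) :
    gf h θ x y z = cp (θ + π / 2) (z - y) - cp (θ + π / 2) (x - y) := by
  have w0 := wd_pos hh θ (x - y)
  rw [gf, min_eq_right ((one_le_div w0).2 hw), max_eq_right zero_le_one, mul_one]

lemma gf_conj (h θ : ℝ) (x y z : ℂ) :
    gf h (-θ) ((starRingEnd ℂ) x) ((starRingEnd ℂ) y) ((starRingEnd ℂ) z) = -gf h θ x y z := by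
  simp only [gf, ← map_sub, cp_conj_tan, wd_conj]
  rw [cp_conj, neg_neg]; ring

lemma continuous_gf_angle {h : ℝ} (hh : 0 < h) (x y z : ℂ) : Continuous fun θ => gf h θ x y z := by
  have hw : Continuous fun θ => wd h θ (x - y) := by unfold wd cp; fun_prop
  have hc : Continuous fun θ => cp θ (z - y) / wd h θ (x - y) :=
    Continuous.div (by unfold cp; fun_prop) hw fun θ => (wd_pos hh _ _).ne'
  unfold gf
  refine Continuous.sub (by unfold cp; fun_prop) (Continuous.mul (by unfold cp; fun_prop) ?_)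
  exact continuous_const.max (hc.min continuous_const)

lemma continuous_gf_top {h : ℝ} (hh : 0 < h) (θ : ℝ) (x t y z : ℂ) :
    Continuous fun σ : ℝ => gf h θ (x + (σ : ℂ) * t) y z := by
  have hw : Continuous fun σ : ℝ => wd h θ (x + (σ : ℂ) * t - y) := by unfold wd cp; fun_prop
  have hc : Continuous fun σ : ℝ => cp θ (z - y) / wd h θ (x + (σ : ℂ) * t - y) :=
    Continuous.div continuous_const hw fun θ => (wd_pos hh _ _).ne'
  unfold gf
  refine Continuous.sub continuous_const (Continuous.mul (by unfold cp; fun_prop) ?_)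
  exact continuous_const.max (hc.min continuous_const)

lemma chi_step_max {h : ℝ} (hh : 0 < h) (d : ℂ) {θ₁ θ₂ m : ℝ} (h12 : θ₁ ≤ θ₂)
    (hD : ∀ θ, θ₁ ≤ θ → θ ≤ θ₂ → θ ≤ m → 0 ≤ cp θ d) :
    chi h θ₂ d - chi h θ₁ d ≤ max θ₂ m - max θ₁ m := by
  have L := fun a b (hab : a ≤ b) => (sub_chi_strictMono hh d).monotone hab
  rcases le_total θ₂ m with h2 | h2
  · rw [max_eq_right h2, max_eq_right (h12.trans h2)]
    linarith [chi_anti hh d h12 fun θ a b => hD θ a b (b.trans h2)]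
  · rcases le_total θ₁ m with h1 | h1
    · rw [max_eq_left h2, max_eq_right h1]
      have := chi_anti hh d h1 fun θ a b => hD θ a (b.trans h2) b
      have := L _ _ h2
      dsimp only at *; linarith
    · rw [max_eq_left h2, max_eq_left h1]
      have := L _ _ h12
      dsimp only at *; linarith

lemma chi_step_min {h : ℝ} (hh : 0 < h) (d : ℂ) {θ₁ θ₂ m : ℝ} (h12 : θ₁ ≤ θ₂)
    (hD : ∀ θ, θ₁ ≤ θ → θ ≤ θ₂ → m ≤ θ → 0 ≤ cp θ d) :
    chi h θ₂ d - chi h θ₁ d ≤ min θ₂ m - min θ₁ m := by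
  have L := fun a b (hab : a ≤ b) => (sub_chi_strictMono hh d).monotone hab
  rcases le_total θ₂ m with h2 | h2
  · rw [min_eq_left h2, min_eq_left (h12.trans h2)]
    have := L _ _ h12
    dsimp only at *; linarith
  · rcases le_total θ₁ m with h1 | h1
    · rw [min_eq_right h2, min_eq_left h1]
      have := chi_anti hh d h2 fun θ a b => hD θ (h1.trans a) b a
      have := L _ _ h1
      dsimp only at *; linarith
    · rw [min_eq_right h2, min_eq_right h1]
      linarith [chi_anti hh d h12 fun θ a b => hD θ a b (h1.trans a)]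

namespace Model

variable (M : Model)

lemma edge_mem {k : ℤ} {σ : ℝ} (h0 : 0 ≤ σ) (h1 : σ ≤ M.α k) :
    M.a (k - 1) + (σ : ℂ) * nn (M.φ k + π / 2) ∈ M.A0 := by
  rcases (M.α_nn k).eq_or_lt with e | e
  · have : σ = 0 := by linarith
    simpa [this] using M.a_mem (k - 1)
  · have := (convex_convexHull ℝ (Set.range M.a)) (M.a_mem (k - 1)) (M.a_mem k)
      (a := 1 - σ / M.α k) (b := σ / M.α k) (by rw [sub_nonneg, div_le_one e]; exact h1)
      (div_nonneg h0 e.le) (by ring)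
    have e2 : M.a (k - 1) + (σ : ℂ) * nn (M.φ k + π / 2) =
        (1 - σ / M.α k) • M.a (k - 1) + (σ / M.α k) • M.a k := by
      rw [M.ha k]
      have e' : (M.α k : ℂ) ≠ 0 := by exact_mod_cast e.ne'
      simp only [Complex.real_smul]; push_cast; field_simp; ring
    rw [e2]; exact this

lemma sup_edge {k : ℤ} {σ : ℝ} (h0 : 0 ≤ σ) (h1 : σ ≤ M.α k) :
    Sup M.A0 (M.φ k) (M.a (k - 1) + (σ : ℂ) * nn (M.φ k + π / 2)) := by
  refine ⟨M.edge_mem h0 h1, fun x hx => ?_⟩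
  have := (M.sup_a (k := k - 1) (θ := M.φ k) (M.mono (by omega)).le (by simp)).2 x hx
  rw [cp_add, cp_mul, cp_nn_tan]; simpa using this

lemma cp_C_mono {η l : ℝ} (l0 : 0 ≤ l) (l1 : l ≤ 1) {i j : ℤ} (hij : i ≤ j)
    (h : ∀ k, i < k → k ≤ j → 0 ≤ sin (η - M.φ k)) : cp η (M.C l i) ≤ cp η (M.C l j) := by
  induction j, hij using Int.leInduction with
  | base => exact le_rfl
  | succ j hj ih =>
    rw [M.C_succ l (j + 1), add_sub_cancel_right, cp_add, cp_mul, cp_nn_tan]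
    have := mul_nonneg (M.len_nn l0 l1 (j + 1)) (h (j + 1) (by omega) le_rfl)
    have := ih fun k h1 h2 => h k h1 (by omega)
    linarith

/-- Intermediate value argument along a fan. -/
lemma fan_ivt {c j : ℤ} (hβ : ∀ i, c < i → i < j → M.β i = 0) {z : ℂ}
    (hend : gf M.h (M.φ j) (M.a (j - 1)) (M.b (j - 1)) z ≤ 0) {i : ℤ} (hi : i ≤ j - 1) :
    c ≤ i → ∀ γ, M.φ i ≤ γ → γ ≤ M.φ (i + 1) → 0 < gf M.h γ (M.a i) (M.b (j - 1)) z →
      ∃ γ' x, Sup M.A0 γ' x ∧ Sup M.B0 γ' (M.b (j - 1)) ∧ gf M.h γ' x (M.b (j - 1)) z = 0 ∧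
        γ ≤ γ' ∧ γ' ≤ M.φ j ∧ (γ < γ' ∨ M.φ (i + 1) ≤ γ') := by
  have key : ∀ i, i ≤ j - 1 → c ≤ i → ∀ γ, M.φ i ≤ γ → γ ≤ M.φ (i + 1) →
      0 < gf M.h γ (M.a i) (M.b (j - 1)) z → gf M.h (M.φ (i + 1)) (M.a i) (M.b (j - 1)) z ≤ 0 →
      ∃ γ' x, Sup M.A0 γ' x ∧ Sup M.B0 γ' (M.b (j - 1)) ∧ gf M.h γ' x (M.b (j - 1)) z = 0 ∧
        γ ≤ γ' ∧ γ' ≤ M.φ j ∧ (γ < γ' ∨ M.φ (i + 1) ≤ γ') := by
    intro i hi hc γ g1 g2 g3 g4
    obtain ⟨γ', h1, h2⟩ := intermediate_value_Icc' g2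
      (continuous_gf_angle M.hh (M.a i) (M.b (j - 1)) z).continuousOn ⟨g4, g3.le⟩
    have hb : M.b (j - 1) = M.b i := M.b_const hi fun k a b => hβ k (by omega) (by omega)
    refine ⟨γ', M.a i, M.sup_a (g1.trans h1.1) h1.2, hb ▸ M.sup_b (g1.trans h1.1) h1.2, h2, h1.1,
      h1.2.trans (M.mono.monotone (by omega)), Or.inl (lt_of_le_of_ne h1.1 ?_)⟩
    rintro rfl
    exact g3.ne' h2
  induction i, hi using Int.leInductionDown with
  | base =>
    intro hc γ g1 g2 g3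
    exact key _ le_rfl hc γ g1 g2 g3 (by rwa [sub_add_cancel])
  | pred i hi ih =>
    intro hc γ g1 g2 g3
    by_cases g4 : gf M.h (M.φ (i - 1 + 1)) (M.a (i - 1)) (M.b (j - 1)) z ≤ 0
    · exact key _ (by omega) hc γ g1 g2 g3 g4
    rw [sub_add_cancel] at g2 g4 ⊢
    by_cases g5 : 0 < gf M.h (M.φ i) (M.a i) (M.b (j - 1)) z
    · obtain ⟨γ', x, a1, a2, a3, a4, a5, -⟩ := ih (by omega) (M.φ i) le_rfl
        (M.mono (by omega)).le g5
      exact ⟨γ', x, a1, a2, a3, g2.trans a4, a5, Or.inr a4⟩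
    · have mem : (0 : ℝ) ∈ Set.Icc
          (gf M.h (M.φ i) (M.a (i - 1) + (M.α i : ℂ) * nn (M.φ i + π / 2)) (M.b (j - 1)) z)
          (gf M.h (M.φ i) (M.a (i - 1) + ((0 : ℝ) : ℂ) * nn (M.φ i + π / 2)) (M.b (j - 1)) z) :=
        ⟨by rw [← M.ha i]; exact not_lt.1 g5, by simpa using (not_le.1 g4).le⟩
      obtain ⟨σ, h1, h2⟩ := intermediate_value_Icc' (M.α_nn i)
        (continuous_gf_top M.hh (M.φ i) (M.a (i - 1)) (nn (M.φ i + π / 2)) (M.b (j - 1))
          z).continuousOn mem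
      have hb : M.b (j - 1) = M.b i := M.b_const hi fun k a b => hβ k (by omega) (by omega)
      exact ⟨M.φ i, _, M.sup_edge h1.1 h1.2, hb ▸ M.sup_b le_rfl (M.mono (by omega)).le, h2, g2,
        M.mono.monotone (by omega), Or.inr le_rfl⟩

variable {M}
variable {ψ : ℤ → ℝ} {Bh : ℤ → ℂ}

namespace IsDev

lemma fan_ang_mono (D : M.IsDev ψ Bh) {i j : ℤ} (hij : i ≤ j)
    (hβ : ∀ k, i < k → k ≤ j → M.β k = 0) :
    ψ i + chi M.h (M.φ i) (M.d i) ≤ ψ j + chi M.h (M.φ j) (M.d j) := by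
  induction j, hij using Int.leInduction with
  | base => exact le_rfl
  | succ j hj ih =>
    refine (ih fun k a b => hβ k a (by omega)).trans ?_
    rw [← D.ang j]
    have h1 := M.cp_tan_d_succ (j + 1)
    have h2 := M.wd_succ (j + 1)
    rw [add_sub_cancel_right] at h1 h2
    rw [add_le_add_iff_left, chi, chi, h1, h2, hβ (j + 1) (by omega) le_rfl]
    exact arctan_strictMono.monotone (div_le_div_of_nonneg_right
      (by linarith [M.α_nn (j + 1)]) (wd_pos M.hh _ _).le)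

/-- Polar coordinates of a point of a backward fan. -/
lemma fan_polar (D : M.IsDev ψ Bh) {c k j : ℤ} (h1 : ψ j = M.φ j) (h2 : Bh j = M.b j)
    (hck : c < k) (hkj : k < j) (hβ : ∀ i, c < i → i < j → M.β i = 0) {γ : ℝ}
    (g2 : γ ≤ M.φ (c + 1)) {X : ℂ × ℝ} (hX : X ∈ M.face (.side k)) (hl : 0 < X.2) :
    ∃ s ϑ : ℝ, 0 < s ∧ M.pl ψ Bh k X - M.b (j - 1) = (s : ℂ) * nn ϑ ∧
      γ + chi M.h γ (M.d c) < ϑ ∧ ϑ ≤ M.φ j + chi M.h (M.φ j) (M.d (j - 1)) := by
  obtain ⟨l0, l1, σ, s0, s1, hx⟩ := hX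
  have w0 := wd_pos M.hh (M.φ k) (M.d (k - 1))
  have hB : Bh (k - 1) = M.b (j - 1) := by
    rw [← D.Bh_pred h1 h2]
    exact (D.Bh_const (by omega) fun i a b => hβ i (by omega) (by omega)).symm
  set V : ℂ := ⟨X.2 * wd M.h (M.φ k) (M.d (k - 1)), X.2 * cp (M.φ k + π / 2) (M.d (k - 1)) + σ⟩
    with hV
  have v0 : 0 < V.re := mul_pos hl w0
  refine ⟨√(V.re ^ 2 + V.im ^ 2), ψ k + arctan (V.im / V.re), Real.sqrt_pos.2 (by positivity),
    ?_, ?_, ?_⟩
  · rw [D.pl_frame hx, hB, add_sub_cancel_left, nn_add, mul_left_comm, ← polar v0]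
  · have a1 := D.fan_ang_mono (i := c) (j := k - 1) (by omega) fun i a b => hβ i a (by omega)
    have a2 := D.ang (k - 1)
    have a3 := D.ang c
    have a4 := D.sub_mono (show c + 1 < j by omega)
    have a5 := (add_chi_strictMono M.hh (M.d c)).monotone g2
    have a6 : chi M.h (M.φ k) (M.d (k - 1)) ≤ arctan (V.im / V.re) := by
      refine arctan_strictMono.monotone ?_
      rw [div_le_div_iff₀ w0 v0]
      simp only [hV]
      nlinarith [mul_nonneg s0 w0.le]
    rw [sub_add_cancel] at a2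
    dsimp only at *; linarith
  · have a1 := D.fan_ang_mono (i := k) (j := j - 1) (by omega) fun i a b => hβ i (by omega) (by omega)
    have a2 := D.ang (j - 1)
    have a6 : arctan (V.im / V.re) ≤ chi M.h (M.φ k) (M.d k) := by
      refine arctan_strictMono.monotone ?_
      rw [M.wd_succ, M.cp_tan_d_succ, div_le_div_iff₀ v0 w0, hβ k hck hkj]
      simp only [hV]
      rw [len, hβ k hck hkj] at s1
      nlinarith [mul_le_mul_of_nonneg_right s1 w0.le]
    rw [sub_add_cancel, h1] at a2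
    linarith

/-- A backward fan does not turn outwards by a right angle. -/
lemma fan_upper (D : M.IsDev ψ Bh) {c j : ℤ} (h1 : ψ j = M.φ j)
    (hβ : ∀ i, c < i → i < j → M.β i = 0) {γ : ℝ} (g2 : γ ≤ M.φ (c + 1)) (hlen : M.φ j < γ + π)
    (hc : M.φ j ≤ γ + π / 2 ∨ (0 ≤ cp (γ + π / 2) (M.d c) ∧ γ < M.φ (c + 1)))
    {i : ℤ} (hci : c < i) (hij : i ≤ j) : ψ i < M.φ j + π / 2 := by
  have p0 := pi_pos
  have gi : M.φ (c + 1) ≤ M.φ i := M.mono.monotone (by omega)
  rcases hc with hc | ⟨hc, g3⟩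
  · rcases hij.eq_or_lt with rfl | e
    · linarith
    · have := D.add_mono e
      dsimp only at this; linarith
  have hD : ∀ i θ, c ≤ i → i < j → M.φ i ≤ θ → θ ≤ M.φ (i + 1) →
      cos (θ - γ) * cp γ (M.d c) + sin (θ - γ) * cp (γ + π / 2) (M.d c) ≤ cp θ (M.d i) := by
    intro i θ a b t1 t2
    have e := cp_rot γ (θ - γ) (M.d c)
    rw [add_sub_cancel] at e
    rw [← e, d, d, cp_sub, cp_sub, M.b_const a fun k u v => hβ k u (by omega)]
    linarith [M.supa i c θ t1 t2]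
  have main : ∀ F : ℝ → ℝ, (∀ i, c < i → i < j →
      chi M.h (M.φ (i + 1)) (M.d i) - chi M.h (M.φ i) (M.d i) ≤ F (M.φ (i + 1)) - F (M.φ i)) →
      ψ i ≤ M.φ j + F (M.φ j) - F (M.φ i) := by
    intro F hF
    induction i, hij using Int.leInductionDown with
    | base => linarith
    | pred i hi ih =>
      have a := ih (by omega) (M.mono.monotone (by omega))
      have b := hF (i - 1) hci (by omega)
      have e := D.ang (i - 1)
      rw [sub_add_cancel] at b e
      linarith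
  have rng : ∀ i θ, c < i → i < j → M.φ i ≤ θ → θ ≤ M.φ (i + 1) → γ < θ ∧ θ < γ + π :=
    fun i θ a b t1 t2 => ⟨by linarith [M.mono.monotone (show c + 1 ≤ i by omega)],
      by linarith [M.mono.monotone (show i + 1 ≤ j by omega)]⟩
  rcases le_total 0 (cp γ (M.d c)) with h0 | h0
  · have := main (fun x => max x (γ + π / 2)) fun i a b =>
      chi_step_max M.hh _ (M.mono (by omega)).le fun θ t1 t2 t3 => by
        have r := rng i θ a b t1 t2
        refine le_trans (add_nonneg (mul_nonneg ?_ h0) (mul_nonneg ?_ hc)) (hD i θ a.le b t1 t2)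
        · exact cos_nonneg_of_neg_pi_div_two_le_of_le (by linarith [r.1]) (by linarith)
        · exact sin_nonneg_of_nonneg_of_le_pi (by linarith [r.1]) (by linarith [r.2])
    have a := le_max_right (M.φ i) (γ + π / 2)
    have b : max (M.φ j) (γ + π / 2) < γ + π := max_lt hlen (by linarith)
    linarith
  · have := main (fun x => min x (γ + π / 2)) fun i a b =>
      chi_step_min M.hh _ (M.mono (by omega)).le fun θ t1 t2 t3 => by
        have r := rng i θ a b t1 t2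
        refine le_trans (add_nonneg (mul_nonneg_of_nonpos_of_nonpos ?_ h0) (mul_nonneg ?_ hc))
          (hD i θ a.le b t1 t2)
        · exact cos_nonpos_of_pi_div_two_le_of_le (by linarith) (by linarith [r.2])
        · exact sin_nonneg_of_nonneg_of_le_pi (by linarith [r.1]) (by linarith [r.2])
    have a := min_le_right (M.φ j) (γ + π / 2)
    have b : γ < min (M.φ i) (γ + π / 2) := lt_min (by linarith) (by linarith)
    linarith

end IsDev

end Model

end Pool.Agent.P.MP_36f9aa_co
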