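import Pool.Agent.P.MP_36f9aa_co.Fan

set_option autoImplicit false

namespace Pool.Agent.P.MP_36f9aa_co

open Real

lemma cp_polar (θ s ϑ : ℝ) : cp θ ((s : ℂ) * nn ϑ) = s * cos (ϑ - θ) := by rw [cp_mul, cp_nn]
lemma cp_tan_polar (θ s ϑ : ℝ) : cp (θ + π / 2) ((s : ℂ) * nn ϑ) = s * sin (ϑ - θ) := by
  rw [cp_mul, cp_nn, show ϑ - (θ + π / 2) = (ϑ - θ) - π / 2 by ring, cos_sub_pi_div_two]

namespace Model

variable {M : Model} {ψ : ℤ → ℝ} {Bh : ℤ → ℂ}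

namespace IsDev

/-- A backward fan stays behind the fence of the attached face. -/
lemma fan_end (D : M.IsDev ψ Bh) {c k j : ℤ} (h1 : ψ j = M.φ j) (h2 : Bh j = M.b j)
    (hck : c < k) (hkj : k < j) (hβ : ∀ i, c < i → i < j → M.β i = 0) {γ : ℝ}
    (g2 : γ ≤ M.φ (c + 1)) (hlen : M.φ j < γ + π)
    (hc : M.φ j ≤ γ + π / 2 ∨ (0 ≤ cp (γ + π / 2) (M.d c) ∧ γ < M.φ (c + 1)))
    {X : ℂ × ℝ} (hX : X ∈ M.face (.side k)) {s ϑ : ℝ} (s0 : 0 < s)
    (hz : M.pl ψ Bh k X - M.b (j - 1) = (s : ℂ) * nn ϑ) (t1 : M.φ j - π < ϑ)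
    (t2 : ϑ ≤ M.φ j + chi M.h (M.φ j) (M.d (j - 1))) :
    gf M.h (M.φ j) (M.a (j - 1)) (M.b (j - 1)) (M.pl ψ Bh k X) < 0 ∨
      ∃ Y ∈ M.rul (j - 1), M.pl ψ Bh k X = M.pl ψ Bh j Y := by
  have hv := cp_polar (M.φ j) s ϑ
  have hT := cp_tan_polar (M.φ j) s ϑ
  rw [← hz] at hv hT
  have c1 := chi_lt M.h (M.φ j) (M.d (j - 1))
  have c2 := lt_chi M.h (M.φ j) (M.d (j - 1))
  have w0 := wd_pos M.hh (M.φ j) (M.d (j - 1))
  have L0 := ln_pos M.hh (M.d (j - 1))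
  have hE : ∀ l, M.E ψ Bh l (j - 1) - M.b (j - 1) =
      (l : ℂ) * (nn (M.φ j) * fv M.h (M.φ j) (M.d (j - 1))) := fun l => by
    rw [E, D.Rh_pred, D.Bh_pred h1 h2, h1]; ring
  have hd : M.a (j - 1) - M.b (j - 1) = M.d (j - 1) := rfl
  rcases le_or_gt (ϑ - M.φ j) (-(π / 2)) with h | h
  · left
    have : cos (ϑ - M.φ j) ≤ 0 := by
      rw [← cos_neg]; exact cos_nonpos_of_pi_div_two_le_of_le (by linarith) (by linarith)
    rw [gf_neg M.hh (by rw [hv]; nlinarith), hT]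
    exact mul_neg_of_pos_of_neg s0 (sin_neg_of_neg_of_neg_pi_lt (by linarith) (by linarith))
  have cp0 : 0 < cos (ϑ - M.φ j) := cos_pos_of_mem_Ioo ⟨h, by linarith⟩
  have sd := side_eq M.hh (M.φ j) (ϑ - M.φ j) (M.d (j - 1))
  have sn : sin (ϑ - M.φ j - chi M.h (M.φ j) (M.d (j - 1))) ≤ 0 :=
    sin_nonpos_of_nonpos_of_neg_pi_le (by linarith) (by linarith)
  rcases le_or_gt (s * cos (ϑ - M.φ j)) (wd M.h (M.φ j) (M.d (j - 1))) with hw | hw
  · rcases t2.eq_or_lt with e | e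
    · right
      have e' : ϑ - M.φ j = chi M.h (M.φ j) (M.d (j - 1)) := by linarith
      refine ⟨(M.C (s / ln M.h (M.d (j - 1))) (j - 1), s / ln M.h (M.d (j - 1))),
        ⟨by positivity, ?_, rfl⟩, ?_⟩
      · rw [e', wd_eq M.hh] at hw
        rw [e'] at cp0
        exact (div_le_one L0).2 (le_of_mul_le_mul_right hw cp0)
      · have := pl_rul' (M := M) ψ Bh (k := j - 1)
          (X := (M.C (s / ln M.h (M.d (j - 1))) (j - 1), s / ln M.h (M.d (j - 1))))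
          ⟨by positivity, by
            rw [e', wd_eq M.hh] at hw
            rw [e'] at cp0
            exact (div_le_one L0).2 (le_of_mul_le_mul_right hw cp0), rfl⟩
        rw [sub_add_cancel] at this
        rw [this, ← sub_left_inj (a := M.b (j - 1)), hE, hz, fv_polar M.hh, e, nn_add]
        have : (ln M.h (M.d (j - 1)) : ℂ) ≠ 0 := by exact_mod_cast L0.ne'
        push_cast; field_simp
    · left
      rw [gf_mid M.hh (by rw [hv]; positivity) (by rw [hv]; exact hw), hv, hT, hd]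
      have sn' : sin (ϑ - M.φ j - chi M.h (M.φ j) (M.d (j - 1))) < 0 :=
        sin_neg_of_neg_of_neg_pi_lt (by linarith) (by linarith)
      rw [sub_neg, ← mul_div_assoc, lt_div_iff₀ w0]
      nlinarith [mul_pos s0 (neg_pos.2 (mul_neg_of_pos_of_neg L0 sn'))]
  left
  rw [gf_far M.hh (by rw [hv]; exact hw.le), hT, hd, sub_neg]
  rcases lt_or_ge (cp (M.φ j + π / 2) (M.d (j - 1))) 0 with hn | hn
  · have : s * (wd M.h (M.φ j) (M.d (j - 1)) * sin (ϑ - M.φ j) -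
        cp (M.φ j + π / 2) (M.d (j - 1)) * cos (ϑ - M.φ j)) ≤ 0 := by
      rw [sd]; exact mul_nonpos_of_nonneg_of_nonpos s0.le (mul_nonpos_of_nonneg_of_nonpos L0.le sn)
    by_contra hcon
    have := mul_le_mul_of_nonneg_left (not_lt.1 hcon) w0.le
    nlinarith [mul_pos (neg_pos.2 hn) (sub_pos.2 hw)]
  by_contra hcon
  obtain ⟨m, hm, hmax⟩ := (Finset.Icc k j).exists_max_image ψ ⟨j, by simp [hkj.le]⟩
  simp only [Finset.mem_Icc] at hm hmax
  have u1 := D.fan_upper h1 hβ g2 hlen hc (i := m) (by omega) hm.2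
  have u2 := hmax j ⟨hkj.le, le_rfl⟩
  have gk : M.φ (c + 1) ≤ M.φ k := M.mono.monotone (by omega)
  have sg : ∀ i, k ≤ i → i ≤ j → 0 ≤ sin (ψ m - ψ i) := fun i i1 i2 => by
    refine sin_nonneg_of_nonneg_of_le_pi (by linarith [hmax i ⟨i1, i2⟩]) ?_
    have a1 := M.mono.monotone i1
    have a2 := M.mono.monotone i2
    have a3 := M.mono.monotone hm.1
    have a4 := M.mono.monotone hm.2
    rcases le_total i m with e | e
    · linarith [(abs_le.1 (D.abs_sub_le e)).2]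
    · linarith [(abs_le.1 (D.abs_sub_le e)).1]
  have a1 := (D.cp_pl_between hX (sg k le_rfl hkj.le)).2
  have a2 := D.cp_E_mono hX.1 hX.2.1 (show k ≤ j - 1 by omega) (η := ψ m)
    fun i i1 i2 => sg i (by omega) (by omega)
  have a3 := cp_rot (M.φ j) (ψ m - M.φ j) (M.pl ψ Bh k X - M.b (j - 1))
  have a4 := cp_rot (M.φ j) (ψ m - M.φ j) (M.E ψ Bh X.2 (j - 1) - M.b (j - 1))
  rw [add_sub_cancel, hv, hT, cp_sub] at a3
  rw [add_sub_cancel, cp_sub, hE, cp_mul, cp_mul, cp_nn_mul, cp_nn_mul, sub_self,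
    add_sub_cancel_left, cp_zero_left, cp_pi_div_two, fv_re, fv_im] at a4
  have b1 : 0 < cos (ψ m - M.φ j) := cos_pos_of_mem_Ioo ⟨by linarith [pi_pos], by linarith⟩
  have b2 : 0 ≤ sin (ψ m - M.φ j) := sin_nonneg_of_nonneg_of_le_pi (by linarith) (by linarith)
  have b3 : X.2 * wd M.h (M.φ j) (M.d (j - 1)) < s * cos (ϑ - M.φ j) := by nlinarith [hX.2.1]
  have b4 : X.2 * cp (M.φ j + π / 2) (M.d (j - 1)) ≤ s * sin (ϑ - M.φ j) := by
    nlinarith [hX.2.1, not_lt.1 hcon]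
  nlinarith [mul_lt_mul_of_pos_left b3 b1, mul_le_mul_of_nonneg_left b4 b2]

/-- A backward fan stays ahead of the fence at the cut. -/
lemma fan_start (D : M.IsDev ψ Bh) {c k j : ℤ} (h1 : ψ j = M.φ j) (h2 : Bh j = M.b j)
    (hck : c < k) (hkj : k < j) (hβ : ∀ i, c < i → i < j → M.β i = 0) {γ : ℝ}
    (g2 : γ ≤ M.φ (c + 1))
    (hc : M.φ j ≤ γ + π / 2 ∨ 0 ≤ cp (γ + π / 2) (M.d c))
    {X : ℂ × ℝ} (hX : X ∈ M.face (.side k)) (hl : 0 < X.2) {s ϑ : ℝ} (s0 : 0 < s)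
    (hz : M.pl ψ Bh k X - M.b (j - 1) = (s : ℂ) * nn ϑ) (t1 : γ + chi M.h γ (M.d c) < ϑ)
    (t2 : ϑ ≤ γ + π / 2) : 0 < gf M.h γ (M.a c) (M.b (j - 1)) (M.pl ψ Bh k X) := by
  have hv := cp_polar γ s ϑ
  have hT := cp_tan_polar γ s ϑ
  rw [← hz] at hv hT
  have c1 := chi_lt M.h γ (M.d c)
  have c2 := lt_chi M.h γ (M.d c)
  have w0 := wd_pos M.hh γ (M.d c)
  have L0 := ln_pos M.hh (M.d c)
  have hb : M.b (j - 1) = M.b c := M.b_const (by omega) fun i a b => hβ i a (by omega)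
  have hd : M.a c - M.b (j - 1) = M.d c := by rw [hb]; rfl
  have cp0 : 0 ≤ cos (ϑ - γ) := cos_nonneg_of_neg_pi_div_two_le_of_le (by linarith) (by linarith)
  have sd := side_eq M.hh γ (ϑ - γ) (M.d c)
  have sn : 0 < sin (ϑ - γ - chi M.h γ (M.d c)) :=
    sin_pos_of_pos_of_lt_pi (by linarith) (by linarith)
  have sd' : 0 < s * (wd M.h γ (M.d c) * sin (ϑ - γ) - cp (γ + π / 2) (M.d c) * cos (ϑ - γ)) := by
    rw [sd]; positivity
  rcases le_or_gt (s * cos (ϑ - γ)) (wd M.h γ (M.d c)) with hw | hw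
  · rw [gf_mid M.hh (by rw [hv]; positivity) (by rw [hv, hd]; exact hw), hv, hT, hd, sub_pos,
      ← mul_div_assoc, div_lt_iff₀ w0]
    nlinarith
  rw [gf_far M.hh (by rw [hv, hd]; exact hw.le), hd, sub_pos]
  rcases le_or_gt 0 (cp (γ + π / 2) (M.d c)) with hn | hn
  · rw [hT]
    by_contra hcon
    have := mul_le_mul_of_nonneg_left (not_lt.1 hcon) w0.le
    nlinarith [mul_nonneg hn (sub_pos.2 hw).le]
  have hc : M.φ j ≤ γ + π / 2 := hc.resolve_right (not_le.2 hn)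
  obtain ⟨l0, l1, σ, σ0, σ1, hx⟩ := id hX
  have cn : ∀ i, c < i → i < j → Cone γ (M.φ j) (nn (M.φ i + π / 2) - nn (ψ i + π / 2)) :=
    fun i i1 i2 => by
      have a1 := D.add_mono i2
      have a2 := D.sub_mono i2
      have a3 : M.φ (c + 1) ≤ M.φ i := M.mono.monotone (by omega)
      dsimp only at a1 a2
      exact cone_turn (by linarith) (by linarith) (by linarith) (by linarith [pi_pos])
  have a1 := D.disp_bwd l0 l1 (show k ≤ j - 1 by omega) (a := γ) (b := M.φ j)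
    fun i i1 i2 => cn i (by omega) (by omega)
  have a2 := (a1.add (Cone.mul (sub_nonneg.2 σ1) (cn k hck hkj))) (γ + π / 2) (by linarith) le_rfl
  have e : M.pl ψ Bh k X - M.b (j - 1) = (X.1 - M.b (j - 1)) +
      (M.E ψ Bh X.2 (j - 1) - M.C X.2 (j - 1)) +
      (M.E ψ Bh X.2 k - M.C X.2 k - (M.E ψ Bh X.2 (j - 1) - M.C X.2 (j - 1)) +
        ((M.len X.2 k - σ : ℝ) : ℂ) * (nn (M.φ k + π / 2) - nn (ψ k + π / 2))) := by
    rw [pl_eq ψ Bh hx, D.E_succ X.2 k, M.C_succ X.2 k, hx]; push_cast; ring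
  have gj : γ < M.φ j := g2.trans_lt (M.mono (by omega))
  have a3 : 0 < cp (γ + π / 2) (M.E ψ Bh X.2 (j - 1) - M.C X.2 (j - 1)) := by
    rw [D.E_real' h1 h2, add_sub_cancel_left, cp_tan_polar]
    exact mul_pos (mul_pos hl (sub_pos.2 (lt_wd M.hh _ _)))
      (sin_pos_of_pos_of_lt_pi (by linarith) (by linarith [pi_pos]))
  have sg : ∀ i, c < i → i < j → 0 ≤ sin (γ + π / 2 - M.φ i) := fun i i1 i2 => by
    have a3 : M.φ (c + 1) ≤ M.φ i := M.mono.monotone (by omega)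
    have a4 := M.mono i2
    exact sin_nonneg_of_nonneg_of_le_pi (by linarith) (by linarith [pi_pos])
  have a4 := M.cp_C_mono l0 l1 (show c ≤ k - 1 by omega) (η := γ + π / 2)
    fun i i1 i2 => sg i i1 (by omega)
  have a5 := mul_nonneg σ0 (sg k hck hkj)
  rw [M.C_eq X.2 c, cp_add, cp_mul] at a4
  rw [e, cp_add, cp_add, cp_sub _ X.1, hx, cp_add, cp_mul, cp_nn_tan, hb]
  nlinarith

/-- The backward fan lemma. -/
theorem fan_bwd (D : M.IsDev ψ Bh) {c k j : ℤ} (h1 : ψ j = M.φ j) (h2 : Bh j = M.b j)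
    (hck : c < k) (hkj : k < j) (hβ : ∀ i, c < i → i < j → M.β i = 0) {γ : ℝ}
    (g1 : M.φ c ≤ γ) (g2 : γ ≤ M.φ (c + 1)) (hlen : M.φ j < γ + π)
    (hc : M.φ j ≤ γ + π / 2 ∨ (0 ≤ cp (γ + π / 2) (M.d c) ∧ γ < M.φ (c + 1)))
    {X : ℂ × ℝ} (hX : X ∈ M.face (.side k)) (hl : 0 < X.2) :
    (∃ γ', Phi M.A0 M.B0 M.h γ' (M.pl ψ Bh k X) ∧ γ' ≤ M.φ j ∧ (γ < γ' ∨ M.φ (c + 1) ≤ γ')) ∧
    (gf M.h (M.φ j) (M.a (j - 1)) (M.b (j - 1)) (M.pl ψ Bh k X) < 0 ∨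
      ∃ Y ∈ M.rul (j - 1), M.pl ψ Bh k X = M.pl ψ Bh j Y) := by
  obtain ⟨s, ϑ, s0, hz, t1, t2⟩ := D.fan_polar h1 h2 hck hkj hβ g2 hX hl
  have t0 : M.φ j - π < ϑ := by
    rcases hc with hc | hc
    · linarith [lt_chi M.h γ (M.d c)]
    · linarith [chi_nonneg M.hh hc.1]
  have hend := D.fan_end h1 h2 hck hkj hβ g2 hlen hc hX s0 hz t0 t2
  refine ⟨?_, hend⟩
  have hend' : gf M.h (M.φ j) (M.a (j - 1)) (M.b (j - 1)) (M.pl ψ Bh k X) ≤ 0 := by
    rcases hend with h | ⟨Y, hY, e⟩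
    · exact h.le
    · have := pl_rul' (M := M) ψ Bh hY
      rw [sub_add_cancel] at this
      have w0 := wd_pos M.hh (M.φ j) (M.d (j - 1))
      have hE : M.pl ψ Bh k X - M.b (j - 1) =
          (Y.2 : ℂ) * (nn (M.φ j) * fv M.h (M.φ j) (M.d (j - 1))) := by
        rw [e, this, E, D.Rh_pred, D.Bh_pred h1 h2, h1]; ring
      have hv : cp (M.φ j) (M.pl ψ Bh k X - M.b (j - 1)) = Y.2 * wd M.h (M.φ j) (M.d (j - 1)) := by
        rw [hE, cp_mul, cp_nn_mul, sub_self, cp_zero_left, fv_re]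
      have hT : cp (M.φ j + π / 2) (M.pl ψ Bh k X - M.b (j - 1)) =
          Y.2 * cp (M.φ j + π / 2) (M.d (j - 1)) := by
        rw [hE, cp_mul, cp_nn_mul, add_sub_cancel_left, cp_pi_div_two, fv_im]
      have hd : M.a (j - 1) - M.b (j - 1) = M.d (j - 1) := rfl
      rw [gf_mid M.hh (by rw [hv]; exact mul_nonneg hY.1 w0.le)
        (by rw [hv, hd]; nlinarith [hY.2.1]), hv, hT, hd, mul_div_assoc, div_self w0.ne']
      linarith
  have st : ∃ i γs, c ≤ i ∧ i ≤ j - 1 ∧ M.φ i ≤ γs ∧ γs ≤ M.φ (i + 1) ∧ ϑ - γs ≤ π / 2 ∧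
      0 < gf M.h γs (M.a i) (M.b (j - 1)) (M.pl ψ Bh k X) ∧ ((i = c ∧ γs = γ) ∨ γ < γs) := by
    rcases le_or_gt ϑ (γ + π / 2) with h | h
    · exact ⟨c, γ, le_rfl, by omega, g1, g2, by linarith,
        D.fan_start h1 h2 hck hkj hβ g2 (hc.imp id And.left) hX hl s0 hz t1 h, Or.inl ⟨rfl, rfl⟩⟩
    · obtain ⟨i, i1, i2⟩ := M.exists_idx (ϑ - π / 2)
      have c1 := chi_lt M.h (M.φ j) (M.d (j - 1))
      have a1 : c < i + 1 := M.mono.lt_iff_lt.1 (by linarith)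
      have a2 : i < j := M.mono.lt_iff_lt.1 (by linarith)
      refine ⟨i, ϑ - π / 2, by omega, by omega, i1, i2.le, by linarith, ?_, Or.inr (by linarith)⟩
      rw [gf_neg M.hh (by rw [hz, cp_polar]; simp), hz, cp_tan_polar]
      simpa using s0
  obtain ⟨i, γs, i1, i2, i3, i4, i5, i6, i7⟩ := st
  obtain ⟨γ', x, a1, a2, a3, a4, a5, a6⟩ := M.fan_ivt hβ hend' i2 i1 γs i3 i4 i6
  refine ⟨γ', ⟨x, _, a1, a2, ?_, a3⟩, a5, ?_⟩
  · by_contra hv
    rw [gf_neg M.hh (not_lt.1 hv), hz, cp_tan_polar] at a3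
    have := (sin_eq_zero_iff_of_lt_of_lt (x := ϑ - γ') (by linarith) (by linarith [pi_pos])).1
      ((mul_eq_zero.1 a3).resolve_left s0.ne')
    rw [hz, cp_polar, this] at hv
    simp at hv; linarith
  · rcases i7 with ⟨rfl, rfl⟩ | h
    · exact a6
    · exact Or.inl (by linarith)

lemma refl_d (M : Model) (k : ℤ) : M.refl.d k = (starRingEnd ℂ) (M.d (-k - 1)) := by
  simp [d, Model.refl]
lemma refl_C (M : Model) (l : ℝ) (k : ℤ) : M.refl.C l k = (starRingEnd ℂ) (M.C l (-k - 1)) := by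
  simp [C, Model.refl]

/-- The mirror image of a development. -/
lemma refl (D : M.IsDev ψ Bh) :
    M.refl.IsDev (fun k => -ψ (-k)) (fun k => (starRingEnd ℂ) (Bh (-k - 1))) := by
  refine ⟨fun k => ?_, fun k => ?_⟩
  · have := D.ang (-k - 1)
    rw [refl_d]
    change -ψ (-(k + 1)) + chi M.h (-M.φ (-(k + 1))) _ = -ψ (-k) + chi M.h (-M.φ (-k)) _
    rw [chi_conj, chi_conj, show -(k + 1) = -k - 1 by ring]
    rw [sub_add_cancel] at this
    linarith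
  · change _ = _ + (M.β (-k) : ℂ) * _
    rw [show -(k - 1) - 1 = -k by ring, D.pos (-k), map_add, map_mul, conj_nn, Complex.conj_ofReal,
      show -ψ (-k) + π / 2 = -(ψ (-k) + π / 2) + π by ring, nn_add_pi]; ring

lemma refl_E (D : M.IsDev ψ Bh) (l : ℝ) (k : ℤ) :
    M.refl.E (fun k => -ψ (-k)) (fun k => (starRingEnd ℂ) (Bh (-k - 1))) l k =
      (starRingEnd ℂ) (M.E ψ Bh l (-k - 1)) := by
  rw [E, E, D.Rh_pred, Rh, refl_d, map_add, map_mul, map_mul, conj_nn, Complex.conj_ofReal,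
    ← fv_conj]
  rfl

lemma refl_pl (D : M.IsDev ψ Bh) {k : ℤ} {X : ℂ × ℝ} (hX : X ∈ M.face (.side k)) :
    ((starRingEnd ℂ) X.1, X.2) ∈ M.refl.face (.side (-k)) ∧
    M.refl.pl (fun k => -ψ (-k)) (fun k => (starRingEnd ℂ) (Bh (-k - 1))) (-k)
      ((starRingEnd ℂ) X.1, X.2) = (starRingEnd ℂ) (M.pl ψ Bh k X) := by
  obtain ⟨l0, l1, σ, σ0, σ1, hx⟩ := hX
  have e : (starRingEnd ℂ) X.1 = M.refl.C X.2 (-k - 1) +
      ((M.len X.2 k - σ : ℝ) : ℂ) * nn (M.refl.φ (-k) + π / 2) := by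
    rw [refl_C, show -(-k - 1) - 1 = k by ring, M.C_succ X.2 k, hx]
    change _ = _ + _ * nn (-M.φ (- -k) + π / 2)
    simp only [map_add, map_mul, conj_nn, Complex.conj_ofReal, neg_neg]
    rw [show -M.φ k + π / 2 = -(M.φ k + π / 2) + π by ring, nn_add_pi]; push_cast; ring
  refine ⟨⟨l0, l1, M.len X.2 k - σ, by linarith, ?_, e⟩, ?_⟩
  · have : M.refl.len X.2 (-k) = M.len X.2 k := by simp [len, Model.refl]
    simp only [this]; linarith
  · rw [pl_eq (M := M.refl) _ _ e, D.refl_E, pl_eq ψ Bh hx, show -(-k - 1) - 1 = k by ring,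
      D.E_succ X.2 k]
    simp only [map_add, map_mul, conj_nn, Complex.conj_ofReal, neg_neg]
    rw [show -ψ k + π / 2 = -(ψ k + π / 2) + π by ring, nn_add_pi]; push_cast; ring

end IsDev

lemma refl_mem_A (M : Model) {x : ℂ} (hx : x ∈ M.refl.A0) : (starRingEnd ℂ) x ∈ M.A0 := by
  refine convexHull_min (t := {x | (starRingEnd ℂ) x ∈ M.A0}) ?_ ?_ hx
  · rintro _ ⟨k, rfl⟩
    simpa [Model.refl] using M.a_mem _
  · intro x hx y hy s t hs ht hst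
    have := (convex_convexHull ℝ (Set.range M.a)) hx hy hs ht hst
    simpa [Complex.real_smul, A0] using this

lemma mem_refl_A (M : Model) {x : ℂ} (hx : x ∈ M.A0) : (starRingEnd ℂ) x ∈ M.refl.A0 := by
  refine convexHull_min (t := {x | (starRingEnd ℂ) x ∈ M.refl.A0}) ?_ ?_ hx
  · rintro _ ⟨k, rfl⟩
    have := M.refl.a_mem (-k - 1)
    simpa [Model.refl] using this
  · intro x hx y hy s t hs ht hst
    have := (convex_convexHull ℝ (Set.range M.refl.a)) hx hy hs ht hst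
    simpa [Complex.real_smul, A0] using this

lemma sup_refl_A (M : Model) {θ : ℝ} {x : ℂ} (hx : Sup M.refl.A0 θ x) :
    Sup M.A0 (-θ) ((starRingEnd ℂ) x) :=
  ⟨M.refl_mem_A hx.1, fun x' hx' => by
    have := hx.2 _ (M.mem_refl_A hx')
    rw [cp_conj] at this
    rwa [cp_conj, neg_neg]⟩

lemma phi_refl (M : Model) {θ : ℝ} {z : ℂ} (hz : Phi M.refl.A0 M.refl.B0 M.h θ z) :
    Phi M.A0 M.B0 M.h (-θ) ((starRingEnd ℂ) z) := by
  obtain ⟨x, y, h1, h2, h3, h4⟩ := hz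
  refine ⟨_, _, M.sup_refl_A h1, M.swap.sup_refl_A h2, ?_, by rw [gf_conj, h4, neg_zero]⟩
  rwa [← map_sub, cp_conj, neg_neg]

/-- The forward fan lemma. -/
theorem IsDev.fan_fwd (D : M.IsDev ψ Bh) {c k j : ℤ} (h1 : ψ j = M.φ j) (h2 : Bh j = M.b j)
    (hjk : j < k) (hkc : k ≤ c) (hβ : ∀ i, j < i → i ≤ c → M.β i = 0) {γ : ℝ}
    (g1 : M.φ c ≤ γ) (g2 : γ ≤ M.φ (c + 1)) (hlen : γ < M.φ j + π)
    (hc : γ ≤ M.φ j + π / 2 ∨ (cp (γ + π / 2) (M.d c) ≤ 0 ∧ M.φ c < γ))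
    {X : ℂ × ℝ} (hX : X ∈ M.face (.side k)) (hl : 0 < X.2) :
    (∃ γ', Phi M.A0 M.B0 M.h γ' (M.pl ψ Bh k X) ∧ M.φ j ≤ γ' ∧ (γ' < γ ∨ γ' ≤ M.φ c)) ∧
    (0 < gf M.h (M.φ j) (M.a j) (M.b j) (M.pl ψ Bh k X) ∨
      ∃ Y ∈ M.rul j, M.pl ψ Bh k X = M.pl ψ Bh j Y) := by
  obtain ⟨hX', e⟩ := D.refl_pl hX
  have φ' : ∀ i, M.refl.φ i = -M.φ (-i) := fun _ => rfl
  have := D.refl.fan_bwd (c := -c - 1) (k := -k) (j := -j) (γ := -γ) (by simp [φ', h1])
    (by simp [Model.refl, D.Bh_pred h1 h2]) (by omega) (by omega)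
    (fun i a b => hβ (-i) (by omega) (by omega))
    (by rw [φ', show -(-c - 1) = c + 1 by ring]; linarith)
    (by rw [φ', show -(-c - 1 + 1) = c by ring]; linarith)
    (by rw [φ', neg_neg]; linarith)
    (by
      rw [φ', φ', neg_neg, show -(-c - 1 + 1) = c by ring, IsDev.refl_d,
        show -(-c - 1) - 1 = c by ring, cp_conj_tan]
      exact hc.imp (fun h => by linarith) fun h => ⟨by linarith [h.1], by linarith [h.2]⟩)
    hX' hl
  rw [e] at this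
  obtain ⟨⟨γ', a1, a2, a3⟩, a4⟩ := this
  refine ⟨⟨-γ', by simpa using M.phi_refl a1, ?_, ?_⟩, ?_⟩
  · rw [φ', neg_neg] at a2; linarith
  · rw [φ', show -(-c - 1 + 1) = c by ring] at a3
    exact a3.imp (fun h => by linarith) fun h => by linarith
  · refine a4.imp (fun h => ?_) ?_
    · change gf M.h (-M.φ (- -j)) ((starRingEnd ℂ) (M.a (-(-j - 1) - 1)))
        ((starRingEnd ℂ) (M.b (-(-j - 1) - 1))) _ < 0 at h
      rw [neg_neg, show -(-j - 1) - 1 = j by ring, gf_conj] at h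
      linarith
    · rintro ⟨Y, hY, hz⟩
      have := IsDev.pl_rul' (M := M.refl) (fun k => -ψ (-k))
        (fun k => (starRingEnd ℂ) (Bh (-k - 1))) hY
      rw [sub_add_cancel, D.refl_E, show -(-j - 1) - 1 = j by ring, ← hz] at this
      refine ⟨(M.C Y.2 j, Y.2), ⟨hY.1, hY.2.1, rfl⟩, ?_⟩
      rw [D.pl_rul (k := j) (X := (M.C Y.2 j, Y.2)) ⟨hY.1, hY.2.1, rfl⟩]
      simpa using congrArg (starRingEnd ℂ) this

end Model

end Pool.Agent.P.MP_36f9aa_co
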