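import Pool.Agent.P.MP_36f9aa_co.Basic

set_option autoImplicit false

namespace Pool.Agent.P.MP_36f9aa_co

open Real

namespace Fence

/-- The data of a point on a fence. -/
lemma data {h θ : ℝ} {x y z : ℂ} (hh : 0 < h) (hv : 0 < cp θ (z - y)) (hg : gf h θ x y z = 0) :
    ∃ l μ : ℝ, 0 < l ∧ l ≤ 1 ∧ 0 < μ ∧
      z = ((1 - l : ℝ) : ℂ) * y + (l : ℂ) * x + (μ : ℂ) * nn θ ∧
      l * (wd h θ (x - y) - cp θ (x - y)) ≤ μ ∧
      (l < 1 → μ = l * (wd h θ (x - y) - cp θ (x - y))) := by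
  have w0 := wd_pos hh θ (x - y)
  have wD := lt_wd hh θ (x - y)
  have hl : 0 < min (cp θ (z - y) / wd h θ (x - y)) 1 := lt_min (div_pos hv w0) one_pos
  unfold gf at hg
  rw [max_eq_right hl.le] at hg
  have h1 : min (cp θ (z - y) / wd h θ (x - y)) 1 * wd h θ (x - y) ≤ cp θ (z - y) := by
    rw [← le_div_iff₀ w0]; exact min_le_left _ _
  have h2 : min (cp θ (z - y) / wd h θ (x - y)) 1 < 1 →
      min (cp θ (z - y) / wd h θ (x - y)) 1 * wd h θ (x - y) = cp θ (z - y) := by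
    intro a
    rw [min_eq_left, div_mul_cancel₀ _ w0.ne']
    by_contra b
    rw [min_eq_right (not_le.1 b).le] at a
    exact lt_irrefl _ a
  have h3 := min_le_right (cp θ (z - y) / wd h θ (x - y)) 1
  generalize min (cp θ (z - y) / wd h θ (x - y)) 1 = l at hl hg h1 h2 h3
  refine ⟨l, cp θ (z - y) - l * cp θ (x - y), hl, h3, by nlinarith, ?_, by linarith,
    fun a => by rw [← h2 a]; ring⟩
  apply eq_of_cp θ
  · simp only [cp_add, cp_mul, cp_nn, cp_sub, sub_self, cos_zero]; ring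
  · have : θ - (θ + π / 2) = -(π / 2) := by ring
    simp only [cp_add, cp_mul, cp_nn, cp_sub, this, cos_neg, cos_pi_div_two] at hg ⊢
    linarith

/-- The supporting half-space at the touching point. -/
lemma half {A B : Set ℂ} {h θ l μ l' : ℝ} {x y x' y' : ℂ} (hh : 0 < h) (hx : Sup A θ x)
    (hy : Sup B θ y) (l0 : 0 < l) (l1 : l ≤ 1) (m0 : 0 < μ)
    (m1 : l * (wd h θ (x - y) - cp θ (x - y)) ≤ μ)
    (m2 : l < 1 → μ = l * (wd h θ (x - y) - cp θ (x - y)))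
    (hx' : x' ∈ A) (hy' : y' ∈ B) (k0 : 0 ≤ l') (k1 : l' ≤ 1) :
    2 * l * μ * ((1 - l') * cp θ y' + l' * cp θ x' - ((1 - l) * cp θ y + l * cp θ x)) +
      (l' - l) * (μ ^ 2 - l ^ 2 * h ^ 2) ≤ 0 := by
  have w0 := wd_pos hh θ (x - y)
  have ws := wd_sq h θ (x - y)
  have a1 := hx.2 x' hx'
  have a2 := hy.2 y' hy'
  have e : (1 - l') * cp θ y' + l' * cp θ x' - ((1 - l) * cp θ y + l * cp θ x) ≤
      (l' - l) * cp θ (x - y) := by
    rw [cp_sub]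
    nlinarith [mul_le_mul_of_nonneg_left a1 k0, mul_le_mul_of_nonneg_left a2 (sub_nonneg.2 k1)]
  generalize wd h θ (x - y) = w at *
  generalize cp θ (x - y) = D at *
  have e' := mul_le_mul_of_nonneg_left e (show 0 ≤ 2 * l * μ by positivity)
  have f : (l' - l) * ((μ + l * D - l * w) * (μ + l * D + l * w)) ≤ 0 := by
    rcases l1.eq_or_lt with c | c
    · subst c
      exact mul_nonpos_of_nonpos_of_nonneg (by linarith) (mul_nonneg (by linarith) (by linarith))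
    · rw [show μ + l * D - l * w = 0 by rw [m2 c]; ring]; simp
  have g : (μ + l * D - l * w) * (μ + l * D + l * w) =
      2 * l * μ * D + (μ ^ 2 - l ^ 2 * h ^ 2) := by linear_combination (-l ^ 2) * ws
  rw [g] at f
  linarith

lemma pos {A B : Set ℂ} {h θ : ℝ} {z : ℂ} (hz : Phi A B h θ z) :
    ∀ y ∈ B, 0 < cp θ (z - y) := by
  obtain ⟨x, y, -, hy, hv, -⟩ := hz
  intro y' hy'
  have := hy.2 y' hy'
  rw [cp_sub] at hv ⊢
  linarith

lemma core {A B : Set ℂ} {h θ θ₀ : ℝ} {z x₀ y₀ : ℂ} (hh : 0 < h) (hz : Phi A B h θ z)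
    (hC : cos (θ - θ₀) < 1) (hx₀ : Sup A θ₀ x₀) (hy₀ : Sup B θ₀ y₀)
    (hH : 0 ≤ cp θ₀ (z - y₀)) : 0 < gf h θ₀ x₀ y₀ z * sin (θ - θ₀) := by
  rcases hH.eq_or_lt with e | e
  · have h1 := pos hz y₀ hy₀.1
    have h2 := cp_rot θ₀ (θ - θ₀) (z - y₀)
    rw [show θ₀ + (θ - θ₀) = θ by ring, ← e] at h2
    unfold gf
    rw [← e]
    simp only [zero_div, zero_le_one, min_eq_left, max_self, mul_zero, sub_zero]
    linarith
  obtain ⟨x, y, hx, hy, hv, hg⟩ := hz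
  obtain ⟨l, μ, l0, l1, m0, hz, m1, m2⟩ := data hh hv hg
  set g := gf h θ₀ x₀ y₀ z with hgd
  have t0 : θ₀ + π / 2 - θ₀ = π / 2 := by ring
  have e1 : cp θ₀ (z - (g : ℂ) * nn (θ₀ + π / 2) - y₀) = cp θ₀ (z - y₀) := by
    simp only [cp_sub, cp_mul, cp_nn, t0, cos_pi_div_two]; ring
  have e2 : gf h θ₀ x₀ y₀ (z - (g : ℂ) * nn (θ₀ + π / 2)) = 0 := by
    have : cp (θ₀ + π / 2) (z - (g : ℂ) * nn (θ₀ + π / 2) - y₀) =
        cp (θ₀ + π / 2) (z - y₀) - g := by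
      simp only [cp_sub, cp_mul, cp_nn, sub_self, cos_zero]; ring
    unfold gf
    rw [e1, this, hgd]
    unfold gf
    ring
  obtain ⟨k, ν, k0, k1, n0, hz1, n1, n2⟩ := data hh (e1 ▸ e) e2
  have H1 := half hh hx hy l0 l1 m0 m1 m2 hx₀.1 hy₀.1 k0.le k1
  have H2 := half hh hx₀ hy₀ k0 k1 n0 n1 n2 hx.1 hy.1 l0.le l1
  have c1 := congrArg (cp θ) hz
  have c2 := congrArg (cp θ₀) hz
  have c3 := congrArg (cp θ) hz1
  have c4 := congrArg (cp θ₀) hz1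
  have t1 : cos (θ₀ + π / 2 - θ) = sin (θ - θ₀) := by
    rw [show θ₀ + π / 2 - θ = π / 2 - (θ - θ₀) by ring, cos_pi_div_two_sub]
  have t2 : cos (θ₀ - θ) = cos (θ - θ₀) := by rw [← cos_neg, neg_sub]
  simp only [cp_add, cp_sub, cp_mul, cp_nn, sub_self, cos_zero, t0, t1, t2, cos_pi_div_two]
    at c1 c2 c3 c4
  generalize cos (θ - θ₀) = C at *
  generalize sin (θ - θ₀) = S at *
  rw [show (1 - k) * cp θ y₀ + k * cp θ x₀ - ((1 - l) * cp θ y + l * cp θ x) =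
    μ - ν * C - g * S by linarith] at H1
  rw [show (1 - l) * cp θ₀ y + l * cp θ₀ x - ((1 - k) * cp θ₀ y₀ + k * cp θ₀ x₀) =
    ν - μ * C by linarith] at H2
  by_contra hc
  have hc' : 0 ≤ -(g * S) := by linarith
  have p1 := mul_le_mul_of_nonneg_left H1 (sq_nonneg k)
  have p2 := mul_le_mul_of_nonneg_left H2 (sq_nonneg l)
  have p3 : 0 ≤ k ^ 2 * (2 * l * μ) * -(g * S) := by positivity
  have p4 : 0 < (l + k) * ((k * μ - l * ν) ^ 2 + 2 * (1 - C) * (l * k * μ * ν)) := by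
    have : 0 < 1 - C := by linarith
    positivity
  nlinarith

lemma cos_lt {δ : ℝ} (h1 : 0 < δ) (h2 : δ < 2 * π) : cos δ < 1 := by
  have h3 : 0 < sin (δ / 2) := sin_pos_of_pos_of_lt_pi (by linarith) (by linarith)
  have h4 := cos_two_mul (δ / 2)
  rw [show 2 * (δ / 2) = δ by ring] at h4
  nlinarith [sin_sq_add_cos_sq (δ / 2)]

lemma sup_conj {A : Set ℂ} {θ : ℝ} {x : ℂ} (h : Sup A θ x) :
    Sup ((starRingEnd ℂ) '' A) (-θ) ((starRingEnd ℂ) x) := by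
  refine ⟨⟨x, h.1, rfl⟩, ?_⟩
  rintro _ ⟨x', hx', rfl⟩
  rw [cp_conj, cp_conj, neg_neg]
  exact h.2 x' hx'

end Fence

theorem phi_decomp {A B : Set ℂ} {h θ : ℝ} {z : ℂ} (hh : 0 < h) (hz : Phi A B h θ z) :
    ∃ (x y : ℂ) (l μ : ℝ), Sup A θ x ∧ Sup B θ y ∧ 0 < l ∧ l ≤ 1 ∧ 0 < μ ∧
      z = ((1 - l : ℝ) : ℂ) * y + (l : ℂ) * x + (μ : ℂ) * nn θ := by
  obtain ⟨x, y, hx, hy, hv, hg⟩ := hz
  obtain ⟨l, μ, l0, l1, m0, hz, -, -⟩ := Fence.data hh hv hg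
  exact ⟨x, y, l, μ, hx, hy, l0, l1, m0, hz⟩

theorem phi_pos {A B : Set ℂ} {h θ : ℝ} {z : ℂ} (hz : Phi A B h θ z) :
    ∀ y ∈ B, 0 < cp θ (z - y) := Fence.pos hz

theorem phi_mono {A B : Set ℂ} {h θ θ₀ : ℝ} {z x₀ y₀ : ℂ} (hh : 0 < h) (hz : Phi A B h θ z)
    (h1 : θ₀ < θ) (h2 : θ < θ₀ + π) (hx : Sup A θ₀ x₀) (hy : Sup B θ₀ y₀)
    (hH : 0 ≤ cp θ₀ (z - y₀)) : 0 < gf h θ₀ x₀ y₀ z := by
  have := Fence.core hh hz (Fence.cos_lt (by linarith) (by linarith [pi_pos])) hx hy hH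
  exact (mul_pos_iff_of_pos_right (sin_pos_of_pos_of_lt_pi (by linarith) (by linarith))).1 this

theorem phi_anti {A B : Set ℂ} {h θ θ₀ : ℝ} {z x₀ y₀ : ℂ} (hh : 0 < h) (hz : Phi A B h θ z)
    (h1 : θ < θ₀) (h2 : θ₀ < θ + π) (hx : Sup A θ₀ x₀) (hy : Sup B θ₀ y₀)
    (hH : 0 ≤ cp θ₀ (z - y₀)) : gf h θ₀ x₀ y₀ z < 0 := by
  have hc : cos (θ - θ₀) < 1 := by
    rw [← cos_neg, neg_sub]
    exact Fence.cos_lt (by linarith) (by linarith [pi_pos])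
  have := Fence.core hh hz hc hx hy hH
  have hs : 0 < sin (θ₀ - θ) := sin_pos_of_pos_of_lt_pi (by linarith) (by linarith)
  rw [← neg_sub θ₀ θ, sin_neg] at this
  by_contra c
  nlinarith [mul_nonneg (not_lt.1 c) hs.le]

theorem phi_uniq {A B : Set ℂ} {h θ θ' : ℝ} {z : ℂ} (hh : 0 < h) (hz : Phi A B h θ z)
    (hz' : Phi A B h θ' z) (h1 : θ < θ') (h2 : θ' < θ + 2 * π) : False := by
  obtain ⟨x, y, hx, hy, hv, hg⟩ := hz
  have := Fence.core hh hz' (Fence.cos_lt (by linarith) (by linarith)) hx hy hv.le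
  rw [hg, zero_mul] at this
  exact lt_irrefl _ this

theorem phi_add_two_pi {A B : Set ℂ} {h θ : ℝ} {z : ℂ} :
    Phi A B h (θ + 2 * π) z ↔ Phi A B h θ z := by
  have e : θ + 2 * π + π / 2 = θ + π / 2 + 2 * π := by ring
  simp only [Phi, Sup, gf, wd, e, cp_add_two_pi]

theorem phi_conj {A B : Set ℂ} {h θ : ℝ} {z : ℂ} (hz : Phi A B h θ z) :
    Phi ((starRingEnd ℂ) '' A) ((starRingEnd ℂ) '' B) h (-θ) ((starRingEnd ℂ) z) := by
  obtain ⟨x, y, hx, hy, hv, hg⟩ := hz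
  refine ⟨_, _, Fence.sup_conj hx, Fence.sup_conj hy, ?_, ?_⟩
  · rwa [← map_sub, cp_conj, neg_neg]
  · unfold gf wd at hg ⊢
    rw [← map_sub, ← map_sub, cp_conj_tan, cp_conj_tan, cp_conj, cp_conj, neg_neg]
    linarith

end Pool.Agent.P.MP_36f9aa_co
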