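import Pool.Agent.P.MP_36f9aa_co.Model

set_option autoImplicit false

namespace Pool.Agent.P.MP_36f9aa_co

open Real Topology Filter

namespace Polyg

/-- `t` is the normal direction of an edge. -/
def Nrm (s : Set ℂ) (t : ℝ) : Prop := ∃ x y, x ≠ y ∧ Sup s t x ∧ Sup s t y

/-- `x` is the last support point in direction `t`. -/
def Lx (s : Set ℂ) (t : ℝ) (x : ℂ) : Prop :=
  Sup s t x ∧ ∀ y, Sup s t y → cp (t + π / 2) y ≤ cp (t + π / 2) x

variable {s : Set ℂ}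

lemma sup_per {t : ℝ} {x : ℂ} : Sup s (t + 2 * π) x ↔ Sup s t x := by
  simp only [Sup, cp_add_two_pi]

lemma nrm_per {t : ℝ} : Nrm s (t + 2 * π) ↔ Nrm s t := by simp only [Nrm, sup_per]

lemma lx_per {t : ℝ} {x : ℂ} : Lx s (t + 2 * π) x ↔ Lx s t x := by
  simp only [Lx, sup_per, add_right_comm t (2 * π), cp_add_two_pi]

lemma sup_eq {t : ℝ} {x y : ℂ} (hx : Sup s t x) (hy : Sup s t y) : cp t x = cp t y :=
  (hy.2 x hx.1).antisymm (hx.2 y hy.1)

lemma lx_uniq {t : ℝ} {x y : ℂ} (hx : Lx s t x) (hy : Lx s t y) : x = y :=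
  eq_of_cp t (sup_eq hx.1 hy.1) ((hy.2 x hx.1).antisymm (hx.2 y hy.1))

lemma exists_lx (hs : s.Finite) (hne : s.Nonempty) (t : ℝ) : ∃ x, Lx s t x := by
  obtain ⟨x, hx⟩ := Set.exists_max_image s (cp t) hs hne
  obtain ⟨y, hy⟩ := Set.exists_max_image {y | Sup s t y} (cp (t + π / 2))
    (hs.subset fun _ h => h.1) ⟨x, hx⟩
  exact ⟨y, hy⟩

lemma cont (z : ℂ) : Continuous fun t => cp t z := by unfold cp; fun_prop

lemma lx_nhds (hs : s.Finite) {t : ℝ} {x : ℂ} (hx : Lx s t x) : {v | Sup s v x} ∈ 𝓝[>] t := by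
  have : ∀ᶠ v in 𝓝[>] t, ∀ y ∈ s, cp v y ≤ cp v x := by
    rw [eventually_all_finite hs]
    intro y hy
    rcases (hx.1.2 y hy).lt_or_eq with h | h
    · exact (((cont y).continuousAt.eventually_lt (cont x).continuousAt h).mono
        fun _ h => h.le).filter_mono nhdsWithin_le_nhds
    · have h1 := hx.2 y ⟨hy, fun z hz => h ▸ hx.1.2 z hz⟩
      filter_upwards [Ioo_mem_nhdsGT (show t < t + π by linarith [pi_pos])] with v hv
      have h2 : 0 ≤ sin (v - t) :=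
        sin_nonneg_of_nonneg_of_le_pi (by linarith [hv.1]) (by linarith [hv.2])
      rw [show v = t + (v - t) by ring, cp_rot t (v - t) y, cp_rot t (v - t) x, h]
      nlinarith
  exact this.mono fun v hv => ⟨hx.1.1, hv⟩

lemma sup_Icc (hs : s.Finite) {t t' : ℝ} {x : ℂ} (hx : Lx s t x)
    (hn : ∀ u, t < u → u < t' → ¬ Nrm s u) {u : ℝ} (h1 : t ≤ u) (h2 : u ≤ t') : Sup s u x := by
  have hc : IsClosed {v | Sup s v x} := by
    have : {v | Sup s v x} = ⋂ y ∈ s, {v | cp v y ≤ cp v x} := by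
      ext v; simp [Sup, hx.1.1]
    rw [this]
    exact isClosed_biInter fun y _ => isClosed_le (cont y) (cont x)
  refine IsClosed.Icc_subset_of_forall_mem_nhdsWithin (hc.inter isClosed_Icc) hx.1 ?_ ⟨h1, h2⟩
  rintro v ⟨hv, v1, v2⟩
  rcases v1.eq_or_lt with rfl | v1
  · exact lx_nhds hs hx
  · refine lx_nhds hs ⟨hv, fun y hy => ?_⟩
    by_cases e : y = x
    · rw [e]
    · exact absurd ⟨y, x, e, hy, hv⟩ (hn v v1 v2)

lemma zero_sub {d : ℂ} (hd : d ≠ 0) (a : ℝ) :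
    {t | t ∈ Set.Ico a (a + π) ∧ cp t d = 0}.Subsingleton := by
  have key : ∀ t u, t < u → u < t + π → cp t d = 0 → cp u d = 0 → False := by
    intro t u h1 h2 h3 h4
    have h5 : 0 < sin (u - t) := sin_pos_of_pos_of_lt_pi (by linarith) (by linarith)
    rw [show u = t + (u - t) by ring, cp_rot, h3, mul_zero, zero_add] at h4
    exact hd (eq_of_cp t (by simpa using h3)
      (by simpa using (mul_eq_zero.1 h4).resolve_left h5.ne'))
  rintro t ⟨⟨t1, t2⟩, ht⟩ u ⟨⟨u1, u2⟩, hu⟩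
  rcases lt_trichotomy t u with h | h | h
  · exact (key t u h (by linarith) ht hu).elim
  · exact h
  · exact (key u t h (by linarith) hu ht).elim

lemma nrm_finite (hs : s.Finite) : {t | t ∈ Set.Ico 0 (2 * π) ∧ Nrm s t}.Finite := by
  refine (((hs.prod hs).subset (Set.sep_subset (s ×ˢ s) fun p => p.1 ≠ p.2)).biUnion
    (t := fun p => {t | t ∈ Set.Ico 0 (0 + π) ∧ cp t (p.1 - p.2) = 0} ∪
      {t | t ∈ Set.Ico π (π + π) ∧ cp t (p.1 - p.2) = 0}) fun p hp =>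
      (zero_sub (sub_ne_zero.2 hp.2) 0).finite.union
        (zero_sub (sub_ne_zero.2 hp.2) π).finite).subset ?_
  rintro t ⟨⟨t1, t2⟩, x, y, e, hx, hy⟩
  refine Set.mem_biUnion (x := (x, y)) ⟨⟨hx.1, hy.1⟩, e⟩ ?_
  have : cp t (x - y) = 0 := by rw [cp_sub, sup_eq hx hy, sub_self]
  rcases lt_or_ge t π with h | h
  · exact Or.inl ⟨⟨t1, by linarith⟩, this⟩
  · exact Or.inr ⟨⟨h, by linarith⟩, this⟩

lemma nonempty_of (h : Module.finrank ℝ (vectorSpan ℝ (convexHull ℝ s)) = 2) : s.Nonempty := by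
  by_contra e
  rw [Set.not_nonempty_iff_eq_empty.1 e, convexHull_empty, vectorSpan_empty, finrank_bot] at h
  omega

lemma gap (hs : s.Finite) (h : Module.finrank ℝ (vectorSpan ℝ (convexHull ℝ s)) = 2) (θ : ℝ) :
    ∃ u, θ < u ∧ u < θ + π ∧ Nrm s u := by
  by_contra hn
  obtain ⟨x, hx⟩ := exists_lx hs (nonempty_of h) θ
  have h1 := sup_Icc hs hx (t' := θ + π) (fun u a b c => hn ⟨u, a, b, c⟩)
    (by linarith [pi_pos]) le_rfl
  have h2 : ∀ y ∈ convexHull ℝ s, cp θ y = cp θ x := by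
    intro y hy
    have a := convexHull_min (t := {z : ℂ | cp θ z ≤ cp θ x}) hx.1.2 (Model.cp_convex _ _) hy
    have b := convexHull_min (t := {z : ℂ | cp (θ + π) z ≤ cp (θ + π) x}) h1.2
      (Model.cp_convex _ _) hy
    simp only [Set.mem_ofPred_eq, cp_add_pi] at a b
    linarith
  have h3 : vectorSpan ℝ (convexHull ℝ s) ≤ Submodule.span ℝ {nn (θ + π / 2)} := by
    rw [vectorSpan_def, Submodule.span_le]
    rintro _ ⟨y, hy, z, hz, rfl⟩
    refine Submodule.mem_span_singleton.2 ⟨cp (θ + π / 2) (y - z), ?_⟩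
    have := frame θ (y - z)
    rw [cp_sub θ, h2 y hy, h2 z hz] at this
    simpa using this.symm
  have h4 := (Submodule.finrank_mono h3).trans (finrank_span_le_card _)
  simp [h] at h4

lemma enum (N : ℝ → Prop) (hp : ∀ t, N (t + 2 * π) ↔ N t)
    (hf : {t | t ∈ Set.Ico 0 (2 * π) ∧ N t}.Finite) (hne : ∃ t ∈ Set.Ico 0 (2 * π), N t) :
    ∃ (n : ℕ) (φ : ℤ → ℝ), 0 < n ∧ StrictMono φ ∧ (∀ k, φ (k + n) = φ k + 2 * π) ∧
      (∀ k, N (φ k)) ∧ ∀ t, N t → ∃ k, φ k = t := by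
  have hp' : ∀ (m : ℤ) t, N (t + m * (2 * π)) ↔ N t := by
    intro m
    induction m using Int.induction_on with
    | zero => simp
    | succ m ih =>
      intro t
      rw [← ih t, ← hp (t + ((m : ℤ) : ℝ) * (2 * π))]; push_cast; rw [add_mul, one_mul, add_assoc]
    | pred m ih =>
      intro t
      rw [← ih t, ← hp (t + _)]; push_cast; rw [sub_mul, one_mul, add_assoc, sub_add_cancel]
  set n := hf.toFinset.card with hn
  have n0 : 0 < n := Finset.card_pos.2 (by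
    obtain ⟨t, ht⟩ := hne
    exact ⟨t, hf.mem_toFinset.2 ht⟩)
  have n1 : (0 : ℤ) < n := by exact_mod_cast n0
  let e := hf.toFinset.orderEmbOfFin hn.symm
  have he : ∀ i, e i ∈ Set.Ico 0 (2 * π) ∧ N (e i) := fun i =>
    hf.mem_toFinset.1 (Finset.orderEmbOfFin_mem _ _ i)
  let r : ℤ → Fin n := fun k => ⟨(k % n).toNat, by
    have := Int.emod_nonneg k n1.ne'
    have := Int.emod_lt_of_pos k n1
    omega⟩
  refine ⟨n, fun k => e (r k) + (k / n : ℤ) * (2 * π), n0, fun k l hkl => ?_, fun k => ?_,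
    fun k => (hp' _ _).2 (he _).2, fun t ht => ?_⟩
  · rcases (Int.ediv_le_ediv n1 hkl.le).eq_or_lt with h | h
    · have h1 := Int.emod_add_mul_ediv k n
      have h2 := Int.emod_add_mul_ediv l n
      have h3 := Int.emod_nonneg k n1.ne'
      rw [h] at h1
      have : r k < r l := by
        show (k % n).toNat < (l % n).toNat
        omega
      simp only [h]
      linarith [e.strictMono this]
    · have h1 : ((k / n : ℤ) : ℝ) + 1 ≤ (l / n : ℤ) := by exact_mod_cast h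
      have := (he (r k)).1.2
      have := (he (r l)).1.1
      simp only
      nlinarith [pi_pos]
  · have h1 : r (k + n) = r k := by simp [r]
    have h2 : (k + n) / n = k / n + 1 := by
      simpa using Int.add_mul_ediv_right k 1 n1.ne'
    simp only [h1, h2]
    push_cast
    ring
  · have h2 : 0 < 2 * π := by positivity
    have h1 := toIcoMod_mem_Ico' h2 t
    have h3 := toIcoMod_add_toIcoDiv_zsmul h2 0 t
    rw [zsmul_eq_mul] at h3
    have h4 : toIcoMod h2 0 t ∈ Set.range e := by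
      rw [Finset.range_orderEmbOfFin]
      exact hf.mem_toFinset.2 ⟨h1, (hp' (toIcoDiv h2 0 t) _).1 (h3.symm ▸ ht)⟩
    obtain ⟨i, hi⟩ := h4
    refine ⟨i + toIcoDiv h2 0 t * n, ?_⟩
    have i1 : ((i : ℕ) : ℤ) < n := by exact_mod_cast i.2
    have h5 : r (i + toIcoDiv h2 0 t * n) = i := by
      apply Fin.ext
      simp only [r, Int.add_mul_emod_self_right]
      rw [Int.emod_eq_of_lt (by positivity) i1]
      simp
    have h6 : ((i : ℕ) + toIcoDiv h2 0 t * n : ℤ) / n = toIcoDiv h2 0 t := by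
      rw [Int.add_mul_ediv_right _ _ n1.ne', Int.ediv_eq_zero_of_lt (by positivity) i1, zero_add]
    simp only [h5, h6, hi, h3]

lemma side (hs : s.Finite) (h : Module.finrank ℝ (vectorSpan ℝ (convexHull ℝ s)) = 2) {n : ℕ}
    {φ : ℤ → ℝ} (mono : StrictMono φ) (per : ∀ k, φ (k + n) = φ k + 2 * π)
    (hr : ∀ t, Nrm s t → ∃ k, φ k = t) :
    ∃ (a : ℤ → ℂ) (α : ℤ → ℝ), (∀ k, a (k + n) = a k) ∧
      (∀ k, a k = a (k - 1) + (α k : ℂ) * nn (φ k + π / 2)) ∧ (∀ k, 0 ≤ α k) ∧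
      (∀ k, Nrm s (φ k) → 0 < α k) ∧ (∀ k θ, φ k ≤ θ → θ ≤ φ (k + 1) → Sup s θ (a k)) ∧
      ∀ θ, ∃ k, 0 < α k ∧ θ < φ k ∧ φ k < θ + π := by
  choose a ha using fun k => exists_lx hs (nonempty_of h) (φ k)
  have h1 : ∀ k θ, φ k ≤ θ → θ ≤ φ (k + 1) → Sup s θ (a k) := fun k θ =>
    sup_Icc hs (ha k) fun u u1 u2 hu => by
      obtain ⟨j, rfl⟩ := hr u hu
      rw [mono.lt_iff_lt] at u1 u2
      omega
  have h2 : ∀ k θ, φ (k - 1) ≤ θ → θ ≤ φ k → Sup s θ (a (k - 1)) := fun k θ t1 t2 =>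
    h1 _ θ t1 (by rwa [sub_add_cancel])
  have h3 : ∀ k, φ (k - 1) < φ k := fun k => mono (by omega)
  have h4 : ∀ k, Sup s (φ k) (a (k - 1)) := fun k => h2 k _ (h3 k).le le_rfl
  have h5 : ∀ k, Nrm s (φ k) → 0 < cp (φ k + π / 2) (a k - a (k - 1)) := by
    rintro k ⟨x, y, e, hx, hy⟩
    by_contra hc
    rw [cp_sub] at hc
    set δ := min (φ k - φ (k - 1)) (π / 2) with hδ
    have d0 : 0 < δ := lt_min (by linarith [h3 k]) (by positivity)
    have d1 : δ ≤ φ k - φ (k - 1) := min_le_left _ _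
    have d2 : 0 < sin δ := sin_pos_of_pos_of_lt_pi d0
      (by linarith [min_le_right (φ k - φ (k - 1)) (π / 2), pi_pos])
    have key : ∀ z, Sup s (φ k) z → cp (φ k + π / 2) z = cp (φ k + π / 2) (a k) := by
      intro z hz
      refine ((ha k).2 z hz).antisymm ?_
      have := (h2 k (φ k + -δ) (by linarith) (by linarith)).2 z hz.1
      rw [cp_rot _ (-δ) z, cp_rot _ (-δ) (a (k - 1)), sup_eq hz (h4 k), sin_neg] at this
      nlinarith
    exact e (eq_of_cp _ (sup_eq hx hy) (by rw [key x hx, key y hy]))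
  refine ⟨a, fun k => cp (φ k + π / 2) (a k - a (k - 1)), fun k => ?_, fun k => ?_, fun k => ?_,
    h5, h1, fun θ => ?_⟩
  · exact lx_uniq (lx_per.1 (per k ▸ ha (k + n))) (ha k)
  · have := frame (φ k) (a k - a (k - 1))
    rw [cp_sub (φ k), sup_eq (ha k).1 (h4 k)] at this
    simp only [sub_self, Complex.ofReal_zero, zero_mul, zero_add] at this
    rw [← this]; ring
  · beta_reduce; rw [cp_sub]; linarith [(ha k).2 _ (h4 k)]
  · obtain ⟨u, u1, u2, hu⟩ := gap hs h θ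
    obtain ⟨k, rfl⟩ := hr u hu
    exact ⟨k, h5 k hu, u1, u2⟩

lemma hull_eq (hs : s.Finite) {a : ℤ → ℂ} (h1 : ∀ k, a k ∈ s) (h2 : ∀ θ, ∃ k, Sup s θ (a k)) :
    convexHull ℝ (Set.range a) = convexHull ℝ s := by
  have h3 : Set.range a ⊆ s := by rintro _ ⟨k, rfl⟩; exact h1 k
  refine (convexHull_mono h3).antisymm (convexHull_min (fun x hx => ?_) (convex_convexHull _ _))
  by_contra hc
  obtain ⟨f, u, f1, f2⟩ := geometric_hahn_banach_point_closed (convex_convexHull ℝ _)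
    ((hs.subset h3).isClosed_convexHull ℝ) hc
  set w : ℂ := ⟨-f 1, -f Complex.I⟩ with hw
  have h4 : ∀ z, f z = -(‖w‖ * cp w.arg z) := by
    intro z
    have e1 : ‖w‖ * cos w.arg = -f 1 := Complex.norm_mul_cos_arg w
    have e2 : ‖w‖ * sin w.arg = -f Complex.I := Complex.norm_mul_sin_arg w
    have e3 : z = z.re • (1 : ℂ) + z.im • Complex.I := by apply Complex.ext <;> simp
    conv_lhs => rw [e3, map_add, map_smul, map_smul]
    simp only [cp, smul_eq_mul]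
    linear_combination z.re * e1 + z.im * e2
  obtain ⟨k, hk⟩ := h2 w.arg
  have h5 := f2 (a k) (subset_convexHull ℝ _ ⟨k, rfl⟩)
  have h6 := mul_le_mul_of_nonneg_left (hk.2 x hx) (norm_nonneg w)
  rw [h4] at f1 h5
  linarith

end Polyg

open Polyg in
theorem exists_model (sA sB : Finset ℂ)
    (hA : Module.finrank ℝ (vectorSpan ℝ (convexHull ℝ (sA : Set ℂ))) = 2)
    (hB : Module.finrank ℝ (vectorSpan ℝ (convexHull ℝ (sB : Set ℂ))) = 2) {h : ℝ} (hh : 0 < h) :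
    ∃ M : Model, M.A0 = convexHull ℝ (sA : Set ℂ) ∧ M.B0 = convexHull ℝ (sB : Set ℂ) ∧ M.h = h := by
  obtain ⟨n, φ, n0, mono, per, hN, hr⟩ := enum (fun t => Nrm sA t ∨ Nrm sB t)
    (fun t => by rw [nrm_per, nrm_per])
    (((nrm_finite sA.finite_toSet).union (nrm_finite sB.finite_toSet)).subset fun t ht =>
      ht.2.imp (fun h => ⟨ht.1, h⟩) fun h => ⟨ht.1, h⟩)
    (by
      obtain ⟨u, u1, u2, hu⟩ := gap sA.finite_toSet hA 0
      exact ⟨u, ⟨u1.le, by linarith [pi_pos]⟩, Or.inl hu⟩)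
  obtain ⟨a, α, a1, a2, a3, a4, a5, a6⟩ := side sA.finite_toSet hA mono per
    fun t ht => hr t (Or.inl ht)
  obtain ⟨b, β, b1, b2, b3, b4, b5, b6⟩ := side sB.finite_toSet hB mono per
    fun t ht => hr t (Or.inr ht)
  have m : ∀ k, φ k ≤ φ (k + 1) := fun k => mono.monotone (by omega)
  have a7 : ∀ k, a k ∈ (sA : Set ℂ) := fun k => (a5 k _ le_rfl (m k)).1
  have b7 : ∀ k, b k ∈ (sB : Set ℂ) := fun k => (b5 k _ le_rfl (m k)).1
  let M : Model := ⟨n, φ, a, b, α, β, h, n0, hh, mono, per, a1, b1, a2, b2, a3, b3,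
    fun k => (hN k).imp (a4 k) (b4 k), fun k j θ h1 h2 => (a5 k θ h1 h2).2 _ (a7 j),
    fun k j θ h1 h2 => (b5 k θ h1 h2).2 _ (b7 j), a6, b6⟩
  refine ⟨M, hull_eq sA.finite_toSet a7 fun θ => ?_, hull_eq sB.finite_toSet b7 fun θ => ?_, rfl⟩
  · obtain ⟨k, h1, h2⟩ := M.exists_idx θ
    exact ⟨k, a5 k θ h1 h2.le⟩
  · obtain ⟨k, h1, h2⟩ := M.exists_idx θ
    exact ⟨k, b5 k θ h1 h2.le⟩

end Pool.Agent.P.MP_36f9aa_co
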