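import Pool.Agent.P.MP_36f9aa_co.Bridge
import Pool.Agent.P.MP_36f9aa_co.Poly

set_option autoImplicit false

namespace Pool.Agent.P.MP_36f9aa_co

open Real

namespace Final

/-- Every isometric realisation of the model has a net. -/
def Netted (M : Model) : Prop :=
  ∀ ι : (ℂ × ℝ) ≃ᵃ[ℝ] E3, (∀ X Y, dist (ι X) (ι Y) ^ 2 =
    Complex.normSq (X.1 - Y.1) + M.h ^ 2 * (X.2 - Y.2) ^ 2) → HasNet (ι '' M.body)

/-- Rotation of the first coordinate. -/
noncomputable def rho (c : ℝ) : (ℂ × ℝ) ≃ₗ[ℝ] (ℂ × ℝ) where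
  toFun X := (nn c * X.1, X.2)
  invFun X := (nn (-c) * X.1, X.2)
  map_add' X Y := by simp [mul_add]
  map_smul' r X := by simp [mul_left_comm]
  left_inv X := by simp [← mul_assoc, ← nn_add]
  right_inv X := by simp [← mul_assoc, ← nn_add]

/-- Reversal of the second coordinate. -/
noncomputable def neg2 : (ℂ × ℝ) ≃ₗ[ℝ] (ℂ × ℝ) := (LinearEquiv.refl ℝ ℂ).prodCongr (LinearEquiv.neg ℝ)

/-- Exchange of the levels. -/
noncomputable def sig : (ℂ × ℝ) ≃ᵃ[ℝ] (ℂ × ℝ) :=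
  neg2.toAffineEquiv.trans (AffineEquiv.constVAdd ℝ (ℂ × ℝ) ((0, 1) : ℂ × ℝ))

theorem sig_apply (X : ℂ × ℝ) : sig X = (X.1, 1 - X.2) := by
  simp [sig, neg2, sub_eq_add_neg]

theorem rot_hull (c : ℝ) (a : ℤ → ℂ) :
    (fun z => nn c * z) '' convexHull ℝ (Set.range fun k => nn (-c) * a k) =
      convexHull ℝ (Set.range a) := by
  have h := (LinearMap.mulLeft ℝ (nn c)).image_convexHull (Set.range fun k => nn (-c) * a k)
  rw [← Set.range_comp] at h
  refine h.trans ?_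
  congr 2
  funext k
  simp [← mul_assoc, ← nn_add]

theorem of_rot {M : Model} {c : ℝ} (h : Netted (M.rot c)) : Netted M := by
  intro ι hι
  have h1 : (rho c).toAffineEquiv '' (M.rot c).body = M.body := by
    have h2 := (rho c).toLinearMap.image_convexHull
      ((fun c => (c, (1 : ℝ))) '' (M.rot c).A0 ∪ (fun c => (c, (0 : ℝ))) '' (M.rot c).B0)
    refine h2.trans ?_
    unfold Model.body
    rw [Set.image_union, Set.image_image, Set.image_image]
    congr 2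
    · rw [Model.A0, Model.A0, ← rot_hull c M.a, Set.image_image]; rfl
    · rw [Model.B0, Model.B0, ← rot_hull c M.b, Set.image_image]; rfl
  have h2 := h ((rho c).toAffineEquiv.trans ι) fun X Y => by
    refine (hι _ _).trans ?_
    change Complex.normSq (nn c * X.1 - nn c * Y.1) + M.h ^ 2 * (X.2 - Y.2) ^ 2 = _
    rw [← mul_sub, map_mul, normSq_nn, one_mul]
    rfl
  rwa [AffineEquiv.coe_trans, Set.image_comp, h1] at h2

theorem of_swap {M : Model} (h : Netted M.swap) : Netted M := by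
  intro ι hι
  have h1 : sig '' M.swap.body = M.body := by
    have h2 := sig.toAffineMap.image_convexHull
      ((fun c => (c, (1 : ℝ))) '' M.swap.A0 ∪ (fun c => (c, (0 : ℝ))) '' M.swap.B0)
    refine h2.trans ?_
    unfold Model.body
    rw [Set.image_union, Set.image_image, Set.image_image, Set.union_comm]
    simp only [AffineEquiv.coe_toAffineMap, sig_apply, sub_self, sub_zero]
    rfl
  have h2 := h (sig.trans ι) fun X Y => by
    refine (hι _ _).trans ?_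
    change Complex.normSq ((sig X).1 - (sig Y).1) + M.h ^ 2 * ((sig X).2 - (sig Y).2) ^ 2 =
      _ + M.h ^ 2 * _
    simp only [sig_apply]
    ring
  rwa [AffineEquiv.coe_trans, Set.image_comp, h1] at h2

/-- Coordinates adapted to the two parallel planes. -/
theorem exists_coord (ν : E3) (c₁ c₂ : ℝ) (hν : ν ≠ 0) (hc : c₁ ≠ c₂) :
    ∃ (ι : (ℂ × ℝ) ≃ᵃ[ℝ] E3) (h : ℝ), 0 < h ∧ (∀ X Y, dist (ι X) (ι Y) ^ 2 =
      Complex.normSq (X.1 - Y.1) + h ^ 2 * (X.2 - Y.2) ^ 2) ∧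
      ∀ X, inner ℝ ν (ι X) = c₂ + X.2 * (c₁ - c₂) := by
  have hn : 0 < ‖ν‖ := norm_pos_iff.2 hν
  obtain ⟨b, hb⟩ := Orthonormal.exists_orthonormalBasis_extension_of_card_eq (𝕜 := ℝ) (E := E3)
    (ι := Fin 3) (by simp) (v := fun _ => ‖ν‖⁻¹ • ν) (s := {2})
    ⟨fun _ => by simp [norm_smul, hn.ne'], fun i j hij => (hij (Subsingleton.elim i j)).elim⟩
  have hb2 : ν = ‖ν‖ • b 2 := by
    rw [hb 2 rfl, smul_smul, mul_inv_cancel₀ hn.ne', one_smul]
  set κ : ℝ := (c₁ - c₂) / ‖ν‖ with hκ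
  have hκ0 : κ ≠ 0 := div_ne_zero (sub_ne_zero.2 hc) hn.ne'
  let g : (ℂ × ℝ) →ₗ[ℝ] E3 :=
    { toFun := fun X => !₂[X.1.re, X.1.im, κ * X.2]
      map_add' := fun X Y => by ext i; fin_cases i <;> simp [mul_add]
      map_smul' := fun r X => by ext i; fin_cases i <;> simp [mul_left_comm] }
  let f : (ℂ × ℝ) →ₗ[ℝ] E3 := b.repr.symm.toLinearEquiv.toLinearMap ∘ₗ g
  have hf : ∀ X, ‖f X‖ ^ 2 = Complex.normSq X.1 + κ ^ 2 * X.2 ^ 2 := by
    intro X
    change ‖b.repr.symm (g X)‖ ^ 2 = _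
    rw [LinearIsometryEquiv.norm_map, EuclideanSpace.norm_sq_eq, Fin.sum_univ_three]
    simp [g, Complex.normSq_apply, mul_pow]
    ring
  have hi : Function.Injective f := by
    refine (injective_iff_map_eq_zero f).2 fun X hX => ?_
    have h1 := hf X
    rw [hX, norm_zero] at h1
    have h2 := Complex.normSq_nonneg X.1
    have h3 : 0 ≤ κ ^ 2 * X.2 ^ 2 := by positivity
    have h4 : κ ^ 2 * X.2 ^ 2 = 0 := by nlinarith
    have h5 : Complex.normSq X.1 = 0 := by nlinarith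
    refine Prod.ext (Complex.normSq_eq_zero.1 h5) ?_
    simpa [hκ0] using h4
  let L : (ℂ × ℝ) ≃ₗ[ℝ] E3 := LinearMap.linearEquivOfInjective f hi (by simp)
  have hL : ∀ X, (L.toAffineEquiv.trans (AffineEquiv.constVAdd ℝ E3 ((c₂ / ‖ν‖) • b 2))) X =
      (c₂ / ‖ν‖) • b 2 + f X := fun _ => rfl
  refine ⟨L.toAffineEquiv.trans (AffineEquiv.constVAdd ℝ E3 ((c₂ / ‖ν‖) • b 2)), |κ|,
    abs_pos.2 hκ0, fun X Y => ?_, fun X => ?_⟩
  · rw [hL, hL, dist_add_left, dist_eq_norm, ← map_sub, hf, sq_abs]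
    rfl
  · have h1 : inner ℝ (b 2) (f X) = κ * X.2 := by
      rw [← b.repr_apply_apply]
      change b.repr (b.repr.symm (g X)) 2 = _
      rw [LinearIsometryEquiv.apply_symm_apply]
      rfl
    have h2 : inner ℝ (b 2) (b 2) = (1 : ℝ) := by
      rw [real_inner_self_eq_norm_sq, b.orthonormal.1 2]; simp
    have h3 : ∀ y, inner ℝ ν y = ‖ν‖ * inner ℝ (b 2) y := fun y => by
      conv_lhs => rw [hb2]
      rw [real_inner_smul_left]
    rw [hL, h3, inner_add_right, real_inner_smul_right, h1, h2, hκ]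
    field_simp

/-- A polygon at level `l` comes from a plane polygon. -/
theorem exists_plane (ι : (ℂ × ℝ) ≃ᵃ[ℝ] E3) {A : Set E3} (hA : IsPolygon A) (l : ℝ)
    (hl : ∀ X, ι X ∈ A → X.2 = l) :
    ∃ s : Finset ℂ, Module.finrank ℝ (vectorSpan ℝ (convexHull ℝ (s : Set ℂ))) = 2 ∧
      A = ι '' ((fun c => (c, l)) '' convexHull ℝ (s : Set ℂ)) := by
  classical
  obtain ⟨s, rfl, hs⟩ := hA
  let j : ℂ →ᵃ[ℝ] E3 := ι.toAffineMap.comp ((AffineMap.id ℝ ℂ).prod (AffineMap.const ℝ ℂ l))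
  have hj : ∀ z, j z = ι (z, l) := fun _ => rfl
  have h1 : j '' (s.image fun x => (ι.symm x).1 : Finset ℂ) = s := by
    rw [Finset.coe_image, Set.image_image]
    refine (Set.image_congr fun x hx => ?_).trans (Set.image_id _)
    have h2 := hl (ι.symm x) (by rw [ι.apply_symm_apply]; exact subset_convexHull ℝ _ hx)
    rw [hj, ← h2]
    exact ι.apply_symm_apply x
  have h2 := j.image_convexHull (s.image fun x => (ι.symm x).1 : Finset ℂ)
  rw [h1] at h2
  refine ⟨s.image fun x => (ι.symm x).1, ?_, by rw [Set.image_image, ← h2]; rfl⟩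
  have h3 : Function.Injective j.linear := j.linear_injective_iff.2 fun z w h =>
    (Prod.ext_iff.1 (ι.injective h)).1
  rw [← h2, ← AffineMap.map_vectorSpan] at hs
  rw [← hs]
  exact (Submodule.equivMapOfInjective _ h3 _).finrank_eq

end Final

theorem final (H : ∀ M : Model, ∃ c, Nonempty (M.rot c).NetData ∨ Nonempty (M.swap.rot c).NetData)
    (A B : Set E3) (hA : IsPolygon A) (hB : IsPolygon B) (ν : E3) (c₁ c₂ : ℝ) (hν : ν ≠ 0)
    (hc : c₁ ≠ c₂) (h₁ : ∀ x ∈ A, inner ℝ ν x = c₁) (h₂ : ∀ x ∈ B, inner ℝ ν x = c₂) :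
    HasNet (convexHull ℝ (A ∪ B)) := by
  obtain ⟨ι, h, hh, hι, hν'⟩ := Final.exists_coord ν c₁ c₂ hν hc
  have hc' := sub_ne_zero.2 hc
  obtain ⟨sA, hsA, rfl⟩ := Final.exists_plane ι hA 1 fun X hX =>
    mul_right_cancel₀ hc' (by linear_combination h₁ _ hX - hν' X)
  obtain ⟨sB, hsB, rfl⟩ := Final.exists_plane ι hB 0 fun X hX =>
    mul_right_cancel₀ hc' (by linear_combination h₂ _ hX - hν' X)
  obtain ⟨M, hMA, hMB, rfl⟩ := exists_model sA sB hsA hsB hh
  have hM : Final.Netted M := by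
    obtain ⟨c, ⟨⟨N⟩⟩ | ⟨⟨N⟩⟩⟩ := H M
    · exact Final.of_rot (bridge _ N)
    · exact Final.of_swap (Final.of_rot (bridge _ N))
  have h3 := hM ι hι
  rw [Model.body, hMA, hMB] at h3
  rw [← Set.image_union]
  exact (ι.toAffineMap.image_convexHull _) ▸ h3

end Pool.Agent.P.MP_36f9aa_co
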