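import Pool.Agent.P.MP_36f9aa_co.WingBuild

set_option autoImplicit false

namespace Pool.Agent.P.MP_36f9aa_co

open Real

lemma cp_turn_pos {η φ ψ : ℝ} (h1 : ψ < φ) (h2 : φ - ψ < 2 * π) (h3 : |(φ + ψ) / 2 - η| < π / 2) :
    0 < cp η (nn (ψ + π / 2) - nn (φ + π / 2)) := by
  rw [nn_turn, cp_polar]
  exact mul_pos (mul_pos two_pos (sin_pos_of_pos_of_lt_pi (by linarith) (by linarith)))
    (cos_pos_of_mem_Ioo (abs_lt.1 h3))

namespace Model

variable {M : Model} {ψ : ℤ → ℝ} {Bh : ℤ → ℂ} {τ : ℂ} {f g k0 kq kp : ℤ} {p q : ℝ}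

namespace Core

variable (K : M.Core ψ Bh τ f g k0 kq kp p q)
include K

lemma turn_fwd {i k : ℤ} (h1 : f < i) (h2 : i ≤ k) (h3 : k ≤ kp) :
    M.β i = 0 ∨ 0 < cp (M.φ k) (nn (ψ i + π / 2) - nn (M.φ i + π / 2)) := by
  have f2 := K.f2
  rcases le_or_gt i g with h | h
  · left
    rcases K.kind with e | e | e
    · omega
    · rw [show i = g by omega]; exact e.2.2.2
    · omega
  · right
    have a1 := K.sub_pos' h1
    have a2 := K.add_pos' h
    have a3 := M.mono.monotone h2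
    have a4 := (K.φ_rng (k := k) (by omega) h3).2
    have a5 := K.p2
    exact cp_turn_pos a1 (by linarith [pi_pos]) (by rw [abs_lt]; constructor <;> linarith [pi_pos])

lemma turn_bwd {i k : ℤ} (h1 : i < f) (h2 : k ≤ i) (h3 : kq ≤ k) :
    M.β i = 0 ∨ 0 < cp (M.φ k) (nn (M.φ i + π / 2) - nn (ψ i + π / 2)) := by
  have f3 := K.f3
  rcases le_or_gt g i with h | h
  · left
    rcases K.kind with e | e | e
    · omega
    · omega
    · rw [show i = g by omega]; exact e.2.2.2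
  · right
    have a1 := K.sub_neg' h1
    have a2 := K.add_neg' h
    have a3 := M.mono.monotone h2
    have a4 := (K.φ_rng (k := k) h3 (by omega)).1
    have a5 := K.q2
    exact cp_turn_pos a1 (by linarith [pi_pos]) (by rw [abs_lt]; constructor <;> linarith [pi_pos])

lemma drift_fwd {k m : ℤ} (hk : k ≤ kp) (hm : f ≤ m) : m ≤ k → 0 ≤ cp (M.φ k) (Bh m - M.b m) ∧
    (cp (M.φ k) (Bh m - M.b m) ≤ 0 → ∀ i, f < i → i ≤ m → M.β i = 0) := by
  induction m, hm using Int.leInduction with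
  | base => intro _; rw [K.Bf]; exact ⟨by simp, fun _ i a b => by omega⟩
  | succ m hm ih =>
    intro h
    obtain ⟨a, b⟩ := ih (by omega)
    have e : Bh (m + 1) - M.b (m + 1) = Bh m - M.b m +
        (M.β (m + 1) : ℂ) * (nn (ψ (m + 1) + π / 2) - nn (M.φ (m + 1) + π / 2)) := by
      rw [K.D.pos (m + 1), M.hb (m + 1), add_sub_cancel_right]; ring
    rw [e, cp_add, cp_mul]
    rcases K.turn_fwd (i := m + 1) (by omega) h hk with t | t
    · rw [t, zero_mul, add_zero]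
      refine ⟨a, fun c i u v => ?_⟩
      rcases v.eq_or_lt with rfl | v
      · exact t
      · exact b c i u (by omega)
    · have := mul_nonneg (M.β_nn (m + 1)) t.le
      refine ⟨by linarith, fun c i u v => ?_⟩
      rcases v.eq_or_lt with rfl | v
      · exact (mul_eq_zero.1 (le_antisymm (by linarith) this)).resolve_right t.ne'
      · exact b (by linarith) i u (by omega)

lemma drift_bwd {k m : ℤ} (hk : kq ≤ k) (hm : m ≤ f - 1) : k ≤ m → 0 ≤ cp (M.φ k) (Bh m - M.b m) ∧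
    (cp (M.φ k) (Bh m - M.b m) ≤ 0 → ∀ i, m < i → i < f → M.β i = 0) := by
  induction m, hm using Int.leInductionDown with
  | base => intro _; rw [K.D.Bh_pred K.ψf K.Bf]; exact ⟨by simp, fun _ i a b => by omega⟩
  | pred m hm ih =>
    intro h
    obtain ⟨a, b⟩ := ih (by omega)
    have e : Bh (m - 1) - M.b (m - 1) = Bh m - M.b m +
        (M.β m : ℂ) * (nn (M.φ m + π / 2) - nn (ψ m + π / 2)) := by
      rw [K.D.pos m, M.hb m]; ring
    rw [e, cp_add, cp_mul]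
    rcases K.turn_bwd (i := m) (by omega) (show k ≤ m by omega) hk with t | t
    · rw [t, zero_mul, add_zero]
      refine ⟨a, fun c i u v => ?_⟩
      rcases (show m ≤ i by omega).eq_or_lt with rfl | w
      · exact t
      · exact b c i w v
    · have := mul_nonneg (M.β_nn m) t.le
      refine ⟨by linarith, fun c i u v => ?_⟩
      rcases (show m ≤ i by omega).eq_or_lt with rfl | w
      · exact (mul_eq_zero.1 (le_antisymm (by linarith) this)).resolve_right t.ne'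
      · exact b (by linarith) i w v

lemma zero_end {k : ℤ} (h1 : kq ≤ k) (h2 : k ≤ kp) {Y : ℂ × ℝ} (hY : Y ∈ M.face (.side k))
    (hl : Y.2 = 0) (h : cp (M.φ k) (M.pl ψ Bh k Y - Y.1) ≤ 0) : Y ∈ M.eB f ∧ M.Chain k f Y := by
  obtain ⟨l0, l1, σ, s0, s1, hx⟩ := id hY
  rw [IsDev.pl_eq ψ Bh hx, hl, E] at h
  rw [hl, IncidAux.len_zero] at s1
  rw [hl, IncidAux.C_zero] at hx
  rcases lt_trichotomy k f with e | rfl | e
  · obtain ⟨a, b⟩ := K.drift_bwd h1 (show k ≤ f - 1 by omega) le_rfl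
    have e' : Bh (k - 1) + ((0 : ℝ) : ℂ) * M.Rh ψ (k - 1) + (σ : ℂ) * nn (ψ k + π / 2) - Y.1 =
        Bh k - M.b k + ((M.β k - σ : ℝ) : ℂ) * (nn (M.φ k + π / 2) - nn (ψ k + π / 2)) := by
      rw [hx, K.D.pos k, M.hb k]; push_cast; ring
    rw [e', cp_add, cp_mul] at h
    have s : σ = M.β k ∧ cp (M.φ k) (Bh k - M.b k) ≤ 0 := by
      rcases K.turn_bwd e le_rfl h1 with t | t
      · have : σ = M.β k := by linarith
        rw [this, sub_self, zero_mul, add_zero] at h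
        exact ⟨this, h⟩
      · have := mul_nonneg (sub_nonneg.2 s1) t.le
        have := (mul_eq_zero.1 (le_antisymm (by linarith) this)).resolve_right t.ne'
        exact ⟨by linarith, by nlinarith⟩
    have w : ∀ i, k ≤ i → i < f → Y.1 = M.b i := fun i u v => by
      rw [hx, s.1, ← M.hb k, M.b_const u fun j a c => b s.2 j a (by omega)]
    exact ⟨⟨hl, 0, le_rfl, M.β_nn f, by rw [w (f - 1) (by omega) (by omega)]; simp⟩,
      fun i u v => ⟨l0, l1, by rw [hl, IncidAux.C_zero, w i (by omega) (by omega)]⟩⟩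
  · exact ⟨⟨hl, σ, s0, s1, hx⟩, Chain.refl _ _ _⟩
  · obtain ⟨a, b⟩ := K.drift_fwd h2 (show f ≤ k - 1 by omega) (by omega)
    have e' : Bh (k - 1) + ((0 : ℝ) : ℂ) * M.Rh ψ (k - 1) + (σ : ℂ) * nn (ψ k + π / 2) - Y.1 =
        Bh (k - 1) - M.b (k - 1) + (σ : ℂ) * (nn (ψ k + π / 2) - nn (M.φ k + π / 2)) := by
      rw [hx]; push_cast; ring
    rw [e', cp_add, cp_mul] at h
    have s : σ = 0 ∧ cp (M.φ k) (Bh (k - 1) - M.b (k - 1)) ≤ 0 := by
      rcases K.turn_fwd e le_rfl h2 with t | t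
      · have : σ = 0 := by linarith
        rw [this, zero_mul, add_zero] at h
        exact ⟨this, h⟩
      · have := mul_nonneg s0 t.le
        exact ⟨(mul_eq_zero.1 (le_antisymm (by linarith) this)).resolve_right t.ne', by linarith⟩
    have w : ∀ i, f ≤ i → i ≤ k - 1 → Y.1 = M.b i := fun i u v => by
      rw [hx, s.1, M.b_const v fun j a c => b s.2 j (by omega) c]; simp
    exact ⟨⟨hl, M.β f, M.β_nn f, le_rfl, by rw [w f le_rfl (by omega), M.hb f]⟩,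
      fun i u v => ⟨l0, l1, by rw [hl, IncidAux.C_zero, w i (by omega) (by omega)]⟩⟩

lemma pl_eB {X : ℂ × ℝ} (hX : X ∈ M.eB f) : M.pl ψ Bh f X = X.1 := by
  rw [K.D.pl_real K.ψf K.Bf, hX.1]; simp

lemma pl_eA {X : ℂ × ℝ} (hX : X ∈ M.eA g) : M.pl ψ Bh g X = JJ τ X.1 := by
  have := K.swap.pl_eB (sw_eB.2 hX)
  rw [IsDev.swap_pl ψ Bh _ ((M.eA_sub g).1 hX)] at this
  rw [← JJ_JJ τ (M.pl ψ Bh g X), this]; rfl

omit K in
lemma sup_zero {k : ℤ} {Y : ℂ × ℝ} (hY : Y ∈ M.face (.side k)) (hl : Y.2 = 0) :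
    Sup M.B0 (M.φ k) Y.1 := by
  obtain ⟨x, y, -, hy, e, -⟩ := M.face_split hY
  rw [e, hl]; simpa using hy

/-- The strip meets the bottom polygon only along the attached edge. -/
theorem meetB {k : ℤ} (h1 : kq ≤ k) (h2 : k ≤ kp) {X : ℂ × ℝ} (hX : X ∈ M.face (.side k))
    (hz : M.pl ψ Bh k X ∈ M.B0) : X ∈ M.eB f ∧ M.Chain k f X := by
  have hS := K.face_SP h1 h2 hX
  have i := K.idx
  have t1 : (M.pl ψ Bh k X).im ≤ (M.E ψ Bh 0 kp).im := by
    refine not_lt.1 fun h => ?_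
    have := K.wing.top_out hS (by simpa [wing, E] using h)
    have := K.wing.sbp.2 _ hz
    rw [cp_sub] at *; linarith
  have t2 : (M.E ψ Bh 0 (kq - 1)).im ≤ (M.pl ψ Bh k X).im := by
    refine not_lt.1 fun h => ?_
    have := K.wing.bot_out hS (by simpa [wing, E] using h)
    have := K.wing.sbq.2 _ hz
    rw [cp_sub] at *; linarith
  obtain ⟨θ, c, ζ, hζ, e⟩ : ∃ θ c ζ, M.SP ψ Bh kq kp p q θ 0 c ζ ∧ ζ.im = (M.pl ψ Bh k X).im := by
    rcases le_total (M.E ψ Bh 0 k0).im (M.pl ψ Bh k X).im with h | h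
    · obtain ⟨θ, c, ζ, -, a, b⟩ := K.ivt_pos le_rfl zero_le_one h i.2.2.2.2.2 le_rfl t1
      exact ⟨θ, c, ζ, a, b⟩
    · obtain ⟨θ, c, ζ, -, a, b⟩ := K.ivt_neg le_rfl zero_le_one h i.2.2.2.2.1 le_rfl t2
      exact ⟨θ, c, ζ, a, b⟩
  have r := K.key hζ hS e hX.1
  obtain ⟨k', k1, k2, hY, rfl⟩ := K.SP_face hζ
  have cn : 0 ≤ cos (M.φ k') := cos_nonneg_of_neg_pi_div_two_le_of_le
    (by linarith [(K.φ_rng k1 k2).1, K.q2]) (by linarith [(K.φ_rng k1 k2).2, K.p2])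
  have a1 := (sup_zero hY rfl).2 _ hz
  have a2 := cp_of_im (M.φ k') e.symm
  obtain ⟨b1, b2⟩ := K.zero_end k1 k2 hY rfl (by
    have := mul_nonneg (sub_nonneg.2 r) cn
    rw [cp_sub] at a2 ⊢; linarith)
  have a3 := (sup_zero ((M.eB_sub f).1 b1) rfl).2 _ hz
  have a4 := cp_of_im (M.φ f) e.symm
  have a5 := cos_pos_of_mem_Ioo (abs_lt.1 K.f1)
  have a6 : M.pl ψ Bh k' (c, 0) = c := by rw [K.D.pl_chain b2, K.pl_eB b1]
  have a7 : M.pl ψ Bh k X = M.pl ψ Bh k' (c, 0) := by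
    refine Complex.ext (le_antisymm ?_ r) e.symm
    rw [cp_sub, a6] at a4
    rw [a6]
    exact sub_nonpos.1 (nonpos_of_mul_nonpos_left (by linarith) a5)
  obtain ⟨e1, e2⟩ := K.inj h1 h2 k1 k2 hX hY a7
  subst e1
  exact ⟨b1, e2.trans b2⟩

/-- The strip meets the top polygon only along the attached edge. -/
theorem meetA {k : ℤ} (h1 : kq ≤ k) (h2 : k ≤ kp) {X : ℂ × ℝ} (hX : X ∈ M.face (.side k))
    {x : ℂ} (hx : x ∈ M.A0) (hz : M.pl ψ Bh k X = JJ τ x) : X ∈ M.eA g ∧ M.Chain k g X := by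
  obtain ⟨a, b⟩ := K.swap.meetB h1 h2 (sw_face hX)
    (by rw [IsDev.swap_pl ψ Bh _ hX, hz, JJ_JJ']; exact hx)
  exact ⟨sw_eB.1 a, fun i u v => sw_rul.1 (b i u v)⟩

end Core

lemma exists_core {c0 : M.Conn f g k0 0} (p1 : π / 4 ≤ p) (p2 : p ≤ π / 2) (q1 : π / 4 ≤ q)
    (q2 : q ≤ π / 2) (kp1 : M.φ kp ≤ p) (kp2 : p < M.φ (kp + 1)) (kq1 : M.φ (kq - 1) < -q)
    (kq2 : -q ≤ M.φ kq) (f2 : kq ≤ f) (f3 : f ≤ kp) (g2 : kq ≤ g) (g3 : g ≤ kp) :
    ∃ ψ Bh τ, M.Core ψ Bh τ f g k0 kq kp p q := by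
  obtain ⟨ψ, Bh, D, h1, h2⟩ := M.exists_dev f
  refine ⟨ψ, Bh, M.E ψ Bh 1 g + (starRingEnd ℂ) (M.a g), D, h1, h2, ?_, by simp [JJ], c0.kind,
    c0.c1, c0.c2, by simpa using c0.f1, by simpa using c0.g1, p1, p2, q1, q2, kp1, kp2, kq1, kq2,
    f2, f3, g2, g3⟩
  have a := D.ang k0
  have b := c0.ctr
  rcases c0.kind with ⟨rfl, rfl⟩ | ⟨rfl, rfl, -⟩ | ⟨rfl, rfl, -⟩ <;> linarith

end Model

end Pool.Agent.P.MP_36f9aa_co
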