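import Pool.Agent.P.MP_36f9aa_co.FanB
import Pool.Agent.P.MP_36f9aa_co.Fence
import Pool.Agent.P.MP_36f9aa_co.Incid

set_option autoImplicit false

namespace Pool.Agent.P.MP_36f9aa_co

open Real

namespace Model

/-- `X` lies on uncut lateral edges leading from face `k` to face `k'`. -/
def Link (M : Model) (unc : Finset ℤ) (k k' : ℤ) (X : ℂ × ℝ) : Prop :=
  ∀ i, min k k' ≤ i → i < max k k' → i ∈ unc ∧ X ∈ M.rul i

/-- A layout of the faces `lo, ..., hi` around the bottom polygon. -/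
structure Petal (M : Model) (lo hi : ℤ) (P : ℝ → Prop) where
  F : ℤ → ℂ × ℝ → ℂ
  unc : Finset ℤ
  att : Finset ℤ
  unc_mem : ∀ k ∈ unc, lo ≤ k ∧ k < hi
  att_mem : ∀ k ∈ att, lo ≤ k ∧ k ≤ hi ∧ 0 < M.β k
  count : hi + 1 - lo ≤ unc.card + att.card
  conn : ∀ i, lo - 1 ≤ i → i ≤ hi → ∃ i', lo - 1 ≤ i' ∧ i' ≤ hi ∧ i' ∉ unc ∧ M.b i' = M.b i
  iso : ∀ k, ∀ X ∈ M.face (.side k), ∀ Y ∈ M.face (.side k),
    Complex.normSq (F k X - F k Y) = Complex.normSq (X.1 - Y.1) + M.h ^ 2 * (X.2 - Y.2) ^ 2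
  cunc : ∀ k ∈ unc, ∀ X ∈ M.rul k, F k X = F (k + 1) X
  cB : ∀ k ∈ att, ∀ X ∈ M.eB k, F k X = X.1
  zero : ∀ k, lo ≤ k → k ≤ hi → ∀ X ∈ M.face (.side k), X.2 = 0 →
    ∃ r ∈ att, X ∈ M.eB r ∧ M.Link unc k r X
  pos : ∀ k, lo ≤ k → k ≤ hi → ∀ X ∈ M.face (.side k), 0 < X.2 →
    ∃ γ, P γ ∧ Phi M.A0 M.B0 M.h γ (F k X)
  inj : ∀ k k', lo ≤ k → k ≤ hi → lo ≤ k' → k' ≤ hi → ∀ X ∈ M.face (.side k),
    ∀ Y ∈ M.face (.side k'), 0 < X.2 → 0 < Y.2 → F k X = F k' Y → X = Y ∧ M.Link unc k k' X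

/-- The empty layout. -/
noncomputable def Petal.empty (M : Model) (hi : ℤ) (P : ℝ → Prop) : M.Petal (hi + 1) hi P where
  F := M.pl (M.exists_dev 0).choose (M.exists_dev 0).choose_spec.choose
  unc := ∅
  att := ∅
  unc_mem := by simp
  att_mem := by simp
  count := by simp
  conn := fun i a b => ⟨i, a, b, by simp, rfl⟩
  iso := fun _ _ hX _ hY => (M.exists_dev 0).choose_spec.choose_spec.1.iso hX hY
  cunc := by simp
  cB := by simp
  zero := fun k a b => by omega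
  pos := fun k a b => by omega
  inj := fun k k' a b => by omega

/-- `r` is the bottom edge direction in `[lo, hi]` nearest to the angle `γ`. -/
def Near (M : Model) (lo hi : ℤ) (γ : ℝ) (r : ℤ) : Prop :=
  ∀ j, lo ≤ j → j ≤ hi → 0 < M.β j →
    (j < r → M.φ j + M.φ r < 2 * γ) ∧ (r < j → 2 * γ ≤ M.φ j + M.φ r)

variable {M : Model} {ψ : ℤ → ℝ} {Bh : ℤ → ℂ} {lo hi : ℤ}

lemma exists_near (h : ∃ j, lo ≤ j ∧ j ≤ hi ∧ 0 < M.β j) (γ : ℝ) :
    ∃ r, lo ≤ r ∧ r ≤ hi ∧ 0 < M.β r ∧ M.Near lo hi γ r := by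
  obtain ⟨j, j1, j2, j3⟩ := h
  obtain ⟨r, hr, hm⟩ := ((Finset.Icc lo hi).filter fun j => 0 < M.β j).exists_min_image
    (fun j => toLex (|γ - M.φ j|, j)) ⟨j, by simp [j1, j2, j3]⟩
  simp only [Finset.mem_filter, Finset.mem_Icc] at hr hm
  refine ⟨r, hr.1.1, hr.1.2, hr.2, fun i i1 i2 i3 => ?_⟩
  have := hm i ⟨⟨i1, i2⟩, i3⟩
  rw [Prod.Lex.toLex_le_toLex] at this
  dsimp only at this
  constructor
  · intro hi
    have m := M.mono hi
    have : |γ - M.φ r| < |γ - M.φ i| := this.resolve_right fun h => by omega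
    rcases abs_cases (γ - M.φ r) with a | a <;> rcases abs_cases (γ - M.φ i) with b | b <;> linarith
  · intro hi
    have m := M.mono hi
    have : |γ - M.φ r| ≤ |γ - M.φ i| := this.elim le_of_lt fun h => h.1.le
    rcases abs_cases (γ - M.φ r) with a | a <;> rcases abs_cases (γ - M.φ i) with b | b <;> linarith

lemma Near.lt {γ γ' : ℝ} {r r' : ℤ} (h : M.Near lo hi γ r) (h' : M.Near lo hi γ' r')
    (hr : lo ≤ r ∧ r ≤ hi ∧ 0 < M.β r) (hr' : lo ≤ r' ∧ r' ≤ hi ∧ 0 < M.β r') (hrr : r < r') :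
    γ < γ' := by
  have a := (h r' hr'.1 hr'.2.1 hr'.2.2).2 hrr
  have b := (h' r hr.1 hr.2.1 hr.2.2).1 hrr
  linarith

lemma Near.bwd {k r : ℤ} (h : M.Near lo hi (M.φ k) r) (hk : lo ≤ k) (hr : r ≤ hi) {i : ℤ}
    (h1 : k ≤ i) (h2 : i < r) : M.β i = 0 := by
  refine (M.β_nn i).eq_or_lt.elim Eq.symm fun e => ?_
  have := (h i (by omega) (by omega) e).1 h2
  linarith [M.mono.monotone h1, M.mono h2]

lemma Near.fwd {k r : ℤ} (h : M.Near lo hi (M.φ k) r) (hk : k ≤ hi) (hr : lo ≤ r) {i : ℤ}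
    (h1 : r < i) (h2 : i ≤ k) : M.β i = 0 := by
  refine (M.β_nn i).eq_or_lt.elim Eq.symm fun e => ?_
  have := (h i (by omega) (by omega) e).2 h1
  linarith [M.mono.monotone h2, M.mono h1]

lemma Near.between {γ γ' : ℝ} {r : ℤ} (h : M.Near lo hi γ r)
    (h1 : (γ ≤ γ' ∧ γ' ≤ M.φ r) ∨ (M.φ r ≤ γ' ∧ γ' ≤ γ)) : M.Near lo hi γ' r :=
  fun j a b c => ⟨fun e => by
    have := (h j a b c).1 e
    have := M.mono e
    rcases h1 with h1 | h1 <;> linarith [h1.1, h1.2], fun e => by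
    have := (h j a b c).2 e
    have := M.mono e
    rcases h1 with h1 | h1 <;> linarith [h1.1, h1.2]⟩

lemma gap_bwd {k r : ℤ} (h : ∀ i, k ≤ i → i < r → M.β i = 0) : M.φ r < M.φ k + π := by
  obtain ⟨i, i1, i2, i3⟩ := M.gapb (M.φ r - π)
  have a : i < r := M.mono.lt_iff_lt.1 (by linarith)
  have b : i < k := not_le.1 fun e => i1.ne' (h i e a)
  linarith [M.mono b]

lemma gap_fwd {k r : ℤ} (h : ∀ i, r < i → i ≤ k → M.β i = 0) : M.φ k < M.φ r + π := by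
  obtain ⟨i, i1, i2, i3⟩ := M.gapb (M.φ r)
  have a : r < i := M.mono.lt_iff_lt.1 i2
  have b : k < i := not_le.1 fun e => i1.ne' (h i a e)
  linarith [M.mono b]

lemma IsDev.inj_short (D : M.IsDev ψ Bh) {k k' : ℤ} (h : M.φ (max k k') < M.φ (min k k') + π)
    {X Y : ℂ × ℝ} (hX : X ∈ M.face (.side k)) (hY : Y ∈ M.face (.side k'))
    (he : M.pl ψ Bh k X = M.pl ψ Bh k' Y) : X = Y ∧ M.Chain k k' X := by
  refine D.inj_strip (fun i j a b c d => ?_) hX hY he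
  have a1 := M.mono.monotone a
  have a2 := M.mono.monotone b
  have a3 := M.mono.monotone c
  have a4 := M.mono.monotone d
  rcases le_total i j with e | e
  · linarith [(abs_le.1 (D.abs_sub_le e)).1]
  · linarith [(abs_le.1 (D.abs_sub_le e)).2]

lemma gf_step (M : Model) (r : ℤ) (z : ℂ) :
    gf M.h (M.φ r) (M.a r) (M.b r) z ≤ gf M.h (M.φ r) (M.a (r - 1)) (M.b (r - 1)) z := by
  have e1 : cp (M.φ r) (z - M.b r) = cp (M.φ r) (z - M.b (r - 1)) := by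
    rw [M.hb r, cp_sub, cp_sub, cp_add, cp_mul, cp_nn_tan]; simp
  have e2 : cp (M.φ r + π / 2) (z - M.b r) = cp (M.φ r + π / 2) (z - M.b (r - 1)) - M.β r := by
    rw [M.hb r, cp_sub, cp_sub, cp_add, cp_mul, cp_nn]; simp; ring
  have e3 := M.wd_succ r
  have e4 := M.cp_tan_d_succ r
  simp only [d] at e3 e4
  rw [gf, gf, e1, e2, e3, e4]
  set m := max 0 (min (cp (M.φ r) (z - M.b (r - 1)) / wd M.h (M.φ r) (M.a (r - 1) - M.b (r - 1))) 1)
  have m0 : 0 ≤ m := le_max_left _ _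
  have m1 : m ≤ 1 := max_le zero_le_one (min_le_right _ _)
  nlinarith [mul_nonneg (M.α_nn r) m0, mul_nonneg (M.β_nn r) (sub_nonneg.2 m1)]

lemma exists_ratio (M : Model) {k : ℤ} {l σ : ℝ} (h0 : 0 ≤ σ) (h1 : σ ≤ M.len l k) :
    ∃ s : ℝ, 0 ≤ s ∧ s ≤ 1 ∧ σ = s * M.len l k := by
  rcases (h0.trans h1).eq_or_lt with e | e
  · exact ⟨0, le_rfl, zero_le_one, by linarith⟩
  · exact ⟨σ / M.len l k, div_nonneg h0 e.le, (div_le_one e).2 h1, by field_simp⟩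

/-- Support points above and below a point of a lateral face. -/
lemma face_split (M : Model) {k : ℤ} {X : ℂ × ℝ} (hX : X ∈ M.face (.side k)) :
    ∃ x y, Sup M.A0 (M.φ k) x ∧ Sup M.B0 (M.φ k) y ∧
      X.1 = ((1 - X.2 : ℝ) : ℂ) * y + (X.2 : ℂ) * x ∧
      cp (M.φ k) (x - y) = cp (M.φ k) (M.d (k - 1)) := by
  obtain ⟨l0, l1, σ, s0, s1, hx⟩ := hX
  obtain ⟨s, t0, t1, rfl⟩ := M.exists_ratio s0 s1
  refine ⟨_, _, M.sup_edge (σ := s * M.α k) (mul_nonneg t0 (M.α_nn k))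
    (by nlinarith [M.α_nn k]), M.swap.sup_edge (σ := s * M.β k) (mul_nonneg t0 (M.β_nn k))
    (by change _ ≤ M.β k; nlinarith [M.β_nn k]), ?_, ?_⟩
  · rw [hx, C, len]; simp only [Model.swap]; push_cast; ring
  · simp only [Model.swap, d, cp_sub, cp_add, cp_mul, cp_nn_tan]; simp

lemma IsDev.pl_real (D : M.IsDev ψ Bh) {r : ℤ} (h1 : ψ r = M.φ r) (h2 : Bh r = M.b r)
    (X : ℂ × ℝ) : M.pl ψ Bh r X = X.1 +
      ((X.2 * (wd M.h (M.φ r) (M.d (r - 1)) - cp (M.φ r) (M.d (r - 1))) : ℝ) : ℂ) * nn (M.φ r) := by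
  rw [pl, D.E_real' h1 h2, h1, sub_self, nn_zero]; ring

lemma IsDev.phi_real (D : M.IsDev ψ Bh) {r : ℤ} (h1 : ψ r = M.φ r) (h2 : Bh r = M.b r)
    {X : ℂ × ℝ} (hX : X ∈ M.face (.side r)) (hl : 0 < X.2) :
    Phi M.A0 M.B0 M.h (M.φ r) (M.pl ψ Bh r X) := by
  obtain ⟨x, y, hx, hy, e, ed⟩ := M.face_split hX
  have w0 := wd_pos M.hh (M.φ r) (M.d (r - 1))
  have ew := wd_congr (h := M.h) ed
  have ez : M.pl ψ Bh r X - y = (X.2 : ℂ) * (x - y) +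
      ((X.2 * (wd M.h (M.φ r) (M.d (r - 1)) - cp (M.φ r) (M.d (r - 1))) : ℝ) : ℂ) * nn (M.φ r) := by
    rw [D.pl_real h1 h2, e]; push_cast; ring
  have hv : cp (M.φ r) (M.pl ψ Bh r X - y) = X.2 * wd M.h (M.φ r) (M.d (r - 1)) := by
    rw [ez, cp_add, cp_mul, cp_polar, ed]; simp; ring
  have hT : cp (M.φ r + π / 2) (M.pl ψ Bh r X - y) = X.2 * cp (M.φ r + π / 2) (x - y) := by
    rw [ez, cp_add, cp_mul, cp_tan_polar]; simp
  refine ⟨x, y, hx, hy, by rw [hv]; positivity, ?_⟩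
  rw [gf_mid M.hh (by rw [hv]; positivity) (by rw [hv, ew]; nlinarith [hX.2.1]), hv, hT, ew,
    mul_div_assoc, div_self w0.ne']
  ring

/-- A bottom point of a face without bottom edges up to `r`. -/
lemma zero_chain {k r : ℤ} (h1 : ∀ i, k ≤ i → i < r → M.β i = 0)
    (h2 : ∀ i, r < i → i ≤ k → M.β i = 0) {X : ℂ × ℝ} (hX : X ∈ M.face (.side k)) (hl : X.2 = 0) :
    X ∈ M.eB r ∧ M.Chain k r X := by
  obtain ⟨l0, l1, σ, s0, s1, hx⟩ := hX
  rw [hl, IncidAux.len_zero] at s1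
  rw [hl, IncidAux.C_zero] at hx
  rcases lt_trichotomy k r with h | rfl | h
  · have : σ = 0 := by linarith [h1 k le_rfl h]
    have e : ∀ i, k - 1 ≤ i → i < r → X.1 = M.b i := fun i a b => by
      rw [hx, this, M.b_const a fun j u v => h1 j (by omega) (by omega)]; simp
    exact ⟨⟨hl, 0, le_rfl, M.β_nn r, by rw [e (r - 1) (by omega) (by omega)]; simp⟩,
      fun i a b => ⟨l0, l1, by rw [hl, IncidAux.C_zero, e i (by omega) (by omega)]⟩⟩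
  · exact ⟨⟨hl, σ, s0, s1, hx⟩, Chain.refl _ _ _⟩
  · have : σ = 0 := by linarith [h2 k h le_rfl]
    have e : ∀ i, r ≤ i → i ≤ k - 1 → X.1 = M.b i := fun i a b => by
      rw [hx, this, M.b_const b fun j u v => h2 j (by omega) (by omega)]; simp
    exact ⟨⟨hl, M.β r, M.β_nn r, le_rfl, by rw [e r le_rfl (by omega), M.hb r]⟩,
      fun i a b => ⟨l0, l1, by rw [hl, IncidAux.C_zero, e i (by omega) (by omega)]⟩⟩

/-- Conditions at the lower end of a range of faces. -/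
def LoEnd (M : Model) (lo hi : ℤ) (G : ℝ) : Prop :=
  M.φ (lo - 1) ≤ G ∧ G ≤ M.φ lo ∧ ((∃ j, lo ≤ j ∧ j ≤ hi ∧ 0 < M.β j ∧ M.φ j ≤ G + π / 2) ∨
    (0 ≤ cp (G + π / 2) (M.d (lo - 1)) ∧ G < M.φ lo))

/-- Conditions at the upper end of a range of faces. -/
def HiEnd (M : Model) (lo hi : ℤ) (G : ℝ) : Prop :=
  M.φ hi ≤ G ∧ G ≤ M.φ (hi + 1) ∧ ((∃ j, lo ≤ j ∧ j ≤ hi ∧ 0 < M.β j ∧ G ≤ M.φ j + π / 2) ∨
    (cp (G + π / 2) (M.d hi) ≤ 0 ∧ M.φ hi < G))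

lemma IsDev.near_bwd (D : M.IsDev ψ Bh) {k r : ℤ} (h1 : ψ r = M.φ r) (h2 : Bh r = M.b r)
    (hk : lo ≤ k) (hr : r ≤ hi) (hkr : k < r) (hn : M.Near lo hi (M.φ k) r) {G : ℝ}
    (hG : M.LoEnd lo hi G) {X : ℂ × ℝ} (hX : X ∈ M.face (.side k)) (hl : 0 < X.2) :
    (∃ γ, Phi M.A0 M.B0 M.h γ (M.pl ψ Bh k X) ∧ γ ≤ M.φ r ∧ (G < γ ∨ M.φ lo ≤ γ) ∧
      M.Near lo hi γ r) ∧
    (gf M.h (M.φ r) (M.a (r - 1)) (M.b (r - 1)) (M.pl ψ Bh k X) < 0 ∨
      ∃ Y ∈ M.rul (r - 1), M.pl ψ Bh k X = M.pl ψ Bh r Y) := by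
  by_cases h : ∃ j, lo ≤ j ∧ j < r ∧ 0 < M.β j
  · obtain ⟨j, j1, j2, j3⟩ := h
    obtain ⟨i, i1, i2, i3⟩ := M.gapb (M.φ r - π)
    have a : i < r := M.mono.lt_iff_lt.1 (by linarith)
    have s : M.φ r ≤ M.φ k + π / 2 := by
      rcases le_total i j with e | e
      · linarith [(hn j j1 (by omega) j3).1 j2, M.mono.monotone e]
      · linarith [(hn i (by omega) (by omega) i1).1 a]
    obtain ⟨⟨γ, a1, a2, a3⟩, a4⟩ := D.fan_bwd (c := k - 1) (γ := M.φ k) h1 h2 (by omega) hkr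
      (fun i u v => hn.bwd hk hr (by omega) v) (M.mono (by omega)).le (by simp)
      (by linarith [pi_pos]) (Or.inl s) hX hl
    rw [sub_add_cancel] at a3
    have a5 : M.φ k ≤ γ := a3.elim le_of_lt id
    exact ⟨⟨γ, a1, a2, Or.inr ((M.mono.monotone hk).trans a5), hn.between (Or.inl ⟨a5, a2⟩)⟩, a4⟩
  · have hβ : ∀ i, lo - 1 < i → i < r → M.β i = 0 := fun i u v =>
      (M.β_nn i).eq_or_lt.elim Eq.symm fun e => absurd ⟨i, by omega, v, e⟩ h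
    have fst : ∀ j, lo ≤ j → 0 < M.β j → M.φ r ≤ M.φ j := fun j u v =>
      M.mono.monotone (not_lt.1 fun e => h ⟨j, u, e, v⟩)
    obtain ⟨g1, g2, g3⟩ := hG
    have hc : M.φ r ≤ G + π / 2 ∨ (0 ≤ cp (G + π / 2) (M.d (lo - 1)) ∧ G < M.φ (lo - 1 + 1)) := by
      rw [sub_add_cancel]
      exact g3.imp (fun ⟨j, u, _, v, w⟩ => (fst j u v).trans w) id
    have hlen : M.φ r < G + π := by
      obtain ⟨i, i1, i2, i3⟩ := M.gapb G
      have : lo - 1 < i := M.mono.lt_iff_lt.1 (by linarith)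
      linarith [fst i (by omega) i1]
    obtain ⟨⟨γ, a1, a2, a3⟩, a4⟩ := D.fan_bwd (c := lo - 1) (γ := G) h1 h2 (by omega) hkr hβ g1
      (by simpa using g2) hlen hc hX hl
    rw [sub_add_cancel] at a3
    refine ⟨⟨γ, a1, a2, a3, fun j u v w => ⟨fun e => absurd ⟨j, u, e, w⟩ h, fun e => ?_⟩⟩, a4⟩
    linarith [M.mono e]

lemma IsDev.near_fwd (D : M.IsDev ψ Bh) {k r : ℤ} (h1 : ψ r = M.φ r) (h2 : Bh r = M.b r)
    (hk : k ≤ hi) (hr : lo ≤ r) (hkr : r < k) (hn : M.Near lo hi (M.φ k) r) {G : ℝ}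
    (hG : M.HiEnd lo hi G) {X : ℂ × ℝ} (hX : X ∈ M.face (.side k)) (hl : 0 < X.2) :
    (∃ γ, Phi M.A0 M.B0 M.h γ (M.pl ψ Bh k X) ∧ M.φ r ≤ γ ∧ (γ < G ∨ γ ≤ M.φ hi) ∧
      M.Near lo hi γ r) ∧
    (0 < gf M.h (M.φ r) (M.a r) (M.b r) (M.pl ψ Bh k X) ∨
      ∃ Y ∈ M.rul r, M.pl ψ Bh k X = M.pl ψ Bh r Y) := by
  by_cases h : ∃ j, r < j ∧ j ≤ hi ∧ 0 < M.β j
  · obtain ⟨j, j1, j2, j3⟩ := h
    obtain ⟨i, i1, i2, i3⟩ := M.gapb (M.φ r)
    have a : r < i := M.mono.lt_iff_lt.1 i2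
    have s : M.φ k ≤ M.φ r + π / 2 := by
      rcases le_total j i with e | e
      · linarith [(hn j (by omega) j2 j3).2 j1, M.mono.monotone e]
      · linarith [(hn i (by omega) (by omega) i1).2 a]
    obtain ⟨⟨γ, a1, a2, a3⟩, a4⟩ := D.fan_fwd (c := k) (γ := M.φ k) h1 h2 hkr le_rfl
      (fun i u v => hn.fwd hk hr u v) le_rfl (M.mono (by omega)).le
      (by linarith [pi_pos]) (Or.inl s) hX hl
    have a5 : γ ≤ M.φ k := a3.elim le_of_lt id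
    exact ⟨⟨γ, a1, a2, Or.inr (a5.trans (M.mono.monotone hk)), hn.between (Or.inr ⟨a2, a5⟩)⟩, a4⟩
  · have hβ : ∀ i, r < i → i ≤ hi → M.β i = 0 := fun i u v =>
      (M.β_nn i).eq_or_lt.elim Eq.symm fun e => absurd ⟨i, u, v, e⟩ h
    have lst : ∀ j, j ≤ hi → 0 < M.β j → M.φ j ≤ M.φ r := fun j u v =>
      M.mono.monotone (not_lt.1 fun e => h ⟨j, e, u, v⟩)
    obtain ⟨g1, g2, g3⟩ := hG
    have hc : G ≤ M.φ r + π / 2 ∨ (cp (G + π / 2) (M.d hi) ≤ 0 ∧ M.φ hi < G) :=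
      g3.imp (fun ⟨j, _, u, v, w⟩ => by linarith [lst j u v]) id
    have hlen : G < M.φ r + π := by
      obtain ⟨i, i1, i2, i3⟩ := M.gapb (G - π)
      have : i < hi + 1 := M.mono.lt_iff_lt.1 (by linarith)
      linarith [lst i (by omega) i1]
    obtain ⟨⟨γ, a1, a2, a3⟩, a4⟩ := D.fan_fwd (c := hi) (γ := G) h1 h2 hkr hk hβ g1 g2 hlen hc hX hl
    refine ⟨⟨γ, a1, a2, a3, fun j u v w => ⟨fun e => ?_, fun e => absurd ⟨j, e, v, w⟩ h⟩⟩, a4⟩
    linarith [M.mono e]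

lemma IsDev.near_pos (D : M.IsDev ψ Bh) {k r : ℤ} (h1 : ψ r = M.φ r) (h2 : Bh r = M.b r)
    (hk : lo ≤ k ∧ k ≤ hi) (hr : lo ≤ r ∧ r ≤ hi) (hn : M.Near lo hi (M.φ k) r) {G G' : ℝ}
    (hG : M.LoEnd lo hi G) (hG' : M.HiEnd lo hi G') {X : ℂ × ℝ} (hX : X ∈ M.face (.side k))
    (hl : 0 < X.2) : ∃ γ, Phi M.A0 M.B0 M.h γ (M.pl ψ Bh k X) ∧ (G < γ ∨ M.φ lo ≤ γ) ∧
      (γ < G' ∨ γ ≤ M.φ hi) ∧ M.Near lo hi γ r := by
  rcases lt_trichotomy k r with h | rfl | h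
  · obtain ⟨γ, a1, a2, a3, a4⟩ := (D.near_bwd h1 h2 hk.1 hr.2 h hn hG hX hl).1
    exact ⟨γ, a1, a3, Or.inr (a2.trans (M.mono.monotone hr.2)), a4⟩
  · exact ⟨_, D.phi_real h1 h2 hX hl, Or.inr (M.mono.monotone hk.1),
      Or.inr (M.mono.monotone hk.2), hn⟩
  · obtain ⟨γ, a1, a2, a3, a4⟩ := (D.near_fwd h1 h2 hk.2 hr.1 h hn hG' hX hl).1
    exact ⟨γ, a1, Or.inr ((M.mono.monotone hr.1).trans a2), a3, a4⟩

lemma IsDev.near_inj (D : M.IsDev ψ Bh) {k k' r : ℤ} (h1 : ψ r = M.φ r) (h2 : Bh r = M.b r)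
    (hk : lo ≤ k ∧ k ≤ hi) (hk' : lo ≤ k' ∧ k' ≤ hi) (hr : lo ≤ r ∧ r ≤ hi)
    (hn : M.Near lo hi (M.φ k) r) (hn' : M.Near lo hi (M.φ k') r) {G G' : ℝ}
    (hG : M.LoEnd lo hi G) (hG' : M.HiEnd lo hi G') {X Y : ℂ × ℝ} (hX : X ∈ M.face (.side k))
    (hY : Y ∈ M.face (.side k')) (hl : 0 < X.2) (hl' : 0 < Y.2)
    (he : M.pl ψ Bh k X = M.pl ψ Bh k' Y) : X = Y ∧ M.Chain k k' X := by
  wlog hkk : k ≤ k' generalizing k k' X Y
  · obtain ⟨e, c⟩ := this hk' hk hn' hn hY hX hl' hl he.symm (by omega)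
    exact ⟨e.symm, e ▸ c.symm⟩
  have g1 : M.φ r < M.φ k + π := gap_bwd fun i u v => hn.bwd hk.1 hr.2 u v
  have g2 : M.φ k' < M.φ r + π := gap_fwd fun i u v => hn'.fwd hk'.2 hr.1 u v
  rcases le_or_gt k' r with h | h
  · exact D.inj_short (by rw [max_eq_right hkk, min_eq_left hkk]; linarith [M.mono.monotone h])
      hX hY he
  rcases le_or_gt r k with h' | h'
  · exact D.inj_short (by rw [max_eq_right hkk, min_eq_left hkk]; linarith [M.mono.monotone h'])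
      hX hY he
  have via : ∀ Z ∈ M.face (.side r), M.pl ψ Bh k X = M.pl ψ Bh r Z → X = Y ∧ M.Chain k k' X :=
    fun Z hZ e => by
      obtain ⟨e1, c1⟩ := D.inj_short (by rw [max_eq_right h'.le, min_eq_left h'.le]; exact g1)
        hX hZ e
      obtain ⟨e2, c2⟩ := D.inj_short (by rw [max_eq_right h.le, min_eq_left h.le]; exact g2)
        hZ hY (e.symm.trans he)
      exact ⟨e1.trans e2, c1.trans (e1 ▸ c2)⟩
  rcases (D.near_bwd h1 h2 hk.1 hr.2 h' hn hG hX hl).2 with a | ⟨Z, hZ, e⟩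
  · rcases (D.near_fwd h1 h2 hk'.2 hr.1 h hn' hG' hY hl').2 with b | ⟨Z, hZ, e⟩
    · have := M.gf_step r (M.pl ψ Bh k X)
      rw [← he] at b
      linarith
    · exact via Z ((M.rul_sub r).1 hZ) (he.trans e)
  · have := (M.rul_sub (r - 1)).2 hZ
    rw [sub_add_cancel] at this
    exact via Z this e

theorem exists_petal (hn : hi + 2 ≤ lo + M.n) (h : ∃ j, lo ≤ j ∧ j ≤ hi ∧ 0 < M.β j) {G G' : ℝ}
    (hG : M.LoEnd lo hi G) (hG' : M.HiEnd lo hi G') :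
    Nonempty (M.Petal lo hi fun γ => (G < γ ∨ M.φ lo ≤ γ) ∧ (γ < G' ∨ γ ≤ M.φ hi)) := by
  classical
  choose ρ r1 r2 r3 r4 using fun k => exists_near h (M.φ k)
  choose ψ Bh D d1 d2 using M.exists_dev
  have mono : ∀ k k', k ≤ k' → ρ k ≤ ρ k' := fun k k' e => not_lt.1 fun e' => by
    linarith [(r4 k').lt (r4 k) ⟨r1 _, r2 _, r3 _⟩ ⟨r1 _, r2 _, r3 _⟩ e', M.mono.monotone e]
  have fix : ∀ k, lo ≤ k → k ≤ hi → 0 < M.β k → ρ k = k := fun k a b c => by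
    rcases lt_trichotomy (ρ k) k with e | e | e
    · exact absurd ((r4 k).fwd b (r1 k) e le_rfl) c.ne'
    · exact e
    · exact absurd ((r4 k).bwd a (r2 k) le_rfl e) c.ne'
  have fix' : ∀ k, ρ (ρ k) = ρ k := fun k => fix _ (r1 k) (r2 k) (r3 k)
  have link : ∀ k k' X, lo ≤ k → k ≤ hi → lo ≤ k' → k' ≤ hi → ρ k = ρ k' → M.Chain k k' X →
      M.Link ((Finset.Ico lo hi).filter fun i => ρ i = ρ (i + 1)) k k' X := by
    intro k k' X a b c d e ch i i1 i2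
    refine ⟨?_, ch i i1 i2⟩
    simp only [Finset.mem_filter, Finset.mem_Ico]
    have m1 := mono (min k k') i i1
    have m2 := mono i (i + 1) (by omega)
    have m3 := mono (i + 1) (max k k') (by omega)
    have : ρ (min k k') = ρ (max k k') := by
      rcases le_total k k' with u | u
      · rw [min_eq_left u, max_eq_right u, e]
      · rw [min_eq_right u, max_eq_left u, e]
    omega
  refine ⟨⟨fun k => M.pl (ψ (ρ k)) (Bh (ρ k)) k, (Finset.Ico lo hi).filter fun i => ρ i = ρ (i + 1),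
    (Finset.Icc lo hi).filter fun i => 0 < M.β i, ?_, ?_, ?_, ?_, ?_, ?_, ?_, ?_, ?_, ?_⟩⟩
  · intro k hk
    simp only [Finset.mem_filter, Finset.mem_Ico] at hk
    exact hk.1
  · intro k hk
    simp only [Finset.mem_filter, Finset.mem_Icc] at hk
    exact ⟨hk.1.1, hk.1.2, hk.2⟩
  · set U := (Finset.Ico lo hi).filter fun i => ρ i = ρ (i + 1) with hU
    set S := (Finset.Icc lo hi).filter fun i => 0 < M.β i with hS
    have sub : Finset.Icc lo hi ⊆ (U.filter (fun i => i < ρ i) ∪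
        (U.filter fun i => ¬i < ρ i).image (· + 1)) ∪ S := by
      intro k hk
      simp only [Finset.mem_Icc] at hk
      simp only [hU, hS, Finset.mem_union, Finset.mem_filter, Finset.mem_image, Finset.mem_Ico,
        Finset.mem_Icc]
      have a1 := r1 k
      have a2 := r2 k
      have a3 := fix' k
      rcases lt_trichotomy (ρ k) k with e | e | e
      · have m1 := mono (ρ k) (k - 1) (by omega)
        have m2 := mono (k - 1) k (by omega)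
        refine Or.inl (Or.inr ⟨k - 1, ⟨⟨by omega, ?_⟩, by omega⟩, by ring⟩)
        rw [sub_add_cancel]; omega
      · exact Or.inr ⟨hk, e ▸ r3 k⟩
      · have m1 := mono (k + 1) (ρ k) (by omega)
        have m2 := mono k (k + 1) (by omega)
        exact Or.inl (Or.inl ⟨⟨by omega, by omega⟩, e⟩)
    have c1 := Finset.card_le_card sub
    have c2 := Finset.card_union_le (U.filter (fun i => i < ρ i) ∪
        (U.filter fun i => ¬i < ρ i).image (· + 1)) S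
    have c3 := Finset.card_union_le (U.filter (fun i => i < ρ i))
        ((U.filter fun i => ¬i < ρ i).image (· + 1))
    have c4 : ((U.filter fun i => ¬i < ρ i).image (· + 1)).card ≤ _ := Finset.card_image_le
    have c5 := Finset.card_filter_add_card_filter_not (s := U) (fun i => i < ρ i)
    rw [Int.card_Icc] at c1
    omega
  · intro i i1 i2
    by_cases hi' : i ∈ (Finset.Ico lo hi).filter fun i => ρ i = ρ (i + 1)
    swap
    · exact ⟨i, i1, i2, hi', rfl⟩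
    simp only [Finset.mem_filter, Finset.mem_Ico] at hi'
    rcases le_or_gt (ρ i) i with e | e
    · obtain ⟨m, ⟨m1, m2, m3⟩, m4⟩ := Int.exists_greatest_of_bdd
        (P := fun m => i ≤ m ∧ m ≤ hi ∧ ρ m = ρ i) ⟨hi, fun z hz => hz.2.1⟩ ⟨i, le_rfl, i2, rfl⟩
      refine ⟨m, by omega, m2, fun hm => ?_, M.b_const m1 fun k u v =>
        (r4 m).fwd m2 (r1 m) (by omega) v⟩
      simp only [Finset.mem_filter, Finset.mem_Ico] at hm
      have := m4 (m + 1) ⟨by omega, by omega, by omega⟩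
      omega
    · obtain ⟨m, ⟨m1, m2, m3⟩, m4⟩ := Int.exists_least_of_bdd
        (P := fun m => lo ≤ m ∧ m ≤ i ∧ ρ m = ρ i) ⟨lo, fun z hz => hz.1⟩ ⟨i, hi'.1.1, le_rfl, rfl⟩
      refine ⟨m - 1, by omega, by omega, fun hm => ?_, (M.b_const (by omega) fun k u v =>
        (r4 m).bwd m1 (r2 m) (by omega) (by omega)).symm⟩
      simp only [Finset.mem_filter, Finset.mem_Ico, sub_add_cancel] at hm
      have := m4 (m - 1) ⟨by omega, by omega, by omega⟩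
      omega
  · exact fun k X hX Y hY => (D _).iso hX hY
  · intro k hk X hX
    simp only [Finset.mem_filter] at hk
    rw [← hk.2, (D _).pl_rul hX, IsDev.pl_rul' _ _ hX]
  · intro k hk X hX
    simp only [Finset.mem_filter, Finset.mem_Icc] at hk
    rw [fix k hk.1.1 hk.1.2 hk.2, (D k).pl_real (d1 k) (d2 k), hX.1]; simp
  · intro k a b X hX hl
    obtain ⟨e, c⟩ := zero_chain (fun i u v => (r4 k).bwd a (r2 k) u v)
      (fun i u v => (r4 k).fwd b (r1 k) u v) hX hl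
    exact ⟨ρ k, by simp [r1 k, r2 k, r3 k], e, link _ _ _ a b (r1 k) (r2 k) (fix' k).symm c⟩
  · intro k a b X hX hl
    obtain ⟨γ, a1, a2, a3, -⟩ := (D _).near_pos (d1 _) (d2 _) ⟨a, b⟩ ⟨r1 k, r2 k⟩ (r4 k) hG hG' hX hl
    exact ⟨γ, ⟨a2, a3⟩, a1⟩
  · intro k k' a b c d X hX Y hY hl hl' he
    obtain ⟨γ, a1, a2, a3, a4⟩ :=
      (D _).near_pos (d1 _) (d2 _) ⟨a, b⟩ ⟨r1 k, r2 k⟩ (r4 k) hG hG' hX hl
    obtain ⟨γ', b1, b2, b3, b4⟩ :=
      (D _).near_pos (d1 _) (d2 _) ⟨c, d⟩ ⟨r1 k', r2 k'⟩ (r4 k') hG hG' hY hl'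
    have w1 : M.φ (hi + 1) ≤ M.φ (lo - 1) + 2 * π := by
      rw [← M.per]; exact M.mono.monotone (by omega)
    have w2 : M.φ (lo - 1) < M.φ lo := M.mono (by omega)
    have w3 : M.φ hi < M.φ (hi + 1) := M.mono (by omega)
    have lb : ∀ t, (G < t ∨ M.φ lo ≤ t) → M.φ (lo - 1) < t := fun t ht => by
      rcases ht with ht | ht <;> linarith [hG.1]
    have ub : ∀ t, (t < G' ∨ t ≤ M.φ hi) → t < M.φ (hi + 1) := fun t ht => by
      rcases ht with ht | ht <;> linarith [hG'.2.1]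
    rcases lt_trichotomy (ρ k) (ρ k') with e | e | e
    · rw [← he] at b1
      exact (phi_uniq M.hh a1 b1 (a4.lt b4 ⟨r1 _, r2 _, r3 _⟩ ⟨r1 _, r2 _, r3 _⟩ e)
        (by linarith [lb _ a2, ub _ b3])).elim
    · rw [← e] at he
      obtain ⟨e1, c1⟩ := (D _).near_inj (d1 _) (d2 _) ⟨a, b⟩ ⟨c, d⟩ ⟨r1 k, r2 k⟩ (r4 k)
        (e ▸ r4 k') hG hG' hX hY hl hl' he
      exact ⟨e1, link _ _ _ a b c d e c1⟩
    · rw [← he] at b1
      exact (phi_uniq M.hh b1 a1 (b4.lt a4 ⟨r1 _, r2 _, r3 _⟩ ⟨r1 _, r2 _, r3 _⟩ e)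
        (by linarith [lb _ b2, ub _ a3])).elim

end Model

end Pool.Agent.P.MP_36f9aa_co
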