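import Pool.Agent.P.MP_36f9aa_co.SepC
import Pool.Agent.P.MP_36f9aa_co.Fence

set_option autoImplicit false

namespace Pool.Agent.P.MP_36f9aa_co

open Real

lemma phi_flip {A B : Set ℂ} {h θ : ℝ} {z : ℂ} (hz : Phi A B h θ z) :
    Phi ((starRingEnd ℂ) '' A) ((starRingEnd ℂ) '' B) h (2 * π - θ) ((starRingEnd ℂ) z) := by
  rw [show 2 * π - θ = -θ + 2 * π by ring, phi_add_two_pi]
  exact phi_conj hz

namespace Wing
variable (W : Wing)

theorem sepAB {x y : ℂ} (hx : x ∈ W.A) (hy : y ∈ W.B) : JJ W.τ x ≠ y := by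
  intro e
  have h1 := W.re_A hx
  have h2 := W.re_B hy
  have h3 := congrArg Complex.re e
  rw [JJ_re] at h3
  linarith

theorem top_out {θ l : ℝ} {c z : ℂ} (hS : W.S θ l c z) (hz : W.Bp.im < z.im) :
    0 < cp W.p (z - W.bp) := W.top_out' hS hz

theorem bot_out {θ l : ℝ} {c z : ℂ} (hS : W.S θ l c z) (hz : z.im < W.Bq.im) :
    0 < cp (-W.q) (z - W.bq) := W.bot_out' hS hz

/-- Statement (X). -/
lemma phi_re {γ : ℝ} {z : ℂ} (hz : Phi W.A W.B W.h γ z) (h1 : π / 2 ≤ γ) (h2 : γ ≤ 3 * π / 2) :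
    2 * z.re < W.τ.re := by
  obtain ⟨x, y, l, μ, hx, hy, l0, l1, hμ, e⟩ := phi_decomp W.hh hz
  have a1 := W.re_A hx.1
  have a2 := W.re_B hy.1
  have a3 := cos_nonpos_of_pi_div_two_le_of_le h1 (by linarith)
  rw [e]
  simp only [Complex.add_re, Complex.re_ofReal_mul, nn_re]
  nlinarith [mul_nonneg hμ.le (neg_nonneg.mpr a3), mul_pos l0 (sub_pos.mpr a1),
    mul_nonneg (sub_nonneg.mpr l1) (sub_nonneg.mpr a2.le)]

/-- The case of a fence less than a half turn ahead of the outer direction. -/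
lemma core (hp : 0 ≤ cp (W.p + π / 2) (W.ap - W.bp)) {z y : ℂ}
    (hz : (∃ θ l c, W.S θ l c z) ∨ ∃ x ∈ W.A, z = JJ W.τ x) {φ γ : ℝ} (h0 : φ ≤ W.p)
    (hy : Sup W.B φ y) (hφ : 0 ≤ cp φ (z - y)) (h1 : W.p < γ) (h2 : γ < φ + π) :
    ¬ Phi W.A W.B W.h γ z := by
  intro hP
  have a1 := phi_pos hP _ W.sbp.1
  have a2 : 0 ≤ cp φ (z - W.bp) := by
    have := hy.2 _ W.sbp.1
    rw [cp_sub] at hφ ⊢
    linarith
  have a3 := cp_between φ W.p γ (z - W.bp)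
  have s1 : 0 < sin (γ - φ) := sin_pos_of_pos_of_lt_pi (by linarith) (by linarith)
  have s2 : 0 ≤ sin (γ - W.p) := sin_nonneg_of_nonneg_of_le_pi (by linarith) (by linarith)
  have s3 : 0 ≤ sin (W.p - φ) := sin_nonneg_of_nonneg_of_le_pi (by linarith) (by linarith)
  have hv : 0 ≤ cp W.p (z - W.bp) := by
    apply nonneg_of_mul_nonneg_right _ s1
    rw [a3]
    exact add_nonneg (mul_nonneg s2 a2) (mul_nonneg s3 a1.le)
  have a4 := phi_mono W.hh hP h1 (by linarith) W.sap W.sbp hv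
  rcases hz with ⟨θ, l, c, hS⟩ | ⟨x, hx, e⟩
  · linarith [W.gf_strip hp hS rfl le_rfl hv]
  · have := W.gf_mirror hp (l := 1) (μ := 0) (g := π) zero_le_one le_rfl (Or.inl rfl) hx W.sb0.1
      le_rfl (by linarith [W.p0]) (by linarith [pi_pos]) (by simpa using e) hv
    linarith

lemma opp {z y : ℂ} {φ γ : ℝ} (hy : Sup W.B φ y) (hφ : 0 ≤ cp φ (z - y)) (h : γ = φ + π) :
    ¬ Phi W.A W.B W.h γ z := by
  intro hP
  have := phi_pos hP _ hy.1
  rw [h, cp_add_pi] at this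
  linarith

lemma refl_pt {z : ℂ} (hz : (∃ θ l c, W.S θ l c z) ∨ ∃ x ∈ W.A, z = JJ W.τ x) :
    (∃ θ l c, W.refl.S θ l c ((starRingEnd ℂ) z)) ∨
      ∃ x ∈ W.refl.A, (starRingEnd ℂ) z = JJ W.refl.τ x := by
  rcases hz with ⟨θ, l, c, hS⟩ | ⟨x, hx, rfl⟩
  · exact Or.inl ⟨-θ, l, (starRingEnd ℂ) c, by simpa [refl] using hS⟩
  · refine Or.inr ⟨_, ⟨x, hx, rfl⟩, ?_⟩
    apply Complex.ext <;> simp [refl]
    ring

lemma refl_hp : cp (W.refl.p + π / 2) (W.refl.ap - W.refl.bp)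
    = -cp (-W.q + π / 2) (W.aq - W.bq) := by
  have e1 := cp_conj_tan (-W.q) (W.aq - W.bq)
  rw [neg_neg, map_sub] at e1
  exact e1

lemma refl_hq : cp (-W.refl.q + π / 2) (W.refl.aq - W.refl.bq)
    = -cp (W.p + π / 2) (W.ap - W.bp) := by
  have e1 := cp_conj_tan W.p (W.ap - W.bp)
  rw [map_sub] at e1
  exact e1

lemma sr_hp (hq : 0 ≤ cp (-W.q + π / 2) (W.aq - W.bq)) :
    0 ≤ cp (W.swap.refl.p + π / 2) (W.swap.refl.ap - W.swap.refl.bp) := by
  rw [refl_hp]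
  change 0 ≤ -cp (-W.q + π / 2) (W.bq - W.aq)
  rwa [← cp_neg, neg_sub]

lemma sr_hq (hp : 0 ≤ cp (W.p + π / 2) (W.ap - W.bp)) :
    0 ≤ cp (-W.swap.refl.q + π / 2) (W.swap.refl.aq - W.swap.refl.bq) := by
  rw [refl_hq]
  change 0 ≤ -cp (W.p + π / 2) (W.bp - W.ap)
  rwa [← cp_neg, neg_sub]

theorem sepBB (hp : 0 ≤ cp (W.p + π / 2) (W.ap - W.bp)) (hq : cp (-W.q + π / 2) (W.aq - W.bq) ≤ 0)
    {z : ℂ} (hz : (∃ θ l c, W.S θ l c z) ∨ ∃ x ∈ W.A, z = JJ W.τ x)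
    {γ : ℝ} (h1 : W.p < γ) (h2 : γ < 2 * π - W.q) : ¬ Phi W.A W.B W.h γ z := by
  obtain ⟨φ, y, a1, a2, a3, a4, -⟩ := W.outer hz
  rcases lt_trichotomy γ (φ + π) with h | h | h
  · exact W.core hp hz a2 a3 a4 h1 h
  · exact W.opp a3 a4 h
  · intro hP
    refine W.refl.core (by rw [refl_hp]; linarith) (W.refl_pt hz) (φ := -φ) (γ := 2 * π - γ)
      (show -φ ≤ W.q by linarith) (sup_conj a3) ?_ (show W.q < 2 * π - γ by linarith)
      (by linarith) (phi_flip hP)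
    rwa [← map_sub, cp_conj, neg_neg]

theorem sepPP1 (hp : 0 ≤ cp (W.p + π / 2) (W.ap - W.bp)) (hq : 0 ≤ cp (-W.q + π / 2) (W.aq - W.bq))
    {z : ℂ} (hz : (∃ θ l c, W.S θ l c z) ∨ ∃ x ∈ W.A, z = JJ W.τ x)
    {γ : ℝ} (h1 : W.p < γ) (h2 : γ ≤ 3 * π / 2 - W.q) : ¬ Phi W.A W.B W.h γ z := by
  obtain ⟨φ, y, a1, a2, a3, a4, a5⟩ := W.outer hz
  rcases lt_trichotomy γ (φ + π) with h | h | h
  · exact W.core hp hz a2 a3 a4 h1 h
  · exact W.opp a3 a4 h
  · intro hP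
    rcases a5 hq with a6 | a6
    · linarith
    have b1 := phi_pos hP _ W.sbq.1
    have b2 : 0 ≤ cp φ (z - W.bq) := by
      have := a3.2 _ W.sbq.1
      rw [cp_sub] at a4 ⊢
      linarith
    have b3 := cp_between (γ - 2 * π) (-W.q + π / 2 - π) φ (z - W.bq)
    rw [cp_sub_two_pi, cp_sub_pi] at b3
    have p1 := W.p1
    have q1 := W.q1
    have s1 : 0 < sin (φ - (γ - 2 * π)) :=
      sin_pos_of_pos_of_lt_pi (by linarith [pi_pos]) (by linarith)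
    have s2 : 0 < sin (φ - (-W.q + π / 2 - π)) :=
      sin_pos_of_pos_of_lt_pi (by linarith [pi_pos]) (by linarith)
    have s3 : 0 ≤ sin (-W.q + π / 2 - π - (γ - 2 * π)) :=
      sin_nonneg_of_nonneg_of_le_pi (by linarith) (by linarith)
    nlinarith [mul_pos s2 b1, mul_nonneg s3 b2, mul_nonneg s1.le a6]

theorem sepPP2 (hp : 0 ≤ cp (W.p + π / 2) (W.ap - W.bp)) (hq : 0 ≤ cp (-W.q + π / 2) (W.aq - W.bq))
    {z : ℂ} (hz : (∃ θ l c, W.S θ l c z) ∨ z ∈ W.B)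
    {γ : ℝ} (h1 : W.p + π / 2 ≤ γ) (h2 : γ < 2 * π - W.q) :
    ¬ Phi W.B W.A W.h γ (JJ ((starRingEnd ℂ) W.τ) z) := by
  intro hP
  refine W.swap.refl.sepPP1 (W.sr_hp hq) (W.sr_hq hp)
    (W.swap.refl_pt (z := JJ ((starRingEnd ℂ) W.τ) z) ?_) (γ := 2 * π - γ)
    (show W.q < 2 * π - γ by linarith) (show 2 * π - γ ≤ 3 * π / 2 - W.p by linarith) (phi_flip hP)
  rcases hz with ⟨θ, l, c, hS⟩ | hz
  · refine Or.inl ⟨θ, 1 - l, c, ?_⟩
    change W.S θ (1 - (1 - l)) c (JJ W.τ (JJ ((starRingEnd ℂ) W.τ) z))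
    rwa [JJ_JJ, sub_sub_cancel]
  · exact Or.inr ⟨z, hz, rfl⟩

lemma re_neg {γ : ℝ} {z : ℂ} (h1 : W.p < γ) (h2 : γ < π / 2) (hz : Phi W.A W.B W.h γ z)
    (hv : cp W.p (z - W.bp) < 0) : (z - W.bp).re < 0 := by
  have a1 := phi_pos hz _ W.sbp.1
  have a2 := cp_between 0 W.p γ (z - W.bp)
  rw [cp_zero_left, sub_zero, sub_zero] at a2
  have s1 : 0 < sin γ := sin_pos_of_pos_of_lt_pi (by linarith [W.p0]) (by linarith [pi_pos])
  have s2 : 0 ≤ sin (γ - W.p) :=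
    sin_nonneg_of_nonneg_of_le_pi (by linarith) (by linarith [pi_pos, W.p0])
  by_contra hc
  nlinarith [mul_pos s1 (neg_pos.mpr hv), mul_nonneg s2 (not_lt.mp hc), mul_pos W.sin_p a1]

lemma case_two (hp : 0 ≤ cp (W.p + π / 2) (W.ap - W.bp)) (hA : -W.φA ≤ W.p) {z : ℂ} {γ γ' : ℝ}
    (h1 : W.p < γ) (h2 : γ < π / 2) (h3 : W.p + π / 2 ≤ γ') (h4 : γ' ≤ 3 * π / 2)
    (hz : Phi W.A W.B W.h γ z) (hz' : Phi W.B W.A W.h γ' (JJ ((starRingEnd ℂ) W.τ) z)) :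
    False := by
  rcases lt_or_ge (cp W.p (z - W.bp)) 0 with hv | hv
  · have a1 := W.re_neg h1 h2 hz hv
    have a2 := W.swap.phi_re hz' (by linarith [W.p0]) h4
    have a3 := W.re_B W.sbp.1
    simp [swap] at a1 a2
    linarith
  · have a1 := phi_mono W.hh hz h1 (by linarith [W.p0, pi_pos]) W.sap W.sbp hv
    obtain ⟨y, x, l, μ, hy, hx, l0, l1, hμ, e⟩ := phi_decomp W.hh hz'
    have := W.gf_mirror hp (l := 1 - l) (μ := μ) (g := γ') (z := z) (by linarith) (by linarith)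
      (Or.inr hA) hx.1 hy.1 hμ.le (by linarith [W.p1]) h4 (by
        have e1 := congrArg Complex.re e
        have e2 := congrArg Complex.im e
        apply Complex.ext <;> simp at e1 e2 ⊢ <;> linarith) hv
    linarith

lemma case_four (hp : 0 ≤ cp (W.p + π / 2) (W.ap - W.bp)) {z : ℂ} {γ : ℝ}
    (h1 : W.p < γ) (h2 : γ < π / 2) (hz : Phi W.A W.B W.h γ z) :
    W.b0.im ≤ z.im ∧ ∀ l : ℝ, 0 ≤ l → l ≤ 1 →
      z.im = (((1 - l : ℝ) : ℂ) * W.b0 + (l : ℂ) * JJ W.τ W.a0).im →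
      z.re < (((1 - l : ℝ) : ℂ) * W.b0 + (l : ℂ) * JJ W.τ W.a0).re := by
  have b0 := W.im_b0_le
  rcases lt_or_ge (cp W.p (z - W.bp)) 0 with hv | hv
  · have a1 := W.re_neg h1 h2 hz hv
    have a2 := phi_pos hz _ W.sbp.1
    have s1 : 0 < sin γ := sin_pos_of_pos_of_lt_pi (by linarith [W.p0]) (by linarith [pi_pos])
    have c1 : 0 < cos γ := cos_pos_of_mem_Ioo ⟨by linarith [W.p0, pi_pos], h2⟩
    constructor
    · unfold cp at a2
      have : 0 < (z - W.bp).im := by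
        by_contra hc
        nlinarith [mul_pos (neg_pos.mpr a1) c1, mul_nonneg (neg_nonneg.mpr (not_lt.mp hc)) s1.le]
      rw [Complex.sub_im] at this
      linarith
    · intro l l0 l1 _
      have a3 := W.sb0.2 _ W.sbp.1
      rw [cp_zero_left, cp_zero_left] at a3
      have a4 := W.re_A W.sa0.1
      have a5 := W.re_B W.sb0.1
      rw [Complex.sub_re] at a1
      simp only [Complex.add_re, Complex.re_ofReal_mul, JJ_re]
      nlinarith [mul_nonneg l0 (show 0 ≤ W.τ.re - W.a0.re - W.b0.re by linarith)]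
  · have a1 := phi_mono W.hh hz h1 (by linarith [W.p0, pi_pos]) W.sap W.sbp hv
    constructor
    · have a2 := gf_pos hp a1
      have a3 := im_frame W.p (z - W.bp)
      rw [Complex.sub_im] at a3
      nlinarith [mul_nonneg hv W.sin_p.le, mul_nonneg a2.le W.cos_p]
    · intro l l0 l1 e
      by_contra hc
      linarith [W.gf_strip hp (W.S_e l l0 l1) e (not_lt.mp hc) hv]

theorem sepPP3 (hp : 0 ≤ cp (W.p + π / 2) (W.ap - W.bp)) (hq : 0 ≤ cp (-W.q + π / 2) (W.aq - W.bq))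
    (hA : -W.φA ≤ W.p) (hB : W.φB ≤ W.q) {z : ℂ} {γ γ' : ℝ}
    (h1 : W.p < γ) (h2 : γ ≤ 3 * π / 2 - W.q) (h3 : W.p + π / 2 ≤ γ') (h4 : γ' < 2 * π - W.q)
    (hz : Phi W.A W.B W.h γ z) (hz' : Phi W.B W.A W.h γ' (JJ ((starRingEnd ℂ) W.τ) z)) :
    False := by
  rcases le_or_gt γ' (3 * π / 2) with g2 | g2
  · rcases le_or_gt (π / 2) γ with g1 | g1
    · have a1 := W.phi_re hz g1 (by linarith [W.q0])
      have a2 := W.swap.phi_re hz' (by linarith [W.p0]) g2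
      simp [swap] at a2
      linarith
    · exact W.case_two hp hA h1 g1 h3 g2 hz hz'
  · rcases le_or_gt (π / 2) γ with g1 | g1
    · refine W.swap.refl.case_two (W.sr_hp hq) (show -(-W.φB) ≤ W.q by linarith)
        (γ := 2 * π - γ') (γ' := 2 * π - γ) (show W.q < 2 * π - γ' by linarith) (by linarith)
        (show W.q + π / 2 ≤ 2 * π - γ by linarith) (by linarith) (phi_flip hz') ?_
      have e : JJ ((starRingEnd ℂ) W.swap.refl.τ) ((starRingEnd ℂ) (JJ ((starRingEnd ℂ) W.τ) z))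
          = (starRingEnd ℂ) z := by
        apply Complex.ext <;> simp [swap, refl]
      rw [e]
      exact phi_flip hz
    · obtain ⟨a1, a2⟩ := W.case_four hp h1 g1 hz
      obtain ⟨b1, b2⟩ := W.swap.refl.case_four (W.sr_hp hq) (γ := 2 * π - γ')
        (show W.q < 2 * π - γ' by linarith) (by linarith) (phi_flip hz')
      simp only [swap, refl, Complex.conj_im, Complex.conj_re, JJ_im, JJ_re, Complex.add_im,
        Complex.add_re, Complex.im_ofReal_mul, Complex.re_ofReal_mul] at a2 b1 b2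
      have : ∃ l : ℝ, 0 ≤ l ∧ l ≤ 1 ∧ z.im = (1 - l) * W.b0.im + l * (W.a0.im + W.τ.im) := by
        rcases (show W.b0.im ≤ W.a0.im + W.τ.im by linarith).lt_or_eq with h | h
        · refine ⟨(z.im - W.b0.im) / (W.a0.im + W.τ.im - W.b0.im),
            div_nonneg (by linarith) (by linarith), ?_, ?_⟩
          · rw [div_le_one (by linarith)]; linarith
          · have : W.a0.im + W.τ.im - W.b0.im ≠ 0 := by linarith
            field_simp; ring
        · exact ⟨0, le_rfl, zero_le_one, by linarith⟩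
      obtain ⟨l, l0, l1, e⟩ := this
      have c1 := a2 l l0 l1 e
      have c2 := b2 (1 - l) (by linarith) (by linarith) (by linarith)
      linarith

end Wing

end Pool.Agent.P.MP_36f9aa_co
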