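import Pool.Agent.P.MP_36f9aa_co.WingDef

set_option autoImplicit false

namespace Pool.Agent.P.MP_36f9aa_co

open Real

lemma fv_neg_s (h t : ℝ) (d : ℂ) : fv h t (-d) = (starRingEnd ℂ) (fv h t d) := by
  apply Complex.ext <;> simp [wd_neg, cp_neg]

lemma fv_conj_s (h t : ℝ) (d : ℂ) :
    fv h (-t) ((starRingEnd ℂ) d) = (starRingEnd ℂ) (fv h t d) := by
  apply Complex.ext
  · simp [wd, cp_conj]
  · simp [cp_conj_tan]

lemma sup_conj {A : Set ℂ} {θ : ℝ} {x : ℂ} (h : Sup A θ x) :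
    Sup ((starRingEnd ℂ) '' A) (-θ) ((starRingEnd ℂ) x) := by
  refine ⟨⟨x, h.1, rfl⟩, ?_⟩
  rintro _ ⟨y, hy, rfl⟩
  simpa [cp_conj] using h.2 y hy

lemma sup_of_conj {A : Set ℂ} {θ : ℝ} {x : ℂ} (h : Sup ((starRingEnd ℂ) '' A) θ x) :
    ∃ y, Sup A (-θ) y ∧ x = (starRingEnd ℂ) y := by
  obtain ⟨⟨y, hy, rfl⟩, h2⟩ := h
  refine ⟨y, ⟨hy, fun w hw => ?_⟩, rfl⟩
  simpa [cp_conj] using h2 _ ⟨w, hw, rfl⟩

lemma swap_R (h ψ t : ℝ) (a b : ℂ) :
    nn (-ψ) * fv h t (b - a) = (starRingEnd ℂ) (nn ψ * fv h t (a - b)) := by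
  rw [map_mul, conj_nn, ← fv_neg_s, neg_sub]

lemma refl_R (h ψ t : ℝ) (a b : ℂ) :
    nn (-ψ) * fv h (-t) ((starRingEnd ℂ) a - (starRingEnd ℂ) b)
      = (starRingEnd ℂ) (nn ψ * fv h t (a - b)) := by
  rw [map_mul, conj_nn, ← fv_conj_s, map_sub]

lemma refl_R' (h ψ t : ℝ) (a b : ℂ) :
    nn (-ψ) * fv h t ((starRingEnd ℂ) a - (starRingEnd ℂ) b)
      = (starRingEnd ℂ) (nn ψ * fv h (-t) (a - b)) := by
  have := refl_R h ψ (-t) a b
  rwa [neg_neg] at this

namespace Wing

/-- Exchange of the two polygons. -/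
noncomputable def swap (W : Wing) : Wing where
  A := W.B
  B := W.A
  h := W.h
  p := W.p
  q := W.q
  τ := (starRingEnd ℂ) W.τ
  S := fun θ l c z => W.S θ (1 - l) c (JJ W.τ z)
  a0 := W.b0
  b0 := W.a0
  ap := W.bp
  bp := W.ap
  aq := W.bq
  bq := W.aq
  Bp := JJ ((starRingEnd ℂ) W.τ) (W.Bp + nn W.ψp * fv W.h W.p (W.ap - W.bp))
  Bq := JJ ((starRingEnd ℂ) W.τ) (W.Bq + nn W.ψq * fv W.h (-W.q) (W.aq - W.bq))
  ψp := -W.ψp
  ψq := -W.ψq
  φA := W.φB
  φB := W.φA
  μA := W.μB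
  μB := W.μA
  hh := W.hh
  p1 := W.p1
  p2 := W.p2
  q1 := W.q1
  q2 := W.q2
  exA := W.exB
  exB := W.exA
  sa0 := W.sb0
  sb0 := W.sa0
  sap := W.sbp
  sbp := W.sap
  saq := W.sbq
  sbq := W.saq
  fap := W.fbp
  fbp := W.fap
  faq := W.fbq
  fbq := W.faq
  hμA := W.hμB
  hμB := W.hμA
  φA1 := W.φB1
  φA2 := W.φB2
  φA3 := W.φB3
  φB1 := W.φA1
  φB2 := W.φA2
  φB3 := W.φA3
  eB := W.eA
  eA := by rw [Complex.conj_conj]; exact W.eB
  ψp1 := by rw [abs_neg]; exact W.ψp1
  ψq1 := by rw [abs_neg]; exact W.ψq1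
  S_mem := by
    intro θ l c z hS
    obtain ⟨h1, h2, h3, h4, x, y, hx, hy, e⟩ := W.S_mem _ _ _ _ hS
    refine ⟨h1, h2, by linarith, by linarith, y, x, hy, hx, ?_⟩
    rw [e]; push_cast; ring
  dispB := by
    intro θ l c z hS
    have := W.dispA _ _ _ _ hS
    rwa [JJ_JJ', sub_sub_cancel] at this
  dispA := by
    intro θ l c z hS
    rw [Complex.conj_conj]
    exact W.dispB _ _ _ _ hS
  S_ex := by
    intro θ l h1 h2 h3 h4
    obtain ⟨c, z, hS⟩ := W.S_ex θ (1 - l) h1 h2 (by linarith) (by linarith)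
    exact ⟨c, JJ ((starRingEnd ℂ) W.τ) z, by rwa [JJ_JJ]⟩
  S_e := by
    intro l h1 h2
    have := W.S_e (1 - l) (by linarith) (by linarith)
    convert this using 1
    · push_cast; ring
    · apply Complex.ext <;> simp <;> ring
  S_p := by
    intro l h1 h2
    have := W.S_p (1 - l) (by linarith) (by linarith)
    rw [swap_R]
    generalize nn W.ψp * fv W.h W.p (W.ap - W.bp) = R at this ⊢
    convert this using 1
    · push_cast; ring
    · apply Complex.ext <;> simp <;> ring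
  S_q := by
    intro l h1 h2
    have := W.S_q (1 - l) (by linarith) (by linarith)
    rw [swap_R]
    generalize nn W.ψq * fv W.h (-W.q) (W.aq - W.bq) = R at this ⊢
    convert this using 1
    · push_cast; ring
    · apply Complex.ext <;> simp <;> ring
  top := by
    intro θ l c z hS
    have := W.top _ _ _ _ hS
    rw [swap_R]
    generalize nn W.ψp * fv W.h W.p (W.ap - W.bp) = R at this ⊢
    simp at this ⊢
    linarith
  bot := by
    intro θ l c z hS
    have := W.bot _ _ _ _ hS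
    rw [swap_R]
    generalize nn W.ψq * fv W.h (-W.q) (W.aq - W.bq) = R at this ⊢
    simp at this ⊢
    linarith
  mid_pos := by
    intro θ l c z hS h0
    have := W.mid_pos _ _ _ _ hS h0
    simp at this ⊢
    linarith
  mid_neg := by
    intro θ l c z hS h0
    have := W.mid_neg _ _ _ _ hS h0
    simp at this ⊢
    linarith
  key := by
    intro θ₁ l₁ c₁ z₁ θ₂ l₂ c₂ z₂ h1 h2 e hl
    have := W.key _ _ _ _ _ _ _ _ h2 h1 (by simp [e]) (by linarith)
    simp at this
    linarith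
  ivt_pos := by
    intro l y h1 h2 h3 h4
    rw [swap_R] at h4
    obtain ⟨θ, c, z, h5, hS, e⟩ := W.ivt_pos (1 - l) (y + W.τ.im) (by linarith) (by linarith)
      (by simp at h3 ⊢; linarith) (by
        generalize nn W.ψp * fv W.h W.p (W.ap - W.bp) = R at h4 ⊢
        simp at h4 ⊢; linarith)
    exact ⟨θ, c, JJ ((starRingEnd ℂ) W.τ) z, h5, by rwa [JJ_JJ], by simp [e]⟩
  ivt_neg := by
    intro l y h1 h2 h3 h4
    rw [swap_R] at h4
    obtain ⟨θ, c, z, h5, hS, e⟩ := W.ivt_neg (1 - l) (y + W.τ.im) (by linarith) (by linarith)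
      (by simp at h3 ⊢; linarith) (by
        generalize nn W.ψq * fv W.h (-W.q) (W.aq - W.bq) = R at h4 ⊢
        simp at h4 ⊢; linarith)
    exact ⟨θ, c, JJ ((starRingEnd ℂ) W.τ) z, h5, by rwa [JJ_JJ], by simp [e]⟩

/-- Reflection in the real axis. -/
noncomputable def refl (W : Wing) : Wing where
  A := (starRingEnd ℂ) '' W.A
  B := (starRingEnd ℂ) '' W.B
  h := W.h
  p := W.q
  q := W.p
  τ := (starRingEnd ℂ) W.τ
  S := fun θ l c z => W.S (-θ) l ((starRingEnd ℂ) c) ((starRingEnd ℂ) z)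
  a0 := (starRingEnd ℂ) W.a0
  b0 := (starRingEnd ℂ) W.b0
  ap := (starRingEnd ℂ) W.aq
  bp := (starRingEnd ℂ) W.bq
  aq := (starRingEnd ℂ) W.ap
  bq := (starRingEnd ℂ) W.bp
  Bp := (starRingEnd ℂ) W.Bq
  Bq := (starRingEnd ℂ) W.Bp
  ψp := -W.ψq
  ψq := -W.ψp
  φA := -W.φA
  φB := -W.φB
  μA := W.μA
  μB := W.μB
  hh := W.hh
  p1 := W.q1
  p2 := W.q2
  q1 := W.p1
  q2 := W.p2
  exA := fun θ => by
    obtain ⟨x, hx⟩ := W.exA (-θ)
    exact ⟨_, by simpa using sup_conj hx⟩
  exB := fun θ => by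
    obtain ⟨x, hx⟩ := W.exB (-θ)
    exact ⟨_, by simpa using sup_conj hx⟩
  sa0 := by simpa using sup_conj W.sa0
  sb0 := by simpa using sup_conj W.sb0
  sap := by simpa using sup_conj W.saq
  sbp := by simpa using sup_conj W.sbq
  saq := sup_conj W.sap
  sbq := sup_conj W.sbp
  fap := by
    intro x hx
    obtain ⟨y, hy, rfl⟩ := sup_of_conj hx
    have := W.faq y hy
    have e1 := cp_conj_tan (-W.q) y
    have e2 := cp_conj_tan (-W.q) W.aq
    rw [neg_neg] at e1 e2
    linarith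
  fbp := by
    intro x hx
    obtain ⟨y, hy, rfl⟩ := sup_of_conj hx
    have := W.fbq y hy
    have e1 := cp_conj_tan (-W.q) y
    have e2 := cp_conj_tan (-W.q) W.bq
    rw [neg_neg] at e1 e2
    linarith
  faq := by
    intro x hx
    obtain ⟨y, hy, rfl⟩ := sup_of_conj hx
    rw [neg_neg] at hy
    have := W.fap y hy
    rw [cp_conj_tan, cp_conj_tan]
    linarith
  fbq := by
    intro x hx
    obtain ⟨y, hy, rfl⟩ := sup_of_conj hx
    rw [neg_neg] at hy
    have := W.fbp y hy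
    rw [cp_conj_tan, cp_conj_tan]
    linarith
  hμA := W.hμA
  hμB := W.hμB
  φA1 := by linarith [W.φA2]
  φA2 := by linarith [W.φA1]
  φA3 := by rw [abs_neg]; exact W.φA3
  φB1 := by linarith [W.φB2]
  φB2 := by linarith [W.φB1]
  φB3 := by rw [abs_neg]; exact W.φB3
  eB := by
    have := W.eB
    have h1 := congrArg Complex.re this
    have h2 := congrArg Complex.im this
    apply Complex.ext <;> simp at h1 h2 ⊢ <;> linarith
  eA := by
    have := W.eA
    have h1 := congrArg Complex.re this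
    have h2 := congrArg Complex.im this
    apply Complex.ext <;> simp at h1 h2 ⊢ <;> linarith
  ψp1 := by rw [abs_neg]; exact W.ψq1
  ψq1 := by rw [abs_neg]; exact W.ψp1
  S_mem := by
    intro θ l c z hS
    obtain ⟨h1, h2, h3, h4, x, y, hx, hy, e⟩ := W.S_mem _ _ _ _ hS
    refine ⟨by linarith, by linarith, h3, h4, _, _, by simpa using sup_conj hx,
      by simpa using sup_conj hy, ?_⟩
    have := congrArg (starRingEnd ℂ) e
    simpa using this
  dispB := by
    intro θ l c z hS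
    have := (W.dispB _ _ _ _ hS).conj
    rw [← min_neg_neg, ← max_neg_neg, neg_neg, neg_zero] at this
    convert this using 1
    apply Complex.ext <;> simp
  dispA := by
    intro θ l c z hS
    have := (W.dispA _ _ _ _ hS).conj
    rw [← min_neg_neg, ← max_neg_neg, neg_neg, neg_zero] at this
    convert this using 1
    apply Complex.ext <;> simp
    ring
  S_ex := by
    intro θ l h1 h2 h3 h4
    obtain ⟨c, z, hS⟩ := W.S_ex (-θ) l (by linarith) (by linarith) h3 h4
    exact ⟨(starRingEnd ℂ) c, (starRingEnd ℂ) z, by simpa using hS⟩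
  S_e := by
    intro l h1 h2
    have := W.S_e l h1 h2
    rw [neg_zero]
    convert this using 1
    · simp
    · apply Complex.ext
      · simp
      · simp only [Complex.conj_im, Complex.add_im, Complex.im_ofReal_mul, JJ_im]
        ring
  S_p := by
    intro l h1 h2
    have := W.S_q l h1 h2
    rw [refl_R']
    convert this using 1 <;> simp
  S_q := by
    intro l h1 h2
    have := W.S_p l h1 h2
    rw [refl_R, neg_neg]
    convert this using 1 <;> simp
  top := by
    intro θ l c z hS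
    have := W.bot _ _ _ _ hS
    rw [refl_R']
    generalize nn W.ψq * fv W.h (-W.q) (W.aq - W.bq) = R at this ⊢
    simp at this ⊢
    linarith
  bot := by
    intro θ l c z hS
    have := W.top _ _ _ _ hS
    rw [refl_R]
    generalize nn W.ψp * fv W.h W.p (W.ap - W.bp) = R at this ⊢
    simp at this ⊢
    linarith
  mid_pos := by
    intro θ l c z hS h0
    have := W.mid_neg _ _ _ _ hS (by linarith)
    simp at this ⊢
    linarith
  mid_neg := by
    intro θ l c z hS h0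
    have := W.mid_pos _ _ _ _ hS (by linarith)
    simp at this ⊢
    linarith
  key := by
    intro θ₁ l₁ c₁ z₁ θ₂ l₂ c₂ z₂ h1 h2 e hl
    simpa using W.key _ _ _ _ _ _ _ _ h1 h2 (by simp [e]) hl
  ivt_pos := by
    intro l y h1 h2 h3 h4
    rw [refl_R'] at h4
    obtain ⟨θ, c, z, h5, hS, e⟩ := W.ivt_neg l (-y) h1 h2
      (by simp at h3 ⊢; linarith) (by
        generalize nn W.ψq * fv W.h (-W.q) (W.aq - W.bq) = R at h4 ⊢
        simp at h4 ⊢; linarith)
    exact ⟨-θ, (starRingEnd ℂ) c, (starRingEnd ℂ) z, by linarith, by simpa using hS, by simp [e]⟩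
  ivt_neg := by
    intro l y h1 h2 h3 h4
    rw [refl_R] at h4
    obtain ⟨θ, c, z, h5, hS, e⟩ := W.ivt_pos l (-y) h1 h2
      (by simp at h3 ⊢; linarith) (by
        generalize nn W.ψp * fv W.h W.p (W.ap - W.bp) = R at h4 ⊢
        simp at h4 ⊢; linarith)
    exact ⟨-θ, (starRingEnd ℂ) c, (starRingEnd ℂ) z, by linarith, by simpa using hS, by simp [e]⟩

end Wing

end Pool.Agent.P.MP_36f9aa_co
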