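import Pool.Agent.P.MP_36f9aa_co.SepA

set_option autoImplicit false

namespace Pool.Agent.P.MP_36f9aa_co

open Real

lemma cp_of_im {z w : ℂ} (θ : ℝ) (h : z.im = w.im) : cp θ (z - w) = (z.re - w.re) * cos θ := by
  simp [cp, h]

lemma im_frame (p : ℝ) (z : ℂ) : z.im = cp p z * sin p + cp (p + π / 2) z * cos p := by
  rw [cp_tan]; unfold cp
  linear_combination (-z.im) * sin_sq_add_cos_sq p

lemma re_frame (p : ℝ) (z : ℂ) : z.re = cp p z * cos p - cp (p + π / 2) z * sin p := by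
  rw [cp_tan]; unfold cp
  linear_combination (-z.re) * sin_sq_add_cos_sq p

lemma cp_tan_nn (θ t : ℝ) : cp (θ + π / 2) (nn t) = sin (t - θ) := by
  rw [cp_nn, show t - (θ + π / 2) = (t - θ) - π / 2 by ring, cos_sub_pi_div_two]

lemma cone_tan {a b θ : ℝ} {z : ℂ} (h : Cone a b z) (h1 : b ≤ θ) (h2 : θ ≤ a + π) :
    cp (θ + π / 2) z ≤ 0 := by
  have := h (θ + π / 2 - π) (by linarith) (by linarith)
  rw [cp_sub_pi] at this
  linarith

lemma gf_nonpos {h θ : ℝ} {x y z : ℂ} (hh : 0 < h) (hd : 0 ≤ cp (θ + π / 2) (x - y))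
    (H : cp (θ + π / 2) (z - y) ≤ 0 ∨ (cp (θ + π / 2) (z - y) ≤ cp (θ + π / 2) (x - y) ∧
      cp (θ + π / 2) (z - y) * wd h θ (x - y) ≤ cp (θ + π / 2) (x - y) * cp θ (z - y))) :
    gf h θ x y z ≤ 0 := by
  unfold gf
  have w0 := wd_pos hh θ (x - y)
  set m := max 0 (min (cp θ (z - y) / wd h θ (x - y)) 1)
  have m0 : 0 ≤ m := le_max_left _ _
  have m1 : min (cp θ (z - y) / wd h θ (x - y)) 1 ≤ m := le_max_right _ _
  rcases H with H | ⟨H1, H2⟩
  · nlinarith [mul_nonneg hd m0]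
  · have k := mul_le_mul_of_nonneg_left m1 hd
    rcases le_total (cp θ (z - y) / wd h θ (x - y)) 1 with h1 | h1
    · rw [min_eq_left h1, ← mul_div_assoc] at k
      have := (le_div_iff₀ w0).mpr H2
      linarith
    · rw [min_eq_right h1] at k
      linarith

lemma gf_pos {h θ : ℝ} {x y z : ℂ} (hd : 0 ≤ cp (θ + π / 2) (x - y)) (H : 0 < gf h θ x y z) :
    0 < cp (θ + π / 2) (z - y) := by
  unfold gf at H
  have m0 : 0 ≤ max 0 (min (cp θ (z - y) / wd h θ (x - y)) 1) := le_max_left _ _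
  nlinarith [mul_nonneg hd m0]

lemma wd_eq_s {h : ℝ} (hh : 0 < h) (θ : ℝ) (d : ℂ) : wd h θ d = ln h d * cos (chi h θ d) := by
  have := congrArg Complex.re (fv_polar hh θ d)
  simpa using this

lemma tan_eq_s {h : ℝ} (hh : 0 < h) (θ : ℝ) (d : ℂ) :
    cp (θ + π / 2) d = ln h d * sin (chi h θ d) := by
  have := congrArg Complex.im (fv_polar hh θ d)
  simpa using this

lemma chi_nonneg_s {h : ℝ} (hh : 0 < h) {θ : ℝ} {d : ℂ} (hd : 0 ≤ cp (θ + π / 2) d) :
    0 ≤ chi h θ d := by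
  unfold chi
  rw [← arctan_zero]
  exact arctan_mono (div_nonneg hd (wd_pos hh θ d).le)

lemma R_polar {h : ℝ} (hh : 0 < h) (ψ θ : ℝ) (d : ℂ) :
    nn ψ * fv h θ d = (ln h d : ℂ) * nn (ψ + chi h θ d) := by
  rw [fv_polar hh, nn_add]; ring

lemma pos_of_sin_pos {t : ℝ} (h1 : -π < t) (h : 0 < sin t) : 0 < t := by
  by_contra hc
  have := sin_nonpos_of_nonpos_of_neg_pi_le (not_lt.mp hc) h1.le
  linarith

/-- Support points at an angle at most `p` are behind the forward support point. -/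
lemma sup_le {A : Set ℂ} {p θ η : ℝ} {y b : ℂ} (hb : Sup A p b)
    (fb : ∀ y, Sup A p y → cp (p + π / 2) y ≤ cp (p + π / 2) b) (hy : Sup A θ y) (h1 : θ ≤ p)
    (h2 : p ≤ η) (h3 : η ≤ θ + π) (h4 : p < θ + π) : cp η y ≤ cp η b := by
  rcases h1.lt_or_eq with h | h
  · exact chord hy hb h h4 h2 h3
  · subst h
    have e1 : cp θ y = cp θ b := le_antisymm (hb.2 y hy.1) (hy.2 b hb.1)
    have e2 := fb y hy
    have r1 := cp_rot θ (η - θ) y
    have r2 := cp_rot θ (η - θ) b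
    rw [add_sub_cancel] at r1 r2
    have s0 : 0 ≤ sin (η - θ) := sin_nonneg_of_nonneg_of_le_pi (by linarith) (by linarith)
    rw [r1, r2, e1]
    nlinarith [mul_le_mul_of_nonneg_left e2 s0]

namespace Wing

variable (W : Wing)

lemma p0 : 0 < W.p := by linarith [W.p1, pi_pos]
lemma q0 : 0 < W.q := by linarith [W.q1, pi_pos]
lemma cos_p : 0 ≤ cos W.p :=
  cos_nonneg_of_neg_pi_div_two_le_of_le (by linarith [W.p0, pi_pos]) W.p2
lemma sin_p : 0 < sin W.p := sin_pos_of_pos_of_lt_pi W.p0 (by linarith [W.p2, pi_pos])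

lemma re_A {x : ℂ} (hx : x ∈ W.A) : 2 * x.re < W.τ.re := by
  have h1 := congrArg Complex.re W.eB
  have h2 := W.sa0.2 x hx
  rw [cp_zero_left, cp_zero_left] at h2
  have h3 : 0 < cos W.φB := cos_pos_of_mem_Ioo ⟨(abs_lt.1 W.φB3).1, (abs_lt.1 W.φB3).2⟩
  simp at h1
  nlinarith [mul_pos W.hμB h3]

lemma re_B {y : ℂ} (hy : y ∈ W.B) : 2 * y.re < W.τ.re := by
  simpa [swap] using W.swap.re_A hy

lemma coneP : Cone 0 W.p (W.Bp - W.bp) := by
  have := W.dispB _ _ _ _ (W.S_p 0 le_rfl zero_le_one)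
  rw [min_eq_right W.p0.le, max_eq_left W.p0.le] at this
  simpa using this

/-- Decomposition of a point lying to the right of a strip point above `Bp`. -/
lemma above {θ l : ℝ} {c ζ z : ℂ} (hS : W.S θ l c ζ) (e : z.im = ζ.im) (hr : ζ.re ≤ z.re)
    (hz : W.Bp.im < z.im) :
    ∃ l' s t : ℝ, 0 < l' ∧ l' ≤ 1 ∧ 0 ≤ s ∧ 0 < t ∧ t ≤ W.p + chi W.h W.p (W.ap - W.bp) ∧
      ∀ η, cp η (z - W.bp)
        = cp η (W.Bp - W.bp) + l' * ln W.h (W.ap - W.bp) * cos (t - η) + s * cos η := by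
  have ht := W.top _ _ _ _ hS
  obtain ⟨-, -, l0, l1, -⟩ := W.S_mem _ _ _ _ hS
  have hR := R_polar W.hh W.ψp W.p (W.ap - W.bp)
  set R := nn W.ψp * fv W.h W.p (W.ap - W.bp)
  simp only [Complex.add_im, Complex.im_ofReal_mul] at ht
  have hRim : 0 < R.im := by
    by_contra hc
    nlinarith [mul_nonneg l0 (neg_nonneg.mpr (not_lt.mp hc))]
  set l' := (z.im - W.Bp.im) / R.im with hl'
  have h0 : 0 < l' := div_pos (by linarith) hRim
  have h1 : l' ≤ l := by rw [hl', div_le_iff₀ hRim]; linarith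
  have him : (W.Bp + (l' : ℂ) * R).im = z.im := by
    simp only [Complex.add_im, Complex.im_ofReal_mul, hl']
    field_simp; ring
  have hk := W.key _ _ _ _ _ _ _ _ (W.S_p l' h0.le (by linarith)) hS (him.trans e) h1
  have hψ := abs_le.1 W.ψp1
  refine ⟨l', z.re - (W.Bp + (l' : ℂ) * R).re, W.ψp + chi W.h W.p (W.ap - W.bp), h0, by linarith,
    by linarith, ?_, by linarith, fun η => ?_⟩
  · apply pos_of_sin_pos (by linarith [W.p2, lt_chi W.h W.p (W.ap - W.bp)])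
    rw [hR] at hRim
    simp only [Complex.im_ofReal_mul, nn_im] at hRim
    exact pos_of_mul_pos_left' hRim
  · have e1 : z - W.bp = (W.Bp - W.bp) + (l' : ℂ) * R + (z - (W.Bp + (l' : ℂ) * R)) := by ring
    rw [e1, cp_add, cp_add, cp_of_im η him.symm, cp_mul, hR, cp_mul, cp_nn]
    ring
where
  pos_of_mul_pos_left' {t : ℝ} (h : 0 < ln W.h (W.ap - W.bp) * t) : 0 < t :=
    (mul_pos_iff_of_pos_left (ln_pos W.hh _)).mp h

/-- Decomposition of a point at a height between `b0` and `Bp`. -/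
lemma mid {θ l : ℝ} {c ζ z : ℂ} (hS : W.S θ l c ζ) (e : z.im = ζ.im) (hr : ζ.re ≤ z.re)
    (h1 : W.b0.im ≤ z.im) (h2 : z.im ≤ W.Bp.im) :
    ∃ (θ' s : ℝ) (y w : ℂ), 0 ≤ θ' ∧ θ' ≤ W.p ∧ Sup W.B θ' y ∧ 0 ≤ s ∧ Cone 0 θ' w ∧
      ∀ η, cp η z = cp η y + cp η w + s * cos η := by
  obtain ⟨θ', c', ζ', h0, hS', e'⟩ := W.ivt_pos 0 z.im le_rfl zero_le_one (by simpa using h1)
    (by simpa using h2)
  obtain ⟨-, -, l0, -⟩ := W.S_mem _ _ _ _ hS
  have hk := W.key _ _ _ _ _ _ _ _ hS' hS (e'.trans e) l0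
  obtain ⟨-, hp, -, -, x, y, -, hy, hc⟩ := W.S_mem _ _ _ _ hS'
  have hc' : c' = y := by simpa using hc
  have hC := W.dispB _ _ _ _ hS'
  rw [min_eq_right h0, max_eq_left h0, hc'] at hC
  refine ⟨θ', z.re - ζ'.re, y, ζ' - y, h0, hp, hy, by linarith, by simpa using hC, fun η => ?_⟩
  rw [← cp_of_im η e'.symm, cp_sub, cp_sub]
  ring

lemma top_out' {θ l : ℝ} {c z : ℂ} (hS : W.S θ l c z) (hz : W.Bp.im < z.im) :
    0 < cp W.p (z - W.bp) := by
  obtain ⟨l', s, t, h1, h2, h3, h4, h5, e⟩ := W.above hS rfl le_rfl hz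
  rw [e]
  have a1 := W.coneP W.p (by linarith [pi_pos]) (by linarith [W.p2])
  have a2 : 0 < cos (t - W.p) :=
    cos_pos_of_mem_Ioo ⟨by linarith [W.p2], by linarith [chi_lt W.h W.p (W.ap - W.bp)]⟩
  have a3 := mul_pos (mul_pos h1 (ln_pos W.hh (W.ap - W.bp))) a2
  have a4 := mul_nonneg h3 W.cos_p
  linarith

lemma im_b0_le : W.b0.im ≤ W.bp.im := by
  have := chord W.sb0 W.sbp W.p0 (by linarith [W.p2, pi_pos]) W.p2 (by linarith [pi_pos])
  rwa [cp_pi_div_two, cp_pi_div_two] at this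

/-- Statement (b). -/
lemma gf_strip (hp : 0 ≤ cp (W.p + π / 2) (W.ap - W.bp)) {θ l : ℝ} {c ζ z : ℂ}
    (hS : W.S θ l c ζ) (e : z.im = ζ.im) (hr : ζ.re ≤ z.re) (hv : 0 ≤ cp W.p (z - W.bp)) :
    gf W.h W.p W.ap W.bp z ≤ 0 := by
  apply gf_nonpos W.hh hp
  have hcp : cos (W.p + π / 2) ≤ 0 := by rw [cos_add_pi_div_two]; linarith [W.sin_p]
  rcases lt_or_ge z.im W.bp.im with h1 | h1
  · left
    have := im_frame W.p (z - W.bp)
    rw [Complex.sub_im] at this
    by_contra hc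
    nlinarith [mul_nonneg hv W.sin_p.le, mul_nonneg (not_le.mp hc).le W.cos_p]
  rcases le_or_gt z.im W.Bp.im with h2 | h2
  · left
    obtain ⟨θ', s, y, w, a1, a2, a3, a4, a5, a6⟩ := W.mid hS e hr (W.im_b0_le.trans h1) h2
    rw [cp_sub, a6]
    have b1 := cone_tan a5 a2 (by linarith [W.p2, pi_pos])
    have b2 := sup_le (η := W.p + π / 2) W.sbp W.fbp a3 a2 (by linarith [pi_pos])
      (by linarith [W.p2]) (by linarith [W.p2, pi_pos])
    nlinarith [mul_nonneg a4 (neg_nonneg.mpr hcp)]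
  · obtain ⟨l', s, t, a1, a2, a3, a4, a5, a6⟩ := W.above hS e hr h2
    have L := ln_pos W.hh (W.ap - W.bp)
    have hu : cp (W.p + π / 2) (z - W.bp) ≤ l' * ln W.h (W.ap - W.bp) * sin (t - W.p) := by
      rw [a6, show t - (W.p + π / 2) = (t - W.p) - π / 2 by ring, cos_sub_pi_div_two]
      have b1 := cone_tan W.coneP le_rfl (by linarith [W.p2, pi_pos])
      nlinarith [mul_nonneg a3 (neg_nonneg.mpr hcp)]
    have hv' : l' * ln W.h (W.ap - W.bp) * cos (t - W.p) ≤ cp W.p (z - W.bp) := by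
      rw [a6]
      have b1 := W.coneP W.p (by linarith [pi_pos]) (by linarith [W.p2])
      nlinarith [mul_nonneg a3 W.cos_p]
    have hl := mul_pos a1 L
    rcases le_or_gt t W.p with h3 | h3
    · left
      have := sin_nonpos_of_nonpos_of_neg_pi_le (x := t - W.p) (by linarith)
        (by linarith [W.p2, pi_pos])
      nlinarith
    · right
      have hχ := chi_lt W.h W.p (W.ap - W.bp)
      rw [wd_eq_s W.hh, tan_eq_s W.hh W.p (W.ap - W.bp)]
      set χ := chi W.h W.p (W.ap - W.bp)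
      set Ln := ln W.h (W.ap - W.bp)
      have s1 : sin (t - W.p) ≤ sin χ :=
        sin_le_sin_of_le_of_le_pi_div_two (by linarith [pi_pos]) hχ.le (by linarith)
      have s2 : 0 ≤ sin χ := sin_nonneg_of_nonneg_of_le_pi (by linarith) (by linarith [pi_pos])
      have s3 : 0 ≤ cos χ := cos_nonneg_of_neg_pi_div_two_le_of_le (by linarith [pi_pos]) hχ.le
      have s4 : 0 ≤ sin (χ - (t - W.p)) :=
        sin_nonneg_of_nonneg_of_le_pi (by linarith) (by linarith [pi_pos])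
      rw [sin_sub χ] at s4
      constructor
      · have k1 := mul_le_mul_of_nonneg_left s1 hl.le
        have k2 := mul_le_mul_of_nonneg_right a2 (mul_nonneg L.le s2)
        nlinarith
      · have k1 := mul_le_mul_of_nonneg_right hu (mul_nonneg L.le s3)
        have k2 := mul_le_mul_of_nonneg_left hv' (mul_nonneg L.le s2)
        have k3 := mul_nonneg (mul_nonneg hl.le L.le) s4
        nlinarith

/-- Statement (RL). -/
lemma right_line (hp : 0 ≤ cp (W.p + π / 2) (W.ap - W.bp))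
    (hρ : W.p + chi W.h W.p (W.ap - W.bp) < π / 2) {θ l : ℝ} {c z : ℂ} (hS : W.S θ l c z)
    (h0 : 0 < θ) : cp (W.p + chi W.h W.p (W.ap - W.bp) + π / 2) (z - W.bp) ≤ 0 := by
  have hχ := chi_nonneg_s W.hh hp
  set ρ := W.p + chi W.h W.p (W.ap - W.bp) with hρdef
  have hρp : W.p ≤ ρ := by linarith
  have sρ : 0 ≤ sin ρ := sin_nonneg_of_nonneg_of_le_pi (by linarith [W.p0]) (by linarith [pi_pos])
  have cρ : 0 ≤ cos ρ := cos_nonneg_of_neg_pi_div_two_le_of_le (by linarith [W.p0, pi_pos]) hρ.le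
  have hcp : cos (ρ + π / 2) ≤ 0 := by rw [cos_add_pi_div_two]; linarith
  rcases lt_or_ge z.im W.b0.im with h1 | h1
  · have hm := W.mid_pos _ _ _ _ hS h0
    obtain ⟨-, -, l0, l1, -⟩ := W.S_mem _ _ _ _ hS
    simp only [Complex.add_im, Complex.im_ofReal_mul] at hm
    set r := JJ W.τ W.a0 - W.b0 with hr
    have hr1 : (JJ W.τ W.a0).im = r.im + W.b0.im := by simp [hr]
    have hr2 : 0 < r.re := by
      have := W.re_A W.sa0.1
      have := W.re_B W.sb0.1
      simp [hr]; linarith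
    rw [hr1] at hm
    have hr3 : r.im < 0 := by
      by_contra hc
      nlinarith [mul_nonneg l0 (not_lt.mp hc)]
    set l' := (z.im - W.b0.im) / r.im with hl'
    have k0 : 0 < l' := div_pos_of_neg_of_neg (by linarith) hr3
    have k1 : l' ≤ l := by rw [hl', div_le_iff_of_neg hr3]; linarith
    have e1 : ((1 - l' : ℝ) : ℂ) * W.b0 + (l' : ℂ) * JJ W.τ W.a0 = W.b0 + (l' : ℂ) * r := by
      rw [hr]; push_cast; ring
    have him : (W.b0 + (l' : ℂ) * r).im = z.im := by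
      simp only [Complex.add_im, Complex.im_ofReal_mul, hl']
      field_simp [hr3.ne]; ring
    have hS' := W.S_e l' k0.le (by linarith)
    rw [e1] at hS'
    have hk := W.key _ _ _ _ _ _ _ _ hS' hS him k1
    have e2 : z - W.bp = (W.b0 - W.bp) + (l' : ℂ) * r + (z - (W.b0 + (l' : ℂ) * r)) := by ring
    rw [e2, cp_add, cp_add, cp_of_im _ him.symm, cp_mul, cp_sub, cp_tan ρ r]
    have b1 := chord (η := ρ + π / 2) W.sb0 W.sbp W.p0 (by linarith [W.p2, pi_pos])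
      (by linarith [pi_pos]) (by linarith)
    have b2 : -r.re * sin ρ + r.im * cos ρ ≤ 0 := by
      nlinarith [mul_nonneg hr2.le sρ, mul_nonneg (neg_nonneg.mpr hr3.le) cρ]
    nlinarith [mul_nonneg (sub_nonneg.mpr hk) (neg_nonneg.mpr hcp),
      mul_nonneg k0.le (neg_nonneg.mpr b2)]
  rcases le_or_gt z.im W.Bp.im with h2 | h2
  · obtain ⟨θ', s, y, w, a1, a2, a3, a4, a5, a6⟩ := W.mid hS rfl le_rfl h1 h2
    rw [cp_sub, a6]
    have b1 := cone_tan (θ := ρ) a5 (by linarith) (by linarith [pi_pos])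
    have b2 := sup_le (η := ρ + π / 2) W.sbp W.fbp a3 a2 (by linarith [pi_pos])
      (by linarith) (by linarith [W.p2, pi_pos])
    nlinarith [mul_nonneg a4 (neg_nonneg.mpr hcp)]
  · obtain ⟨l', s, t, a1, a2, a3, a4, a5, a6⟩ := W.above hS rfl le_rfl h2
    rw [a6, show t - (ρ + π / 2) = (t - ρ) - π / 2 by ring, cos_sub_pi_div_two]
    have b1 := cone_tan (θ := ρ) W.coneP hρp (by linarith [pi_pos])
    have b2 := sin_nonpos_of_nonpos_of_neg_pi_le (x := t - ρ) (by linarith)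
      (by linarith [pi_pos])
    have hl := mul_pos a1 (ln_pos W.hh (W.ap - W.bp))
    nlinarith [mul_nonneg a3 (neg_nonneg.mpr hcp), mul_nonneg hl.le (neg_nonneg.mpr b2)]

end Wing

end Pool.Agent.P.MP_36f9aa_co
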