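import Pool.Agent.P.MP_36f9aa_co.SepB

set_option autoImplicit false

namespace Pool.Agent.P.MP_36f9aa_co

open Real

lemma cp_comb (η l : ℝ) (x y : ℂ) :
    cp η (((1 - l : ℝ) : ℂ) * y + (l : ℂ) * x) = (1 - l) * cp η y + l * cp η x := by
  rw [cp_add, cp_mul, cp_mul]

lemma comb_le {A B : Set ℂ} {η l : ℝ} {x y x' y' : ℂ} (l0 : 0 ≤ l) (l1 : l ≤ 1) (hx : x ∈ A)
    (hy : y ∈ B) (hx' : Sup A η x') (hy' : Sup B η y') :
    cp η (((1 - l : ℝ) : ℂ) * y + (l : ℂ) * x) ≤ cp η (((1 - l : ℝ) : ℂ) * y' + (l : ℂ) * x') := by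
  rw [cp_comb, cp_comb]
  nlinarith [mul_le_mul_of_nonneg_left (hx'.2 x hx) l0,
    mul_le_mul_of_nonneg_left (hy'.2 y hy) (sub_nonneg.mpr l1)]

namespace Wing

variable (W : Wing)

lemma J_a (η : ℝ) {x : ℂ} (hx : x ∈ W.A) :
    ∃ s : ℝ, 0 ≤ s ∧ cp η (JJ W.τ x) = cp η x + W.μB * cos (W.φB - η) + s * cos η := by
  have h2 := W.sa0.2 x hx
  rw [cp_zero_left, cp_zero_left] at h2
  refine ⟨2 * (W.a0.re - x.re), by linarith, ?_⟩
  have h1 := congrArg Complex.re W.eB
  have h3 := congrArg Complex.im W.eB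
  simp at h1 h3
  rw [← cp_nn]
  simp only [cp, JJ_re, JJ_im, nn_re, nn_im]
  linear_combination cos η * h1 + sin η * h3

lemma J_b (η : ℝ) {y : ℂ} (hy : y ∈ W.B) :
    ∃ s : ℝ, 0 ≤ s ∧ cp η (JJ W.τ y) = cp η y + W.μA * cos (-W.φA - η) + s * cos η := by
  have h2 := W.sb0.2 y hy
  rw [cp_zero_left, cp_zero_left] at h2
  refine ⟨2 * (W.b0.re - y.re), by linarith, ?_⟩
  have h1 := congrArg Complex.re W.eA
  have h3 := congrArg Complex.im W.eA
  simp at h1 h3
  rw [← cp_nn]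
  simp only [cp, JJ_re, JJ_im, nn_re, nn_im, cos_neg, sin_neg]
  linear_combination cos η * h1 - sin η * h3

lemma J_comb (η l : ℝ) (x y : ℂ) :
    cp η (JJ W.τ (((1 - l : ℝ) : ℂ) * y + (l : ℂ) * x))
      = (1 - l) * cp η (JJ W.τ y) + l * cp η (JJ W.τ x) := by
  rw [cp_JJ, cp_JJ, cp_JJ, cp_comb]; ring

/-- Statement (bJ). -/
lemma gf_mirror (hp : 0 ≤ cp (W.p + π / 2) (W.ap - W.bp)) {l μ g : ℝ} {x y z : ℂ} (l0 : 0 ≤ l)
    (l1 : l ≤ 1) (hl : l = 1 ∨ -W.φA ≤ W.p) (hx : x ∈ W.A) (hy : y ∈ W.B) (hμ : 0 ≤ μ)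
    (g1 : π - W.p ≤ g) (g2 : g ≤ 3 * π / 2)
    (hz : z = JJ W.τ (((1 - l : ℝ) : ℂ) * y + (l : ℂ) * x) + (μ : ℂ) * nn (π - g))
    (hv : 0 ≤ cp W.p (z - W.bp)) : gf W.h W.p W.ap W.bp z ≤ 0 := by
  apply gf_nonpos W.hh hp
  have hcp : cos (W.p + π / 2) ≤ 0 := by rw [cos_add_pi_div_two]; linarith [W.sin_p]
  have hφA := abs_lt.1 W.φA3
  have hφB := abs_lt.1 W.φB3
  have p1 := W.p1
  have p2 := W.p2
  have hsin : ∀ θ, W.p ≤ θ → θ ≤ π / 2 → cp (θ + π / 2) (nn (π - g)) ≤ 0 := by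
    intro θ h1 h2
    rw [cp_tan_nn, show π - g - θ = (3 * π - g - θ) - 2 * π by ring, sin_sub_two_pi,
      show 3 * π - g - θ = (2 * π - g - θ) + π by ring, sin_add_pi]
    have := sin_nonneg_of_nonneg_of_le_pi (x := 2 * π - g - θ) (by linarith) (by linarith)
    linarith
  have step1 : cp (W.p + π / 2) (z - W.bp) ≤ cp (W.p + π / 2) (W.ap - W.bp) := by
    obtain ⟨x', hx'⟩ := W.exA (π / 2 - W.p)
    obtain ⟨y', hy'⟩ := W.exB (π / 2 - W.p)
    have a1 := comb_le l0 l1 hx hy hx' hy'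
    have a2 : cp (W.p + π / 2) (JJ W.τ (((1 - l : ℝ) : ℂ) * y + (l : ℂ) * x))
        ≤ cp (W.p + π / 2) (JJ W.τ (((1 - l : ℝ) : ℂ) * y' + (l : ℂ) * x')) := by
      rw [cp_JJ, cp_JJ, show π - (W.p + π / 2) = π / 2 - W.p by ring]
      linarith
    rw [W.J_comb _ l x' y'] at a2
    obtain ⟨s1, b1, c1⟩ := W.J_a (W.p + π / 2) hx'.1
    obtain ⟨s2, b2, c2⟩ := W.J_b (W.p + π / 2) hy'.1
    rw [← cp_nn, cp_tan_nn] at c1 c2
    have d1 := sin_nonpos_of_nonpos_of_neg_pi_le (x := W.φB - W.p) (by linarith [W.φB2])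
      (by linarith)
    have e1 : cp (W.p + π / 2) (JJ W.τ x') ≤ cp (W.p + π / 2) x' := by
      nlinarith [mul_nonneg b1 (neg_nonneg.mpr hcp), mul_nonneg W.hμB.le (neg_nonneg.mpr d1)]
    have e2 : (1 - l) * cp (W.p + π / 2) (JJ W.τ y') ≤ (1 - l) * cp (W.p + π / 2) y' := by
      rcases hl with hl | hl
      · simp [hl]
      · apply mul_le_mul_of_nonneg_left _ (sub_nonneg.mpr l1)
        have d2 := sin_nonpos_of_nonpos_of_neg_pi_le (x := -W.φA - W.p) (by linarith)
          (by linarith)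
        nlinarith [mul_nonneg b2 (neg_nonneg.mpr hcp), mul_nonneg W.hμA.le (neg_nonneg.mpr d2)]
    have f1 := sup_le (η := W.p + π / 2) W.sap W.fap hx' (by linarith) (by linarith [pi_pos])
      (by linarith) (by linarith [pi_pos])
    have f2 := sup_le (η := W.p + π / 2) W.sbp W.fbp hy' (by linarith) (by linarith [pi_pos])
      (by linarith) (by linarith [pi_pos])
    rw [cp_sub] at hp
    rw [hz, cp_sub, cp_sub, cp_add, cp_mul]
    have k1 := mul_le_mul_of_nonneg_left (e1.trans f1) l0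
    have k2 := mul_le_mul_of_nonneg_left f2 (sub_nonneg.mpr l1)
    have k3 := mul_nonneg hμ (neg_nonneg.mpr (hsin W.p le_rfl p2))
    have k4 := mul_nonneg (sub_nonneg.mpr l1) hp
    nlinarith
  by_contra hc
  rw [not_or, not_and, not_le] at hc
  obtain ⟨hu, hc⟩ := hc
  have hw := not_le.mp (hc step1)
  have hχ0 := chi_nonneg_s W.hh hp
  have hχ1 := chi_lt W.h W.p (W.ap - W.bp)
  have L := ln_pos W.hh (W.ap - W.bp)
  have w0 := wd_pos W.hh W.p (W.ap - W.bp)
  have ew := wd_eq_s W.hh W.p (W.ap - W.bp)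
  have ed := tan_eq_s W.hh W.p (W.ap - W.bp)
  rcases le_or_gt (π / 2) (W.p + chi W.h W.p (W.ap - W.bp)) with hρ | hρ
  · have a1 := cos_nonpos_of_pi_div_two_le_of_le hρ (by linarith [pi_pos])
    rw [cos_add] at a1
    have a2 : wd W.h W.p (W.ap - W.bp) * cos W.p ≤ cp (W.p + π / 2) (W.ap - W.bp) * sin W.p := by
      rw [ew, ed]
      nlinarith [mul_nonneg L.le (neg_nonneg.mpr a1)]
    have a3 := re_frame W.p (z - W.bp)
    have a4 : (z - W.bp).re ≤ 0 := by
      have k1 := mul_le_mul_of_nonneg_left a2 hv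
      have k2 := mul_le_mul_of_nonneg_right hw.le W.sin_p.le
      have k3 : wd W.h W.p (W.ap - W.bp) * (z - W.bp).re ≤ 0 := by rw [a3]; nlinarith
      by_contra hc'
      nlinarith [mul_pos w0 (not_le.mp hc')]
    have a5 : 0 ≤ cos (π - g) := cos_nonneg_of_neg_pi_div_two_le_of_le (by linarith) (by linarith)
    have a6 := W.re_A hx
    have a7 := W.re_B hy
    have a8 := W.re_B W.sbp.1
    rw [hz] at a4
    simp only [Complex.sub_re, Complex.add_re, JJ_re, Complex.re_ofReal_mul, nn_re] at a4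
    nlinarith [mul_nonneg hμ a5, mul_nonneg l0 (sub_nonneg.mpr a6.le),
      mul_nonneg (sub_nonneg.mpr l1) (sub_nonneg.mpr a7.le)]
  · have hRL := fun θ l c z => W.right_line hp hρ (θ := θ) (l := l) (c := c) (z := z)
    set χ := chi W.h W.p (W.ap - W.bp)
    obtain ⟨cL, zL, hS⟩ := W.S_ex (π / 2 - (W.p + χ)) l (by linarith [W.q0]) (by linarith) l0 l1
    have a1 := hRL _ _ _ _ hS (by linarith)
    obtain ⟨-, -, -, -, xL, yL, hxL, hyL, hcL⟩ := W.S_mem _ _ _ _ hS
    have a2 := comb_le l0 l1 hx hy hxL hyL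
    rw [← hcL] at a2
    have a3 := W.dispA _ _ _ _ hS
    rw [min_eq_right (by linarith), max_eq_left (by linarith)] at a3
    have a4 := a3 (π / 2 - (W.p + χ)) (by linarith [pi_pos]) (by linarith)
    rw [cp_sub, cp_sub, cp_mul, cp_nn] at a4
    have a5 : 0 ≤ (1 - l) * W.μA * cos (W.φA - (π / 2 - (W.p + χ))) := by
      rcases hl with hl | hl
      · simp [hl]
      · exact mul_nonneg (mul_nonneg (sub_nonneg.mpr l1) W.hμA.le)
          (cos_nonneg_of_neg_pi_div_two_le_of_le (by linarith) (by linarith))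
    have a6 := cp_JJ (W.p + χ + π / 2) W.τ (JJ ((starRingEnd ℂ) W.τ) zL)
    rw [JJ_JJ, show π - (W.p + χ + π / 2) = π / 2 - (W.p + χ) by ring] at a6
    have a7 := cp_JJ (W.p + χ + π / 2) W.τ (((1 - l : ℝ) : ℂ) * y + (l : ℂ) * x)
    rw [show π - (W.p + χ + π / 2) = π / 2 - (W.p + χ) by ring] at a7
    have a8 := mul_nonneg hμ (neg_nonneg.mpr (hsin (W.p + χ) (by linarith) hρ.le))
    have a9 : cp (W.p + χ + π / 2) (z - W.bp) ≤ 0 := by
      rw [cp_sub] at a1
      rw [hz, cp_sub, cp_add, cp_mul]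
      linarith
    have a10 := cp_rot (W.p + π / 2) χ (z - W.bp)
    rw [show W.p + π / 2 + χ = W.p + χ + π / 2 by ring, show W.p + π / 2 + π / 2 = W.p + π by ring,
      cp_add_pi] at a10
    rw [ew, ed] at hw
    nlinarith [mul_nonneg L.le (neg_nonneg.mpr a9)]

lemma bot_out' {θ l : ℝ} {c z : ℂ} (hS : W.S θ l c z) (hz : z.im < W.Bq.im) :
    0 < cp (-W.q) (z - W.bq) := by
  have := W.refl.top_out' (θ := -θ) (l := l) (c := (starRingEnd ℂ) c) (z := (starRingEnd ℂ) z)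
    (by simpa [refl] using hS) (by simpa [refl] using hz)
  simp only [refl] at this
  rwa [← map_sub, cp_conj] at this

/-- Statement (a), with the extra information used when both ends overhang forwards. -/
lemma outer {z : ℂ} (hz : (∃ θ l c, W.S θ l c z) ∨ ∃ x ∈ W.A, z = JJ W.τ x) :
    ∃ φ y, -W.q ≤ φ ∧ φ ≤ W.p ∧ Sup W.B φ y ∧ 0 ≤ cp φ (z - y) ∧
      (0 ≤ cp (-W.q + π / 2) (W.aq - W.bq) →
        π / 2 - W.q ≤ φ ∨ 0 ≤ cp (-W.q + π / 2) (z - W.bq)) := by
  have p1 := W.p1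
  have p2 := W.p2
  have q1 := W.q1
  have q2 := W.q2
  have cβ : 0 ≤ cos (-W.q + π / 2) :=
    cos_nonneg_of_neg_pi_div_two_le_of_le (by linarith [pi_pos]) (by linarith [pi_pos])
  have back : ∀ {A : Set ℂ} {b y : ℂ} {θ : ℝ}, Sup A (-W.q) b →
      (∀ y, Sup A (-W.q) y → cp (-W.q + π / 2) b ≤ cp (-W.q + π / 2) y) → Sup A θ y →
      -W.q ≤ θ → θ ≤ π / 2 - W.q → cp (-W.q + π / 2) b ≤ cp (-W.q + π / 2) y := by
    intro A b y θ hb fb hy h1 h2
    rcases h1.lt_or_eq with h | h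
    · exact chord hb hy h (by linarith [pi_pos]) (by linarith) (by linarith [pi_pos])
    · exact fb y (h ▸ hy)
  rcases hz with ⟨θ, l, c, hS⟩ | ⟨x, hx, rfl⟩
  · rcases lt_or_ge W.Bp.im z.im with h1 | h1
    · exact ⟨W.p, W.bp, by linarith [pi_pos], le_rfl, W.sbp, (W.top_out' hS h1).le,
        fun _ => Or.inl (by linarith)⟩
    rcases lt_or_ge z.im W.Bq.im with h2 | h2
    · refine ⟨-W.q, W.bq, le_rfl, by linarith [pi_pos], W.sbq, (W.bot_out' hS h2).le,
        fun hq => Or.inr ?_⟩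
      obtain ⟨l', s, t, a1, a2, a3, a4, a5, a6⟩ := W.refl.above (θ := -θ) (l := l)
        (c := (starRingEnd ℂ) c) (ζ := (starRingEnd ℂ) z) (z := (starRingEnd ℂ) z)
        (by simpa [refl] using hS) rfl le_rfl (by simpa [refl] using h2)
      have e := a6 (W.q - π / 2)
      have hC := W.refl.coneP (W.q - π / 2) (by simp [refl]) (by linarith)
      simp only [refl] at e a5 hC
      have hχ : chi W.h W.q ((starRingEnd ℂ) W.aq - (starRingEnd ℂ) W.bq) ≤ 0 := by
        have := chi_nonneg_s (θ := W.q) (d := -((starRingEnd ℂ) W.aq - (starRingEnd ℂ) W.bq)) W.hh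
          (by
            have e1 := cp_conj_tan (-W.q) (W.aq - W.bq)
            rw [neg_neg, map_sub] at e1
            rw [cp_neg]; linarith)
        rw [chi_neg] at this
        linarith
      rw [← map_sub (starRingEnd ℂ) z, cp_conj, show -(W.q - π / 2) = -W.q + π / 2 by ring] at e
      rw [e]
      have b1 : 0 ≤ cos (t - (W.q - π / 2)) :=
        cos_nonneg_of_neg_pi_div_two_le_of_le (by linarith [pi_pos]) (by linarith)
      have b2 : 0 ≤ cos (W.q - π / 2) :=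
        cos_nonneg_of_neg_pi_div_two_le_of_le (by linarith [pi_pos]) (by linarith [pi_pos])
      have b3 := mul_nonneg (mul_pos a1 (ln_pos W.hh
        ((starRingEnd ℂ) W.aq - (starRingEnd ℂ) W.bq))).le b1
      have b4 := mul_nonneg a3 b2
      linarith
    · obtain ⟨-, -, l0, -⟩ := W.S_mem _ _ _ _ hS
      have : ∃ θ' c' ζ, W.S θ' 0 c' ζ ∧ ζ.im = z.im := by
        rcases le_total W.b0.im z.im with h3 | h3
        · obtain ⟨θ', c', ζ, -, h4, h5⟩ := W.ivt_pos 0 z.im le_rfl zero_le_one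
            (by simpa using h3) (by simpa using h1)
          exact ⟨θ', c', ζ, h4, h5⟩
        · obtain ⟨θ', c', ζ, -, h4, h5⟩ := W.ivt_neg 0 z.im le_rfl zero_le_one
            (by simpa using h3) (by simpa using h2)
          exact ⟨θ', c', ζ, h4, h5⟩
      obtain ⟨θ', c', ζ, hS', e'⟩ := this
      have hk := W.key _ _ _ _ _ _ _ _ hS' hS e' l0
      obtain ⟨t1, t2, -, -, x, y, -, hy, hc⟩ := W.S_mem _ _ _ _ hS'
      have hc' : c' = y := by simpa using hc
      have hC : Cone (min θ' 0) (max θ' 0) (ζ - y) := by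
        have := W.dispB _ _ _ _ hS'
        rw [hc'] at this
        simpa using this
      have m1 : -W.q ≤ min θ' 0 := le_min t1 (by linarith [pi_pos])
      have m2 : max θ' 0 ≤ W.p := max_le t2 (by linarith [pi_pos])
      have dec : ∀ η, cp η (z - y) = cp η (ζ - y) + (z.re - ζ.re) * cos η := by
        intro η
        rw [← cp_of_im η e'.symm, cp_sub, cp_sub, cp_sub]; ring
      refine ⟨θ', y, t1, t2, hy, ?_, fun _ => ?_⟩
      · rw [dec]
        have b1 := hC θ' (by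
          rcases le_total θ' 0 with h | h
          · rw [max_eq_right h]; linarith
          · rw [max_eq_left h]; linarith [pi_pos]) (by
          rcases le_total θ' 0 with h | h
          · rw [min_eq_left h]; linarith [pi_pos]
          · rw [min_eq_right h]; linarith)
        have b2 : 0 ≤ cos θ' := cos_nonneg_of_neg_pi_div_two_le_of_le (by linarith) (by linarith)
        nlinarith [mul_nonneg (sub_nonneg.mpr hk) b2]
      · rcases le_total (π / 2 - W.q) θ' with h | h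
        · exact Or.inl h
        · right
          have b1 := hC (-W.q + π / 2) (by linarith) (by linarith)
          have b2 := back W.sbq W.fbq hy t1 h
          have b3 := dec (-W.q + π / 2)
          rw [cp_sub] at b3 ⊢
          nlinarith [mul_nonneg (sub_nonneg.mpr hk) cβ]
  · refine ⟨0, W.b0, by linarith [pi_pos], by linarith [pi_pos], W.sb0, ?_, fun hq => Or.inr ?_⟩
    · have := W.re_A hx
      have := W.re_B W.sb0.1
      rw [cp_zero_left]
      simp only [Complex.sub_re, JJ_re]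
      linarith
    · obtain ⟨x', hx'⟩ := W.exA (W.q - π / 2)
      have a1 := hx'.2 x hx
      have a2 : cp (-W.q + π / 2) (JJ W.τ x') ≤ cp (-W.q + π / 2) (JJ W.τ x) := by
        rw [cp_JJ, cp_JJ, show π - (-W.q + π / 2) = W.q - π / 2 + π by ring, cp_add_pi, cp_add_pi]
        linarith
      obtain ⟨s, b1, b2⟩ := W.J_a (-W.q + π / 2) hx'.1
      have b3 : 0 ≤ cos (W.φB - (-W.q + π / 2)) :=
        cos_nonneg_of_neg_pi_div_two_le_of_le (by linarith [W.φB1])
          (by linarith [(abs_lt.1 W.φB3).2])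
      have b4 := back W.saq W.faq hx' (by linarith) (by linarith)
      rw [cp_sub] at hq ⊢
      nlinarith [mul_nonneg b1 cβ, mul_nonneg W.hμB.le b3]

end Wing

end Pool.Agent.P.MP_36f9aa_co
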