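import Pool.Agent.P.MP_36f9aa_co.Petal
import Pool.Agent.P.MP_36f9aa_co.Sep

set_option autoImplicit false

namespace Pool.Agent.P.MP_36f9aa_co

open Real

lemma sup_first {A : Set ℂ} {p δ : ℝ} {a x : ℂ} (ha : Sup A (p + δ) a) (ha' : a ∈ A)
    (hx : Sup A p x) (h0 : 0 < δ) (h1 : δ < π) (he : cp p x ≤ cp p a) :
    cp (p + π / 2) x ≤ cp (p + π / 2) a := by
  have a1 := ha.2 x hx.1
  have a2 := le_antisymm he (hx.2 a ha')
  rw [cp_rot p δ x, cp_rot p δ a, a2] at a1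
  exact le_of_mul_le_mul_left (by linarith) (sin_pos_of_pos_of_lt_pi h0 h1)

lemma sup_last {A : Set ℂ} {p δ : ℝ} {a x : ℂ} (ha : Sup A (p + -δ) a) (ha' : a ∈ A)
    (hx : Sup A p x) (h0 : 0 < δ) (h1 : δ < π) (he : cp p x ≤ cp p a) :
    cp (p + π / 2) a ≤ cp (p + π / 2) x := by
  have a1 := ha.2 x hx.1
  have a2 := le_antisymm he (hx.2 a ha')
  rw [cp_rot p (-δ) x, cp_rot p (-δ) a, a2, sin_neg] at a1
  exact le_of_mul_le_mul_left (by linarith) (sin_pos_of_pos_of_lt_pi h0 h1)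

lemma nn_fv_shift {h : ℝ} (hh : 0 < h) (ψ θ θ' : ℝ) (d : ℂ) :
    nn (ψ + chi h θ d - chi h θ' d) * fv h θ' d = nn ψ * fv h θ d := by
  rw [fv_polar hh, fv_polar hh, mul_left_comm, mul_left_comm (nn ψ), ← nn_add, ← nn_add]
  congr 2; ring

namespace Model

lemma first_a (M : Model) {k : ℤ} {p : ℝ} (h1 : M.φ k ≤ p) (h2 : p < M.φ (k + 1)) (x : ℂ)
    (hx : Sup M.A0 p x) : cp (p + π / 2) x ≤ cp (p + π / 2) (M.a k) :=
  sup_first (δ := M.φ (k + 1) - p) (M.sup_a (by linarith) (by linarith)) (M.a_mem k) hx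
    (by linarith) (by linarith [IncidAux.gap M k]) ((M.sup_a h1 h2.le).2 x hx.1)

lemma last_a (M : Model) {k : ℤ} {p : ℝ} (h1 : M.φ k < p) (h2 : p ≤ M.φ (k + 1)) (x : ℂ)
    (hx : Sup M.A0 p x) : cp (p + π / 2) (M.a k) ≤ cp (p + π / 2) x :=
  sup_last (δ := p - M.φ k) (M.sup_a (by linarith) (by linarith)) (M.a_mem k) hx
    (by linarith) (by linarith [IncidAux.gap M k]) ((M.sup_a h1.le h2).2 x hx.1)

lemma ex_sup (M : Model) (θ : ℝ) : ∃ x, Sup M.A0 θ x := by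
  obtain ⟨k, h1, h2⟩ := M.exists_idx θ
  exact ⟨_, M.sup_a h1 h2.le⟩

/-- The developed central strip. -/
structure Core (M : Model) (ψ : ℤ → ℝ) (Bh : ℤ → ℂ) (τ : ℂ) (f g k0 kq kp : ℤ) (p q : ℝ) :
    Prop where
  D : M.IsDev ψ Bh
  ψf : ψ f = M.φ f
  Bf : Bh f = M.b f
  ψg : ψ g = -M.φ g
  Ag : M.E ψ Bh 1 g = JJ τ (M.a g)
  kind : (f = k0 ∧ g = k0) ∨ (f = k0 ∧ g = k0 + 1 ∧ M.α f = 0 ∧ M.β g = 0) ∨
    (g = k0 ∧ f = k0 + 1 ∧ M.α f = 0 ∧ M.β g = 0)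
  c1 : M.φ k0 ≤ 0
  c2 : 0 ≤ M.φ (k0 + 1)
  f1 : |M.φ f| < π / 2
  g1 : |M.φ g| < π / 2
  p1 : π / 4 ≤ p
  p2 : p ≤ π / 2
  q1 : π / 4 ≤ q
  q2 : q ≤ π / 2
  kp1 : M.φ kp ≤ p
  kp2 : p < M.φ (kp + 1)
  kq1 : M.φ (kq - 1) < -q
  kq2 : -q ≤ M.φ kq
  f2 : kq ≤ f
  f3 : f ≤ kp
  g2 : kq ≤ g
  g3 : g ≤ kp

/-- Points of the central strip. -/
def SP (M : Model) (ψ : ℤ → ℝ) (Bh : ℤ → ℂ) (kq kp : ℤ) (p q θ l : ℝ) (c z : ℂ) : Prop :=
  -q ≤ θ ∧ θ ≤ p ∧ 0 ≤ l ∧ l ≤ 1 ∧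
    ((∃ k, kq ≤ k ∧ k ≤ kp ∧ θ = M.φ k ∧ (c, l) ∈ M.face (.side k) ∧ z = M.pl ψ Bh k (c, l)) ∨
     (∃ k, kq - 1 ≤ k ∧ k ≤ kp ∧ M.φ k ≤ θ ∧ θ ≤ M.φ (k + 1) ∧ c = M.C l k ∧ z = M.E ψ Bh l k))

variable {M : Model} {ψ : ℤ → ℝ} {Bh : ℤ → ℂ} {τ : ℂ} {f g k0 kq kp : ℤ} {p q : ℝ}

lemma SP.swap {θ l : ℝ} {c z : ℂ} (h : M.SP ψ Bh kq kp p q θ l c z) (τ : ℂ) :
    M.swap.SP (fun k => -ψ k) (fun k => JJ τ (M.E ψ Bh 1 k)) kq kp p q θ (1 - l) c (JJ τ z) := by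
  obtain ⟨a, b, l0, l1, h⟩ := h
  refine ⟨a, b, by linarith, by linarith, ?_⟩
  rcases h with ⟨k, k1, k2, e, hX, rfl⟩ | ⟨k, k1, k2, t1, t2, rfl, rfl⟩
  · exact Or.inl ⟨k, k1, k2, e, sw_face hX, (IsDev.swap_pl ψ Bh τ hX).symm⟩
  · exact Or.inr ⟨k, k1, k2, t1, t2, (M.swap_C l k).symm, (IsDev.swap_E ψ Bh τ l k).symm⟩

lemma E_lin (M : Model) (ψ : ℤ → ℝ) (Bh : ℤ → ℂ) (l : ℝ) (k : ℤ) :
    M.E ψ Bh l k = ((1 - l : ℝ) : ℂ) * M.E ψ Bh 0 k + (l : ℂ) * M.E ψ Bh 1 k := by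
  simp only [E]; push_cast; ring

namespace Core

variable (K : M.Core ψ Bh τ f g k0 kq kp p q)
include K

lemma swap : M.swap.Core (fun k => -ψ k) (fun k => JJ ((starRingEnd ℂ) τ) (M.E ψ Bh 1 k))
    ((starRingEnd ℂ) τ) g f k0 kq kp p q where
  D := K.D.swap _
  ψf := by change -ψ g = M.φ g; rw [K.ψg, neg_neg]
  Bf := by change JJ _ (M.E ψ Bh 1 g) = M.a g; rw [K.Ag, JJ_JJ']
  ψg := by change -ψ f = -M.φ f; rw [K.ψf]
  Ag := by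
    have := IsDev.swap_E (M := M) ψ Bh ((starRingEnd ℂ) τ) 0 f
    rw [sub_zero] at this
    rw [this, E, K.Bf]; simp [Model.swap]
  kind := by
    rcases K.kind with h | h | h
    · exact Or.inl ⟨h.2, h.1⟩
    · exact Or.inr (Or.inr ⟨h.1, h.2.1, h.2.2.2, h.2.2.1⟩)
    · exact Or.inr (Or.inl ⟨h.1, h.2.1, h.2.2.2, h.2.2.1⟩)
  c1 := K.c1
  c2 := K.c2
  f1 := K.g1
  g1 := K.f1
  p1 := K.p1
  p2 := K.p2
  q1 := K.q1
  q2 := K.q2
  kp1 := K.kp1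
  kp2 := K.kp2
  kq1 := K.kq1
  kq2 := K.kq2
  f2 := K.g2
  f3 := K.g3
  g2 := K.f2
  g3 := K.f3

lemma idx : k0 ≤ f ∧ f ≤ k0 + 1 ∧ k0 ≤ g ∧ g ≤ k0 + 1 ∧ kq - 1 ≤ k0 ∧ k0 ≤ kp := by
  have := K.f2
  have := K.f3
  rcases K.kind with h | h | h <;> omega

lemma sub_nn {k : ℤ} (h : f ≤ k) : ψ k ≤ M.φ k := by
  have := K.D.sub_mono.monotone h
  linarith [K.ψf]
lemma sub_np {k : ℤ} (h : k ≤ f) : M.φ k ≤ ψ k := by
  have := K.D.sub_mono.monotone h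
  linarith [K.ψf]
lemma add_nn {k : ℤ} (h : g ≤ k) : 0 ≤ M.φ k + ψ k := by
  have := K.D.add_mono.monotone h
  linarith [K.ψg]
lemma add_np {k : ℤ} (h : k ≤ g) : M.φ k + ψ k ≤ 0 := by
  have := K.D.add_mono.monotone h
  linarith [K.ψg]
lemma sub_pos' {k : ℤ} (h : f < k) : ψ k < M.φ k := by
  have := K.D.sub_mono h
  dsimp only at this; linarith [K.ψf]
lemma sub_neg' {k : ℤ} (h : k < f) : M.φ k < ψ k := by
  have := K.D.sub_mono h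
  dsimp only at this; linarith [K.ψf]
lemma add_pos' {k : ℤ} (h : g < k) : 0 < M.φ k + ψ k := by
  have := K.D.add_mono h
  dsimp only at this; linarith [K.ψg]
lemma add_neg' {k : ℤ} (h : k < g) : M.φ k + ψ k < 0 := by
  have := K.D.add_mono h
  dsimp only at this; linarith [K.ψg]

lemma φ_rng {k : ℤ} (h1 : kq ≤ k) (h2 : k ≤ kp) : -q ≤ M.φ k ∧ M.φ k ≤ p :=
  ⟨K.kq2.trans (M.mono.monotone h1), (M.mono.monotone h2).trans K.kp1⟩

lemma ψ_rng {k : ℤ} (h1 : kq ≤ k) (h2 : k ≤ kp) : -(π / 2) < ψ k ∧ ψ k < π / 2 := by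
  have r := K.φ_rng h1 h2
  have i := K.idx
  have := K.p2
  have := K.q2
  by_cases e : k = f
  · rw [e, K.ψf]; exact abs_lt.1 K.f1
  by_cases e' : k = g
  · rw [e', K.ψg]; constructor <;> linarith [(abs_lt.1 K.g1).1, (abs_lt.1 K.g1).2]
  rcases le_or_gt k k0 with h | h
  · constructor <;> linarith [K.sub_neg' (k := k) (by omega), K.add_neg' (k := k) (by omega), r.1]
  · constructor <;> linarith [K.sub_pos' (k := k) (by omega), K.add_pos' (k := k) (by omega), r.2]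

lemma cos_pos {k : ℤ} (h1 : kq ≤ k) (h2 : k ≤ kp) : 0 < sin (π / 2 - ψ k) := by
  rw [sin_pi_div_two_sub]; exact cos_pos_of_mem_Ioo (K.ψ_rng h1 h2)

lemma inj {k k' : ℤ} (h1 : kq ≤ k) (h2 : k ≤ kp) (h3 : kq ≤ k') (h4 : k' ≤ kp) {X Y : ℂ × ℝ}
    (hX : X ∈ M.face (.side k)) (hY : Y ∈ M.face (.side k'))
    (he : M.pl ψ Bh k X = M.pl ψ Bh k' Y) : X = Y ∧ M.Chain k k' X :=
  K.D.inj_strip (fun i j a b c d => by
    linarith [(K.ψ_rng (k := i) (by omega) (by omega)).2,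
      (K.ψ_rng (k := j) (by omega) (by omega)).1]) hX hY he

lemma E_k0 (l : ℝ) : M.E ψ Bh l k0 = M.C l k0 +
    ((l * (wd M.h (M.φ f) (M.d k0) - cp (M.φ f) (M.d k0)) : ℝ) : ℂ) * nn (M.φ f) := by
  have i := K.idx
  rcases (show f = k0 ∨ k0 = f - 1 by omega) with e | e
  · rw [← e]; exact IsDev.E_real K.ψf K.Bf l
  · rw [e]; exact K.D.E_real' K.ψf K.Bf l

lemma E0 : M.E ψ Bh 0 k0 = M.b k0 := by rw [K.E_k0, IncidAux.C_zero]; simp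

lemma E1 : M.E ψ Bh 1 k0 = JJ τ (M.a k0) := by
  have h := K.swap.E0
  have := IsDev.swap_E (M := M) ψ Bh ((starRingEnd ℂ) τ) 1 k0
  rw [sub_self, h] at this
  change M.a k0 = _ at this
  rw [this, JJ_JJ]

lemma E_e (l : ℝ) : M.E ψ Bh l k0 = ((1 - l : ℝ) : ℂ) * M.b k0 + (l : ℂ) * JJ τ (M.a k0) := by
  rw [E_lin, K.E0, K.E1]

lemma SP_face {θ l : ℝ} {c z : ℂ} (h : M.SP ψ Bh kq kp p q θ l c z) :
    ∃ k, kq ≤ k ∧ k ≤ kp ∧ (c, l) ∈ M.face (.side k) ∧ z = M.pl ψ Bh k (c, l) := by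
  obtain ⟨-, -, l0, l1, ⟨k, k1, k2, -, hX, e⟩ | ⟨k, k1, k2, -, -, hc, e⟩⟩ := h
  · exact ⟨k, k1, k2, hX, e⟩
  · have hr : (c, l) ∈ M.rul k := ⟨l0, l1, hc⟩
    have := K.f2
    have := K.f3
    rcases le_or_gt kq k with h | h
    · exact ⟨k, h, k2, (M.rul_sub k).1 hr, by rw [K.D.pl_rul hr, e]⟩
    · exact ⟨k + 1, by omega, by omega, (M.rul_sub k).2 hr, by rw [IsDev.pl_rul' _ _ hr, e]⟩

lemma face_SP {k : ℤ} (h1 : kq ≤ k) (h2 : k ≤ kp) {X : ℂ × ℝ} (hX : X ∈ M.face (.side k)) :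
    M.SP ψ Bh kq kp p q (M.φ k) X.2 X.1 (M.pl ψ Bh k X) :=
  ⟨(K.φ_rng h1 h2).1, (K.φ_rng h1 h2).2, hX.1, hX.2.1, Or.inl ⟨k, h1, h2, rfl, hX, rfl⟩⟩

lemma im_mono {l : ℝ} (l0 : 0 ≤ l) (l1 : l ≤ 1) {i j : ℤ} (h1 : kq - 1 ≤ i) (hij : i ≤ j)
    (h2 : j ≤ kp) : (M.E ψ Bh l i).im ≤ (M.E ψ Bh l j).im := by
  have := K.D.cp_E_mono l0 l1 hij (η := π / 2) fun k a b => (K.cos_pos (by omega) (by omega)).le
  rwa [cp_pi_div_two, cp_pi_div_two] at this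

lemma im_face {k : ℤ} (h1 : kq ≤ k) (h2 : k ≤ kp) {X : ℂ × ℝ} (hX : X ∈ M.face (.side k)) :
    (M.E ψ Bh X.2 (k - 1)).im ≤ (M.pl ψ Bh k X).im ∧ (M.pl ψ Bh k X).im ≤ (M.E ψ Bh X.2 k).im := by
  have := K.D.cp_pl_between hX (η := π / 2) (K.cos_pos h1 h2).le
  simpa only [cp_pi_div_two] using this

lemma disp {θ l : ℝ} {c z : ℂ} (h : M.SP ψ Bh kq kp p q θ l c z) :
    Cone (min θ 0) (max θ 0) (z - c - (M.E ψ Bh l k0 - M.C l k0)) := by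
  have i := K.idx
  have p2 := K.p2
  have q2 := K.q2
  obtain ⟨t1, t2, l0, l1, h⟩ := h
  have fw : ∀ k, k0 < k → M.φ k ≤ θ →
      Cone (min θ 0) (max θ 0) (nn (ψ k + π / 2) - nn (M.φ k + π / 2)) := fun k a b => by
    have a1 := K.sub_nn (k := k) (by omega)
    have a2 := K.add_nn (k := k) (by omega)
    exact cone_turn ((min_le_right _ _).trans (by linarith)) (le_trans (by linarith) (le_max_left _ _))
      a1 (by linarith [pi_pos])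
  have bw : ∀ k, k ≤ k0 → θ ≤ M.φ k →
      Cone (min θ 0) (max θ 0) (nn (M.φ k + π / 2) - nn (ψ k + π / 2)) := fun k a b => by
    have a1 := K.sub_np (k := k) (by omega)
    have a2 := K.add_np (k := k) (by omega)
    exact cone_turn ((min_le_left _ _).trans (by linarith))
      (le_trans (by linarith) (le_max_right _ _)) a1 (by linarith [pi_pos])
  rcases h with ⟨k, k1, k2, e, ⟨-, -, σ, s0, s1, hx⟩, rfl⟩ | ⟨k, k1, k2, e1, e2, rfl, rfl⟩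
  · dsimp only at hx s1
    rw [IsDev.pl_eq ψ Bh (X := (c, l)) hx]
    rcases le_or_gt k k0 with h | h
    · have := (K.D.disp_bwd l0 l1 h fun j a b => bw j b (e ▸ M.mono.monotone a.le)).add
        (Cone.mul (sub_nonneg.2 s1) (bw k h e.le))
      rw [K.D.E_succ l k, M.C_succ l k] at this
      convert this using 1
      rw [hx]; push_cast; ring
    · have := (K.D.disp_fwd l0 l1 (show k0 ≤ k - 1 by omega)
        fun j a b => fw j a (e ▸ M.mono.monotone (by omega))).add (Cone.mul s0 (fw k h e.ge))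
      convert this using 1
      rw [hx]; ring
  · rcases le_total k k0 with h | h
    · exact K.D.disp_bwd l0 l1 h fun j a b => bw j b (e2.trans (M.mono.monotone (by omega)))
    · exact K.D.disp_fwd l0 l1 h fun j a b => fw j a ((M.mono.monotone b).trans e1)

lemma key {θ₁ l₁ θ₂ l₂ : ℝ} {c₁ z₁ c₂ z₂ : ℂ} (h₁ : M.SP ψ Bh kq kp p q θ₁ l₁ c₁ z₁)
    (h₂ : M.SP ψ Bh kq kp p q θ₂ l₂ c₂ z₂) (he : z₁.im = z₂.im) (hl : l₁ ≤ l₂) :
    z₁.re ≤ z₂.re := by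
  obtain ⟨k, k1, k2, hX, rfl⟩ := K.SP_face h₁
  obtain ⟨k', k3, k4, hY, rfl⟩ := K.SP_face h₂
  rcases hl.eq_or_lt with e | e
  · obtain ⟨e1, e2⟩ := K.D.same_level (η := π / 2) (fun i a b => K.cos_pos (by omega) (by omega))
      hX hY e (by rw [cp_pi_div_two, cp_pi_div_two, he])
    rw [K.D.pl_chain e2, e1]
  · obtain ⟨j, j1, j2, hj⟩ := K.D.level_sep (fun i j a b c d => by
      linarith [(K.ψ_rng (k := i) (by omega) (by omega)).2,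
        (K.ψ_rng (k := j) (by omega) (by omega)).1]) hX hY e
    have := cos_pos_of_mem_Ioo (K.ψ_rng (k := j) (by omega) (by omega))
    simp only [cp, he] at hj
    exact (lt_of_mul_lt_mul_right (by linarith) this.le).le

lemma ivt_face {l y : ℝ} (l0 : 0 ≤ l) (l1 : l ≤ 1) {k : ℤ} (h1 : kq ≤ k) (h2 : k ≤ kp)
    (a : (M.E ψ Bh l (k - 1)).im ≤ y) (b : y ≤ (M.E ψ Bh l k).im) :
    ∃ c z, M.SP ψ Bh kq kp p q (M.φ k) l c z ∧ z.im = y := by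
  have c0 := K.cos_pos h1 h2
  rw [K.D.E_succ l k, ← cp_pi_div_two, cp_add, cp_mul, cp_nn_tan, cp_pi_div_two] at b
  have hX : (M.C l (k - 1) + (((y - (M.E ψ Bh l (k - 1)).im) / sin (π / 2 - ψ k) : ℝ) : ℂ) *
      nn (M.φ k + π / 2), l) ∈ M.face (.side k) :=
    ⟨l0, l1, _, div_nonneg (by linarith) c0.le, by rw [div_le_iff₀ c0]; linarith, rfl⟩
  refine ⟨_, _, K.face_SP h1 h2 hX, ?_⟩
  rw [IsDev.pl_eq ψ Bh rfl, ← cp_pi_div_two, cp_add, cp_mul, cp_nn_tan, cp_pi_div_two,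
    div_mul_cancel₀ _ c0.ne']
  ring

lemma SP_e {l : ℝ} (l0 : 0 ≤ l) (l1 : l ≤ 1) :
    M.SP ψ Bh kq kp p q 0 l (M.C l k0) (M.E ψ Bh l k0) :=
  ⟨by linarith [K.q1, pi_pos], by linarith [K.p1, pi_pos], l0, l1,
    Or.inr ⟨k0, K.idx.2.2.2.2.1, K.idx.2.2.2.2.2, K.c1, K.c2, rfl, rfl⟩⟩

lemma ivt_pos {l y : ℝ} (l0 : 0 ≤ l) (l1 : l ≤ 1) (a : (M.E ψ Bh l k0).im ≤ y) {m : ℤ}
    (hm : k0 ≤ m) : m ≤ kp → y ≤ (M.E ψ Bh l m).im →
      ∃ θ c z, 0 ≤ θ ∧ M.SP ψ Bh kq kp p q θ l c z ∧ z.im = y := by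
  have i := K.idx
  induction m, hm using Int.leInduction with
  | base => exact fun _ b => ⟨0, _, _, le_rfl, K.SP_e l0 l1, le_antisymm a b⟩
  | succ m hm ih =>
    intro h b
    rcases le_total y (M.E ψ Bh l m).im with e | e
    · exact ih (by omega) e
    · obtain ⟨c, z, h1, h2⟩ := K.ivt_face l0 l1 (k := m + 1) (by omega) h (by simpa using e) b
      exact ⟨_, c, z, K.c2.trans (M.mono.monotone (by omega)), h1, h2⟩

lemma ivt_neg {l y : ℝ} (l0 : 0 ≤ l) (l1 : l ≤ 1) (a : y ≤ (M.E ψ Bh l k0).im) {m : ℤ}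
    (hm : m ≤ k0) : kq - 1 ≤ m → (M.E ψ Bh l m).im ≤ y →
      ∃ θ c z, θ ≤ 0 ∧ M.SP ψ Bh kq kp p q θ l c z ∧ z.im = y := by
  have i := K.idx
  induction m, hm using Int.leInductionDown with
  | base => exact fun _ b => ⟨0, _, _, le_rfl, K.SP_e l0 l1, le_antisymm b a⟩
  | pred m hm ih =>
    intro h b
    rcases le_total (M.E ψ Bh l m).im y with e | e
    · exact ih (by omega) e
    · obtain ⟨c, z, h1, h2⟩ := K.ivt_face l0 l1 (k := m) (by omega) (by omega) b e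
      exact ⟨_, c, z, (M.mono.monotone hm).trans K.c1, h1, h2⟩

lemma E_p (l : ℝ) : Bh kp + (l : ℂ) * (nn (ψ kp + chi M.h (M.φ kp) (M.d kp) - chi M.h p (M.d kp)) *
    fv M.h p (M.a kp - M.b kp)) = M.E ψ Bh l kp := by
  rw [E, Rh, ← nn_fv_shift M.hh (ψ kp) (M.φ kp) p]; rfl

lemma E_q (l : ℝ) : Bh (kq - 1) + (l : ℂ) *
    (nn (ψ kq + chi M.h (M.φ kq) (M.d (kq - 1)) - chi M.h (-q) (M.d (kq - 1))) *
    fv M.h (-q) (M.a (kq - 1) - M.b (kq - 1))) = M.E ψ Bh l (kq - 1) := by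
  rw [E, K.D.Rh_pred, ← nn_fv_shift M.hh (ψ kq) (M.φ kq) (-q)]; rfl

/-- The strip as a wing. -/
noncomputable def wing : Wing where
  A := M.A0
  B := M.B0
  h := M.h
  p := p
  q := q
  τ := τ
  S := M.SP ψ Bh kq kp p q
  a0 := M.a k0
  b0 := M.b k0
  ap := M.a kp
  bp := M.b kp
  aq := M.a (kq - 1)
  bq := M.b (kq - 1)
  Bp := Bh kp
  Bq := Bh (kq - 1)
  ψp := ψ kp + chi M.h (M.φ kp) (M.d kp) - chi M.h p (M.d kp)
  ψq := ψ kq + chi M.h (M.φ kq) (M.d (kq - 1)) - chi M.h (-q) (M.d (kq - 1))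
  φA := M.φ g
  φB := M.φ f
  μA := wd M.h (M.φ g) (M.swap.d k0) - cp (M.φ g) (M.swap.d k0)
  μB := wd M.h (M.φ f) (M.d k0) - cp (M.φ f) (M.d k0)
  hh := M.hh
  p1 := K.p1
  p2 := K.p2
  q1 := K.q1
  q2 := K.q2
  exA := M.ex_sup
  exB := M.swap.ex_sup
  sa0 := M.sup_a K.c1 K.c2
  sb0 := M.sup_b K.c1 K.c2
  sap := M.sup_a K.kp1 K.kp2.le
  sbp := M.sup_b K.kp1 K.kp2.le
  saq := M.sup_a K.kq1.le (by simpa using K.kq2)
  sbq := M.sup_b K.kq1.le (by simpa using K.kq2)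
  fap := M.first_a K.kp1 K.kp2
  fbp := M.swap.first_a K.kp1 K.kp2
  faq := M.last_a K.kq1 (by simpa using K.kq2)
  fbq := M.swap.last_a K.kq1 (by rw [sub_add_cancel]; exact K.kq2)
  hμA := sub_pos.2 (lt_wd M.hh _ _)
  hμB := sub_pos.2 (lt_wd M.hh _ _)
  φA1 := (K.φ_rng K.g2 K.g3).1
  φA2 := (K.φ_rng K.g2 K.g3).2
  φA3 := K.g1
  φB1 := (K.φ_rng K.f2 K.f3).1
  φB2 := (K.φ_rng K.f2 K.f3).2
  φB3 := K.f1
  eB := by rw [← K.E1, K.E_k0, IncidAux.C_one, one_mul]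
  eA := by
    have h1 := K.swap.E1
    rw [K.swap.E_k0, IncidAux.C_one, one_mul] at h1
    exact h1.symm
  ψp1 := by
    have a1 := (sub_chi_strictMono M.hh (M.d kp)).monotone K.kp1
    have a2 := (add_chi_strictMono M.hh (M.d kp)).monotone K.kp1
    have a3 := K.sub_nn K.f3
    have a4 := K.add_nn K.g3
    rw [abs_le]; constructor <;> linarith
  ψq1 := by
    have a1 := (sub_chi_strictMono M.hh (M.d (kq - 1))).monotone K.kq2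
    have a2 := (add_chi_strictMono M.hh (M.d (kq - 1))).monotone K.kq2
    have a3 := K.sub_np K.f2
    have a4 := K.add_np K.g2
    rw [abs_le]; constructor <;> linarith
  S_mem := by
    rintro θ l c z ⟨t1, t2, l0, l1, h⟩
    refine ⟨t1, t2, l0, l1, ?_⟩
    rcases h with ⟨k, -, -, rfl, hX, -⟩ | ⟨k, -, -, e1, e2, e, -⟩
    · obtain ⟨x, y, a, b, e, -⟩ := M.face_split hX
      exact ⟨x, y, a, b, e⟩
    · exact ⟨_, _, M.sup_a e1 e2, M.sup_b e1 e2, e⟩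
  dispB := fun θ l c z h => by
    have := K.disp h
    rwa [K.E_k0, add_sub_cancel_left] at this
  dispA := fun θ l c z h => by
    have := K.swap.disp (h.swap ((starRingEnd ℂ) τ))
    rwa [K.swap.E_k0, add_sub_cancel_left] at this
  S_ex := fun θ l t1 t2 l0 l1 => by
    obtain ⟨k, h1, h2⟩ := M.exists_idx θ
    have a : kq - 1 < k + 1 := M.mono.lt_iff_lt.1 (by linarith [K.kq1])
    have b : k < kp + 1 := M.mono.lt_iff_lt.1 (by linarith [K.kp2])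
    exact ⟨_, _, t1, t2, l0, l1, Or.inr ⟨k, by omega, by omega, h1, h2.le, rfl, rfl⟩⟩
  S_e := fun l l0 l1 => by rw [← K.E_e]; exact K.SP_e l0 l1
  S_p := fun l l0 l1 => by
    rw [K.E_p]
    exact ⟨by linarith [K.q1, K.p1, pi_pos], le_rfl, l0, l1,
      Or.inr ⟨kp, by linarith [K.f2, K.f3], le_rfl, K.kp1, K.kp2.le, rfl, rfl⟩⟩
  S_q := fun l l0 l1 => by
    rw [K.E_q]
    exact ⟨le_rfl, by linarith [K.q1, K.p1, pi_pos], l0, l1,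
      Or.inr ⟨kq - 1, le_rfl, by linarith [K.f2, K.f3], K.kq1.le, by simpa using K.kq2, rfl, rfl⟩⟩
  top := fun θ l c z h => by
    obtain ⟨k, k1, k2, hX, rfl⟩ := K.SP_face h
    rw [K.E_p]
    exact (K.im_face k1 k2 hX).2.trans (K.im_mono hX.1 hX.2.1 (by omega) k2 le_rfl)
  bot := fun θ l c z h => by
    obtain ⟨k, k1, k2, hX, rfl⟩ := K.SP_face h
    rw [K.E_q]
    exact (K.im_mono hX.1 hX.2.1 le_rfl (by omega) (by omega)).trans (K.im_face k1 k2 hX).1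
  mid_pos := by
    rintro θ l c z ⟨t1, t2, l0, l1, h⟩ hθ
    have i := K.idx
    rw [← K.E_e]
    rcases h with ⟨k, k1, k2, rfl, hX, rfl⟩ | ⟨k, k1, k2, e1, e2, -, rfl⟩
    · have : k0 < k := M.mono.lt_iff_lt.1 (by linarith [K.c1])
      exact (K.im_mono l0 l1 (by omega) (by omega) (by omega)).trans (K.im_face k1 k2 hX).1
    · have : k0 < k + 1 := M.mono.lt_iff_lt.1 (by linarith [K.c1])
      exact K.im_mono l0 l1 (by omega) (by omega) k2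
  mid_neg := by
    rintro θ l c z ⟨t1, t2, l0, l1, h⟩ hθ
    have i := K.idx
    rw [← K.E_e]
    rcases h with ⟨k, k1, k2, rfl, hX, rfl⟩ | ⟨k, k1, k2, e1, e2, -, rfl⟩
    · have : k < k0 + 1 := M.mono.lt_iff_lt.1 (by linarith [K.c2])
      exact (K.im_face k1 k2 hX).2.trans (K.im_mono l0 l1 (by omega) (by omega) (by omega))
    · have : k < k0 + 1 := M.mono.lt_iff_lt.1 (by linarith [K.c2])
      exact K.im_mono l0 l1 k1 (by omega) (by omega)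
  key := fun _ _ _ _ _ _ _ _ h₁ h₂ he hl => K.key h₁ h₂ he hl
  ivt_pos := fun l y l0 l1 a b => by
    rw [← K.E_e] at a
    rw [K.E_p] at b
    exact K.ivt_pos l0 l1 a K.idx.2.2.2.2.2 le_rfl b
  ivt_neg := fun l y l0 l1 a b => by
    rw [← K.E_e] at a
    rw [K.E_q] at b
    exact K.ivt_neg l0 l1 a K.idx.2.2.2.2.1 le_rfl b

end Core

end Model

end Pool.Agent.P.MP_36f9aa_co
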