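import Pool.Agent.P.MP_36f9aa_co.Basic

set_option autoImplicit false

namespace Pool.Agent.P.MP_36f9aa_co

open Real

/-- Index-free description of the developed central strip. `S θ l c z` means that a point of the
strip with normal direction `θ`, level `l` and projection `c` is developed to `z`. The bottom
polygon `B` is placed by the identity and the top polygon `A` by the mirror `JJ τ`. -/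
structure Wing where
  A : Set ℂ
  B : Set ℂ
  h : ℝ
  p : ℝ
  q : ℝ
  τ : ℂ
  S : ℝ → ℝ → ℂ → ℂ → Prop
  a0 : ℂ
  b0 : ℂ
  ap : ℂ
  bp : ℂ
  aq : ℂ
  bq : ℂ
  Bp : ℂ
  Bq : ℂ
  ψp : ℝ
  ψq : ℝ
  φA : ℝ
  φB : ℝ
  μA : ℝ
  μB : ℝ
  hh : 0 < h
  p1 : π / 4 ≤ p
  p2 : p ≤ π / 2
  q1 : π / 4 ≤ q
  q2 : q ≤ π / 2
  exA : ∀ θ, ∃ x, Sup A θ x
  exB : ∀ θ, ∃ y, Sup B θ y
  sa0 : Sup A 0 a0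
  sb0 : Sup B 0 b0
  sap : Sup A p ap
  sbp : Sup B p bp
  saq : Sup A (-q) aq
  sbq : Sup B (-q) bq
  fap : ∀ x, Sup A p x → cp (p + π / 2) x ≤ cp (p + π / 2) ap
  fbp : ∀ y, Sup B p y → cp (p + π / 2) y ≤ cp (p + π / 2) bp
  faq : ∀ x, Sup A (-q) x → cp (-q + π / 2) aq ≤ cp (-q + π / 2) x
  fbq : ∀ y, Sup B (-q) y → cp (-q + π / 2) bq ≤ cp (-q + π / 2) y
  hμA : 0 < μA
  hμB : 0 < μB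
  φA1 : -q ≤ φA
  φA2 : φA ≤ p
  φA3 : |φA| < π / 2
  φB1 : -q ≤ φB
  φB2 : φB ≤ p
  φB3 : |φB| < π / 2
  eB : JJ τ a0 = a0 + (μB : ℂ) * nn φB
  eA : JJ ((starRingEnd ℂ) τ) b0 = b0 + (μA : ℂ) * nn φA
  ψp1 : |ψp| ≤ p
  ψq1 : |ψq| ≤ q
  S_mem : ∀ θ l c z, S θ l c z → -q ≤ θ ∧ θ ≤ p ∧ 0 ≤ l ∧ l ≤ 1 ∧
    ∃ x y, Sup A θ x ∧ Sup B θ y ∧ c = ((1 - l : ℝ) : ℂ) * y + (l : ℂ) * x
  dispB : ∀ θ l c z, S θ l c z →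
    Cone (min θ 0) (max θ 0) (z - c - ((l * μB : ℝ) : ℂ) * nn φB)
  dispA : ∀ θ l c z, S θ l c z →
    Cone (min θ 0) (max θ 0) (JJ ((starRingEnd ℂ) τ) z - c - (((1 - l) * μA : ℝ) : ℂ) * nn φA)
  S_ex : ∀ θ l, -q ≤ θ → θ ≤ p → 0 ≤ l → l ≤ 1 → ∃ c z, S θ l c z
  S_e : ∀ l, 0 ≤ l → l ≤ 1 → S 0 l (((1 - l : ℝ) : ℂ) * b0 + (l : ℂ) * a0)
    (((1 - l : ℝ) : ℂ) * b0 + (l : ℂ) * JJ τ a0)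
  S_p : ∀ l, 0 ≤ l → l ≤ 1 → S p l (((1 - l : ℝ) : ℂ) * bp + (l : ℂ) * ap)
    (Bp + (l : ℂ) * (nn ψp * fv h p (ap - bp)))
  S_q : ∀ l, 0 ≤ l → l ≤ 1 → S (-q) l (((1 - l : ℝ) : ℂ) * bq + (l : ℂ) * aq)
    (Bq + (l : ℂ) * (nn ψq * fv h (-q) (aq - bq)))
  top : ∀ θ l c z, S θ l c z → z.im ≤ (Bp + (l : ℂ) * (nn ψp * fv h p (ap - bp))).im
  bot : ∀ θ l c z, S θ l c z → (Bq + (l : ℂ) * (nn ψq * fv h (-q) (aq - bq))).im ≤ z.im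
  mid_pos : ∀ θ l c z, S θ l c z → 0 < θ →
    (((1 - l : ℝ) : ℂ) * b0 + (l : ℂ) * JJ τ a0).im ≤ z.im
  mid_neg : ∀ θ l c z, S θ l c z → θ < 0 →
    z.im ≤ (((1 - l : ℝ) : ℂ) * b0 + (l : ℂ) * JJ τ a0).im
  key : ∀ θ₁ l₁ c₁ z₁ θ₂ l₂ c₂ z₂, S θ₁ l₁ c₁ z₁ → S θ₂ l₂ c₂ z₂ → z₁.im = z₂.im → l₁ ≤ l₂ →
    z₁.re ≤ z₂.re
  ivt_pos : ∀ l y, 0 ≤ l → l ≤ 1 → (((1 - l : ℝ) : ℂ) * b0 + (l : ℂ) * JJ τ a0).im ≤ y →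
    y ≤ (Bp + (l : ℂ) * (nn ψp * fv h p (ap - bp))).im → ∃ θ c z, 0 ≤ θ ∧ S θ l c z ∧ z.im = y
  ivt_neg : ∀ l y, 0 ≤ l → l ≤ 1 → y ≤ (((1 - l : ℝ) : ℂ) * b0 + (l : ℂ) * JJ τ a0).im →
    (Bq + (l : ℂ) * (nn ψq * fv h (-q) (aq - bq))).im ≤ y → ∃ θ c z, θ ≤ 0 ∧ S θ l c z ∧ z.im = y

end Pool.Agent.P.MP_36f9aa_co
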